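import Pool.Agent.Work.GEM.Interface

/-!
# MP_75c89d_nt, block ALG (helper10): the ring `R[X]/(G)`
-/

set_option autoImplicit false

open Polynomial

namespace Pool.Agent.Work.GEM

namespace ALGAux

section

variable {R : Type} [CommRing R]

theorem mod_congr {G a b : R[X]} (hG : G.Monic) (h : G ∣ a - b) : a %ₘ G = b %ₘ G :=
  Polynomial.modByMonic_eq_of_dvd_sub hG h

theorem mod_add (G a b : R[X]) : (a + b) %ₘ G = a %ₘ G + b %ₘ G :=
  Polynomial.add_modByMonic a b

theorem mod_C_mul (G a : R[X]) (c : R) : (C c * a) %ₘ G = C c * (a %ₘ G) := by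
  rw [← smul_eq_C_mul, ← smul_eq_C_mul, Polynomial.smul_modByMonic]

theorem mod_mul_mod {G : R[X]} (hG : G.Monic) (a b : R[X]) :
    (a * (b %ₘ G)) %ₘ G = (a * b) %ₘ G := by
  apply mod_congr hG
  refine ⟨-(a * (b /ₘ G)), ?_⟩
  have h := Polynomial.modByMonic_add_div b G
  linear_combination a * h

theorem rem_sum {G : R[X]} (hG : G.Monic) {d : ℕ} (hd : G.natDegree = d) (b : R[X]) :
    b %ₘ G = ∑ k : Fin d, C ((b %ₘ G).coeff k) * X ^ (k : ℕ) := by
  rcases subsingleton_or_nontrivial R with hR | hR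
  · exact Subsingleton.elim _ _
  · ext n
    rw [finsetSum_coeff]
    simp only [coeff_C_mul_X_pow]
    by_cases hn : n < d
    · rw [Finset.sum_eq_single (⟨n, hn⟩ : Fin d)]
      · simp
      · intro k _ hk
        rw [if_neg]
        rintro rfl
        exact hk rfl
      · intro h
        exact absurd (Finset.mem_univ _) h
    · rw [Finset.sum_eq_zero]
      · apply Polynomial.coeff_eq_zero_of_degree_lt
        refine lt_of_lt_of_le (Polynomial.degree_modByMonic_lt b hG) ?_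
        rw [Polynomial.degree_eq_natDegree hG.ne_zero, hd]
        exact_mod_cast not_lt.1 hn
      · intro k _
        rw [if_neg]
        rintro rfl
        exact hn k.2

theorem key {G : R[X]} (hG : G.Monic) {d : ℕ} (hd : G.natDegree = d) (a b : R[X]) :
    (a * b) %ₘ G = ∑ k : Fin d, C ((b %ₘ G).coeff k) * ((a * X ^ (k : ℕ)) %ₘ G) := by
  rw [← mod_mul_mod hG a b]
  conv_lhs => rw [rem_sum hG hd b]
  rw [Finset.mul_sum]
  have h : ∀ s : Finset (Fin d), (∑ k ∈ s, a * (C ((b %ₘ G).coeff k) * X ^ (k : ℕ))) %ₘ G =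
      ∑ k ∈ s, C ((b %ₘ G).coeff k) * ((a * X ^ (k : ℕ)) %ₘ G) := by
    classical
    intro s
    induction s using Finset.induction_on with
    | empty => simp
    | insert k s hk ih =>
      rw [Finset.sum_insert hk, Finset.sum_insert hk, mod_add, ih, ← mod_C_mul]
      congr 2
      ring
  exact h _

theorem M_mul (d : ℕ) (G a b : R[X]) (hG : G.Monic) (hd : G.natDegree = d) :
    Mmat d G (a * b) = Mmat d G a * Mmat d G b := by
  ext i j
  rw [Matrix.mul_apply]
  show ((a * b * X ^ (j : ℕ)) %ₘ G).coeff i = _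
  rw [mul_assoc, key hG hd, finsetSum_coeff]
  refine Finset.sum_congr rfl fun k _ => ?_
  rw [coeff_C_mul, mul_comm]
  rfl

theorem M_one (d : ℕ) (G : R[X]) (hG : G.Monic) (hd : G.natDegree = d) : Mmat d G 1 = 1 := by
  rcases subsingleton_or_nontrivial R with hR | hR
  · exact Subsingleton.elim _ _
  · ext i j
    have h1 : (1 * X ^ (j : ℕ) : R[X]) %ₘ G = X ^ (j : ℕ) := by
      rw [one_mul, Polynomial.modByMonic_eq_self_iff hG, Polynomial.degree_X_pow,
        Polynomial.degree_eq_natDegree hG.ne_zero, hd]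
      exact_mod_cast j.2
    show ((1 * X ^ (j : ℕ) : R[X]) %ₘ G).coeff i = _
    rw [h1, coeff_X_pow, Matrix.one_apply]
    by_cases h : i = j
    · rw [if_pos (by rw [h]), if_pos h]
    · rw [if_neg (fun h' => h (Fin.ext h')), if_neg h]

theorem M_add (d : ℕ) (G a b : R[X]) : Mmat d G (a + b) = Mmat d G a + Mmat d G b := by
  ext i j
  show (((a + b) * X ^ (j : ℕ)) %ₘ G).coeff i = ((a * X ^ (j : ℕ)) %ₘ G).coeff i +
    ((b * X ^ (j : ℕ)) %ₘ G).coeff i
  rw [add_mul, mod_add, coeff_add]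

theorem M_C (d : ℕ) (G a : R[X]) (c : R) : Mmat d G (C c * a) = c • Mmat d G a := by
  ext i j
  show ((C c * a * X ^ (j : ℕ)) %ₘ G).coeff i = c * ((a * X ^ (j : ℕ)) %ₘ G).coeff i
  rw [mul_assoc, mod_C_mul, coeff_C_mul]

theorem M_congr (d : ℕ) (G a b : R[X]) (hG : G.Monic) (h : G ∣ a - b) :
    Mmat d G a = Mmat d G b := by
  ext i j
  show ((a * X ^ (j : ℕ)) %ₘ G).coeff i = ((b * X ^ (j : ℕ)) %ₘ G).coeff i
  rw [mod_congr hG (a := a * X ^ (j : ℕ)) (b := b * X ^ (j : ℕ))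
    (by rw [← sub_mul]; exact h.mul_right _)]

theorem M_map {S : Type} [CommRing S] (f : R →+* S) (d : ℕ) (G a : R[X]) (hG : G.Monic) :
    (Mmat d G a).map f = Mmat d (G.map f) (a.map f) := by
  ext i j
  show f (((a * X ^ (j : ℕ)) %ₘ G).coeff i) = ((a.map f * X ^ (j : ℕ)) %ₘ G.map f).coeff i
  rw [← coeff_map, Polynomial.map_modByMonic f hG, Polynomial.map_mul, Polynomial.map_pow,
    Polynomial.map_X]

theorem B_add (d : ℕ) (G a b : R[X]) : Bmat d G (a + b) = Bmat d G a + Bmat d G b := by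
  ext i j
  show (((a + b) * X ^ ((i : ℕ) + (j : ℕ))) %ₘ G).coeff (d - 1) =
    ((a * X ^ ((i : ℕ) + (j : ℕ))) %ₘ G).coeff (d - 1) +
    ((b * X ^ ((i : ℕ) + (j : ℕ))) %ₘ G).coeff (d - 1)
  rw [add_mul, mod_add, coeff_add]

theorem B_C (d : ℕ) (G a : R[X]) (c : R) : Bmat d G (C c * a) = c • Bmat d G a := by
  ext i j
  show ((C c * a * X ^ ((i : ℕ) + (j : ℕ))) %ₘ G).coeff (d - 1) =
    c * ((a * X ^ ((i : ℕ) + (j : ℕ))) %ₘ G).coeff (d - 1)
  rw [mul_assoc, mod_C_mul, coeff_C_mul]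

theorem B_congr (d : ℕ) (G a b : R[X]) (hG : G.Monic) (h : G ∣ a - b) :
    Bmat d G a = Bmat d G b := by
  ext i j
  show ((a * X ^ ((i : ℕ) + (j : ℕ))) %ₘ G).coeff (d - 1) =
    ((b * X ^ ((i : ℕ) + (j : ℕ))) %ₘ G).coeff (d - 1)
  rw [mod_congr hG (a := a * X ^ ((i : ℕ) + (j : ℕ))) (b := b * X ^ ((i : ℕ) + (j : ℕ)))
    (by rw [← sub_mul]; exact h.mul_right _)]

theorem B_map {S : Type} [CommRing S] (f : R →+* S) (d : ℕ) (G a : R[X]) (hG : G.Monic) :
    (Bmat d G a).map f = Bmat d (G.map f) (a.map f) := by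
  ext i j
  show f (((a * X ^ ((i : ℕ) + (j : ℕ))) %ₘ G).coeff (d - 1)) =
    ((a.map f * X ^ ((i : ℕ) + (j : ℕ))) %ₘ G.map f).coeff (d - 1)
  rw [← coeff_map, Polynomial.map_modByMonic f hG, Polynomial.map_mul, Polynomial.map_pow,
    Polynomial.map_X]

theorem B_symm (d : ℕ) (G a : R[X]) : (Bmat d G a).IsSymm := by
  ext i j
  show ((a * X ^ ((j : ℕ) + (i : ℕ))) %ₘ G).coeff (d - 1) =
    ((a * X ^ ((i : ℕ) + (j : ℕ))) %ₘ G).coeff (d - 1)
  rw [add_comm]

theorem B_mul (d : ℕ) (G a b : R[X]) (hG : G.Monic) (hd : G.natDegree = d) :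
    Bmat d G (a * b) = Bmat d G a * Mmat d G b := by
  ext i j
  rw [Matrix.mul_apply]
  show ((a * b * X ^ ((i : ℕ) + (j : ℕ))) %ₘ G).coeff (d - 1) = _
  have h : a * b * X ^ ((i : ℕ) + (j : ℕ)) = (a * X ^ (i : ℕ)) * (b * X ^ (j : ℕ)) := by
    rw [pow_add]
    ring
  rw [h, key hG hd, finsetSum_coeff]
  refine Finset.sum_congr rfl fun k _ => ?_
  rw [coeff_C_mul, mul_comm]
  have h2 : a * X ^ (i : ℕ) * X ^ (k : ℕ) = a * X ^ ((i : ℕ) + (k : ℕ)) := by
    rw [pow_add, mul_assoc]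
  rw [h2]
  rfl

theorem B_tw (d : ℕ) (G a b : R[X]) (hG : G.Monic) (hd : G.natDegree = d) :
    Bmat d G (a * b ^ 2) = (Mmat d G b).transpose * Bmat d G a * Mmat d G b := by
  have h1 : a * b ^ 2 = a * b * b := by ring
  have h2 : Bmat d G (a * b) = (Mmat d G b).transpose * Bmat d G a := by
    have h3 := B_symm d G (a * b)
    have h4 := B_symm d G a
    rw [Matrix.IsSymm] at h3 h4
    rw [← h3, B_mul d G a b hG hd, Matrix.transpose_mul, h4]
  rw [h1, B_mul d G (a * b) b hG hd, h2]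

end

theorem B_det1 (d : ℕ) (G : ℤ[X]) (hG : G.Monic) (hd : G.natDegree = d) (hd1 : 1 ≤ d) :
    (Bmat d G 1).det = 1 ∨ (Bmat d G 1).det = -1 := by
  have hlow : ∀ n : ℕ, n < d → (((1 : ℤ[X]) * X ^ n) %ₘ G).coeff (d - 1) =
      if n = d - 1 then 1 else 0 := by
    intro n hn
    have h1 : ((1 : ℤ[X]) * X ^ n) %ₘ G = X ^ n := by
      rw [one_mul, Polynomial.modByMonic_eq_self_iff hG, Polynomial.degree_X_pow,
        Polynomial.degree_eq_natDegree hG.ne_zero, hd]
      exact_mod_cast hn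
    rw [h1, coeff_X_pow]
    by_cases h : n = d - 1
    · rw [if_pos h.symm, if_pos h]
    · rw [if_neg (fun h' => h h'.symm), if_neg h]
  set N : Matrix (Fin d) (Fin d) ℤ := (Bmat d G 1).submatrix id Fin.revPerm with hN
  have hent : ∀ i j : Fin d, N i j =
      (((1 : ℤ[X]) * X ^ ((i : ℕ) + (d - 1 - (j : ℕ)))) %ₘ G).coeff (d - 1) := by
    intro i j
    have h1 : ((Fin.revPerm j : Fin d) : ℕ) = d - 1 - (j : ℕ) := by
      rw [Fin.revPerm_apply, Fin.val_rev]
      omega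
    show (((1 : ℤ[X]) * X ^ ((i : ℕ) + ((Fin.revPerm j : Fin d) : ℕ))) %ₘ G).coeff (d - 1) = _
    rw [h1]
  have hdetN : N.det = 1 := by
    rw [Matrix.det_of_isLowerTriangular]
    · apply Finset.prod_eq_one
      intro i _
      rw [hent, hlow _ (by omega), if_pos (by omega)]
    · intro i j hij
      have hij' : (i : ℕ) < (j : ℕ) := by
        have : i < j := hij
        exact this
      rw [hent, hlow _ (by omega), if_neg (by omega)]
  rw [hN, Matrix.det_permute'] at hdetN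
  rcases Int.units_eq_one_or (Equiv.Perm.sign (Fin.revPerm : Equiv.Perm (Fin d))) with h | h
  · rw [h] at hdetN
    left
    simpa using hdetN
  · rw [h] at hdetN
    right
    have h2 : -((Bmat d G 1).det) = 1 := by simpa using hdetN
    linarith

theorem N_congr (d : ℕ) (G a b w : ℤ[X]) (n : ℤ) (h : a = b + C n * w) :
    Nrm d G a ≡ Nrm d G b [ZMOD n] := by
  have h1 : Mmat d G a = Mmat d G b + n • Mmat d G w := by
    rw [h, M_add, M_C]
  have h2 : (Ideal.Quotient.mk (Ideal.span {n})) (Nrm d G a) =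
      (Ideal.Quotient.mk (Ideal.span {n})) (Nrm d G b) := by
    rw [Nrm, Nrm, RingHom.map_det, RingHom.map_det, h1]
    congr 1
    ext i j
    simp only [RingHom.mapMatrix_apply, Matrix.map_apply, Matrix.add_apply, Matrix.smul_apply,
      smul_eq_mul, map_add, map_mul]
    have h3 : (Ideal.Quotient.mk (Ideal.span {n})) n = 0 :=
      Ideal.Quotient.eq_zero_iff_mem.2 (Ideal.mem_span_singleton_self n)
    rw [h3, zero_mul, add_zero]
  rw [Ideal.Quotient.eq, Ideal.mem_span_singleton] at h2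
  rw [Int.modEq_comm, Int.modEq_iff_dvd]
  exact h2

end ALGAux

/-- block ALG -/
theorem stmt_ALG : Stmt_ALG where
  M_mul := fun R _ d G a b hG hd => ALGAux.M_mul d G a b hG hd
  M_one := fun R _ d G hG hd => ALGAux.M_one d G hG hd
  M_add := fun R _ d G a b _ => ALGAux.M_add d G a b
  M_C := fun R _ d G a c _ => ALGAux.M_C d G a c
  M_congr := fun R _ d G a b hG h => ALGAux.M_congr d G a b hG h
  M_map := fun R S _ _ f d G a hG => ALGAux.M_map f d G a hG
  B_add := fun R _ d G a b _ => ALGAux.B_add d G a b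
  B_C := fun R _ d G a c _ => ALGAux.B_C d G a c
  B_congr := fun R _ d G a b hG h => ALGAux.B_congr d G a b hG h
  B_map := fun R S _ _ f d G a hG => ALGAux.B_map f d G a hG
  B_symm := fun R _ d G a => ALGAux.B_symm d G a
  B_mul := fun R _ d G a b hG hd => ALGAux.B_mul d G a b hG hd
  B_tw := fun R _ d G a b hG hd => ALGAux.B_tw d G a b hG hd
  B_det1 := ALGAux.B_det1
  B_det := by
    intro d G a hG hd
    have h := ALGAux.B_mul d G 1 a hG hd
    rw [one_mul] at h
    rw [h, Matrix.det_mul]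
    rfl
  N_mul := by
    intro R _ d G a b hG hd
    rw [Nrm, Nrm, Nrm, ALGAux.M_mul d G a b hG hd, Matrix.det_mul]
  N_one := by
    intro R _ d G hG hd
    rw [Nrm, ALGAux.M_one d G hG hd, Matrix.det_one]
  N_C := by
    intro R _ d G a c _
    rw [Nrm, Nrm, ALGAux.M_C, Matrix.det_smul, Fintype.card_fin]
  N_congr := fun d G a b w n _ h => ALGAux.N_congr d G a b w n h

end Pool.Agent.Work.GEM
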