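import Pool.Agent.Work.GEM.Interface

/-!
# MP_75c89d_nt, block BAD (helper30)

Few polynomials in a box have a norm with a prime factor not `1 mod m`.
-/

set_option autoImplicit false

open Polynomial

namespace Pool.Agent.Work.GEM

namespace BADAux

lemma pol_coeff {d : ℕ} (l : Fin d → ℕ) (i : ℕ) :
    (pol l).coeff i = if h : i < d then (l ⟨i, h⟩ : ℤ) else 0 := by
  unfold pol
  rw [Polynomial.finsetSum_coeff]
  simp only [Polynomial.coeff_C_mul_X_pow]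
  by_cases h : i < d
  · rw [dif_pos h, Finset.sum_eq_single ⟨i, h⟩]
    · simp
    · intro j _ hj
      rw [if_neg]
      intro h2
      exact hj (Fin.ext h2.symm)
    · intro h2
      exact absurd (Finset.mem_univ _) h2
  · rw [dif_neg h]
    apply Finset.sum_eq_zero
    intro j _
    rw [if_neg]
    intro h2
    exact h (h2 ▸ j.2)

lemma pol_coeff_bd {d Y : ℕ} {l : Fin d → ℕ} (hl : l ∈ Bx d Y) (i : ℕ) :
    0 ≤ (pol l).coeff i ∧ (pol l).coeff i ≤ (Y : ℤ) := by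
  rw [pol_coeff]
  by_cases h : i < d
  · rw [dif_pos h]
    have h2 : l ⟨i, h⟩ < Y := Finset.mem_range.1 (Fintype.mem_piFinset.1 hl ⟨i, h⟩)
    constructor
    · positivity
    · exact_mod_cast h2.le
  · rw [dif_neg h]
    constructor
    · exact le_refl _
    · positivity

lemma natDegree_lt {d : ℕ} (hd : 0 < d) (l : Fin d → ℕ) (u W : ℤ) :
    (C u + C W * pol l).natDegree < d := by
  have h1 : (pol l).degree < d := Polynomial.degree_sum_fin_lt (fun i => (l i : ℤ))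
  have h2 : (C u + C W * pol l).degree < d := by
    apply lt_of_le_of_lt (Polynomial.degree_add_le _ _)
    apply max_lt
    · apply lt_of_le_of_lt Polynomial.degree_C_le
      exact_mod_cast hd
    · calc (C W * pol l).degree ≤ (C W : ℤ[X]).degree + (pol l).degree :=
            Polynomial.degree_mul_le _ _
        _ ≤ 0 + (pol l).degree := by gcongr; exact Polynomial.degree_C_le
        _ = (pol l).degree := zero_add _
        _ < d := h1
  rcases eq_or_ne (C u + C W * pol l) 0 with h | h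
  · rw [h]; simpa using hd
  · exact (Polynomial.natDegree_lt_iff_degree_lt h).2 h2

lemma coeff_bd {d Y : ℕ} {l : Fin d → ℕ} (hl : l ∈ Bx d Y) (u : ℤ) (W : ℕ) (i : ℕ) :
    |(C u + C (W : ℤ) * pol l).coeff i| ≤ ((u.natAbs + W * Y : ℕ) : ℤ) := by
  rw [Polynomial.coeff_add, Polynomial.coeff_C_mul]
  obtain ⟨h1, h2⟩ := pol_coeff_bd hl i
  have h3 : |(C u : ℤ[X]).coeff i| ≤ |u| := by
    rw [Polynomial.coeff_C]
    split_ifs
    · exact le_refl _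
    · simp
  have h4 : |(W : ℤ) * (pol l).coeff i| ≤ W * Y := by
    rw [abs_of_nonneg (by positivity)]
    exact mul_le_mul_of_nonneg_left h2 (by positivity)
  push_cast
  exact (abs_add_le _ _).trans (add_le_add h3 h4)

/-- the analytic part -/
lemma count_le (K K1 c e Q0 Y B d : ℕ) (hd : d = 2 * e) (he : 1 ≤ e) (hK1 : 1 ≤ K1) (hQ0 : 2 * K * K1 + 2 ≤ Q0)
    (hY : 1 + 2 * K * K1 * c ^ e ≤ Y) (hB : B ≤ c * Y) (N : ℕ → ℕ)
    (hN : ∀ q, Q0 < q → N q * q ^ 2 ≤ K1 * (Y ^ d + q ^ 2)) :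
    K * ∑ q ∈ Finset.Ioc Q0 (B ^ e), N q ≤ Y ^ d := by
  have hQ1 : (0 : ℝ) < Q0 := by
    have : 0 < Q0 := by omega
    exact_mod_cast this
  have h1 : ∀ q ∈ Finset.Ioc Q0 (B ^ e), (N q : ℝ) ≤ K1 * ((Y : ℝ) ^ d * ((q : ℝ) ^ 2)⁻¹ + 1) := by
    intro q hq
    rw [Finset.mem_Ioc] at hq
    have hq0 : (0 : ℝ) < q := by
      have : 0 < q := by omega
      exact_mod_cast this
    have h2 : (N q : ℝ) * (q : ℝ) ^ 2 ≤ K1 * ((Y : ℝ) ^ d + (q : ℝ) ^ 2) := by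
      exact_mod_cast hN q hq.1
    have h3 : (K1 : ℝ) * ((Y : ℝ) ^ d * ((q : ℝ) ^ 2)⁻¹ + 1) =
        K1 * ((Y : ℝ) ^ d + (q : ℝ) ^ 2) / (q : ℝ) ^ 2 := by
      field_simp
    rw [h3, le_div_iff₀ (by positivity)]
    exact h2
  have h2 : (∑ q ∈ Finset.Ioc Q0 (B ^ e), (N q : ℝ)) ≤
      K1 * ((Y : ℝ) ^ d * (Q0 : ℝ)⁻¹ + (B : ℝ) ^ e) := by
    refine (Finset.sum_le_sum h1).trans ?_
    rw [← Finset.mul_sum, Finset.sum_add_distrib, ← Finset.mul_sum]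
    have h3 : ∑ q ∈ Finset.Ioc Q0 (B ^ e), ((q : ℝ) ^ 2)⁻¹ ≤ (Q0 : ℝ)⁻¹ := by
      rcases le_total Q0 (B ^ e) with h | h
      · refine (sum_Ioc_inv_sq_le_sub (by omega) h).trans ?_
        have : (0 : ℝ) ≤ ((B ^ e : ℕ) : ℝ)⁻¹ := by positivity
        linarith
      · rw [Finset.Ioc_eq_empty_of_le h, Finset.sum_empty]
        positivity
    have h4 : ∑ q ∈ Finset.Ioc Q0 (B ^ e), (1 : ℝ) ≤ (B : ℝ) ^ e := by
      rw [Finset.sum_const, Nat.card_Ioc, nsmul_eq_mul, mul_one]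
      have : ((B ^ e - Q0 : ℕ) : ℝ) ≤ ((B ^ e : ℕ) : ℝ) := by
        exact_mod_cast Nat.sub_le _ _
      refine this.trans ?_
      push_cast
      exact le_refl _
    gcongr
  have h5 : (K : ℝ) * (∑ q ∈ Finset.Ioc Q0 (B ^ e), (N q : ℝ)) ≤ (Y : ℝ) ^ d := by
    have hKK : (2 : ℝ) * K * K1 ≤ Q0 := by
      have : 2 * K * K1 ≤ Q0 := by omega
      exact_mod_cast this
    have h6 : (K : ℝ) * (K1 * ((Y : ℝ) ^ d * (Q0 : ℝ)⁻¹)) ≤ (Y : ℝ) ^ d / 2 := by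
      have h7 : (K : ℝ) * K1 * (Q0 : ℝ)⁻¹ ≤ 1 / 2 := by
        rw [← div_eq_mul_inv, div_le_iff₀ hQ1]
        linarith
      calc (K : ℝ) * (K1 * ((Y : ℝ) ^ d * (Q0 : ℝ)⁻¹)) = (Y : ℝ) ^ d * (K * K1 * (Q0 : ℝ)⁻¹) := by ring
        _ ≤ (Y : ℝ) ^ d * (1 / 2) := by gcongr
        _ = (Y : ℝ) ^ d / 2 := by ring
    have h8 : (K : ℝ) * (K1 * (B : ℝ) ^ e) ≤ (Y : ℝ) ^ d / 2 := by
      have h9 : 2 * K * K1 * B ^ e ≤ Y ^ d := by
        calc 2 * K * K1 * B ^ e ≤ 2 * K * K1 * (c * Y) ^ e := by gcongr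
          _ = (2 * K * K1 * c ^ e) * Y ^ e := by rw [mul_pow]; ring
          _ ≤ Y * Y ^ e := by
              apply Nat.mul_le_mul_right
              omega
          _ ≤ Y ^ e * Y ^ e := by
              apply Nat.mul_le_mul_right
              calc Y = Y ^ 1 := (pow_one _).symm
                _ ≤ Y ^ e := Nat.pow_le_pow_right (by omega) he
          _ = Y ^ d := by rw [hd, ← pow_add]; congr 1; ring
      have h10 : (2 : ℝ) * K * K1 * (B : ℝ) ^ e ≤ (Y : ℝ) ^ d := by exact_mod_cast h9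
      linarith
    calc (K : ℝ) * (∑ q ∈ Finset.Ioc Q0 (B ^ e), (N q : ℝ))
        ≤ K * (K1 * ((Y : ℝ) ^ d * (Q0 : ℝ)⁻¹ + (B : ℝ) ^ e)) := by gcongr
      _ = K * (K1 * ((Y : ℝ) ^ d * (Q0 : ℝ)⁻¹)) + K * (K1 * (B : ℝ) ^ e) := by ring
      _ ≤ (Y : ℝ) ^ d / 2 + (Y : ℝ) ^ d / 2 := add_le_add h6 h8
      _ = (Y : ℝ) ^ d := by ring
  exact_mod_cast h5

lemma nrm_C (hALG : Stmt_ALG) {d : ℕ} {G : ℤ[X]} (hm : G.Monic) (hd : G.natDegree = d) (u : ℤ) :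
    Nrm d G (C u) = u ^ d := by
  have := hALG.N_C ℤ d G 1 u hm
  rw [mul_one, hALG.N_one ℤ d G hm hd, mul_one] at this
  exact this

lemma not_dvd_W (hALG : Stmt_ALG) {d : ℕ} {G : ℤ[X]} (hm : G.Monic) (hd : G.natDegree = d)
    (u : ℤ) (W : ℕ) (huW : IsCoprime u (W : ℤ)) (l : ℤ[X]) (q : ℕ) (hq : q.Prime)
    (hqN : (q : ℤ) ∣ Nrm d G (C u + C (W : ℤ) * l)) : ¬ q ∣ W := by
  intro hqW
  have h1 : Nrm d G (C u + C (W : ℤ) * l) ≡ Nrm d G (C u) [ZMOD W] :=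
    hALG.N_congr d G _ _ l W hm rfl
  rw [nrm_C hALG hm hd] at h1
  have h2 : (q : ℤ) ∣ (W : ℤ) := Int.natCast_dvd_natCast.2 hqW
  have h3 : (q : ℤ) ∣ u ^ d := (h1.of_dvd h2).dvd_iff.1 hqN
  have h4 : (q : ℤ) ∣ u := (Nat.prime_iff_prime_int.1 hq).dvd_of_dvd_pow h3
  have h5 := huW.isUnit_of_dvd' h4 h2
  exact (Nat.prime_iff_prime_int.1 hq).not_isUnit h5

lemma ne_zero (u : ℤ) (W : ℕ) (hW : 2 ∣ W) (huW : IsCoprime u (W : ℤ)) (l : ℤ[X]) :
    C u + C (W : ℤ) * l ≠ 0 := by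
  intro h
  have h1 : (C u + C (W : ℤ) * l).coeff 0 = 0 := by rw [h]; simp
  rw [Polynomial.coeff_add, Polynomial.coeff_C_mul, Polynomial.coeff_C_zero] at h1
  have h2 : (2 : ℤ) ∣ (W : ℤ) := by exact_mod_cast hW
  have h3 : (2 : ℤ) ∣ u := by
    have : u = -((W : ℤ) * l.coeff 0) := by linarith
    rw [this]
    exact (dvd_mul_of_dvd_left h2 _).neg_right
  have h4 := huW.isUnit_of_dvd' h3 h2
  exact Int.prime_two.not_isUnit h4

/-- the common root is not in `F_q` -/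
lemma not_mem (m : ℕ) {G : ℤ[X]} (q : ℕ) [Fact q.Prime]
    (hr : ∀ x : ℤ, (q : ℤ) ∣ G.eval x → q ≡ 1 [MOD m]) (hm : ¬ q ≡ 1 [MOD m])
    (t : AlgebraicClosure (ZMod q)) (ht : aeval t G = 0) (c : ZMod q) :
    algebraMap (ZMod q) (AlgebraicClosure (ZMod q)) c ≠ t := by
  intro hc
  apply hm
  apply hr (c.val : ℤ)
  rw [← hc] at ht
  have h1 : aeval (algebraMap (ZMod q) (AlgebraicClosure (ZMod q)) c) G =
      algebraMap (ZMod q) (AlgebraicClosure (ZMod q)) (aeval c G) := by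
    rw [Polynomial.aeval_algebraMap_apply]
  rw [h1, map_eq_zero_iff _ (algebraMap (ZMod q) (AlgebraicClosure (ZMod q))).injective] at ht
  rw [← ZMod.intCast_zmod_eq_zero_iff_dvd]
  have h2 : (((G.eval (c.val : ℤ) : ℤ)) : ZMod q) = aeval c G := by
    rw [Polynomial.aeval_def, Polynomial.eval₂_eq_eval_map]
    have h3 : c = (((c.val : ℤ)) : ZMod q) := by
      rw [Int.cast_natCast, ZMod.natCast_zmod_val]
    conv_rhs => rw [h3]
    rw [Polynomial.eval_intCast_map]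
    simp
  rw [h2, ht]

end BADAux

open BADAux in
open Classical in
theorem stmt_BAD (hALG : Stmt_ALG) (hNBD : Stmt_NBD) (hNZ : Stmt_NZ) (hCMN : Stmt_CMN)
    (hQSQ : Stmt_QSQ) (hROOT : Stmt_ROOT) (hCNQ : Stmt_CNQ) : Stmt_BAD := by
  intro m d G hm hG hc K
  obtain ⟨δ, hδ0, hδ⟩ := hROOT m G hm hG.1 hc
  obtain ⟨K1, hK1, hcn⟩ := hCNQ d G hG
  obtain ⟨K2, hK2, hnb⟩ := hNBD d G hG.1 hG.2.1
  obtain ⟨e, he⟩ := hG.2.2.2.1
  have hd2 := hG.2.2.1
  refine ⟨δ + (2 * K * K1 + 2), fun W hW0 hWq u huW => ?_⟩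
  set Q0 := δ + (2 * K * K1 + 2) with hQ0
  have h2W : 2 ∣ W := hWq 2 Nat.prime_two (by omega)
  refine ⟨1 + 2 * K * K1 * (K2 * (u.natAbs + W)) ^ e, fun Y hY => ?_⟩
  set B := K2 * (u.natAbs + W * Y) with hB
  set N : ℕ → Finset (Fin d → ℕ) := fun q => if h : q.Prime ∧ ¬ q ∣ W then
    haveI : Fact q.Prime := ⟨h.1⟩
    (Bx d Y).filter (fun l => ∃ t : AlgebraicClosure (ZMod q),
        (∀ c : ZMod q, algebraMap (ZMod q) (AlgebraicClosure (ZMod q)) c ≠ t) ∧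
        aeval t G = 0 ∧ aeval t (C u + C (W : ℤ) * pol l) = 0) else ∅ with hN
  have hNc : ∀ q, Q0 < q → (N q).card * q ^ 2 ≤ K1 * (Y ^ d + q ^ 2) := by
    intro q hq
    rw [hN]
    by_cases h : q.Prime ∧ ¬ q ∣ W
    · have : Fact q.Prime := ⟨h.1⟩
      simp only [dif_pos h]
      exact hcn q W u Y h.2
    · simp only [dif_neg h]
      simp
  have hsub : (Bx d Y).filter (fun l => ∃ q : ℕ, q.Prime ∧
        (q : ℤ) ∣ Nrm d G (C u + C (W : ℤ) * pol l) ∧ ¬ q ≡ 1 [MOD m]) ⊆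
      (Finset.Ioc Q0 (B ^ e)).biUnion N := by
    intro l hl
    rw [Finset.mem_filter] at hl
    obtain ⟨hlB, q, hqp, hqN, hqm⟩ := hl
    have : Fact q.Prime := ⟨hqp⟩
    have hqW : ¬ q ∣ W := not_dvd_W hALG hG.1 hG.2.1 u W huW _ q hqp hqN
    have hQq : Q0 < q := by
      by_contra h
      exact hqW (hWq q hqp (not_lt.1 h))
    obtain ⟨t, ht1, ht2⟩ := hCMN d G hG.1 hG.2.1 q _ hqN
    have hqδ : ¬ q ∣ δ := fun h => by
      have := Nat.le_of_dvd hδ0 h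
      omega
    have ht3 := not_mem m q (fun x hx => hδ q hqp hqδ x hx) hqm t ht1
    have hsq := hQSQ d G hG.1 hG.2.1 q t _ ht3 ht1 ht2
    have hdeg := natDegree_lt (by omega : 0 < d) l u (W : ℤ)
    have hne := ne_zero u W h2W huW (pol l)
    have hN0 := hNZ d G hG.1 hG.2.1 hG.2.2.2.2.2 _ hne hdeg
    have hbd := hnb _ (u.natAbs + W * Y) hdeg (coeff_bd hlB u W)
    rw [Finset.mem_biUnion]
    refine ⟨q, ?_, ?_⟩
    · rw [Finset.mem_Ioc]
      refine ⟨hQq, ?_⟩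
      have h1 : (q : ℤ) ^ 2 ≤ ((B ^ d : ℕ) : ℤ) :=
        (Int.le_of_dvd (abs_pos.2 hN0) ((dvd_abs _ _).2 hsq)).trans hbd
      have h2 : q ^ 2 ≤ (B ^ e) ^ 2 := by
        have h3 : q ^ 2 ≤ B ^ d := by exact_mod_cast h1
        rw [he] at h3
        rw [← pow_mul, mul_two]
        exact h3
      exact (Nat.pow_le_pow_iff_left (by norm_num)).1 h2
    · rw [hN]
      simp only [dif_pos (And.intro hqp hqW)]
      rw [Finset.mem_filter]
      exact ⟨hlB, t, ht3, ht1, ht2⟩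
  have hcard := (Finset.card_le_card hsub).trans Finset.card_biUnion_le
  refine (Nat.mul_le_mul_left K hcard).trans ?_
  apply count_le K K1 (K2 * (u.natAbs + W)) e Q0 Y B d (by omega) (by omega) hK1 (by omega) hY ?_ _ hNc
  rw [hB, mul_assoc]
  apply Nat.mul_le_mul_left
  have hY1 : 1 ≤ Y := by omega
  nlinarith [Nat.zero_le u.natAbs]

end Pool.Agent.Work.GEM
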