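import Pool.Agent.Work.GEM.Interface

set_option autoImplicit false

namespace Pool.Agent.Work.GEM

namespace BILAux

variable (p : ℕ) [Fact p.Prime]

theorem sum_same (b : ZMod p) :
    ∑ a : ZMod p, quadraticChar (ZMod p) (a + b) * quadraticChar (ZMod p) (a + b) ≤ (p : ℤ) := by
  have h : ∀ a : ZMod p, quadraticChar (ZMod p) (a + b) * quadraticChar (ZMod p) (a + b) ≤ 1 := by
    intro a
    by_cases h0 : a + b = 0
    · rw [h0]
      simp
    · have := quadraticChar_sq_one h0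
      rw [← sq, this]
  calc ∑ a : ZMod p, quadraticChar (ZMod p) (a + b) * quadraticChar (ZMod p) (a + b)
      ≤ ∑ _a : ZMod p, (1 : ℤ) := Finset.sum_le_sum (fun a _ => h a)
    _ = (p : ℤ) := by simp [ZMod.card]

theorem sum_diff (hp : p ≠ 2) (b b' : ZMod p) (h : b ≠ b') :
    ∑ a : ZMod p, quadraticChar (ZMod p) (a + b) * quadraticChar (ZMod p) (a + b') = -1 := by
  classical
  have hc : ringChar (ZMod p) ≠ 2 := by
    rw [ZMod.ringChar_zmod_n]
    exact hp
  set c := b' - b with hcdef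
  have hc0 : c ≠ 0 := sub_ne_zero.mpr (Ne.symm h)
  have h1 : ∑ a : ZMod p, quadraticChar (ZMod p) (a + b) * quadraticChar (ZMod p) (a + b') =
      ∑ x : ZMod p, quadraticChar (ZMod p) x * quadraticChar (ZMod p) (x + c) := by
    refine Fintype.sum_equiv (Equiv.addRight b) _ _ ?_
    intro a
    simp only [Equiv.coe_addRight]
    congr 2
    rw [hcdef]
    ring
  rw [h1]
  have h2 : ∑ x : ZMod p, quadraticChar (ZMod p) x * quadraticChar (ZMod p) (x + c) =
      ∑ y : ZMod p, quadraticChar (ZMod p) (-c * y) * quadraticChar (ZMod p) (-c * y + c) := by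
    have hne : -c ≠ 0 := neg_ne_zero.mpr hc0
    exact (Fintype.sum_equiv (Equiv.mulLeft₀ (-c) hne) _ _ (fun y => rfl)).symm
  rw [h2]
  have h3 : ∀ y : ZMod p, quadraticChar (ZMod p) (-c * y) * quadraticChar (ZMod p) (-c * y + c) =
      quadraticChar (ZMod p) (-1) *
        (quadraticChar (ZMod p) y * quadraticChar (ZMod p) (1 - y)) := by
    intro y
    have e1 : -c * y = (-1) * c * y := by ring
    have e2 : -c * y + c = c * (1 - y) := by ring
    rw [e2, e1, map_mul, map_mul, map_mul]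
    have h4 := quadraticChar_sq_one hc0
    calc quadraticChar (ZMod p) (-1) * quadraticChar (ZMod p) c * quadraticChar (ZMod p) y *
          (quadraticChar (ZMod p) c * quadraticChar (ZMod p) (1 - y))
        = quadraticChar (ZMod p) c ^ 2 * (quadraticChar (ZMod p) (-1) *
        (quadraticChar (ZMod p) y * quadraticChar (ZMod p) (1 - y))) := by ring
      _ = _ := by rw [h4, one_mul]
  rw [Finset.sum_congr rfl (fun y _ => h3 y), ← Finset.mul_sum]
  have hne1 : quadraticChar (ZMod p) ≠ 1 := quadraticChar_ne_one hc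
  have h5 := jacobiSum_nontrivial_inv (F := ZMod p) (R := ℤ) hne1
  rw [(quadraticChar_isQuadratic (ZMod p)).inv] at h5
  unfold jacobiSum at h5
  rw [h5]
  have h6 := quadraticChar_sq_one (F := ZMod p) (a := -1) (by simp)
  have : quadraticChar (ZMod p) (-1) * -quadraticChar (ZMod p) (-1) =
      -(quadraticChar (ZMod p) (-1) ^ 2) := by ring
  rw [this, h6]

end BILAux

theorem stmt_BIL : Stmt_BIL := by
  classical
  intro p _ hp A B
  have hCS : (∑ a ∈ A, ∑ b ∈ B, quadraticChar (ZMod p) (a + b)) ^ 2 ≤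
      (A.card : ℤ) * ∑ a ∈ A, (∑ b ∈ B, quadraticChar (ZMod p) (a + b)) ^ 2 :=
    sq_sum_le_card_mul_sum_sq
  have hext : ∑ a ∈ A, (∑ b ∈ B, quadraticChar (ZMod p) (a + b)) ^ 2 ≤
      ∑ a : ZMod p, (∑ b ∈ B, quadraticChar (ZMod p) (a + b)) ^ 2 :=
    Finset.sum_le_univ_sum_of_nonneg (fun a => sq_nonneg _)
  have hexp : ∑ a : ZMod p, (∑ b ∈ B, quadraticChar (ZMod p) (a + b)) ^ 2 =
      ∑ b ∈ B, ∑ b' ∈ B, ∑ a : ZMod p,
        quadraticChar (ZMod p) (a + b) * quadraticChar (ZMod p) (a + b') := by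
    simp_rw [sq, Finset.sum_mul_sum]
    rw [Finset.sum_comm]
    refine Finset.sum_congr rfl (fun b _ => ?_)
    rw [Finset.sum_comm]
  have hb : ∀ b ∈ B, ∑ b' ∈ B, ∑ a : ZMod p,
        quadraticChar (ZMod p) (a + b) * quadraticChar (ZMod p) (a + b') ≤ (p : ℤ) := by
    intro b hbB
    rw [← Finset.add_sum_erase B _ hbB]
    have h1 := BILAux.sum_same p b
    have h2 : ∑ b' ∈ B.erase b, ∑ a : ZMod p,
        quadraticChar (ZMod p) (a + b) * quadraticChar (ZMod p) (a + b') ≤ 0 := by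
      apply Finset.sum_nonpos
      intro b' hb'
      rw [BILAux.sum_diff p hp b b' (Finset.ne_of_mem_erase hb').symm]
      norm_num
    linarith
  have hsum : ∑ b ∈ B, ∑ b' ∈ B, ∑ a : ZMod p,
        quadraticChar (ZMod p) (a + b) * quadraticChar (ZMod p) (a + b') ≤ B.card * (p : ℤ) := by
    calc _ ≤ ∑ _b ∈ B, (p : ℤ) := Finset.sum_le_sum hb
      _ = B.card * (p : ℤ) := by simp
  have hA : (0 : ℤ) ≤ A.card := by positivity
  calc (∑ a ∈ A, ∑ b ∈ B, quadraticChar (ZMod p) (a + b)) ^ 2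
      ≤ (A.card : ℤ) * ∑ a ∈ A, (∑ b ∈ B, quadraticChar (ZMod p) (a + b)) ^ 2 := hCS
    _ ≤ (A.card : ℤ) * (B.card * (p : ℤ)) := by
        apply mul_le_mul_of_nonneg_left _ hA
        exact hext.trans (hexp ▸ hsum)
    _ = (p : ℤ) * A.card * B.card := by ring

end Pool.Agent.Work.GEM
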