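import Pool.Agent.Work.GEM.Interface

/-!
# CMN: a prime divisor of the norm gives a common root in the algebraic closure (helper49)
-/

set_option autoImplicit false

open Polynomial

namespace Pool.Agent.Work.GEM

theorem stmt_CMN (hA : Stmt_ALG) : Stmt_CMN := by
  intro d G hG hd q _ a hq
  by_contra hcon
  push Not at hcon
  have hG' : (G.map (Int.castRingHom (ZMod q))).Monic := hG.map _
  have hd' : (G.map (Int.castRingHom (ZMod q))).natDegree = d := by
    rw [hG.natDegree_map, hd]
  have h0 : Nrm d (G.map (Int.castRingHom (ZMod q))) (a.map (Int.castRingHom (ZMod q))) = 0 := by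
    have h1 := hA.M_map ℤ (ZMod q) (Int.castRingHom (ZMod q)) d G a hG
    rw [Nrm, ← h1]
    have h2 : ((Mmat d G a).map (Int.castRingHom (ZMod q))).det =
        Int.castRingHom (ZMod q) (Mmat d G a).det := by
      rw [RingHom.map_det]
      rfl
    rw [h2]
    change ((Nrm d G a : ℤ) : ZMod q) = 0
    exact (ZMod.intCast_zmod_eq_zero_iff_dvd _ _).2 hq
  have hco : IsCoprime (a.map (Int.castRingHom (ZMod q))) (G.map (Int.castRingHom (ZMod q))) := by
    rw [Polynomial.isCoprime_iff_aeval_ne_zero_of_isAlgClosed (ZMod q)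
      (AlgebraicClosure (ZMod q))]
    intro t
    have e : ∀ P : ℤ[X], aeval t (P.map (Int.castRingHom (ZMod q))) = aeval t P := fun P =>
      aeval_map_algebraMap (ZMod q) t P
    rw [e, e]
    by_cases h : aeval t G = 0
    · exact Or.inl (hcon t h)
    · exact Or.inr h
  obtain ⟨u, v, huv⟩ := hco
  have h1 : Mmat d (G.map (Int.castRingHom (ZMod q))) (u * a.map (Int.castRingHom (ZMod q))) =
      Mmat d (G.map (Int.castRingHom (ZMod q))) 1 := by
    refine hA.M_congr (ZMod q) d _ _ _ hG' ⟨-v, ?_⟩
    linear_combination huv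
  have h2 : Nrm d (G.map (Int.castRingHom (ZMod q))) (u * a.map (Int.castRingHom (ZMod q))) = 1 := by
    rw [Nrm, h1]
    exact hA.N_one (ZMod q) d _ hG' hd'
  rw [hA.N_mul (ZMod q) d _ _ _ hG' hd', h0, mul_zero] at h2
  exact zero_ne_one h2

end Pool.Agent.Work.GEM
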