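import Pool.Agent.Work.GEM.Interface

/-! CNQ: count of polynomials in a box with a root outside the prime field. -/

set_option autoImplicit false

open Polynomial

namespace Pool.Agent.Work.GEM

namespace CNQAux

theorem pol_coeff {d : ℕ} (l : Fin d → ℕ) (n : ℕ) :
    (pol l).coeff n = if h : n < d then (l ⟨n, h⟩ : ℤ) else 0 := by
  unfold pol
  rw [finset_sum_coeff]
  simp only [coeff_C_mul, coeff_X_pow]
  split_ifs with h
  · rw [Finset.sum_eq_single ⟨n, h⟩]
    · simp
    · intro b _ hb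
      rw [if_neg, mul_zero]
      intro h'
      exact hb (Fin.ext h'.symm)
    · intro h'
      exact absurd (Finset.mem_univ _) h'
  · refine Finset.sum_eq_zero fun b _ => ?_
    rw [if_neg, mul_zero]
    intro h'
    exact h (h' ▸ b.2)

theorem sub_natDegree {d : ℕ} (hd : 0 < d) (l l' : Fin d → ℕ) : (pol l - pol l').natDegree < d := by
  rw [Nat.lt_iff_le_pred hd, natDegree_le_iff_coeff_eq_zero]
  intro N hN
  have h : ¬ N < d := by omega
  rw [coeff_sub, pol_coeff, pol_coeff, dif_neg h, dif_neg h, sub_zero]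

theorem pol_inj {d : ℕ} (l l' : Fin d → ℕ) (h : pol l - pol l' = 0) : l = l' := by
  funext i
  have h1 := congrArg (fun p : ℤ[X] => p.coeff i) h
  simp only [coeff_sub, pol_coeff, coeff_zero, i.2, dif_pos] at h1
  have h2 : (l i : ℤ) = l' i := by
    have : (⟨(i : ℕ), i.2⟩ : Fin d) = i := rfl
    linarith
  exact_mod_cast h2

theorem exists_T (K d q : ℕ) (hK : 1 ≤ K) (hd : 1 ≤ d) (hq : 1 ≤ q) :
    ∃ T : ℕ, (K * T) ^ d < q ^ 2 ∧ q ^ 2 ≤ (K * (T + 1)) ^ d := by
  classical
  have hex : ∃ T, q ^ 2 ≤ (K * T) ^ d := by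
    refine ⟨q ^ 2, ?_⟩
    calc q ^ 2 ≤ K * q ^ 2 := Nat.le_mul_of_pos_left _ hK
      _ ≤ (K * q ^ 2) ^ d := Nat.le_self_pow (by omega) _
  have h0 : Nat.find hex ≠ 0 := by
    intro h0
    have h1 := Nat.find_spec hex
    rw [h0, mul_zero, zero_pow (by omega)] at h1
    have : 0 < q ^ 2 := by positivity
    omega
  obtain ⟨T, hT⟩ := Nat.exists_eq_succ_of_ne_zero h0
  refine ⟨T, ?_, ?_⟩
  · have := Nat.find_min hex (m := T) (by omega)
    omega
  · have := Nat.find_spec hex
    rw [hT] at this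
    exact this

end CNQAux

open CNQAux in
theorem stmt_CNQ (hNBD : Stmt_NBD) (hNZ : Stmt_NZ) (hQSQ : Stmt_QSQ) : Stmt_CNQ := by
  classical
  intro d G hG
  obtain ⟨hmon, hdeg, hd2, -, -, hirr⟩ := hG
  obtain ⟨K, hK1, hK⟩ := hNBD d G hmon hdeg
  refine ⟨d * 2 ^ d * K ^ d, ?_, ?_⟩
  · have h1 : 0 < d * 2 ^ d * K ^ d := by positivity
    omega
  intro q hq W u Y hW
  have hq1 : 1 ≤ q := hq.out.one_lt.le
  obtain ⟨T, hT1, hT2⟩ := exists_T K d q hK1 (by omega) hq1
  let F := AlgebraicClosure (ZMod q)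
  let P : F → (Fin d → ℕ) → Prop := fun t l =>
    (∀ c : ZMod q, algebraMap (ZMod q) (AlgebraicClosure (ZMod q)) c ≠ t) ∧
        aeval t G = 0 ∧ aeval t (C u + C (W : ℤ) * pol l) = 0
  have hWF : (W : F) ≠ 0 := by
    intro h
    exact hW ((CharP.cast_eq_zero_iff F q W).1 h)
  -- one root
  have hone : ∀ t : F, ((Bx d Y).filter (P t)).card * q ^ 2 ≤ 2 ^ d * (K ^ d * Y ^ d + q ^ 2) := by
    intro t
    have hinj : Set.InjOn (fun (l : Fin d → ℕ) i => l i / (T + 1))
        ((Bx d Y).filter (P t) : Finset (Fin d → ℕ)) := by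
      intro l hl l' hl' hll
      rw [Finset.mem_coe, Finset.mem_filter] at hl hl'
      obtain ⟨-, ht1, ht2, ht3⟩ := hl
      obtain ⟨-, -, -, ht3'⟩ := hl'
      have ha : aeval t (pol l - pol l') = 0 := by
        have h1 : (W : F) * aeval t (pol l - pol l') = 0 := by
          have h2 : aeval t (C u + C (W : ℤ) * pol l) - aeval t (C u + C (W : ℤ) * pol l') = 0 := by
            rw [ht3, ht3', sub_zero]
          rw [← h2]
          simp only [map_add, map_mul, map_sub, aeval_C]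
          simp only [algebraMap_int_eq, eq_intCast, Int.cast_natCast]
          ring
        exact (mul_eq_zero.1 h1).resolve_left hWF
      have hdvd := hQSQ d G hmon hdeg q t (pol l - pol l') ht1 ht2 ha
      have hle := hK (pol l - pol l') T (sub_natDegree (by omega) l l') (by
        intro i
        rw [coeff_sub, pol_coeff, pol_coeff]
        split_ifs with h
        · have h1 := congrFun hll ⟨i, h⟩
          simp only at h1
          have h2 := Nat.div_add_mod (l ⟨i, h⟩) (T + 1)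
          have h3 := Nat.div_add_mod (l' ⟨i, h⟩) (T + 1)
          have h4 : l ⟨i, h⟩ % (T + 1) < T + 1 := Nat.mod_lt _ (by omega)
          have h5 : l' ⟨i, h⟩ % (T + 1) < T + 1 := Nat.mod_lt _ (by omega)
          rw [← h1] at h3
          generalize (T + 1) * (l ⟨i, h⟩ / (T + 1)) = z at h2 h3
          rw [abs_le]
          constructor <;> omega
        · simp)
      by_contra hne
      have hne' : pol l - pol l' ≠ 0 := fun h => hne (pol_inj l l' h)
      have hN := hNZ d G hmon hdeg hirr _ hne' (sub_natDegree (by omega) l l')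
      have h1 := Int.le_of_dvd (abs_pos.2 hN) ((dvd_abs _ _).2 hdvd)
      have h2 : ((q : ℤ) ^ 2) ≤ (((K * T) ^ d : ℕ) : ℤ) := h1.trans hle
      have h3 : q ^ 2 ≤ (K * T) ^ d := by exact_mod_cast h2
      omega
    have hcard : ((Bx d Y).filter (P t)).card ≤ (Y / (T + 1) + 1) ^ d := by
      have h1 : ((Bx d Y).filter (P t)).card ≤
          (Fintype.piFinset fun _ : Fin d => Finset.range (Y / (T + 1) + 1)).card := by
        refine Finset.card_le_card_of_injOn (fun (l : Fin d → ℕ) i => l i / (T + 1)) ?_ hinj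
        intro l hl
        rw [Finset.mem_coe, Finset.mem_filter] at hl
        rw [Finset.mem_coe, Fintype.mem_piFinset]
        intro i
        rw [Finset.mem_range]
        have h2 := hl.1
        unfold Bx at h2
        rw [Fintype.mem_piFinset] at h2
        have h3 := Finset.mem_range.1 (h2 i)
        have h4 : l i / (T + 1) ≤ Y / (T + 1) := Nat.div_le_div_right h3.le
        exact Nat.lt_succ_of_le h4
      rw [Fintype.card_piFinset_const, Finset.card_range] at h1
      simpa using h1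
    have h2 : (Y / (T + 1) + 1) ^ d ≤ 2 ^ d * ((Y / (T + 1)) ^ d + 1) := by
      rcases Nat.eq_zero_or_pos (Y / (T + 1)) with h | h
      · rw [h, zero_add, one_pow, zero_pow (by omega), zero_add, mul_one]
        exact Nat.one_le_two_pow
      · calc (Y / (T + 1) + 1) ^ d ≤ (2 * (Y / (T + 1))) ^ d := Nat.pow_le_pow_left (by omega) d
          _ = 2 ^ d * (Y / (T + 1)) ^ d := mul_pow _ _ _
          _ ≤ _ := Nat.mul_le_mul_left _ (by omega)
    have h3 : (Y / (T + 1)) ^ d * q ^ 2 ≤ K ^ d * Y ^ d := by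
      calc (Y / (T + 1)) ^ d * q ^ 2 ≤ (Y / (T + 1)) ^ d * (K * (T + 1)) ^ d :=
            Nat.mul_le_mul_left _ hT2
        _ = K ^ d * (Y / (T + 1) * (T + 1)) ^ d := by rw [mul_pow, mul_pow]; ring
        _ ≤ K ^ d * Y ^ d :=
            Nat.mul_le_mul_left _ (Nat.pow_le_pow_left (Nat.div_mul_le_self _ _) d)
    calc ((Bx d Y).filter (P t)).card * q ^ 2 ≤ (Y / (T + 1) + 1) ^ d * q ^ 2 :=
          Nat.mul_le_mul_right _ hcard
      _ ≤ 2 ^ d * ((Y / (T + 1)) ^ d + 1) * q ^ 2 := Nat.mul_le_mul_right _ h2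
      _ = 2 ^ d * ((Y / (T + 1)) ^ d * q ^ 2 + q ^ 2) := by ring
      _ ≤ 2 ^ d * (K ^ d * Y ^ d + q ^ 2) := Nat.mul_le_mul_left _ (by omega)
  -- all roots
  let GF : F[X] := G.map (algebraMap ℤ F)
  have hGF : GF ≠ 0 := (hmon.map _).ne_zero
  have hroots : GF.roots.toFinset.card ≤ d := by
    calc GF.roots.toFinset.card ≤ Multiset.card GF.roots := Multiset.toFinset_card_le _
      _ ≤ GF.natDegree := card_roots' _
      _ = d := by rw [← hdeg]; exact hmon.natDegree_map _
  have hsub : (Bx d Y).filter (fun l => ∃ t : AlgebraicClosure (ZMod q),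
        (∀ c : ZMod q, algebraMap (ZMod q) (AlgebraicClosure (ZMod q)) c ≠ t) ∧
        aeval t G = 0 ∧ aeval t (C u + C (W : ℤ) * pol l) = 0) ⊆
      GF.roots.toFinset.biUnion fun t => (Bx d Y).filter (P t) := by
    intro l hl
    rw [Finset.mem_filter] at hl
    obtain ⟨hl, t, ht1, ht2, ht3⟩ := hl
    rw [Finset.mem_biUnion]
    refine ⟨t, ?_, Finset.mem_filter.2 ⟨hl, ht1, ht2, ht3⟩⟩
    rw [Multiset.mem_toFinset, mem_roots hGF, IsRoot.def, eval_map]
    exact ht2
  calc _ ≤ (∑ t ∈ GF.roots.toFinset, ((Bx d Y).filter (P t)).card) * q ^ 2 :=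
        Nat.mul_le_mul_right _ ((Finset.card_le_card hsub).trans Finset.card_biUnion_le)
    _ = ∑ t ∈ GF.roots.toFinset, ((Bx d Y).filter (P t)).card * q ^ 2 := Finset.sum_mul _ _ _
    _ ≤ ∑ t ∈ GF.roots.toFinset, 2 ^ d * (K ^ d * Y ^ d + q ^ 2) :=
        Finset.sum_le_sum fun t _ => hone t
    _ = GF.roots.toFinset.card * (2 ^ d * (K ^ d * Y ^ d + q ^ 2)) := by
        rw [Finset.sum_const, smul_eq_mul]
    _ ≤ d * (2 ^ d * (K ^ d * Y ^ d + q ^ 2)) := Nat.mul_le_mul_right _ hroots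
    _ ≤ d * (2 ^ d * (K ^ d * Y ^ d + K ^ d * q ^ 2)) := by
        have h1 : q ^ 2 ≤ K ^ d * q ^ 2 := Nat.le_mul_of_pos_left _ (by positivity)
        gcongr
    _ = d * 2 ^ d * K ^ d * (Y ^ d + q ^ 2) := by ring

end Pool.Agent.Work.GEM
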