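import Pool.Agent.Work.GEM.Interface

/-! CRTP: factorisation of quadratic Gauss sums modulo squares. -/

set_option autoImplicit false

open Polynomial

namespace Pool.Agent.Work.GEM

namespace CRTPAux

variable {r : ℕ}

theorem GS_def (n : ℕ) [h : NeZero n] (A : Matrix (Fin r) (Fin r) ℤ) :
    GS n A = ∑ z : Fin r → ZMod n, ZMod.stdAddChar (qf A z) := by
  unfold GS
  rw [dif_neg h.out]

theorem qf_smul {n : ℕ} (A : Matrix (Fin r) (Fin r) ℤ) (c : ZMod n) (z : Fin r → ZMod n) :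
    qf A (fun i => c * z i) = c ^ 2 * qf A z := by
  simp only [qf, Finset.mul_sum]
  refine Finset.sum_congr rfl fun i _ => Finset.sum_congr rfl fun j _ => ?_
  ring

theorem qf_map {m n : ℕ} (f : ZMod n →+* ZMod m) (A : Matrix (Fin r) (Fin r) ℤ)
    (z : Fin r → ZMod n) : f (qf A z) = qf A (fun i => f (z i)) := by
  simp only [qf, map_sum, map_mul, map_intCast]

/-- splitting the additive character -/
theorem char_split (m n : ℕ) [NeZero m] [NeZero n] [NeZero (m * n)] (a b : ℤ)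
    (hab : a * n + b * m = 1) (f : ZMod (m * n) →+* ZMod m) (g : ZMod (m * n) →+* ZMod n)
    (x : ZMod (m * n)) :
    (ZMod.stdAddChar x : ℂ) = ZMod.stdAddChar ((a : ZMod m) * f x) *
      ZMod.stdAddChar ((b : ZMod n) * g x) := by
  obtain ⟨j, rfl⟩ := ZMod.intCast_surjective x
  rw [map_intCast f, map_intCast g, ← Int.cast_mul, ← Int.cast_mul, ZMod.stdAddChar_coe,
    ZMod.stdAddChar_coe, ZMod.stdAddChar_coe, ← Complex.exp_add]
  congr 1
  have hm : (m : ℂ) ≠ 0 := Nat.cast_ne_zero.2 (NeZero.ne m)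
  have hn : (n : ℂ) ≠ 0 := Nat.cast_ne_zero.2 (NeZero.ne n)
  have h : (a : ℂ) * n + b * m = 1 := by exact_mod_cast hab
  push_cast
  field_simp
  linear_combination (-(j : ℂ)) * h

/-- multiplication by a square -/
theorem sum_unit (m : ℕ) [NeZero m] (A : Matrix (Fin r) (Fin r) ℤ) (a c c' : ZMod m)
    (hc : c * c' = 1) (ha : a = c ^ 2) :
    ∑ z : Fin r → ZMod m, ZMod.stdAddChar (a * qf A z) = GS m A := by
  rw [GS_def]
  let e : (Fin r → ZMod m) ≃ (Fin r → ZMod m) :=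
    { toFun := fun z i => c * z i
      invFun := fun z i => c' * z i
      left_inv := fun z => by
        funext i
        change c' * (c * z i) = z i
        rw [← mul_assoc, mul_comm c' c, hc, one_mul]
      right_inv := fun z => by
        funext i
        change c * (c' * z i) = z i
        rw [← mul_assoc, hc, one_mul] }
  rw [← Equiv.sum_comp e (fun z => ZMod.stdAddChar (qf A z))]
  refine Finset.sum_congr rfl fun z _ => ?_
  change _ = ZMod.stdAddChar (qf A (fun i => c * z i))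
  rw [qf_smul, ha]

/-- the factorisation -/
theorem GS_mul (M N : ℕ) (hM : 0 < M) (hN : 0 < N) (h : Nat.Coprime M N)
    (A : Matrix (Fin r) (Fin r) ℤ) : GS ((M * N) ^ 2) A = GS (M ^ 2) A * GS (N ^ 2) A := by
  haveI : NeZero (M ^ 2) := ⟨(pow_pos hM 2).ne'⟩
  haveI : NeZero (N ^ 2) := ⟨(pow_pos hN 2).ne'⟩
  haveI : NeZero (M ^ 2 * N ^ 2) := ⟨mul_ne_zero (NeZero.ne _) (NeZero.ne _)⟩
  have hco : Nat.Coprime (M ^ 2) (N ^ 2) := Nat.Coprime.pow 2 2 h
  obtain ⟨b, a, hab⟩ : IsCoprime ((M ^ 2 : ℕ) : ℤ) ((N ^ 2 : ℕ) : ℤ) :=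
    Nat.isCoprime_iff_coprime.2 hco
  have hab' : a * ((N ^ 2 : ℕ) : ℤ) + b * ((M ^ 2 : ℕ) : ℤ) = 1 := by rw [add_comm]; exact hab
  rw [mul_pow, GS_def (M ^ 2 * N ^ 2)]
  have hA1 : (a : ZMod (M ^ 2)) * (N : ZMod (M ^ 2)) ^ 2 = 1 := by
    have h1 := congrArg (Int.cast : ℤ → ZMod (M ^ 2)) hab'
    push_cast at h1
    have h2 : (M : ZMod (M ^ 2)) ^ 2 = 0 := by
      rw [← Nat.cast_pow]; exact ZMod.natCast_self _
    rw [h2, mul_zero, add_zero] at h1
    exact h1
  have hB1 : (b : ZMod (N ^ 2)) * (M : ZMod (N ^ 2)) ^ 2 = 1 := by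
    have h1 := congrArg (Int.cast : ℤ → ZMod (N ^ 2)) hab'
    push_cast at h1
    have h2 : (N : ZMod (N ^ 2)) ^ 2 = 0 := by
      rw [← Nat.cast_pow]; exact ZMod.natCast_self _
    rw [h2, mul_zero, zero_add] at h1
    exact h1
  rw [← sum_unit (M ^ 2) A a (a * N) N (by rw [mul_assoc, ← pow_two]; exact hA1)
      (by rw [mul_pow, pow_two (a : ZMod (M ^ 2)), mul_assoc, hA1, mul_one]),
    ← sum_unit (N ^ 2) A b (b * M) M (by rw [mul_assoc, ← pow_two]; exact hB1)
      (by rw [mul_pow, pow_two (b : ZMod (N ^ 2)), mul_assoc, hB1, mul_one]),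
    Finset.sum_mul_sum, ← Finset.sum_product', Finset.univ_product_univ]
  let ε := ZMod.chineseRemainder hco
  let f : ZMod (M ^ 2 * N ^ 2) →+* ZMod (M ^ 2) := (RingHom.fst _ _).comp ε.toRingHom
  let g : ZMod (M ^ 2 * N ^ 2) →+* ZMod (N ^ 2) := (RingHom.snd _ _).comp ε.toRingHom
  let e : (Fin r → ZMod (M ^ 2 * N ^ 2)) ≃ (Fin r → ZMod (M ^ 2)) × (Fin r → ZMod (N ^ 2)) :=
    (Equiv.piCongrRight fun _ => ε.toEquiv).trans (Equiv.arrowProdEquivProdArrow (Fin r) _ _)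
  rw [← Equiv.sum_comp e (fun x => (ZMod.stdAddChar ((a : ZMod (M ^ 2)) * qf A x.1) : ℂ) *
    ZMod.stdAddChar ((b : ZMod (N ^ 2)) * qf A x.2))]
  refine Finset.sum_congr rfl fun z _ => ?_
  rw [char_split (M ^ 2) (N ^ 2) a b hab' f g, qf_map f, qf_map g]
  rfl

end CRTPAux

open CRTPAux in
theorem stmt_CRTP : Stmt_CRTP := by
  intro r A D hD
  have h := Nat.multiplicative_factorization (fun n => GS (n ^ 2) A) ?_ ?_ hD.ne'
  · exact h
  · intro x y hxy
    rcases Nat.eq_zero_or_pos x with rfl | hx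
    · simp [GS]
    rcases Nat.eq_zero_or_pos y with rfl | hy
    · simp [GS]
    exact GS_mul x y hx hy hxy A
  · have h1 : GS (1 ^ 2) A = ∑ z : Fin r → ZMod (1 ^ 2), ZMod.stdAddChar (qf A z) := GS_def _ _
    have h2 : ∀ z : Fin r → ZMod (1 ^ 2), (ZMod.stdAddChar (qf A z) : ℂ) = 1 := by
      intro z
      have h3 : qf A z = 0 := Subsingleton.elim (α := ZMod 1) _ _
      rw [h3, AddChar.map_zero_eq_one]
    change GS (1 ^ 2) A = 1
    rw [h1, Finset.sum_congr rfl fun z _ => h2 z, Finset.sum_const, Finset.card_univ,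
      Fintype.card_fun, ZMod.card, one_pow, one_pow, one_smul]

end Pool.Agent.Work.GEM
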