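import Pool.Agent.Work.GEM.Interface

/-!
# MP_75c89d_nt, block DIAG (helper34)
-/

set_option autoImplicit false

open Polynomial

namespace Pool.Agent.Work.GEM

namespace DIAGAux

theorem diag_rat (r : ℕ) (A : Matrix (Fin r) (Fin r) ℚ) (hA : A.IsSymm) :
    ∃ P : Matrix (Fin r) (Fin r) ℚ, P.det ≠ 0 ∧
      ∀ i j, i ≠ j → (P.transpose * A * P) i j = 0 := by
  classical
  have hs : (Matrix.toBilin' A).IsSymm := Matrix.isSymm_toBilin'_iff_isSymm.2 hA
  obtain ⟨v, hv⟩ := LinearMap.BilinForm.exists_orthogonal_basis (B := Matrix.toBilin' A) ⟨fun x y => hs.eq x y⟩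
  have hr : Module.finrank ℚ (Fin r → ℚ) = r := by simp
  have hv' := LinearMap.isOrthoᵢ_def.1 hv
  set e := v.reindex (finCongr hr) with he
  refine ⟨(Pi.basisFun ℚ (Fin r)).toMatrix e, ?_, ?_⟩
  · have h1 := (Pi.basisFun ℚ (Fin r)).isUnit_det e
    rw [Module.Basis.det_apply] at h1
    exact h1.ne_zero
  · intro i j hij
    have h1 : Matrix.toBilin' A (e i) (e j) = 0 := by
      rw [he, Module.Basis.reindex_apply, Module.Basis.reindex_apply]
      exact hv' _ _ fun h => hij ((finCongr hr).symm.injective h)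
    rw [Matrix.toBilin'_apply'] at h1
    rw [Matrix.mul_assoc]
    exact h1

end DIAGAux

theorem stmt_DIAG : Stmt_DIAG := by
  classical
  intro r A hA hdet
  obtain ⟨P', hP', hort⟩ := DIAGAux.diag_rat r (A.map (Int.castRingHom ℚ)) (by
    rw [Matrix.IsSymm, ← Matrix.transpose_map, hA.eq])
  obtain ⟨b, hb⟩ := IsLocalization.exist_integer_multiples_of_finite (nonZeroDivisors ℤ)
    (fun ij : Fin r × Fin r => P' ij.1 ij.2)
  choose Q hQ using hb
  set P : Matrix (Fin r) (Fin r) ℤ := fun i j => Q (i, j) with hP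
  have hmap : P.map (Int.castRingHom ℚ) = ((b : ℤ) : ℚ) • P' := by
    ext i j
    have := hQ (i, j)
    simp only [hP, Matrix.map_apply, Matrix.smul_apply, smul_eq_mul]
    rw [zsmul_eq_mul] at this
    exact this
  have hb0 : ((b : ℤ) : ℚ) ≠ 0 := by
    exact_mod_cast nonZeroDivisors.ne_zero b.2
  have hPdet : P.det ≠ 0 := by
    intro h
    have h1 : (P.map (Int.castRingHom ℚ)).det = 0 := by
      rw [← RingHom.mapMatrix_apply, ← RingHom.map_det, h, map_zero]
    rw [hmap, Matrix.det_smul] at h1
    exact mul_ne_zero (pow_ne_zero _ hb0) hP' h1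
  have hoff : ∀ i j, i ≠ j → (P.transpose * A * P) i j = 0 := by
    intro i j hij
    have h1 : ((P.transpose * A * P).map (Int.castRingHom ℚ)) i j = 0 := by
      have h2 : (P.transpose * A * P).map (Int.castRingHom ℚ) = ((b : ℤ) : ℚ) • ((b : ℤ) : ℚ) •
          (P'.transpose * A.map (Int.castRingHom ℚ) * P') := by
        rw [Matrix.map_mul, Matrix.map_mul, Matrix.transpose_map, hmap, Matrix.transpose_smul,
          Matrix.smul_mul, Matrix.smul_mul, Matrix.mul_smul]
      rw [h2, Matrix.smul_apply, Matrix.smul_apply, hort i j hij, smul_zero, smul_zero]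
    rw [Matrix.map_apply, eq_intCast] at h1
    exact_mod_cast h1
  refine ⟨P, fun i => (P.transpose * A * P) i i, hPdet, ?_, ?_⟩
  · intro i hi
    have h1 : P.transpose * A * P = Matrix.diagonal fun i => (P.transpose * A * P) i i := by
      ext i j
      by_cases hij : i = j
      · subst hij; simp
      · rw [Matrix.diagonal_apply_ne _ hij, hoff i j hij]
    have h2 : (P.transpose * A * P).det = 0 := by
      rw [h1, Matrix.det_diagonal]
      exact Finset.prod_eq_zero (Finset.mem_univ i) hi
    rw [Matrix.det_mul, Matrix.det_mul, Matrix.det_transpose] at h2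
    exact mul_ne_zero (mul_ne_zero hPdet hdet) hPdet h2
  · ext i j
    by_cases hij : i = j
    · subst hij; simp
    · rw [Matrix.diagonal_apply_ne _ hij, hoff i j hij]

end Pool.Agent.Work.GEM
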