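import Pool.Agent.Work.GEM.NXC

/-!
# EVD: a common root mod `q` in `ℤ` gives a divisor of the norm (helper49)
-/

set_option autoImplicit false

open Polynomial

namespace Pool.Agent.Work.GEM

theorem stmt_EVD (hA : Stmt_ALG) : Stmt_EVD := by
  intro d G hG hd q a x _ hGx hax
  obtain ⟨c, hc⟩ := hax
  have h1 : a = (X - C x) * (a /ₘ (X - C x)) + C (q : ℤ) * C c := by
    have h2 := modByMonic_add_div a (X - C x)
    rw [modByMonic_X_sub_C_eq_C_eval, hc, C_mul] at h2
    linear_combination -h2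
  have h3 := hA.N_congr d G a ((X - C x) * (a /ₘ (X - C x))) (C c) q hG h1
  rw [hA.N_mul ℤ d G _ _ hG hd, stmt_NXC hA d G hG hd x] at h3
  have h4 : (q : ℤ) ∣ (-1) ^ d * G.eval x * Nrm d G (a /ₘ (X - C x)) :=
    Dvd.dvd.mul_right (Dvd.dvd.mul_left hGx _) _
  exact (Int.ModEq.dvd_iff h3).2 h4

end Pool.Agent.Work.GEM
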