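import Pool.Agent.Work.GEM.Interface

/-!
# MP_75c89d_nt, block EVN (helper30)

If the exponent of the record prime is even then `G(x) G(0)` is a square.
-/

set_option autoImplicit false

open Polynomial

namespace Pool.Agent.Work.GEM

namespace EVNAux

/-- an admissible polynomial is positive -/
lemma eval_pos {d : ℕ} {G : ℤ[X]} (h : Adm d G) (x : ℤ) : 0 < G.eval x := by
  obtain ⟨hm, hd, h2, -, hr, -⟩ := h
  set F : ℝ[X] := G.map (Int.castRingHom ℝ) with hF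
  have hFm : F.Monic := hm.map _
  have hFd : F.natDegree = d := by rw [hF, hm.natDegree_map, hd]
  have hdeg : 0 < F.degree := by
    rw [← Polynomial.natDegree_pos_iff_degree_pos, hFd]; omega
  have ht : Filter.Tendsto (fun t => F.eval t) Filter.atTop Filter.atTop :=
    F.tendsto_atTop_of_leadingCoeff_nonneg hdeg (by rw [hFm.leadingCoeff]; norm_num)
  have hx : F.eval (x : ℝ) = ((G.eval x : ℤ) : ℝ) := by
    rw [hF, Polynomial.eval_intCast_map]; rfl
  by_contra hneg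
  have hneg' : F.eval (x : ℝ) ≤ 0 := by
    rw [hx]; exact_mod_cast not_lt.1 hneg
  obtain ⟨y, hy⟩ := (ht.eventually (Filter.eventually_ge_atTop (0 : ℝ))).exists
  obtain ⟨z, hz⟩ := mem_range_of_exists_le_of_exists_ge F.continuous ⟨(x : ℝ), hneg'⟩ ⟨y, hy⟩
  exact hr z hz

lemma isSquare_of_even {n : ℕ} (hn : n ≠ 0) (h : ∀ r : ℕ, r.Prime → Even (n.factorization r)) :
    IsSquare n := by
  refine ⟨n.factorization.prod fun p k => p ^ (k / 2), ?_⟩
  conv_lhs => rw [← Nat.prod_factorization_pow_eq_self hn]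
  simp only [Finsupp.prod]
  rw [← Finset.prod_mul_distrib]
  apply Finset.prod_congr rfl
  intro q hq
  have hqp : q.Prime := by
    rw [Nat.support_factorization] at hq
    exact Nat.prime_of_mem_primeFactors hq
  obtain ⟨k, hk⟩ := h q hqp
  rw [← pow_add, hk]
  congr 1
  omega

lemma jac_single (hJPR : Stmt_JPR) (a : ℤ) (n : ℕ) (S : Finset ℕ) (r : ℕ) (hn : n ≠ 0)
    (hS : ∀ q ∈ S, q.Prime) (hS2 : ∀ q : ℕ, q.Prime → q ∣ n → q ∈ S) (hr : r ∈ S) (hr2 : r ≠ 2)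
    (h1 : ∀ q ∈ S, q ≠ 2 → q ≠ r → (jacobiSym a q) ^ n.factorization q = 1)
    (h2 : jacobiSym a r = -1) :
    jacobiSym a (n / 2 ^ n.factorization 2) = (-1) ^ n.factorization r := by
  rw [hJPR a n S hn hS hS2, Finset.prod_eq_single r]
  · rw [h2]
  · intro q hq hqr
    rw [Finset.mem_filter] at hq
    exact h1 q hq.1 hq.2 hqr
  · intro h
    exact absurd (Finset.mem_filter.2 ⟨hr, hr2⟩) h

lemma jac_none (hJPR : Stmt_JPR) (a : ℤ) (n : ℕ) (S : Finset ℕ) (hn : n ≠ 0)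
    (hS : ∀ q ∈ S, q.Prime) (hS2 : ∀ q : ℕ, q.Prime → q ∣ n → q ∈ S)
    (h1 : ∀ q ∈ S, q ≠ 2 → (jacobiSym a q) ^ n.factorization q = 1) :
    jacobiSym a (n / 2 ^ n.factorization 2) = 1 := by
  rw [hJPR a n S hn hS hS2]
  apply Finset.prod_eq_one
  intro q hq
  rw [Finset.mem_filter] at hq
  exact h1 q hq.1 hq.2

lemma neg_one_even {a b : ℕ} (h : ((-1 : ℤ)) ^ a = (-1) ^ b) : Even (a + b) := by
  have h1 : ((-1 : ℤ)) ^ (a + b) = 1 := by
    rw [pow_add, h, ← pow_add, ← two_mul, pow_mul]; norm_num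
  by_contra h2
  rw [Nat.not_even_iff_odd] at h2
  rw [h2.neg_one_pow] at h1
  norm_num at h1

lemma eval_kap (u W : ℤ) (l : ℤ[X]) (x : ℤ) :
    (C u + C W * l).eval x = u + W * l.eval x := by simp

lemma jac_mod (u W : ℤ) (l : ℤ[X]) (x : ℤ) (q : ℕ) (hq : (q : ℤ) ∣ W) :
    jacobiSym ((C u + C W * l).eval x) q = jacobiSym u q := by
  rw [eval_kap]
  apply jacobiSym.mod_left'
  obtain ⟨k, hk⟩ := hq
  rw [hk, mul_assoc, Int.add_mul_emod_self_left]

lemma jac_one_of (u : ℤ) (q : ℕ) (h : (q : ℤ) ∣ u - 1) : jacobiSym u q = 1 := by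
  have : jacobiSym u q = jacobiSym 1 q := by
    apply jacobiSym.mod_left'
    exact (Int.modEq_iff_dvd.2 h).symm
  rw [this, jacobiSym.one_left]

/-- common part: data at the record prime -/
lemma at_p {d : ℕ} {G : ℤ[X]} (hG : Adm d G) (hEVD : Stmt_EVD) (p : ℕ) (hp : p.Prime) (x : ℤ)
    (k : ℤ[X]) (hk : ¬ (p : ℤ) ∣ Nrm d G k)
    (he : Even ((G.eval x).natAbs.factorization p)) :
    (jacobiSym (k.eval x) p) ^ (G.eval x).natAbs.factorization p = 1 := by
  by_cases h0 : (G.eval x).natAbs.factorization p = 0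
  · rw [h0, pow_zero]
  · have hpG : (p : ℤ) ∣ G.eval x := by
      rw [Int.natCast_dvd]
      exact Nat.dvd_of_factorization_pos h0
    have hpk : ¬ (p : ℤ) ∣ k.eval x := fun h =>
      hk (hEVD d G hG.1 hG.2.1 p k x hp hpG h)
    have hg : (k.eval x).gcd p = 1 := by
      rw [← Int.isCoprime_iff_gcd_eq_one, isCoprime_comm]
      exact (Prime.coprime_iff_not_dvd (Nat.prime_iff_prime_int.1 hp)).2 hpk
    obtain ⟨c, hc⟩ := he
    rw [hc, ← two_mul, pow_mul, jacobiSym.sq_one hg, one_pow]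

lemma coprime_of (u : ℤ) (W : ℕ) (h : ∀ q : ℕ, q.Prime → q ∣ W → ¬ (q : ℤ) ∣ u) :
    IsCoprime u (W : ℤ) := by
  rw [Int.isCoprime_iff_gcd_eq_one]
  have : Nat.Coprime u.natAbs W := by
    apply Nat.coprime_of_dvd
    intro q hq hqu hqW
    exact h q hq hqW (Int.natCast_dvd.2 hqu)
  simpa [Int.gcd] using this

lemma not_dvd_of_one {q : ℕ} (hq : q.Prime) {u : ℤ} (h : (q : ℤ) ∣ u - 1) : ¬ (q : ℤ) ∣ u := by
  intro h2
  have h3 : (q : ℤ) ∣ 1 := by
    have := dvd_sub h2 h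
    simpa using this
  have h4 : (q : ℤ) ∣ ((1 : ℕ) : ℤ) := by simpa using h3
  rw [Int.natCast_dvd_natCast] at h4
  exact hq.one_lt.ne' (Nat.dvd_one.1 h4)

section main

variable {m d : ℕ} {G : ℤ[X]} (hG : Adm d G) (W : ℕ) (hW0 : 0 < W) (h8 : 8 ∣ W)
  (hWG : ∀ q : ℕ, q.Prime → (q : ℤ) ∣ G.eval 0 → q ∣ W)

include hG hW0 hWG in
/-- the valuation of `G(x)` and `G(0)` at an odd prime `r ∣ W` -/
lemma val_of (hEVD : Stmt_EVD) (hJPR : Stmt_JPR) (r : ℕ) (hr : r.Prime) (hrW : r ∣ W)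
    (hr2 : r ≠ 2) (u : ℤ) (l : ℤ[X]) (hu : ∀ q : ℕ, q.Prime → q ∣ W → q ≠ 2 → q ≠ r → (q : ℤ) ∣ u - 1)
    (hur : jacobiSym u r = -1) (p : ℕ) (hp : p.Prime) (x : ℤ)
    (hpN : ¬ (p : ℤ) ∣ Nrm d G (C u + C (W : ℤ) * l))
    (hx : ∀ q : ℕ, q.Prime → (q : ℤ) ∣ G.eval x → q = p ∨ q ∣ W) (hpW : ¬ p ∣ W)
    (he : Even ((G.eval x).natAbs.factorization p)) :
    jacobiSym ((C u + C (W : ℤ) * l).eval x) (oddp (G.eval x)) =
      (-1) ^ (G.eval x).natAbs.factorization r ∧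
    jacobiSym ((C u + C (W : ℤ) * l).eval 0) (oddp (G.eval 0)) =
      (-1) ^ (G.eval 0).natAbs.factorization r := by
  have hW1 : W ≠ 0 := hW0.ne'
  have hq1 : ∀ (y : ℤ) (q : ℕ), q.Prime → q ∣ W → q ≠ 2 → q ≠ r →
      jacobiSym ((C u + C (W : ℤ) * l).eval y) q = 1 := by
    intro y q hq hqW hq2 hqr
    rw [jac_mod _ _ _ _ _ (Int.natCast_dvd_natCast.2 hqW)]
    exact jac_one_of u q (hu q hq hqW hq2 hqr)
  have hr1 : ∀ y : ℤ, jacobiSym ((C u + C (W : ℤ) * l).eval y) r = -1 := by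
    intro y
    rw [jac_mod _ _ _ _ _ (Int.natCast_dvd_natCast.2 hrW), hur]
  constructor
  · refine jac_single hJPR _ _ (insert p W.primeFactors) r
      (Int.natAbs_ne_zero.2 (eval_pos hG x).ne') ?_ ?_ ?_ hr2 ?_ (hr1 x)
    · intro q hq
      rw [Finset.mem_insert] at hq
      rcases hq with rfl | hq
      · exact hp
      · exact Nat.prime_of_mem_primeFactors hq
    · intro q hq hqG
      rw [Finset.mem_insert]
      rcases hx q hq (Int.natCast_dvd.2 hqG) with h | h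
      · exact Or.inl h
      · exact Or.inr (Nat.mem_primeFactors.2 ⟨hq, h, hW1⟩)
    · rw [Finset.mem_insert]
      exact Or.inr (Nat.mem_primeFactors.2 ⟨hr, hrW, hW1⟩)
    · intro q hq hq2 hqr
      rw [Finset.mem_insert] at hq
      rcases hq with rfl | hq
      · exact at_p hG hEVD q hp x _ hpN he
      · rw [hq1 x q (Nat.prime_of_mem_primeFactors hq) (Nat.dvd_of_mem_primeFactors hq) hq2 hqr,
          one_pow]
  · refine jac_single hJPR _ _ W.primeFactors r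
      (Int.natAbs_ne_zero.2 (eval_pos hG 0).ne') ?_ ?_ ?_ hr2 ?_ (hr1 0)
    · intro q hq
      exact Nat.prime_of_mem_primeFactors hq
    · intro q hq hqG
      exact Nat.mem_primeFactors.2 ⟨hq, hWG q hq (Int.natCast_dvd.2 hqG), hW1⟩
    · exact Nat.mem_primeFactors.2 ⟨hr, hrW, hW1⟩
    · intro q hq hq2 hqr
      rw [hq1 0 q (Nat.prime_of_mem_primeFactors hq) (Nat.dvd_of_mem_primeFactors hq) hq2 hqr,
          one_pow]

include hG hW0 hWG in
/-- all symbols are trivial -/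
lemma val_none (hEVD : Stmt_EVD) (hJPR : Stmt_JPR) (u : ℤ) (l : ℤ[X])
    (hu : ∀ q : ℕ, q.Prime → q ∣ W → q ≠ 2 → (q : ℤ) ∣ u - 1) (p : ℕ) (hp : p.Prime) (x : ℤ)
    (hpN : ¬ (p : ℤ) ∣ Nrm d G (C u + C (W : ℤ) * l))
    (hx : ∀ q : ℕ, q.Prime → (q : ℤ) ∣ G.eval x → q = p ∨ q ∣ W)
    (he : Even ((G.eval x).natAbs.factorization p)) :
    jacobiSym ((C u + C (W : ℤ) * l).eval x) (oddp (G.eval x)) = 1 ∧
    jacobiSym ((C u + C (W : ℤ) * l).eval 0) (oddp (G.eval 0)) = 1 := by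
  have hW1 : W ≠ 0 := hW0.ne'
  have hq1 : ∀ (y : ℤ) (q : ℕ), q.Prime → q ∣ W → q ≠ 2 →
      jacobiSym ((C u + C (W : ℤ) * l).eval y) q = 1 := by
    intro y q hq hqW hq2
    rw [jac_mod _ _ _ _ _ (Int.natCast_dvd_natCast.2 hqW)]
    exact jac_one_of u q (hu q hq hqW hq2)
  constructor
  · refine jac_none hJPR _ _ (insert p W.primeFactors)
      (Int.natAbs_ne_zero.2 (eval_pos hG x).ne') ?_ ?_ ?_
    · intro q hq
      rw [Finset.mem_insert] at hq
      rcases hq with rfl | hq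
      · exact hp
      · exact Nat.prime_of_mem_primeFactors hq
    · intro q hq hqG
      rw [Finset.mem_insert]
      rcases hx q hq (Int.natCast_dvd.2 hqG) with h | h
      · exact Or.inl h
      · exact Or.inr (Nat.mem_primeFactors.2 ⟨hq, h, hW1⟩)
    · intro q hq hq2
      rw [Finset.mem_insert] at hq
      rcases hq with rfl | hq
      · exact at_p hG hEVD q hp x _ hpN he
      · rw [hq1 x q (Nat.prime_of_mem_primeFactors hq) (Nat.dvd_of_mem_primeFactors hq) hq2,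
          one_pow]
  · refine jac_none hJPR _ _ W.primeFactors
      (Int.natAbs_ne_zero.2 (eval_pos hG 0).ne') ?_ ?_ ?_
    · intro q hq
      exact Nat.prime_of_mem_primeFactors hq
    · intro q hq hqG
      exact Nat.mem_primeFactors.2 ⟨hq, hWG q hq (Int.natCast_dvd.2 hqG), hW1⟩
    · intro q hq hq2
      rw [hq1 0 q (Nat.prime_of_mem_primeFactors hq) (Nat.dvd_of_mem_primeFactors hq) hq2,
          one_pow]

/-- the fixed residue at an odd prime -/
lemma exists_u (r : ℕ) (hr : r.Prime) (hr2 : r ≠ 2) (W : ℕ) (hW : W ≠ 0) :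
    ∃ u : ℤ, (8 : ℤ) ∣ u - 1 ∧
      (∀ q : ℕ, q.Prime → q ∣ W → q ≠ 2 → q ≠ r → (q : ℤ) ∣ u - 1) ∧
      jacobiSym u r = -1 ∧ IsCoprime u (W : ℤ) := by
  have : Fact r.Prime := ⟨hr⟩
  obtain ⟨a, ha⟩ := FiniteField.exists_nonsquare (F := ZMod r) (by rw [ZMod.ringChar_zmod_n]; exact hr2)
  set S : Finset ℕ := (W.primeFactors.erase 2).erase r with hS
  set M : ℤ := 8 * ∏ q ∈ S, (q : ℤ) with hM
  have hMr : ((M : ℤ) : ZMod r) ≠ 0 := by
    rw [Ne, ZMod.intCast_zmod_eq_zero_iff_dvd, hM]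
    intro h
    have hpr := Nat.prime_iff_prime_int.1 hr
    rcases hpr.dvd_or_dvd h with h | h
    · have : (r : ℤ) ∣ (2 : ℤ) ^ 3 := by norm_num; exact h
      have h2 : (r : ℤ) ∣ ((2 : ℕ) : ℤ) := by exact_mod_cast hpr.dvd_of_dvd_pow this
      rw [Int.natCast_dvd_natCast] at h2
      exact hr2 ((Nat.prime_dvd_prime_iff_eq hr Nat.prime_two).1 h2)
    · rw [hpr.dvd_finsetProd_iff] at h
      obtain ⟨q, hq, hrq⟩ := h
      rw [Int.natCast_dvd_natCast] at hrq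
      have hqp : q.Prime := Nat.prime_of_mem_primeFactors (Finset.mem_of_mem_erase (Finset.mem_of_mem_erase hq))
      have := (Nat.prime_dvd_prime_iff_eq hr hqp).1 hrq
      exact (Finset.ne_of_mem_erase hq) this.symm
  set t : ZMod r := (a - 1) * ((M : ℤ) : ZMod r)⁻¹ with ht
  have hua : (((1 + M * (t.val : ℤ) : ℤ)) : ZMod r) = a := by
    push_cast
    rw [ZMod.natCast_zmod_val, ht]
    field_simp
    ring
  have ha0 : a ≠ 0 := by
    rintro rfl
    exact ha ⟨0, by simp⟩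
  have h8 : (8 : ℤ) ∣ (1 + M * (t.val : ℤ)) - 1 := by
    rw [add_sub_cancel_left, hM, mul_assoc]
    exact dvd_mul_right _ _
  have h1 : ∀ q : ℕ, q.Prime → q ∣ W → q ≠ 2 → q ≠ r → (q : ℤ) ∣ (1 + M * (t.val : ℤ)) - 1 := by
    intro q hq hqW hq2 hqr
    rw [add_sub_cancel_left, hM]
    apply Dvd.dvd.mul_right
    apply Dvd.dvd.mul_left
    exact Finset.dvd_prod_of_mem (fun q : ℕ => (q : ℤ))
      (Finset.mem_erase.2 ⟨hqr, Finset.mem_erase.2 ⟨hq2, Nat.mem_primeFactors.2 ⟨hq, hqW, hW⟩⟩⟩)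
  refine ⟨1 + M * (t.val : ℤ), h8, h1, ?_, ?_⟩
  · rw [← jacobiSym.legendreSym.to_jacobiSym, legendreSym.eq_neg_one_iff, hua]
    exact ha
  · apply coprime_of
    intro q hq hqW
    by_cases hq2 : q = 2
    · subst hq2
      exact not_dvd_of_one hq (dvd_trans (by norm_num) h8)
    · by_cases hqr : q = r
      · subst hqr
        rw [← ZMod.intCast_zmod_eq_zero_iff_dvd, hua]
        exact ha0
      · exact not_dvd_of_one hq (h1 q hq hqW hq2 hqr)

/-- the fixed residue at `2` -/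
lemma exists_u2 (W : ℕ) (hW : W ≠ 0) :
    ∃ u : ℤ, (8 : ℤ) ∣ u - 5 ∧ (∀ q : ℕ, q.Prime → q ∣ W → q ≠ 2 → (q : ℤ) ∣ u - 1) ∧
      IsCoprime u (W : ℤ) := by
  set M : ℤ := ∏ q ∈ W.primeFactors.erase 2, (q : ℤ) with hM
  have hodd : Odd M := by
    rw [hM]
    apply Finset.prod_induction (fun q : ℕ => (q : ℤ)) Odd
    · intro a b ha hb; exact ha.mul hb
    · exact odd_one
    · intro q hq
      have hqp : q.Prime := Nat.prime_of_mem_primeFactors (Finset.mem_of_mem_erase hq)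
      have := hqp.eq_two_or_odd'
      rcases this with h | h
      · exact absurd h (Finset.ne_of_mem_erase hq)
      · exact_mod_cast h
  have h1 : ∀ q : ℕ, q.Prime → q ∣ W → q ≠ 2 → (q : ℤ) ∣ (1 + 4 * M) - 1 := by
    intro q hq hqW hq2
    rw [add_sub_cancel_left]
    apply Dvd.dvd.mul_left
    exact Finset.dvd_prod_of_mem (fun q : ℕ => (q : ℤ))
      (Finset.mem_erase.2 ⟨hq2, Nat.mem_primeFactors.2 ⟨hq, hqW, hW⟩⟩)
  refine ⟨1 + 4 * M, ?_, h1, ?_⟩
  · obtain ⟨k, hk⟩ := hodd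
    exact ⟨k, by rw [hk]; ring⟩
  · apply coprime_of
    intro q hq hqW
    by_cases hq2 : q = 2
    · subst hq2
      apply not_dvd_of_one hq
      exact ⟨2 * M, by push_cast; ring⟩
    · exact not_dvd_of_one hq (h1 q hq hqW hq2)

variable {m d : ℕ} {G : ℤ[X]}

/-- the conclusion at one prime `r ∣ W` -/
lemma at_r (hEVD : Stmt_EVD) (hREC : Stmt_REC) (hREC5 : Stmt_REC5) (hJPR : Stmt_JPR)
    (hG : Adm d G) (W : ℕ) (hW0 : 0 < W) (h8 : 8 ∣ W)
    (hWG : ∀ q : ℕ, q.Prime → (q : ℤ) ∣ G.eval 0 → q ∣ W)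
    (hEXK : ∀ u : ℤ, IsCoprime u (W : ℤ) → ∃ l : ℤ[X], Nrm d G (C u + C (W : ℤ) * l) ≠ 0 ∧
        ∀ q : ℕ, q.Prime → (q : ℤ) ∣ Nrm d G (C u + C (W : ℤ) * l) → q ≡ 1 [MOD m] ∧ ¬ q ∣ W)
    (r : ℕ) (hr : r.Prime) (hrW : r ∣ W) :
    ∃ N0 : ℕ, ∀ (p Z : ℕ) (x : ℤ), N0 ≤ p → RecD m G W p Z x →
      Even ((G.eval x).natAbs.factorization p) →
      Even ((G.eval x).natAbs.factorization r + (G.eval 0).natAbs.factorization r) := by
  obtain ⟨W', hW'⟩ := h8
  by_cases hr2 : r = 2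
  · subst hr2
    obtain ⟨u, hu5, hu1, huW⟩ := exists_u2 W hW0.ne'
    obtain ⟨l, hl0, hl⟩ := hEXK u huW
    obtain ⟨u', hu'⟩ := hu5
    have hk : C u + C (W : ℤ) * l = 5 + C 8 * (C u' + C (W' : ℤ) * l) := by
      have e1 : u = 5 + 8 * u' := by linarith
      have e2 : (W : ℤ) = 8 * W' := by exact_mod_cast hW'
      rw [e1, e2]
      simp only [map_add, map_mul]
      have : (C (5 : ℤ) : ℤ[X]) = 5 := rfl
      rw [this]; ring
    refine ⟨(Nrm d G (C u + C (W : ℤ) * l)).natAbs + 1, fun p Z x hp hrec he => ?_⟩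
    obtain ⟨hpp, hpZ, hpW, hq1, hq2⟩ := hrec
    have hlt : ∀ q : ℕ, (q : ℤ) ∣ Nrm d G (C u + C (W : ℤ) * l) → q < p := by
      intro q hq
      have := Nat.le_of_dvd (Int.natAbs_pos.2 hl0) (Int.natCast_dvd.1 hq)
      omega
    have hR := hREC5 d G hG (C u' + C (W' : ℤ) * l) x (by rw [← hk]; exact hl0) (by
      intro q hq hqN
      rw [← hk] at hqN
      obtain ⟨h1, h2⟩ := hl q hq hqN
      have h3 := hlt q hqN
      exact ⟨hq1 q hq h1 (by omega) (by omega) h2, fun h => h2 (hWG q hq h)⟩)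
    rw [← hk] at hR
    obtain ⟨e1, e2⟩ := val_none hG W hW0 hWG hEVD hJPR u l hu1 p hpp x
      (fun h => (hlt p h).ne rfl) hq2 he
    rw [e1, e2, mul_one] at hR
    exact (neg_one_pow_eq_one_iff_even (by norm_num)).1 hR.symm
  · obtain ⟨u, hu8, hu1, hur, huW⟩ := exists_u r hr hr2 W hW0.ne'
    obtain ⟨l, hl0, hl⟩ := hEXK u huW
    obtain ⟨u', hu'⟩ := hu8
    have hk : C u + C (W : ℤ) * l = 1 + C 8 * (C u' + C (W' : ℤ) * l) := by
      have e1 : u = 1 + 8 * u' := by linarith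
      have e2 : (W : ℤ) = 8 * W' := by exact_mod_cast hW'
      rw [e1, e2]
      simp only [map_add, map_mul, map_one]
      ring
    refine ⟨(Nrm d G (C u + C (W : ℤ) * l)).natAbs + 1, fun p Z x hp hrec he => ?_⟩
    obtain ⟨hpp, hpZ, hpW, hq1, hq2⟩ := hrec
    have hlt : ∀ q : ℕ, (q : ℤ) ∣ Nrm d G (C u + C (W : ℤ) * l) → q < p := by
      intro q hq
      have := Nat.le_of_dvd (Int.natAbs_pos.2 hl0) (Int.natCast_dvd.1 hq)
      omega
    have hR := hREC d G hG (C u' + C (W' : ℤ) * l) x (by rw [← hk]; exact hl0) (by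
      intro q hq hqN
      rw [← hk] at hqN
      obtain ⟨h1, h2⟩ := hl q hq hqN
      have h3 := hlt q hqN
      exact ⟨hq1 q hq h1 (by omega) (by omega) h2, fun h => h2 (hWG q hq h)⟩)
    rw [← hk] at hR
    obtain ⟨e1, e2⟩ := val_of hG W hW0 hWG hEVD hJPR r hr hrW hr2 u l hu1 hur p hpp x
      (fun h => (hlt p h).ne rfl) hq2 hpW he
    rw [e1, e2] at hR
    exact neg_one_even hR

end main

end EVNAux

open EVNAux in
theorem stmt_EVN (hEVD : Stmt_EVD) (hEXK : Stmt_EXK) (hREC : Stmt_REC)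
    (hREC5 : Stmt_REC5) (hJPR : Stmt_JPR) : Stmt_EVN := by
  intro m d G hm hG hc
  obtain ⟨Q0, hQ0⟩ := hEXK m d G hm hG hc
  refine ⟨Q0, fun W hW => ?_⟩
  obtain ⟨hW0, h8, hQ, hWG⟩ := hW
  have hE := hQ0 W hW0 hQ
  have key : ∀ r : ℕ, ∃ N0 : ℕ, r.Prime → r ∣ W → ∀ (p Z : ℕ) (x : ℤ), N0 ≤ p →
      RecD m G W p Z x → Even ((G.eval x).natAbs.factorization p) →
      Even ((G.eval x).natAbs.factorization r + (G.eval 0).natAbs.factorization r) := by
    intro r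
    by_cases hr : r.Prime
    · by_cases hrW : r ∣ W
      · obtain ⟨N0, hN0⟩ := at_r hEVD hREC hREC5 hJPR hG W hW0 h8 hWG hE r hr hrW
        exact ⟨N0, fun _ _ => hN0⟩
      · exact ⟨0, fun _ h => absurd h hrW⟩
    · exact ⟨0, fun h _ => absurd h hr⟩
  choose N0 hN0 using key
  refine ⟨∑ r ∈ W.primeFactors, N0 r, fun p Z x hp hrec he => ?_⟩
  have hx := eval_pos hG x
  have h0 := eval_pos hG 0
  have hval : ∀ r : ℕ, r.Prime →
      Even ((G.eval x).natAbs.factorization r + (G.eval 0).natAbs.factorization r) := by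
    intro r hr
    by_cases hrW : r ∣ W
    · refine hN0 r hr hrW p Z x (le_trans ?_ hp) hrec he
      exact Finset.single_le_sum (f := N0) (fun _ _ => Nat.zero_le _)
        (Nat.mem_primeFactors.2 ⟨hr, hrW, hW0.ne'⟩)
    · have h1 : (G.eval 0).natAbs.factorization r = 0 := by
        apply Nat.factorization_eq_zero_of_not_dvd
        intro h
        exact hrW (hWG r hr (Int.natCast_dvd.2 h))
      rw [h1, add_zero]
      by_cases hrp : r = p
      · rw [hrp]; exact he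
      · have h2 : (G.eval x).natAbs.factorization r = 0 := by
          apply Nat.factorization_eq_zero_of_not_dvd
          intro h
          rcases hrec.2.2.2.2 r hr (Int.natCast_dvd.2 h) with h3 | h3
          · exact hrp h3
          · exact hrW h3
        rw [h2]; exact Even.zero
  have hN0' : (G.eval x).natAbs ≠ 0 := Int.natAbs_ne_zero.2 hx.ne'
  have hN0'' : (G.eval 0).natAbs ≠ 0 := Int.natAbs_ne_zero.2 h0.ne'
  have hsq := isSquare_of_even (mul_ne_zero hN0' hN0'') (by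
    intro r hr
    rw [Nat.factorization_mul hN0' hN0'']
    exact hval r hr)
  obtain ⟨c, hc'⟩ := hsq
  refine ⟨(c : ℤ), ?_⟩
  have h1 : (((G.eval x).natAbs * (G.eval 0).natAbs : ℕ) : ℤ) = (c : ℤ) * c := by
    exact_mod_cast hc'
  rw [← h1]
  push_cast
  rw [abs_of_pos hx, abs_of_pos h0]

end Pool.Agent.Work.GEM
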