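import Pool.Agent.Work.GEM.Interface

/-! # Block EXK (helper21) -/

set_option autoImplicit false

open Polynomial

namespace Pool.Agent.Work.GEM

namespace EXKAux

theorem pol_coeff {d : ℕ} (l : Fin d → ℕ) (n : ℕ) :
    (pol l).coeff n = if h : n < d then (l ⟨n, h⟩ : ℤ) else 0 := by
  unfold pol
  rw [finsetSum_coeff]
  simp only [coeff_C_mul, coeff_X_pow]
  split_ifs with h
  · rw [Finset.sum_eq_single ⟨n, h⟩]
    · simp
    · intro b _ hb
      rw [if_neg, mul_zero]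
      intro h'
      exact hb (Fin.ext h'.symm)
    · intro h'
      exact absurd (Finset.mem_univ _) h'
  · refine Finset.sum_eq_zero fun b _ => ?_
    rw [if_neg, mul_zero]
    intro h'
    exact h (h' ▸ b.2)

theorem natDegree_lt {d : ℕ} (hd : 0 < d) (u w : ℤ) (l : Fin d → ℕ) :
    (C u + C w * pol l).natDegree < d := by
  rw [Nat.lt_iff_le_pred hd, natDegree_le_iff_coeff_eq_zero]
  intro N hN
  have h : ¬ N < d := by omega
  have h0 : N ≠ 0 := by omega
  rw [coeff_add, coeff_C_mul, pol_coeff, dif_neg h, mul_zero, coeff_C, if_neg h0, add_zero]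

theorem card_Bx (d Y : ℕ) : (Bx d Y).card = Y ^ d := by
  simp [Bx, Fintype.card_piFinset]

end EXKAux

open EXKAux in
theorem stmt_EXK (hA : Stmt_ALG) (hNZ : Stmt_NZ) (hB : Stmt_BAD) : Stmt_EXK := by
  classical
  intro m d G hm hG hC
  obtain ⟨Q0, hQ0⟩ := hB m d G hm hG hC 2
  refine ⟨Q0 + 2, fun W hW hWp u hu => ?_⟩
  obtain ⟨Y0, hY0⟩ := hQ0 W hW (fun q hq hq' => hWp q hq (by omega)) u hu
  have h2 : 2 ∣ W := hWp 2 Nat.prime_two (by omega)
  have hd : 0 < d := by have := hG.2.2.1; omega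
  set Y := max Y0 1 with hY
  have hYpos : 0 < Y := by rw [hY]; omega
  have hbad := hY0 Y (le_max_left _ _)
  set F := (Bx d Y).filter (fun l => ∃ q : ℕ, q.Prime ∧
        (q : ℤ) ∣ Nrm d G (C u + C (W : ℤ) * pol l) ∧ ¬ q ≡ 1 [MOD m]) with hF
  have hlt : F.card < (Bx d Y).card := by
    rw [card_Bx]
    have : 0 < Y ^ d := by positivity
    omega
  have hex : ∃ l ∈ Bx d Y, l ∉ F := by
    by_contra hcon
    push Not at hcon
    have : (Bx d Y).card ≤ F.card := Finset.card_le_card hcon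
    omega
  obtain ⟨l, hl, hlF⟩ := hex
  have hgood : ∀ q : ℕ, q.Prime → (q : ℤ) ∣ Nrm d G (C u + C (W : ℤ) * pol l) →
      q ≡ 1 [MOD m] := by
    intro q hq hqN
    by_contra hcon
    exact hlF (Finset.mem_filter.2 ⟨hl, q, hq, hqN, hcon⟩)
  have hmon := hG.1
  have hdeg := hG.2.1
  refine ⟨pol l, ?_, fun q hq hqN => ⟨hgood q hq hqN, ?_⟩⟩
  · refine hNZ d G hmon hdeg hG.2.2.2.2.2 _ ?_ (natDegree_lt hd u W l)
    intro h0
    have h1 := congrArg (fun p : ℤ[X] => p.coeff 0) h0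
    simp only [coeff_add, coeff_C_zero, coeff_C_mul, coeff_zero] at h1
    have h3 : (W : ℤ) ∣ u := ⟨-(pol l).coeff 0, by linarith⟩
    have h4 : IsUnit (W : ℤ) := hu.isUnit_of_dvd' h3 (dvd_refl _)
    have h5 : W = 1 := by
      have := Int.isUnit_iff.1 h4
      omega
    omega
  · intro hqW
    obtain ⟨w, hw⟩ := hqW
    have h1 := hA.N_congr d G (C u + C (W : ℤ) * pol l) (C u) (C (w : ℤ) * pol l) (q : ℤ) hmon (by
      rw [hw]
      push_cast
      rw [C_mul]
      ring)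
    have h2' : Nrm d G (C u) = u ^ d := by
      have h3 := hA.N_C ℤ d G 1 u hmon
      rw [mul_one, hA.N_one ℤ d G hmon hdeg, mul_one] at h3
      exact h3
    rw [h2'] at h1
    have h3 : (q : ℤ) ∣ u ^ d := h1.dvd_iff.1 hqN
    have h4 : (q : ℤ) ∣ u := (Nat.prime_iff_prime_int.1 hq).dvd_of_dvd_pow h3
    have h5 : (q : ℤ) ∣ (W : ℤ) := by
      rw [hw]
      push_cast
      exact dvd_mul_right _ _
    have h6 : IsUnit (q : ℤ) := hu.isUnit_of_dvd' h4 h5
    exact (Nat.prime_iff_prime_int.1 hq).not_isUnit h6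

end Pool.Agent.Work.GEM
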