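import Pool.Agent.Work.GEM.Interface

/-! # Block FIN (helper96) -/

set_option autoImplicit false

open Polynomial

namespace Pool.Agent.Work.GEM

namespace FINAux

theorem isSquare_of_mul {c t : ℤ} (hc : c ≠ 0) (h : IsSquare (c ^ 2 * t)) : IsSquare t := by
  obtain ⟨s, hs⟩ := h
  have h1 : c ^ 2 ∣ s ^ 2 := ⟨t, by rw [sq s, ← hs]⟩
  have h2 : c ∣ s := (Int.pow_dvd_pow_iff two_ne_zero).1 h1
  obtain ⟨u, rfl⟩ := h2
  refine ⟨u, ?_⟩
  have h3 : c ^ 2 * t = c ^ 2 * (u * u) := by rw [hs]; ring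
  exact mul_left_cancel₀ (pow_ne_zero 2 hc) h3

theorem dvd_eval_zero {f : ℤ[X]} {q N : ℤ} (h1 : q ∣ N) (h2 : q ∣ f.eval N) : q ∣ f.eval 0 := by
  have h3 : N - 0 ∣ f.eval N - f.eval 0 := Polynomial.sub_dvd_eval_sub N 0 f
  have h4 : q ∣ f.eval N - f.eval 0 := (by simpa using h1 : q ∣ N - 0).trans h3
  have h5 := dvd_sub h2 h4
  simpa using h5

section

variable {f : ℤ[X]} {m : ℕ} {p : ℕ → ℕ}

theorem inj (hp : IsGEM2 f 1 m p) : Function.Injective p := by
  have key : ∀ i n, i < n → p i ≠ p n := by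
    intro i n hin h
    obtain ⟨⟨h1, h2, h3, h4⟩, -⟩ := hp n
    apply h4
    refine dvd_eval_zero ?_ h2
    rw [← h]
    exact Finset.dvd_prod_of_mem (fun i => (p i : ℤ)) (Finset.mem_range.2 hin)
  intro i j hij
  rcases lt_trichotomy i j with h | h | h
  · exact absurd hij (key i j h)
  · exact h
  · exact absurd hij.symm (key j i h)

theorem two_pow_le (hp : IsGEM2 f 1 m p) (n : ℕ) : 2 ^ n ≤ ∏ i ∈ Finset.range n, p i := by
  calc 2 ^ n = ∏ i ∈ Finset.range n, 2 := by simp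
    _ ≤ _ := Finset.prod_le_prod' fun i _ => (hp i).1.1.two_le

theorem prod_modEq (hp : IsGEM2 f 1 m p) (n : ℕ) : ∏ i ∈ Finset.range n, p i ≡ 1 [MOD m] := by
  induction n with
  | zero => simp [Nat.ModEq]
  | succ n ih =>
    rw [Finset.prod_range_succ]
    simpa using ih.mul (hp n).1.2.2.1

theorem coprime (hp : IsGEM2 f 1 m p) (n : ℕ) :
    IsCoprime ((∏ i ∈ Finset.range n, p i : ℕ) : ℤ) (f.eval 0) := by
  rw [Nat.cast_prod]
  apply IsCoprime.prod_left
  intro i _
  obtain ⟨⟨h1, h2, h3, h4⟩, -⟩ := hp i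
  exact (Int.isCoprime_iff_gcd_eq_one.2 (by
    have := (Nat.Prime.coprime_iff_not_dvd h1 (n := (f.eval 0).natAbs)).2 (fun h => h4 (by
      exact Int.natCast_dvd.2 h))
    simpa [Int.gcd] using this))

end

end FINAux

open FINAux in
theorem stmt_FIN (hODD : Stmt_ODD) (hEVN : Stmt_EVN) (hRUN : Stmt_RUN) (hRCD : Stmt_RCD)
    (hTRG : Stmt_TRG) (hROOT : Stmt_ROOT) : Stmt_FIN := by
  intro m f g hm hgf hirr hcyc hsq p hp
  by_contra hinf
  rw [Set.not_infinite] at hinf
  obtain ⟨hb, hg0, hadm, hcycG, hev⟩ := hTRG m g hm hirr hcyc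
  set G := g.integralNormalization with hG
  set d := g.natDegree with hd
  set b := g.leadingCoeff with hbdef
  have hm0 : 0 < m := by omega
  obtain ⟨δ, hδ0, hδ⟩ := hROOT m G hm0 hadm.1 hcycG
  obtain ⟨Q1, hQ1⟩ := hODD m d G hm0 hadm hcycG
  obtain ⟨Q2, hQ2⟩ := hEVN m d G hm0 hadm hcycG
  have hf0 : f.eval 0 ≠ 0 := by
    intro h
    obtain ⟨⟨h1, h2, h3, h4⟩, -⟩ := hp 0
    exact h4 (by rw [h]; exact dvd_zero _)
  have hG0 : G.eval 0 = b ^ (d - 1) * g.coeff 0 := by
    have := hev 0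
    rw [mul_zero] at this
    rw [this, coeff_zero_eq_eval_zero]
  set W : ℕ := 8 * (∏ q ∈ (Finset.range (max Q1 Q2 + 1)).filter Nat.Prime, q) *
    (b * g.coeff 0).natAbs * (f.eval 0).natAbs * δ * ∏ q ∈ hinf.toFinset, q with hW
  have hWpos : 0 < W := by
    have h1 : 0 < ∏ q ∈ (Finset.range (max Q1 Q2 + 1)).filter Nat.Prime, q :=
      Finset.prod_pos fun q hq => (Finset.mem_filter.1 hq).2.pos
    have h2 : 0 < (b * g.coeff 0).natAbs := Int.natAbs_pos.2 (mul_ne_zero hb hg0)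
    have h3 : 0 < (f.eval 0).natAbs := Int.natAbs_pos.2 hf0
    have h4 : 0 < ∏ q ∈ hinf.toFinset, q :=
      Finset.prod_pos fun q hq => ((Set.Finite.mem_toFinset _).1 hq).1.pos
    positivity
  have hW8 : 8 ∣ W := by
    rw [hW]
    exact ((((dvd_mul_right 8 _).mul_right _).mul_right _).mul_right _).mul_right _
  have hWQ : ∀ q : ℕ, q.Prime → q ≤ max Q1 Q2 → q ∣ W := by
    intro q hq hle
    have : q ∣ ∏ q ∈ (Finset.range (max Q1 Q2 + 1)).filter Nat.Prime, q :=
      Finset.dvd_prod_of_mem (fun q => q) (Finset.mem_filter.2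
        ⟨Finset.mem_range.2 (Nat.lt_succ_of_le hle), hq⟩)
    rw [hW]
    exact (((((this.mul_left 8).mul_right _).mul_right _).mul_right _).mul_right _)
  have hWb : ∀ q : ℕ, (q : ℤ) ∣ b * g.coeff 0 → q ∣ W := by
    intro q hq
    have : q ∣ (b * g.coeff 0).natAbs := Int.natCast_dvd.1 hq
    rw [hW]
    exact (((this.mul_left _).mul_right _).mul_right _).mul_right _
  have hWf : ∀ q : ℕ, (q : ℤ) ∣ f.eval 0 → q ∣ W := by
    intro q hq
    have : q ∣ (f.eval 0).natAbs := Int.natCast_dvd.1 hq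
    rw [hW]
    exact ((this.mul_left _).mul_right _).mul_right _
  have hWδ : ∀ q : ℕ, q ∣ δ → q ∣ W := by
    intro q hq
    rw [hW]
    exact (hq.mul_left _).mul_right _
  have hWS : ∀ q : ℕ, q.Prime → q ≡ 1 [MOD m] → (∀ n, p n ≠ q) → q ∣ W := by
    intro q h1 h2 h3
    have : q ∣ ∏ q ∈ hinf.toFinset, q :=
      Finset.dvd_prod_of_mem (fun q => q) ((Set.Finite.mem_toFinset _).2 ⟨h1, h2, h3⟩)
    rw [hW]
    exact this.mul_left _
  have hWG : ∀ q : ℕ, q.Prime → (q : ℤ) ∣ G.eval 0 → q ∣ W := by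
    intro q hq h
    rw [hG0] at h
    rcases (Nat.prime_iff_prime_int.1 hq).dvd_or_dvd h with h | h
    · exact hWb q (((Nat.prime_iff_prime_int.1 hq).dvd_of_dvd_pow h).mul_right _)
    · exact hWb q (h.mul_left _)
  obtain ⟨P1, hP1⟩ := hQ1 W ⟨hWpos, hW8, fun q hq hle => hWQ q hq (hle.trans (le_max_left _ _)),
    hWG⟩
  obtain ⟨P2, hP2⟩ := hQ2 W ⟨hWpos, hW8, fun q hq hle => hWQ q hq (hle.trans (le_max_right _ _)),
    hWG⟩
  have hrec : ∀ B : ℕ, ∃ n, B ≤ n ∧
      IsSquare (G.eval (b * ((∏ i ∈ Finset.range n, p i : ℕ) : ℤ)) * G.eval 0) := by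
    intro B
    obtain ⟨n, Z, hn, hpn, hpZ, hZ⟩ := hRCD p (inj hp) (max B (max (max P1 P2) (W + 1)))
    refine ⟨n, (le_max_left _ _).trans hn, ?_⟩
    have hN : ((∏ i ∈ Finset.range n, p i : ℕ) : ℤ) = ∏ i ∈ Finset.range n, (p i : ℤ) := by
      push_cast; rfl
    rw [hN]
    set N : ℤ := ∏ i ∈ Finset.range n, (p i : ℤ) with hNdef
    obtain ⟨⟨h1, h2, h3, h4⟩, h5⟩ := hp n
    have hB1 : P1 ≤ p n := ((le_max_left _ _).trans (le_max_left _ _)).trans
      ((le_max_right _ _).trans hpn)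
    have hB2 : P2 ≤ p n := ((le_max_right _ _).trans (le_max_left _ _)).trans
      ((le_max_right _ _).trans hpn)
    have hB3 : W + 1 ≤ p n := (le_max_right _ _).trans ((le_max_right _ _).trans hpn)
    have hdvdN : ∀ i, i < n → (p i : ℤ) ∣ N := fun i hi =>
      Finset.dvd_prod_of_mem (fun i => (p i : ℤ)) (Finset.mem_range.2 hi)
    have hR : RecD m G W (p n) Z (b * N) := by
      refine ⟨h1, hpZ, fun h => ?_, ?_, ?_⟩
      · exact absurd (Nat.le_of_dvd hWpos h) (by omega)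
      · intro q hq hqm hqZ hqp hqW
        have : ∃ i, p i = q := by
          by_contra hne
          push Not at hne
          exact hqW (hWS q hq hqm hne)
        obtain ⟨i, rfl⟩ := this
        have hin : i ≤ n := hZ i hqZ
        have hine : i ≠ n := fun h => hqp (by rw [h])
        exact (hdvdN i (lt_of_le_of_ne hin hine)).mul_left _
      · intro r hr hrG
        by_contra hcon
        push Not at hcon
        obtain ⟨hrp, hrW⟩ := hcon
        have hrprime := Nat.prime_iff_prime_int.1 hr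
        have hrm : r ≡ 1 [MOD m] := hδ r hr (fun h => hrW (hWδ r h)) _ hrG
        have hrg : (r : ℤ) ∣ g.eval N := by
          rw [hev] at hrG
          rcases hrprime.dvd_or_dvd hrG with h | h
          · exact absurd (hWb r ((hrprime.dvd_of_dvd_pow h).mul_right _)) hrW
          · exact h
        have hrf : (r : ℤ) ∣ f.eval N := hrg.trans (by
          obtain ⟨k, hk⟩ := hgf
          rw [hk, eval_mul]
          exact Dvd.intro _ rfl)
        have hrf0 : ¬ (r : ℤ) ∣ f.eval 0 := fun h => hrW (hWf r h)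
        have hle : r ≤ p n := h5 ⟨hr, hrf, hrm, hrf0⟩
        have : ∃ i, p i = r := by
          by_contra hne
          push Not at hne
          exact hrW (hWS r hr hrm hne)
        obtain ⟨i, hi⟩ := this
        have hin : i ≤ n := hZ i (by rw [hi]; exact hle.trans hpZ)
        have hine : i ≠ n := fun h => hrp (by rw [← hi, h])
        have hdv : (r : ℤ) ∣ N := by
          rw [← hi]
          exact hdvdN i (lt_of_le_of_ne hin hine)
        exact hrf0 (dvd_eval_zero hdv hrf)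
    exact hP2 (p n) Z (b * N) hB2 hR (hP1 (p n) Z (b * N) hB1 hR)
  rcases hsq with hsq | hfin
  · -- the square case
    have hfin := hRUN d G hadm
    have hsq0 : ∃ s : ℤ, s ≠ 0 ∧ G.eval 0 = s ^ 2 := by
      obtain ⟨s, hs⟩ := hsq
      obtain ⟨k, hk⟩ := hadm.2.2.2.1
      have hk1 : 1 ≤ k := by
        have := hadm.2.2.1
        omega
      refine ⟨b ^ (k - 1) * s, mul_ne_zero (pow_ne_zero _ hb) ?_, ?_⟩
      · rintro rfl
        exact mul_ne_zero hb hg0 (by simpa using hs)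
      · rw [hG0]
        have : d - 1 = (k - 1) + (k - 1) + 1 := by omega
        rw [this, pow_succ, pow_add]
        calc b ^ (k - 1) * b ^ (k - 1) * b * g.coeff 0
            = b ^ (k - 1) * b ^ (k - 1) * (b * g.coeff 0) := by ring
          _ = _ := by rw [hs]; ring
    obtain ⟨s, hs0, hs⟩ := hsq0
    obtain ⟨M, hM⟩ := (hfin.image Int.natAbs).bddAbove
    obtain ⟨n, hn, hsqn⟩ := hrec (M + 1)
    have hx : IsSquare (G.eval (b * ((∏ i ∈ Finset.range n, p i : ℕ) : ℤ))) := by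
      apply isSquare_of_mul hs0
      rw [mul_comm, ← hs]
      exact hsqn
    have h1 : (b * ((∏ i ∈ Finset.range n, p i : ℕ) : ℤ)).natAbs ≤ M :=
      hM ⟨_, hx, rfl⟩
    rw [Int.natAbs_mul, Int.natAbs_natCast] at h1
    have h2 : 1 ≤ b.natAbs := Int.natAbs_pos.2 hb
    have h3 := two_pow_le hp n
    have h4 : n < 2 ^ n := Nat.lt_two_pow_self
    have h5 : (∏ i ∈ Finset.range n, p i) ≤ b.natAbs * ∏ i ∈ Finset.range n, p i :=
      Nat.le_mul_of_pos_left _ h2
    omega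
  · obtain ⟨M, hM⟩ := hfin.bddAbove
    obtain ⟨n, hn, hsqn⟩ := hrec (M + 1)
    have hx : IsSquare (g.eval ((∏ i ∈ Finset.range n, p i : ℕ) : ℤ) * g.coeff 0) := by
      apply isSquare_of_mul (pow_ne_zero (d - 1) hb)
      have : (b ^ (d - 1)) ^ 2 * (g.eval ((∏ i ∈ Finset.range n, p i : ℕ) : ℤ) * g.coeff 0) =
          G.eval (b * ((∏ i ∈ Finset.range n, p i : ℕ) : ℤ)) * G.eval 0 := by
        rw [hG0, hev]; ring
      rw [this]
      exact hsqn
    have h1 : (∏ i ∈ Finset.range n, p i) ≤ M := hM ⟨prod_modEq hp n, coprime hp n, hx⟩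
    have h3 := two_pow_le hp n
    have h4 : n < 2 ^ n := Nat.lt_two_pow_self
    omega

end Pool.Agent.Work.GEM
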