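import Pool.Agent.Work.GEM.GFR

/-!
# MP_75c89d_nt: block G1T (helper81)
-/

set_option autoImplicit false

open Polynomial

namespace Pool.Agent.Work.GEM

namespace G1TAux

lemma GS1_eq (n : ℕ) (c s : ℤ) :
    GS1 n (s * c) = GS n (s • (Matrix.of fun _ _ => c : Matrix (Fin 1) (Fin 1) ℤ)) := by
  unfold GS1 GS
  by_cases hn : n = 0
  · rw [dif_pos hn, dif_pos hn]
  · rw [dif_neg hn, dif_neg hn]
    have : NeZero n := ⟨hn⟩
    rw [← (Equiv.funUnique (Fin 1) (ZMod n)).sum_comp]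
    refine Finset.sum_congr rfl fun z _ => ?_
    congr 1
    unfold qf
    simp

end G1TAux

theorem stmt_G1T : Stmt_G1T := by
  intro q k v g c hq hq2 hg hc hv
  obtain ⟨K, hK⟩ := GFRAux.main q k v 1 hq hq2 hv.le
  have hp : Prime (q : ℤ) := Nat.prime_iff_prime_int.mp hq
  have h1 : ∀ a : ℤ, ¬ (q : ℤ) ∣ a →
      GS1 ((q ^ k) ^ 2) ((q : ℤ) ^ v * a) = ((jacobiSym a q : ℤ) : ℂ) ^ v * K := by
    intro a ha
    rw [G1TAux.GS1_eq]
    have hdet : (Matrix.of fun _ _ => a : Matrix (Fin 1) (Fin 1) ℤ).det = a := by simp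
    have := hK (Matrix.of fun _ _ => a) (by ext i j; rfl) (by rwa [hdet])
    rwa [hdet] at this
  have h2 : ¬ (q : ℤ) ∣ g * c := fun h => (hp.dvd_or_dvd h).elim hg hc
  rw [mul_assoc, h1 (g * c) h2, h1 g hg, jacobiSym.mul_left]
  push_cast
  ring

end Pool.Agent.Work.GEM
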