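import Pool.Agent.Work.GEM.Interface

/-!
# MP_75c89d_nt: block GFR (helper81)
-/

set_option autoImplicit false

open Polynomial

namespace Pool.Agent.Work.GEM

namespace GFRAux

variable {n r : ℕ}

lemma char_sum {A ι : Type*} [AddCommMonoid A] (ψ : AddChar A ℂ) (s : Finset ι) (f : ι → A) :
    ψ (∑ i ∈ s, f i) = ∏ i ∈ s, ψ (f i) := by
  classical
  induction s using Finset.induction_on with
  | empty => simp
  | insert a s ha ih => rw [Finset.sum_insert ha, Finset.prod_insert ha,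
      AddChar.map_add_eq_mul, ih]

/-- orthogonality in dimension `r` -/
lemma sum_char_vec [NeZero n] (u : Fin r → ZMod n) :
    ∑ h : Fin r → ZMod n, ZMod.stdAddChar (∑ i, h i * u i) = if u = 0 then ((n : ℂ)) ^ r else 0 := by
  classical
  have h1 : ∀ h : Fin r → ZMod n, ZMod.stdAddChar (∑ i, h i * u i)
      = ∏ i, ZMod.stdAddChar (h i * u i) := by
    intro h
    rw [char_sum]
  simp_rw [h1]
  have h2 := Finset.prod_univ_sum (fun _ : Fin r => (Finset.univ : Finset (ZMod n)))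
    (fun i t => (ZMod.stdAddChar (t * u i) : ℂ))
  rw [Fintype.piFinset_univ] at h2
  rw [← h2]
  have h3 : ∀ i, ∑ t : ZMod n, (ZMod.stdAddChar (t * u i) : ℂ) = if u i = 0 then (n : ℂ) else 0 := by
    intro i
    rw [AddChar.sum_mulShift _ (ZMod.isPrimitive_stdAddChar n)]
    simp [ZMod.card]
  simp_rw [h3]
  by_cases hu : u = 0
  · simp [hu]
  · rw [if_neg hu]
    obtain ⟨i, hi⟩ := Function.ne_iff.mp hu
    exact Finset.prod_eq_zero (Finset.mem_univ i) (if_neg hi)

/-- expansion of the quadratic form -/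
lemma qf_add (A : Matrix (Fin r) (Fin r) ℤ) (hA : A.IsSymm) (z h : Fin r → ZMod n) (e : ZMod n) :
    qf A (fun i => z i + e * h i) = qf A z + 2 * e * bf A h z + e ^ 2 * qf A h := by
  have hs : ∀ i j, (A i j : ZMod n) = (A j i : ZMod n) := by
    intro i j
    have := congrFun (congrFun hA i) j
    rw [Matrix.transpose_apply] at this
    rw [this]
  have h1 : bf A h z = ∑ i, ∑ j, (A i j : ZMod n) * z i * h j := by
    unfold bf
    rw [Finset.sum_comm]
    refine Finset.sum_congr rfl fun i _ => Finset.sum_congr rfl fun j _ => ?_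
    rw [hs j i]; ring
  have h2 : 2 * e * bf A h z = ∑ i, ∑ j, (e * ((A i j : ZMod n) * z i * h j)
      + e * ((A i j : ZMod n) * h i * z j)) := by
    have : 2 * e * bf A h z = e * bf A h z + e * bf A h z := by ring
    rw [this]
    conv_lhs => 
      congr
      · rw [h1]
    unfold bf
    rw [Finset.mul_sum, Finset.mul_sum, ← Finset.sum_add_distrib]
    refine Finset.sum_congr rfl fun i _ => ?_
    rw [Finset.mul_sum, Finset.mul_sum, ← Finset.sum_add_distrib]
  rw [h2]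
  unfold qf
  rw [Finset.mul_sum, ← Finset.sum_add_distrib, ← Finset.sum_add_distrib]
  refine Finset.sum_congr rfl fun i _ => ?_
  rw [Finset.mul_sum, ← Finset.sum_add_distrib, ← Finset.sum_add_distrib]
  refine Finset.sum_congr rfl fun j _ => ?_
  ring

/-- the matrix applied to a vector mod `n` -/
def mv (A : Matrix (Fin r) (Fin r) ℤ) (z : Fin r → ZMod n) (i : Fin r) : ZMod n :=
  ∑ j, (A i j : ZMod n) * z j

lemma bf_eq (A : Matrix (Fin r) (Fin r) ℤ) (h z : Fin r → ZMod n) :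
    bf A h z = ∑ i, h i * mv A z i := by
  unfold bf mv
  refine Finset.sum_congr rfl fun i _ => ?_
  rw [Finset.mul_sum]
  refine Finset.sum_congr rfl fun j _ => ?_
  ring

lemma adj_mv (A : Matrix (Fin r) (Fin r) ℤ) (z : Fin r → ZMod n) (i : Fin r) :
    ∑ k, (A.adjugate i k : ZMod n) * mv A z k = (A.det : ZMod n) * z i := by
  have h1 : ∀ j, ∑ k, A.adjugate i k * A k j = A.det * (if i = j then 1 else 0) := by
    intro j
    have := congrFun (congrFun A.adjugate_mul i) j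
    rw [Matrix.mul_apply] at this
    rw [this, Matrix.smul_apply, Matrix.one_apply]
    rfl
  have h2 : ∑ k, (A.adjugate i k : ZMod n) * mv A z k =
      ∑ j, ((∑ k, A.adjugate i k * A k j : ℤ) : ZMod n) * z j := by
    unfold mv
    simp_rw [Finset.mul_sum]
    rw [Finset.sum_comm]
    refine Finset.sum_congr rfl fun j _ => ?_
    push_cast
    rw [Finset.sum_mul]
    refine Finset.sum_congr rfl fun k _ => ?_
    ring
  rw [h2]
  simp_rw [h1]
  simp

/-- the sums `F v A` -/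
noncomputable def F (n : ℕ) [NeZero n] (s : ZMod n) (A : Matrix (Fin r) (Fin r) ℤ) : ℂ :=
  ∑ z : Fin r → ZMod n, ZMod.stdAddChar (s * qf A z)

/-- the number of solutions of `q w = 0` -/
noncomputable def kap (n q : ℕ) (r : ℕ) [NeZero n] : ℂ :=
  ((Finset.univ.filter fun w : Fin r → ZMod n => ∀ i, (q : ZMod n) * w i = 0).card : ℂ)

lemma shift_step (q N v : ℕ) (hq : q.Prime) (hq2 : q ≠ 2) [NeZero (q ^ N)] (hv : v + 2 ≤ N)
    (A : Matrix (Fin r) (Fin r) ℤ) (hA : A.IsSymm) (hdet : ¬ (q : ℤ) ∣ A.det) :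
    F (q ^ N) ((q : ZMod (q ^ N)) ^ v) A =
      ∑ z : Fin r → ZMod (q ^ N), if (∀ i, (q : ZMod (q ^ N)) ^ (N - 1) * z i = 0) then
        ZMod.stdAddChar ((q : ZMod (q ^ N)) ^ v * qf A z) else (0 : ℂ) := by
  classical
  have hqN : (q : ZMod (q ^ N)) ^ N = 0 := by
    have := ZMod.natCast_self (q ^ N)
    push_cast at this
    exact this
  set e : ZMod (q ^ N) := (q : ZMod (q ^ N)) ^ (N - v - 1) with he
  have hn0 : ((q ^ N : ℕ) : ℂ) ≠ 0 := by
    exact_mod_cast NeZero.ne (q ^ N)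
  -- translate
  have h1 : ∀ h : Fin r → ZMod (q ^ N), F (q ^ N) ((q : ZMod (q ^ N)) ^ v) A =
      ∑ z : Fin r → ZMod (q ^ N), ZMod.stdAddChar ((q : ZMod (q ^ N)) ^ v * qf A z) *
        ZMod.stdAddChar (∑ i, h i * (2 * (q : ZMod (q ^ N)) ^ (N - 1) * mv A z i)) := by
    intro h
    unfold F
    rw [← Equiv.sum_comp (Equiv.addRight (fun i => e * h i))]
    refine Finset.sum_congr rfl fun z _ => ?_
    rw [← AddChar.map_add_eq_mul]
    congr 1
    have h2 : (Equiv.addRight (fun i => e * h i)) z = fun i => z i + e * h i := by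
      funext i; simp
    rw [h2, qf_add A hA, bf_eq]
    have h3 : ∑ i, h i * (2 * (q : ZMod (q ^ N)) ^ (N - 1) * mv A z i)
        = 2 * (q : ZMod (q ^ N)) ^ (N - 1) * ∑ i, h i * mv A z i := by
      rw [Finset.mul_sum]
      refine Finset.sum_congr rfl fun i _ => ?_
      ring
    rw [h3]
    have h4 : (q : ZMod (q ^ N)) ^ v * e = (q : ZMod (q ^ N)) ^ (N - 1) := by
      rw [he, ← pow_add]; congr 1; omega
    have h5 : (q : ZMod (q ^ N)) ^ v * e ^ 2 = 0 := by
      rw [he, ← pow_mul, ← pow_add]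
      have : v + (N - v - 1) * 2 = N + (N - v - 2) := by omega
      rw [this, pow_add, hqN, zero_mul]
    calc (q : ZMod (q ^ N)) ^ v * (qf A z + 2 * e * ∑ i, h i * mv A z i + e ^ 2 * qf A h)
        = (q : ZMod (q ^ N)) ^ v * qf A z +
          2 * ((q : ZMod (q ^ N)) ^ v * e) * ∑ i, h i * mv A z i +
            ((q : ZMod (q ^ N)) ^ v * e ^ 2) * qf A h := by ring
      _ = _ := by rw [h4, h5]; ring
  -- average
  have h2 : ((q ^ N : ℕ) : ℂ) ^ r * F (q ^ N) ((q : ZMod (q ^ N)) ^ v) A =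
      ∑ h : Fin r → ZMod (q ^ N), F (q ^ N) ((q : ZMod (q ^ N)) ^ v) A := by
    rw [Finset.sum_const, Finset.card_univ, Fintype.card_pi, nsmul_eq_mul]
    simp [ZMod.card]
  have h3 : ((q ^ N : ℕ) : ℂ) ^ r * F (q ^ N) ((q : ZMod (q ^ N)) ^ v) A =
      ∑ z : Fin r → ZMod (q ^ N), ZMod.stdAddChar ((q : ZMod (q ^ N)) ^ v * qf A z) *
        (if (fun i => 2 * (q : ZMod (q ^ N)) ^ (N - 1) * mv A z i) = 0 then
          ((q ^ N : ℕ) : ℂ) ^ r else 0) := by
    rw [h2]
    rw [Finset.sum_congr rfl (fun h _ => h1 h), Finset.sum_comm]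
    refine Finset.sum_congr rfl fun z _ => ?_
    rw [← Finset.mul_sum]
    congr 1
    exact sum_char_vec (n := q ^ N) (fun i => 2 * (q : ZMod (q ^ N)) ^ (N - 1) * mv A z i)
  have h4 : ∀ z : Fin r → ZMod (q ^ N),
      (fun i => 2 * (q : ZMod (q ^ N)) ^ (N - 1) * mv A z i) = 0 ↔
      ∀ i, (q : ZMod (q ^ N)) ^ (N - 1) * z i = 0 := by
    intro z
    constructor
    · intro h i
      have h5 : ∀ k, 2 * (q : ZMod (q ^ N)) ^ (N - 1) * mv A z k = 0 := fun k => congrFun h k
      have h6 : (2 * (A.det : ZMod (q ^ N))) * ((q : ZMod (q ^ N)) ^ (N - 1) * z i) = 0 := by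
        calc (2 * (A.det : ZMod (q ^ N))) * ((q : ZMod (q ^ N)) ^ (N - 1) * z i)
            = 2 * (q : ZMod (q ^ N)) ^ (N - 1) * ((A.det : ZMod (q ^ N)) * z i) := by ring
          _ = 2 * (q : ZMod (q ^ N)) ^ (N - 1) *
              ∑ k, (A.adjugate i k : ZMod (q ^ N)) * mv A z k := by rw [adj_mv]
          _ = ∑ k, (A.adjugate i k : ZMod (q ^ N)) *
              (2 * (q : ZMod (q ^ N)) ^ (N - 1) * mv A z k) := by
                rw [Finset.mul_sum]
                refine Finset.sum_congr rfl fun k _ => ?_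
                ring
          _ = 0 := by simp [h5]
      have h7 : IsUnit (2 * (A.det : ZMod (q ^ N))) := by
        have h8 : IsCoprime (2 * A.det) ((q : ℤ) ^ N) := by
          have hp : Prime (q : ℤ) := Nat.prime_iff_prime_int.mp hq
          apply IsCoprime.pow_right
          apply IsCoprime.symm
          rw [Prime.coprime_iff_not_dvd hp]
          intro hd
          rcases hp.dvd_or_dvd hd with hd | hd
          · have h9 : q ∣ 2 := by exact_mod_cast hd
            exact hq2 ((Nat.prime_dvd_prime_iff_eq hq Nat.prime_two).mp h9)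
          · exact hdet hd
        obtain ⟨a, b, hab⟩ := h8
        have h9 := congrArg (Int.cast : ℤ → ZMod (q ^ N)) hab
        rw [Int.cast_add, Int.cast_mul, Int.cast_mul b, Int.cast_pow, Int.cast_natCast, hqN,
          mul_zero, add_zero, Int.cast_one, Int.cast_mul, Int.cast_ofNat] at h9
        exact IsUnit.of_mul_eq_one_right _ h9
      exact (h7.mul_right_eq_zero).mp h6
    · intro h
      funext i
      have : mv A (fun j => (q : ZMod (q ^ N)) ^ (N - 1) * z j) i = 0 := by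
        unfold mv
        simp [h]
      have h6 : mv A (fun j => (q : ZMod (q ^ N)) ^ (N - 1) * z j) i =
          (q : ZMod (q ^ N)) ^ (N - 1) * mv A z i := by
        unfold mv
        rw [Finset.mul_sum]
        refine Finset.sum_congr rfl fun j _ => ?_
        ring
      rw [h6] at this
      simp only [Pi.zero_apply]
      rw [mul_assoc, this, mul_zero]
  have h5 : ((q ^ N : ℕ) : ℂ) ^ r * F (q ^ N) ((q : ZMod (q ^ N)) ^ v) A =
      ((q ^ N : ℕ) : ℂ) ^ r * ∑ z : Fin r → ZMod (q ^ N),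
        if (∀ i, (q : ZMod (q ^ N)) ^ (N - 1) * z i = 0) then
        ZMod.stdAddChar ((q : ZMod (q ^ N)) ^ v * qf A z) else (0 : ℂ) := by
    rw [h3, Finset.mul_sum]
    refine Finset.sum_congr rfl fun z _ => ?_
    by_cases hz : ∀ i, (q : ZMod (q ^ N)) ^ (N - 1) * z i = 0
    · rw [if_pos hz, if_pos ((h4 z).mpr hz)]; ring
    · rw [if_neg hz, if_neg (fun h => hz ((h4 z).mp h))]; ring
  exact mul_left_cancel₀ (pow_ne_zero r hn0) h5

/-- multiples of `q` -/
lemma mult_iff (q N : ℕ) (hq : q.Prime) (hN : 1 ≤ N) [NeZero (q ^ N)] (z : ZMod (q ^ N)) :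
    (q : ZMod (q ^ N)) ^ (N - 1) * z = 0 ↔ ∃ w, (q : ZMod (q ^ N)) * w = z := by
  have hqN : (q : ZMod (q ^ N)) ^ N = 0 := by
    have := ZMod.natCast_self (q ^ N)
    push_cast at this
    exact this
  constructor
  · intro h
    have h1 : ((q ^ (N - 1) * z.val : ℕ) : ZMod (q ^ N)) = 0 := by
      push_cast
      rw [ZMod.natCast_zmod_val, h]
    rw [ZMod.natCast_eq_zero_iff] at h1
    have h2 : q ^ N = q ^ (N - 1) * q := by
      rw [← pow_succ]; congr 1; omega
    have h1' : q ^ (N - 1) * q ∣ q ^ (N - 1) * z.val := h2 ▸ h1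
    have h3 : q ∣ z.val := Nat.dvd_of_mul_dvd_mul_left (pow_pos hq.pos _) h1'
    obtain ⟨c, hc⟩ := h3
    refine ⟨(c : ZMod (q ^ N)), ?_⟩
    rw [← ZMod.natCast_zmod_val z, hc]
    push_cast
    rfl
  · rintro ⟨w, rfl⟩
    rw [← mul_assoc, ← pow_succ]
    have : N - 1 + 1 = N := by omega
    rw [this, hqN, zero_mul]

lemma fiber_step (q N : ℕ) (hq : q.Prime) (hN : 1 ≤ N) [NeZero (q ^ N)]
    (g : (Fin r → ZMod (q ^ N)) → ℂ) :
    ∑ w : Fin r → ZMod (q ^ N), g (fun i => (q : ZMod (q ^ N)) * w i) =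
      kap (q ^ N) q r * ∑ z : Fin r → ZMod (q ^ N),
        if (∀ i, (q : ZMod (q ^ N)) ^ (N - 1) * z i = 0) then g z else 0 := by
  classical
  rw [Finset.mul_sum]
  rw [← Finset.sum_fiberwise' (s := (Finset.univ : Finset (Fin r → ZMod (q ^ N))))
    (fun w : Fin r → ZMod (q ^ N) => (fun i => (q : ZMod (q ^ N)) * w i)) g]
  refine Finset.sum_congr rfl fun z _ => ?_
  rw [Finset.sum_const, nsmul_eq_mul]
  by_cases hz : ∀ i, (q : ZMod (q ^ N)) ^ (N - 1) * z i = 0
  · rw [if_pos hz]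
    congr 1
    unfold kap
    congr 1
    have h1 : ∀ i, ∃ w, (q : ZMod (q ^ N)) * w = z i := fun i => (mult_iff q N hq hN _).mp (hz i)
    choose w0 hw0 using h1
    symm
    apply Finset.card_bij (fun w _ => w + w0)
    · intro w hw
      rw [Finset.mem_filter] at hw ⊢
      refine ⟨Finset.mem_univ _, ?_⟩
      funext i
      simp only [Pi.add_apply]
      rw [mul_add, hw.2 i, hw0, zero_add]
    · intro w _ w' _ h
      exact add_right_cancel h
    · intro w hw
      rw [Finset.mem_filter] at hw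
      refine ⟨w - w0, ?_, by simp⟩
      rw [Finset.mem_filter]
      refine ⟨Finset.mem_univ _, fun i => ?_⟩
      have := congrFun hw.2 i
      rw [Pi.sub_apply, mul_sub, this, hw0, sub_self]
  · rw [if_neg hz, mul_zero]
    have : (Finset.univ.filter fun w : Fin r → ZMod (q ^ N) =>
        (fun i => (q : ZMod (q ^ N)) * w i) = z) = ∅ := by
      rw [Finset.filter_eq_empty_iff]
      intro w _ h
      apply hz
      intro i
      exact (mult_iff q N hq hN _).mpr ⟨w i, congrFun h i⟩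
    rw [this]
    simp

lemma qf_smul (A : Matrix (Fin r) (Fin r) ℤ) (c : ZMod n) (z : Fin r → ZMod n) :
    qf A (fun i => c * z i) = c ^ 2 * qf A z := by
  unfold qf
  rw [Finset.mul_sum]
  refine Finset.sum_congr rfl fun i _ => ?_
  rw [Finset.mul_sum]
  refine Finset.sum_congr rfl fun j _ => ?_
  ring

/-- the recursion -/
lemma F_step (q N v : ℕ) (hq : q.Prime) (hq2 : q ≠ 2) [NeZero (q ^ N)] (hv : v + 2 ≤ N)
    (A : Matrix (Fin r) (Fin r) ℤ) (hA : A.IsSymm) (hdet : ¬ (q : ℤ) ∣ A.det) :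
    F (q ^ N) ((q : ZMod (q ^ N)) ^ (v + 2)) A =
      kap (q ^ N) q r * F (q ^ N) ((q : ZMod (q ^ N)) ^ v) A := by
  rw [shift_step q N v hq hq2 hv A hA hdet]
  rw [← fiber_step q N hq (by omega)
    (fun z => (ZMod.stdAddChar ((q : ZMod (q ^ N)) ^ v * qf A z) : ℂ))]
  unfold F
  refine Finset.sum_congr rfl fun z _ => ?_
  rw [qf_smul]
  congr 1
  rw [pow_add]; ring

lemma F_iter (q N v j : ℕ) (hq : q.Prime) (hq2 : q ≠ 2) [NeZero (q ^ N)] (hv : v + 2 * j ≤ N)
    (A : Matrix (Fin r) (Fin r) ℤ) (hA : A.IsSymm) (hdet : ¬ (q : ℤ) ∣ A.det) :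
    F (q ^ N) ((q : ZMod (q ^ N)) ^ (v + 2 * j)) A =
      kap (q ^ N) q r ^ j * F (q ^ N) ((q : ZMod (q ^ N)) ^ v) A := by
  induction j with
  | zero => simp
  | succ j ih =>
    have h1 : v + 2 * (j + 1) = (v + 2 * j) + 2 := by ring
    rw [h1, F_step q N (v + 2 * j) hq hq2 (by omega) A hA hdet, ih (by omega)]
    ring

lemma kap_ne (n q r : ℕ) [NeZero n] : kap n q r ≠ 0 := by
  unfold kap
  have : 0 < (Finset.univ.filter fun w : Fin r → ZMod n => ∀ i, (q : ZMod n) * w i = 0).card := by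
    apply Finset.card_pos.mpr
    exact ⟨0, by simp⟩
  exact_mod_cast this.ne'

/-! ### Reduction to `ZMod q` -/

lemma char_red (q N : ℕ) (hq : q.Prime) (hN : 1 ≤ N) [NeZero (q ^ N)] [NeZero q]
    (x : ZMod (q ^ N)) :
    (ZMod.stdAddChar ((q : ZMod (q ^ N)) ^ (N - 1) * x) : ℂ) =
      ZMod.stdAddChar (ZMod.castHom (dvd_pow_self q (by omega : N ≠ 0)) (ZMod q) x) := by
  obtain ⟨m, rfl⟩ := ZMod.intCast_surjective x
  have h1 : (q : ZMod (q ^ N)) ^ (N - 1) * (m : ZMod (q ^ N)) =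
      (((q : ℤ) ^ (N - 1) * m : ℤ) : ZMod (q ^ N)) := by push_cast; rfl
  have h0 : (ZMod.castHom (dvd_pow_self q (by omega : N ≠ 0)) (ZMod q)) (m : ZMod (q ^ N)) =
      (m : ZMod q) := map_intCast _ m
  rw [h1, h0, ZMod.stdAddChar_coe, ZMod.stdAddChar_coe]
  congr 1
  have hq0 : (q : ℂ) ≠ 0 := by exact_mod_cast hq.ne_zero
  have h2 : ((q ^ N : ℕ) : ℂ) = (q : ℂ) ^ (N - 1) * q := by
    push_cast
    rw [← pow_succ]; congr 1; omega
  rw [h2]
  push_cast
  field_simp

/-- the size of the kernel of the reduction -/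
noncomputable def kap0 (q N : ℕ) (hN : N ≠ 0) (r : ℕ) [NeZero (q ^ N)] [NeZero q] : ℂ :=
  ((Finset.univ.filter fun w : Fin r → ZMod (q ^ N) =>
    ∀ i, ZMod.castHom (dvd_pow_self q hN) (ZMod q) (w i) = 0).card : ℂ)

lemma fiber_red (q N : ℕ) (hN : N ≠ 0) [NeZero (q ^ N)] [NeZero q]
    (g : (Fin r → ZMod q) → ℂ) :
    ∑ w : Fin r → ZMod (q ^ N), g (fun i => ZMod.castHom (dvd_pow_self q hN) (ZMod q) (w i)) =
      kap0 q N hN r * ∑ z : Fin r → ZMod q, g z := by
  classical
  rw [Finset.mul_sum]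
  rw [← Finset.sum_fiberwise' (s := (Finset.univ : Finset (Fin r → ZMod (q ^ N))))
    (fun w : Fin r → ZMod (q ^ N) =>
      (fun i => ZMod.castHom (dvd_pow_self q hN) (ZMod q) (w i))) g]
  refine Finset.sum_congr rfl fun z _ => ?_
  rw [Finset.sum_const, nsmul_eq_mul]
  congr 1
  unfold kap0
  congr 1
  have h1 : ∀ i, ∃ w, ZMod.castHom (dvd_pow_self q hN) (ZMod q) w = z i := fun i =>
    ZMod.castHom_surjective (dvd_pow_self q hN) (z i)
  choose w0 hw0 using h1
  symm
  apply Finset.card_bij (fun w _ => w + w0)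
  · intro w hw
    rw [Finset.mem_filter] at hw ⊢
    refine ⟨Finset.mem_univ _, ?_⟩
    funext i
    simp only [Pi.add_apply]
    rw [map_add, hw.2 i, hw0, zero_add]
  · intro w _ w' _ h
    exact add_right_cancel h
  · intro w hw
    rw [Finset.mem_filter] at hw
    refine ⟨w - w0, ?_, by simp⟩
    rw [Finset.mem_filter]
    refine ⟨Finset.mem_univ _, fun i => ?_⟩
    have := congrFun hw.2 i
    rw [Pi.sub_apply, map_sub, this, hw0, sub_self]

lemma F_red (q N : ℕ) (hq : q.Prime) (hN : N ≠ 0) [NeZero (q ^ N)] [NeZero q]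
    (A : Matrix (Fin r) (Fin r) ℤ) :
    F (q ^ N) ((q : ZMod (q ^ N)) ^ (N - 1)) A =
      kap0 q N hN r * ∑ z : Fin r → ZMod q, (ZMod.stdAddChar (qf A z) : ℂ) := by
  rw [← fiber_red q N hN (fun z => (ZMod.stdAddChar (qf A z) : ℂ))]
  unfold F
  refine Finset.sum_congr rfl fun z _ => ?_
  rw [char_red q N hq (by omega)]
  congr 1
  unfold qf
  rw [map_sum]
  refine Finset.sum_congr rfl fun i _ => ?_
  rw [map_sum]
  refine Finset.sum_congr rfl fun j _ => ?_
  rw [map_mul, map_mul, map_intCast]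

/-! ### Gauss sums over `ZMod q` -/

lemma one_dim (q : ℕ) [Fact q.Prime] (hq2 : q ≠ 2) (c : ZMod q) (hc : c ≠ 0) :
    ∑ s : ZMod q, (ZMod.stdAddChar (c * s ^ 2) : ℂ) =
      ((quadraticChar (ZMod q) c : ℤ) : ℂ) *
        ∑ a : ZMod q, ((quadraticChar (ZMod q) a : ℤ) : ℂ) * ZMod.stdAddChar a := by
  classical
  have hchar : ringChar (ZMod q) ≠ 2 := by rwa [ZMod.ringChar_zmod_n]
  rw [← Finset.sum_fiberwise' (s := (Finset.univ : Finset (ZMod q))) (fun s : ZMod q => s ^ 2)
    (fun a => (ZMod.stdAddChar (c * a) : ℂ))]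
  have h1 : ∀ a : ZMod q, ∑ i ∈ Finset.univ.filter (fun s : ZMod q => s ^ 2 = a),
      (ZMod.stdAddChar (c * a) : ℂ) =
      ((quadraticChar (ZMod q) a : ℤ) : ℂ) * ZMod.stdAddChar (c * a) +
        ZMod.stdAddChar (a * c) := by
    intro a
    rw [Finset.sum_const, nsmul_eq_mul]
    have h2 := quadraticChar_card_sqrts hchar a
    have h3 : ({x : ZMod q | x ^ 2 = a}.toFinset) =
        Finset.univ.filter (fun s : ZMod q => s ^ 2 = a) := by
      ext x; simp
    rw [h3] at h2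
    have h4 : ((Finset.univ.filter (fun s : ZMod q => s ^ 2 = a)).card : ℂ) =
        ((quadraticChar (ZMod q) a : ℤ) : ℂ) + 1 := by
      exact_mod_cast h2
    rw [h4, mul_comm a c]; ring
  rw [Finset.sum_congr rfl (fun a _ => h1 a), Finset.sum_add_distrib]
  have h5 : ∑ a : ZMod q, (ZMod.stdAddChar (a * c) : ℂ) = 0 := by
    rw [AddChar.sum_mulShift _ (ZMod.isPrimitive_stdAddChar q), if_neg hc, Nat.cast_zero]
  rw [h5, add_zero]
  have h6 : ((quadraticChar (ZMod q) c : ℤ) : ℂ) * ((quadraticChar (ZMod q) c : ℤ) : ℂ) = 1 := by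
    have := quadraticChar_sq_one (F := ZMod q) hc
    rw [← sq]
    exact_mod_cast this
  rw [Finset.mul_sum]
  rw [← Equiv.sum_comp (Equiv.mulLeft₀ c hc)
    (fun a => ((quadraticChar (ZMod q) c : ℤ) : ℂ) *
      (((quadraticChar (ZMod q) a : ℤ) : ℂ) * ZMod.stdAddChar a))]
  refine Finset.sum_congr rfl fun a _ => ?_
  have h7 : (Equiv.mulLeft₀ c hc) a = c * a := rfl
  have h8 : ((quadraticChar (ZMod q) (c * a) : ℤ) : ℂ) =
      ((quadraticChar (ZMod q) c : ℤ) : ℂ) * ((quadraticChar (ZMod q) a : ℤ) : ℂ) := by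
    rw [map_mul]; push_cast; rfl
  rw [h7, h8]
  linear_combination (-(((quadraticChar (ZMod q) a : ℤ) : ℂ) * ZMod.stdAddChar (c * a))) * h6

/-- the quadratic form over a ring -/
lemma diag_exists (K : Type) [Field K] (h2 : (2 : K) ≠ 0) (M : Matrix (Fin r) (Fin r) K)
    (hM : M.IsSymm) : ∃ (P : Matrix (Fin r) (Fin r) K) (c : Fin r → K), P.det ≠ 0 ∧
      P.transpose * M * P = Matrix.diagonal c := by
  classical
  have : Invertible (2 : K) := invertibleOfNonzero h2
  set B : LinearMap.BilinForm K (Fin r → K) := Matrix.toBilin' M with hB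
  have hBs : LinearMap.IsSymm B := by
    constructor
    intro x y
    have h9 : B x y = B y x := by
      simp only [hB, Matrix.toBilin'_apply]
      rw [Finset.sum_comm]
      refine Finset.sum_congr rfl fun i _ => Finset.sum_congr rfl fun j _ => ?_
      have : M j i = M i j := by
        have := congrFun (congrFun hM i) j
        rwa [Matrix.transpose_apply] at this
      rw [this]; ring
    exact h9
  obtain ⟨v', hv'⟩ := LinearMap.BilinForm.exists_orthogonal_basis hBs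
  have hfr : Module.finrank K (Fin r → K) = r := Module.finrank_fin_fun K
  let v : Module.Basis (Fin r) K (Fin r → K) := v'.reindex (finCongr hfr)
  have hv : ∀ i j, i ≠ j → B (v i) (v j) = 0 := by
    intro i j hij
    have := hv' (i := (finCongr hfr).symm i) (j := (finCongr hfr).symm j)
      (fun h => hij ((finCongr hfr).symm.injective h))
    simpa [v] using this
  refine ⟨Matrix.of (fun i j => v j i), fun i => B (v i) (v i), ?_, ?_⟩
  · have h1 : IsUnit ((Pi.basisFun K (Fin r)).det v) := (Pi.basisFun K (Fin r)).isUnit_det v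
    have h2 : (Pi.basisFun K (Fin r)).det v = Matrix.det (Matrix.of (fun i j => v j i)) := by
      rw [Module.Basis.det_apply]
      congr 1
    rw [h2] at h1
    exact h1.ne_zero
  · ext i j
    have h1 : (Matrix.transpose (Matrix.of (fun i j => v j i)) * M *
        Matrix.of (fun i j => v j i)) i j = B (v i) (v j) := by
      simp only [hB, Matrix.toBilin'_apply, Matrix.mul_apply, Matrix.transpose_apply,
        Matrix.of_apply]
      rw [Finset.sum_comm]
      refine Finset.sum_congr rfl fun a _ => ?_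
      rw [Finset.sum_mul]
    rw [h1]
    by_cases hij : i = j
    · subst hij; simp
    · rw [Matrix.diagonal_apply_ne _ hij]; exact hv i j hij

lemma field_sum (q : ℕ) [Fact q.Prime] (hq2 : q ≠ 2) (A : Matrix (Fin r) (Fin r) ℤ)
    (hA : A.IsSymm) (hdet : ¬ (q : ℤ) ∣ A.det) :
    ∑ z : Fin r → ZMod q, (ZMod.stdAddChar (qf A z) : ℂ) =
      ((jacobiSym A.det q : ℤ) : ℂ) *
        (∑ a : ZMod q, ((quadraticChar (ZMod q) a : ℤ) : ℂ) * ZMod.stdAddChar a) ^ r := by
  classical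
  set M : Matrix (Fin r) (Fin r) (ZMod q) := A.map (Int.castRingHom (ZMod q)) with hM
  have hMs : M.IsSymm := by
    rw [hM]
    exact hA.map _
  have h2 : (2 : ZMod q) ≠ 0 := by
    intro h
    have : ((2 : ℕ) : ZMod q) = 0 := by exact_mod_cast h
    rw [ZMod.natCast_eq_zero_iff] at this
    exact hq2 ((Nat.prime_dvd_prime_iff_eq Fact.out Nat.prime_two).mp this)
  obtain ⟨P, c, hP, hPc⟩ := diag_exists (ZMod q) h2 M hMs
  have hMdet : M.det = ((A.det : ℤ) : ZMod q) := by
    rw [hM]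
    have := (Int.castRingHom (ZMod q)).map_det A
    rw [RingHom.mapMatrix_apply] at this
    rw [← this]; rfl
  have hMd0 : M.det ≠ 0 := by
    rw [hMdet]
    intro h
    exact hdet ((ZMod.intCast_zmod_eq_zero_iff_dvd _ _).mp h)
  have hcd : P.det ^ 2 * M.det = ∏ i, c i := by
    have := congrArg Matrix.det hPc
    rw [Matrix.det_mul, Matrix.det_mul, Matrix.det_transpose, Matrix.det_diagonal] at this
    rw [← this]; ring
  have hc0 : ∀ i, c i ≠ 0 := by
    have : ∏ i, c i ≠ 0 := by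
      rw [← hcd]; exact mul_ne_zero (pow_ne_zero 2 hP) hMd0
    intro i
    exact (Finset.prod_ne_zero_iff.mp this) i (Finset.mem_univ i)
  have hPu : IsUnit P.det := isUnit_iff_ne_zero.mpr hP
  -- change of variables
  have hqf : ∀ z : Fin r → ZMod q, qf A z = z ⬝ᵥ (M.mulVec z) := by
    intro z
    unfold qf
    simp only [dotProduct, Matrix.mulVec]
    refine Finset.sum_congr rfl fun i _ => ?_
    rw [Finset.mul_sum]
    refine Finset.sum_congr rfl fun j _ => ?_
    rw [hM, Matrix.map_apply]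
    simp only [Int.coe_castRingHom]
    ring
  have hcv : ∀ s : Fin r → ZMod q, qf A (P.mulVec s) = ∑ i, c i * s i ^ 2 := by
    intro s
    rw [hqf]
    have h3 : (P.mulVec s) ⬝ᵥ (M.mulVec (P.mulVec s)) = s ⬝ᵥ ((P.transpose * M * P).mulVec s) := by
      rw [← Matrix.mulVec_mulVec, ← Matrix.mulVec_mulVec, Matrix.dotProduct_mulVec s,
        Matrix.vecMul_transpose]
    rw [h3, hPc]
    simp only [dotProduct, Matrix.mulVec_diagonal]
    refine Finset.sum_congr rfl fun i _ => ?_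
    ring
  have hbij : Function.Bijective (fun s : Fin r → ZMod q => P.mulVec s) := by
    have : Function.Injective (fun s : Fin r → ZMod q => P.mulVec s) :=
      Matrix.mulVec_injective_of_isUnit ((Matrix.isUnit_iff_isUnit_det P).mpr hPu)
    exact Finite.injective_iff_bijective.mp this
  have h4 : ∑ z : Fin r → ZMod q, (ZMod.stdAddChar (qf A z) : ℂ) =
      ∑ s : Fin r → ZMod q, (ZMod.stdAddChar (∑ i, c i * s i ^ 2) : ℂ) := by
    rw [← (Equiv.ofBijective _ hbij).sum_comp]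
    refine Finset.sum_congr rfl fun s _ => ?_
    rw [Equiv.ofBijective_apply, hcv]
  rw [h4]
  have h5 : ∑ s : Fin r → ZMod q, (ZMod.stdAddChar (∑ i, c i * s i ^ 2) : ℂ) =
      ∏ i, ∑ t : ZMod q, (ZMod.stdAddChar (c i * t ^ 2) : ℂ) := by
    have h6 := Finset.prod_univ_sum (fun _ : Fin r => (Finset.univ : Finset (ZMod q)))
      (fun i t => (ZMod.stdAddChar (c i * t ^ 2) : ℂ))
    rw [Fintype.piFinset_univ] at h6
    rw [h6]
    refine Finset.sum_congr rfl fun s _ => ?_
    rw [char_sum]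
  rw [h5, Finset.prod_congr rfl (fun i _ => one_dim q hq2 (c i) (hc0 i)),
    Finset.prod_mul_distrib, Finset.prod_const, Finset.card_univ, Fintype.card_fin]
  congr 1
  have h6 : ∏ i, ((quadraticChar (ZMod q) (c i) : ℤ) : ℂ) =
      ((quadraticChar (ZMod q) (∏ i, c i) : ℤ) : ℂ) := by
    rw [map_prod]; push_cast; rfl
  rw [h6, ← hcd, map_mul, map_pow, quadraticChar_sq_one hP, one_mul, hMdet,
    ← jacobiSym.legendreSym.to_jacobiSym]
  rfl

/-! ### The main statement -/

lemma GS_eq_F (q N v : ℕ) [hn : NeZero (q ^ N)] (A : Matrix (Fin r) (Fin r) ℤ) :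
    GS (q ^ N) ((q : ℤ) ^ v • A) = F (q ^ N) ((q : ZMod (q ^ N)) ^ v) A := by
  unfold GS
  rw [dif_neg hn.out]
  unfold F
  refine Finset.sum_congr rfl fun z _ => ?_
  congr 1
  unfold qf
  rw [Finset.mul_sum]
  refine Finset.sum_congr rfl fun i _ => ?_
  rw [Finset.mul_sum]
  refine Finset.sum_congr rfl fun j _ => ?_
  rw [Matrix.smul_apply, smul_eq_mul, Int.cast_mul, Int.cast_pow, Int.cast_natCast]
  ring

theorem main (q k v r : ℕ) (hq : q.Prime) (hq2 : q ≠ 2) (hv : v ≤ 2 * k) :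
    ∃ K : ℂ, ∀ A : Matrix (Fin r) (Fin r) ℤ, A.IsSymm → ¬ (q : ℤ) ∣ A.det →
      GS ((q ^ k) ^ 2) ((q : ℤ) ^ v • A) = ((jacobiSym A.det q : ℤ) : ℂ) ^ v * K := by
  have hnn : (q ^ k) ^ 2 = q ^ (2 * k) := by rw [← pow_mul]; congr 1; ring
  rw [hnn]
  have : Fact q.Prime := ⟨hq⟩
  have : NeZero (q ^ (2 * k)) := ⟨pow_ne_zero _ hq.ne_zero⟩
  have : NeZero q := ⟨hq.ne_zero⟩
  have hqN : (q : ZMod (q ^ (2 * k))) ^ (2 * k) = 0 := by
    have := ZMod.natCast_self (q ^ (2 * k))
    push_cast at this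
    exact this
  have hsq : ∀ A : Matrix (Fin r) (Fin r) ℤ, ¬ (q : ℤ) ∣ A.det →
      ((jacobiSym A.det q : ℤ) : ℂ) ^ 2 = 1 := by
    intro A hA
    rw [← jacobiSym.legendreSym.to_jacobiSym]
    have h0 : ((A.det : ℤ) : ZMod q) ≠ 0 := by
      intro h
      exact hA ((ZMod.intCast_zmod_eq_zero_iff_dvd _ _).mp h)
    have := legendreSym.sq_one q h0
    exact_mod_cast this
  rcases Nat.even_or_odd' v with ⟨j, hj | hj⟩
  · -- even
    refine ⟨kap (q ^ (2 * k)) q r ^ j * (kap (q ^ (2 * k)) q r ^ k)⁻¹ *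
      ∑ z : Fin r → ZMod (q ^ (2 * k)), (ZMod.stdAddChar (0 : ZMod (q ^ (2 * k))) : ℂ), ?_⟩
    intro A hA hdet
    rw [GS_eq_F]
    have h1 := F_iter q (2 * k) 0 j hq hq2 (by omega) A hA hdet
    have h2 := F_iter q (2 * k) 0 k hq hq2 (by omega) A hA hdet
    rw [zero_add] at h1 h2
    have h3 : F (q ^ (2 * k)) ((q : ZMod (q ^ (2 * k))) ^ (2 * k)) A =
        ∑ z : Fin r → ZMod (q ^ (2 * k)), (ZMod.stdAddChar (0 : ZMod (q ^ (2 * k))) : ℂ) := by
      unfold F
      refine Finset.sum_congr rfl fun z _ => ?_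
      rw [hqN, zero_mul]
    rw [h3] at h2
    have hk := kap_ne (q ^ (2 * k)) q r
    have h4 : ((jacobiSym A.det q : ℤ) : ℂ) ^ v = 1 := by
      rw [hj, pow_mul, hsq A hdet, one_pow]
    rw [hj] at h4 ⊢
    rw [h1, h2, h4]
    field_simp
  · -- odd
    have hk1 : 1 ≤ k := by omega
    have hN : 2 * k ≠ 0 := by omega
    refine ⟨kap (q ^ (2 * k)) q r ^ j * (kap (q ^ (2 * k)) q r ^ (k - 1))⁻¹ *
      (kap0 q (2 * k) hN r *
        (∑ a : ZMod q, ((quadraticChar (ZMod q) a : ℤ) : ℂ) * ZMod.stdAddChar a) ^ r), ?_⟩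
    intro A hA hdet
    rw [GS_eq_F]
    have h1 := F_iter q (2 * k) 1 j hq hq2 (by omega) A hA hdet
    have h2 := F_iter q (2 * k) 1 (k - 1) hq hq2 (by omega) A hA hdet
    have h3 : 1 + 2 * (k - 1) = 2 * k - 1 := by omega
    rw [h3, F_red q (2 * k) hq hN A, field_sum q hq2 A hA hdet] at h2
    have hk := kap_ne (q ^ (2 * k)) q r
    have h4 : ((jacobiSym A.det q : ℤ) : ℂ) ^ v = ((jacobiSym A.det q : ℤ) : ℂ) := by
      rw [hj, pow_add, pow_mul, hsq A hdet, one_pow, one_mul, pow_one]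
    rw [h4]
    have h5 : v = 1 + 2 * j := by omega
    rw [h5, h1]
    have h6 : F (q ^ (2 * k)) ((q : ZMod (q ^ (2 * k))) ^ 1) A =
        (kap (q ^ (2 * k)) q r ^ (k - 1))⁻¹ * (kap0 q (2 * k) hN r *
          (((jacobiSym A.det q : ℤ) : ℂ) *
        (∑ a : ZMod q, ((quadraticChar (ZMod q) a : ℤ) : ℂ) * ZMod.stdAddChar a) ^ r)) := by
      rw [h2]
      field_simp
    rw [h6]
    ring

end GFRAux

theorem stmt_GFR (_hLOC : Stmt_LOC) : Stmt_GFR := by
  intro q k r hq hq2 hk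
  obtain ⟨K, hK⟩ := GFRAux.main q k 1 r hq hq2 (by omega)
  refine ⟨K, fun A hA hdet => ?_⟩
  have := hK A hA hdet
  rwa [pow_one, pow_one] at this

end Pool.Agent.Work.GEM
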