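import Pool.Agent.Work.GEM.Interface

/-!
# MP_75c89d_nt, block GLB (helper54)
-/

set_option autoImplicit false

open Polynomial

namespace Pool.Agent.Work.GEM

namespace GLBAux

theorem eval_ne {d : ℕ} {G : ℤ[X]} (hG : Adm d G) (x : ℤ) : G.eval x ≠ 0 := by
  intro h
  apply hG.2.2.2.2.1 (x : ℝ)
  have h2 := Polynomial.eval_intCast_map (Int.castRingHom ℝ) G x
  rw [h2]
  simp [h]

theorem nrm_sub {d : ℕ} {G : ℤ[X]} (hG : Adm d G) (hNXC : Stmt_NXC) (x : ℤ) :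
    Nrm d G (X - C x) = G.eval x := by
  rw [hNXC d G hG.1 hG.2.1 x, hG.2.2.2.1.neg_one_pow, one_mul]

theorem nrm_X {d : ℕ} {G : ℤ[X]} (hG : Adm d G) (hNXC : Stmt_NXC) :
    Nrm d G X = G.eval 0 := by
  have h := nrm_sub hG hNXC 0
  simpa using h

theorem prod4 (d : ℕ) (t A x y : ℝ) (hA : 0 ≤ A) (hx : 0 ≤ x) (ht : 0 ≤ t) :
    Real.sqrt (t * (A * x)) * Real.sqrt (t * y) =
      Real.sqrt (t * (A * y)) * Real.sqrt (t * x) := by
  have _ := d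
  rw [← Real.sqrt_mul (by positivity), mul_comm (Real.sqrt (t * (A * y))),
    ← Real.sqrt_mul (by positivity)]
  congr 1
  ring

end GLBAux

open GLBAux in
theorem stmt_GLB (hALG : Stmt_ALG) (hNXC : Stmt_NXC) (hPF : Stmt_PF) (hCRTP : Stmt_CRTP) :
    Stmt_GLB := by
  intro d G hG a x ha D1 hD1
  have hGx : G.eval x ≠ 0 := eval_ne hG x
  have hG0 : G.eval 0 ≠ 0 := eval_ne hG 0
  have n1 : Nrm d G (a * (X - C x)) = Nrm d G a * G.eval x := by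
    rw [hALG.N_mul ℤ d G a (X - C x) hG.1 hG.2.1, nrm_sub hG hNXC]
  have n2 : Nrm d G X = G.eval 0 := nrm_X hG hNXC
  have n3 : Nrm d G (a * X) = Nrm d G a * G.eval 0 := by
    rw [hALG.N_mul ℤ d G a X hG.1 hG.2.1, nrm_X hG hNXC]
  have n4 : Nrm d G (X - C x) = G.eval x := nrm_sub hG hNXC x
  obtain ⟨E1, hE1, P1⟩ := hPF d G (a * (X - C x)) hG (by rw [n1]; exact mul_ne_zero ha hGx)
  obtain ⟨E2, hE2, P2⟩ := hPF d G X hG (by rw [n2]; exact hG0)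
  obtain ⟨E3, hE3, P3⟩ := hPF d G (a * X) hG (by rw [n3]; exact mul_ne_zero ha hG0)
  obtain ⟨E4, hE4, P4⟩ := hPF d G (X - C x) hG (by rw [n4]; exact hGx)
  have hD : 0 < D1 * (E1 * E2 * E3 * E4) := by positivity
  set D := D1 * (E1 * E2 * E3 * E4) with hDdef
  have p1 := P1 D hD ⟨D1 * (E2 * E3 * E4), by rw [hDdef]; ring⟩
  have p2 := P2 D hD ⟨D1 * (E1 * E3 * E4), by rw [hDdef]; ring⟩
  have p3 := P3 D hD ⟨D1 * (E1 * E2 * E4), by rw [hDdef]; ring⟩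
  have p4 := P4 D hD ⟨D1 * (E1 * E2 * E3), by rw [hDdef]; ring⟩
  have c1 := hCRTP d (Bmat d G (a * (X - C x))) D hD
  have c2 := hCRTP d (Bmat d G X) D hD
  have c3 := hCRTP d (Bmat d G (a * X)) D hD
  have c4 := hCRTP d (Bmat d G (X - C x)) D hD
  have hDC : (D : ℂ) ≠ 0 := by exact_mod_cast hD.ne'
  have key : ∀ u : ℤ, u ≠ 0 →
      (D : ℂ) ^ d * ((Real.sqrt ((2 : ℝ) ^ d * |(u : ℝ)|) : ℝ) : ℂ) ≠ 0 := by
    intro u hu
    apply mul_ne_zero (pow_ne_zero _ hDC)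
    have hu' : (u : ℝ) ≠ 0 := by exact_mod_cast hu
    have : 0 < Real.sqrt ((2 : ℝ) ^ d * |(u : ℝ)|) := by positivity
    exact_mod_cast this.ne'
  refine ⟨D, hD, ⟨E1 * E2 * E3 * E4, rfl⟩, ?_, ?_⟩
  · rw [Finset.prod_mul_distrib, Finset.prod_mul_distrib, ← c1, ← c2, ← c3, ← c4, p1, p2, p3, p4,
      n1, n2, n3, n4]
    have h := prod4 d ((2 : ℝ) ^ d) |((Nrm d G a : ℤ) : ℝ)| |((G.eval x : ℤ) : ℝ)|
      |((G.eval 0 : ℤ) : ℝ)| (abs_nonneg _) (abs_nonneg _) (by positivity)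
    rw [← abs_mul, ← abs_mul] at h
    have h' := congrArg (fun r : ℝ => (r : ℂ)) h
    simp only [Complex.ofReal_mul] at h'
    push_cast
    push_cast at h'
    linear_combination ((D : ℂ) ^ d * (D : ℂ) ^ d) * h'
  · intro q hq
    have z : ∀ A : Matrix (Fin d) (Fin d) ℤ, GS (D ^ 2) A ≠ 0 →
        GS ((q ^ D.factorization q) ^ 2) A ≠ 0 := by
      intro A hA hz
      apply hA
      rw [hCRTP d A D hD]
      exact Finset.prod_eq_zero hq hz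
    refine ⟨z _ ?_, z _ ?_, z _ ?_, z _ ?_⟩
    · rw [p1]
      exact key _ (by rw [n1]; exact mul_ne_zero ha hGx)
    · rw [p2]
      exact key _ (by rw [n2]; exact hG0)
    · rw [p3]
      exact key _ (by rw [n3]; exact mul_ne_zero ha hG0)
    · rw [p4]
      exact key _ (by rw [n4]; exact hGx)

end Pool.Agent.Work.GEM
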