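import Pool.Agent.Work.GEM.Interface

set_option autoImplicit false

namespace Pool.Agent.Work.GEM

namespace JPRAux

theorem js_prod (a : ℤ) (e : ℕ → ℕ) (T : Finset ℕ) (hT : ∀ q ∈ T, q ≠ 0) :
    jacobiSym a (∏ q ∈ T, q ^ e q) = ∏ q ∈ T, (jacobiSym a q) ^ e q := by
  classical
  induction T using Finset.induction_on with
  | empty => simp [jacobiSym.one_right]
  | insert q T hq ih =>
    rw [Finset.prod_insert hq, Finset.prod_insert hq, jacobiSym.mul_right', jacobiSym.pow_right,
      ih (fun r hr => hT r (Finset.mem_insert_of_mem hr))]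
    · exact pow_ne_zero _ (hT q (Finset.mem_insert_self _ _))
    · exact Finset.prod_ne_zero_iff.mpr
        (fun r hr => pow_ne_zero _ (hT r (Finset.mem_insert_of_mem hr)))

theorem n_eq (n : ℕ) (S : Finset ℕ) (hn : n ≠ 0) (hS : ∀ q : ℕ, q.Prime → q ∣ n → q ∈ S) :
    n = ∏ q ∈ S, q ^ n.factorization q := by
  classical
  conv_lhs => rw [← Nat.prod_factorization_pow_eq_self hn]
  rw [Finsupp.prod, Nat.support_factorization]
  refine Finset.prod_subset ?_ ?_
  · intro q hq
    exact hS q (Nat.prime_of_mem_primeFactors hq) (Nat.dvd_of_mem_primeFactors hq)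
  · intro q _ hq
    rw [← Nat.support_factorization, Finsupp.notMem_support_iff] at hq
    rw [hq, pow_zero]

end JPRAux

theorem stmt_JPR : Stmt_JPR := by
  classical
  intro a n S hn hSp hS
  have h1 := JPRAux.n_eq n S hn hS
  rw [← Finset.prod_filter_mul_prod_filter_not S (fun q => q ≠ 2)] at h1
  have h2 : ∏ q ∈ S.filter (fun q => ¬ q ≠ 2), q ^ n.factorization q = 2 ^ n.factorization 2 := by
    have hf : S.filter (fun q => ¬ q ≠ 2) = S.filter (fun q => q = 2) := by
      apply Finset.filter_congr
      intro q _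
      simp
    rw [hf, Finset.filter_eq']
    split_ifs with h
    · simp
    · have : n.factorization 2 = 0 := by
        by_contra hne
        apply h
        apply hS 2 Nat.prime_two
        exact Nat.dvd_of_factorization_pos hne
      simp [this]
  rw [h2] at h1
  have h3 : n / 2 ^ n.factorization 2 =
      ∏ q ∈ S.filter (fun q => q ≠ 2), q ^ n.factorization q := by
    exact Nat.div_eq_of_eq_mul_left (Nat.pow_pos (n := n.factorization 2) Nat.two_pos) h1
  have h4 : jacobiSym a (n / 2 ^ n.factorization 2) =
      jacobiSym a (∏ q ∈ S.filter (fun q => q ≠ 2), q ^ n.factorization q) := by rw [h3]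
  rw [h4]
  exact JPRAux.js_prod a n.factorization _
    (fun q hq => (hSp q (Finset.mem_filter.mp hq).1).ne_zero)

end Pool.Agent.Work.GEM
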