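import Pool.Agent.Work.GEM.Interface

/-!
# L2: local comparison at `2` (helper6)
-/

set_option autoImplicit false

open Polynomial

namespace Pool.Agent.Work.GEM

theorem stmt_L2 (hALG : Stmt_ALG) (hSQT : Stmt_SQT) (hTWI : Stmt_TWI) : Stmt_L2 := by
  intro d G hG hd k l b
  obtain ⟨t, w, htw⟩ := hSQT (2 * k) l
  have hpow : (((2 ^ k) ^ 2 : ℕ) : ℤ) = 2 ^ (2 * k) := by
    push_cast
    rw [← pow_mul, mul_comm]
  refine hTWI d G hG hd ((2 ^ k) ^ 2) (by positivity) b ((1 + C 8 * l) * b) (1 + C 2 * t) 0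
    (- (w * b)) ?_ ?_
  · rw [htw, hpow]
    ring
  · rw [hpow]
    apply IsCoprime.pow_left
    have h1 := hALG.N_congr d G (1 + C 2 * t) 1 t 2 hG rfl
    rw [hALG.N_one ℤ d G hG hd] at h1
    rw [Int.modEq_comm, Int.modEq_iff_dvd] at h1
    obtain ⟨c, hc⟩ := h1
    exact ⟨-c, 1, by linarith⟩

end Pool.Agent.Work.GEM
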