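import Pool.Agent.Work.GEM.Interface

/-! # Block LOC (helper96) -/

set_option autoImplicit false

namespace Pool.Agent.Work.GEM

namespace LOCAux

variable {n r : ℕ}

theorem bf_add_left (A : Matrix (Fin r) (Fin r) ℤ) (h h' z : Fin r → ZMod n) :
    bf A (h + h') z = bf A h z + bf A h' z := by
  simp only [bf, Pi.add_apply, mul_add, add_mul, Finset.sum_add_distrib]

theorem qf_add (A : Matrix (Fin r) (Fin r) ℤ) (hA : A.IsSymm) (z h : Fin r → ZMod n) :
    qf A (z + h) = qf A z + qf A h + 2 * bf A h z := by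
  have h1 : qf A (z + h) = qf A z + qf A h + (bf A z h + bf A h z) := by
    simp only [qf, bf, Pi.add_apply, ← Finset.sum_add_distrib]
    refine Finset.sum_congr rfl fun i _ => Finset.sum_congr rfl fun j _ => ?_
    ring
  have h2 : bf A z h = bf A h z := by
    simp only [bf]
    rw [Finset.sum_comm]
    refine Finset.sum_congr rfl fun i _ => Finset.sum_congr rfl fun j _ => ?_
    rw [hA.apply i j]
    ring
  rw [h1, h2]
  ring

end LOCAux

open LOCAux in
open Classical in
theorem stmt_LOC : Stmt_LOC := by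
  intro n _ r A hA H H' hle hq
  -- the weight
  set F : (Fin r → ZMod n) → ℂ := fun z => if z ∈ H then ZMod.stdAddChar (qf A z) else 0 with hF
  -- shift invariance
  have hshift : ∀ h ∈ H', ∑ z, F z = ∑ z, (if z ∈ H then ZMod.stdAddChar (qf A z) *
      ZMod.stdAddChar (2 * bf A h z) else (0 : ℂ)) := by
    intro h hh
    rw [← Equiv.sum_comp (Equiv.addRight h) F]
    refine Finset.sum_congr rfl fun z _ => ?_
    simp only [hF, Equiv.coe_addRight]
    have hmem : z + h ∈ H ↔ z ∈ H := by
      constructor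
      · intro hz
        have := H.sub_mem hz (hle hh)
        simpa using this
      · intro hz
        exact H.add_mem hz (hle hh)
    by_cases hz : z ∈ H
    · rw [if_pos (hmem.2 hz), if_pos hz, qf_add A hA, hq h hh, add_zero, AddChar.map_add_eq_mul]
    · rw [if_neg (fun h => hz (hmem.1 h)), if_neg hz]
  -- average over H'
  have hcard : (Fintype.card H' : ℂ) ≠ 0 := by
    exact_mod_cast Fintype.card_ne_zero
  have h1 : (Fintype.card H' : ℂ) * ∑ z, F z =
      ∑ z, (if z ∈ H then ZMod.stdAddChar (qf A z) *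
        ∑ h : H', ZMod.stdAddChar (2 * bf A (h : Fin r → ZMod n) z) else (0 : ℂ)) := by
    calc (Fintype.card H' : ℂ) * ∑ z, F z = ∑ h : H', ∑ z, F z := by
          simp
      _ = ∑ h : H', ∑ z, (if z ∈ H then ZMod.stdAddChar (qf A z) *
            ZMod.stdAddChar (2 * bf A (h : Fin r → ZMod n) z) else (0 : ℂ)) :=
          Finset.sum_congr rfl fun h _ => hshift h h.2
      _ = _ := by
          rw [Finset.sum_comm]
          refine Finset.sum_congr rfl fun z _ => ?_
          by_cases hz : z ∈ H
          · simp only [hz, if_true, Finset.mul_sum]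
          · simp [hz]
  -- inner sums
  have h2 : ∀ z : Fin r → ZMod n, ∑ h : H', (ZMod.stdAddChar (2 * bf A (h : Fin r → ZMod n) z) : ℂ)
      = if (∀ h ∈ H', 2 * bf A h z = 0) then (Fintype.card H' : ℂ) else 0 := by
    intro z
    let ψ : AddChar H' ℂ :=
      { toFun := fun h => ZMod.stdAddChar (2 * bf A (h : Fin r → ZMod n) z)
        map_zero_eq_one' := by
          have : bf A (0 : Fin r → ZMod n) z = 0 := by simp [bf]
          simp [this]
        map_add_eq_mul' := by
          intro a b
          rw [← AddChar.map_add_eq_mul, AddSubgroup.coe_add, bf_add_left, mul_add] }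
    have h3 : ∑ h : H', (ZMod.stdAddChar (2 * bf A (h : Fin r → ZMod n) z) : ℂ) = ∑ h, ψ h := rfl
    rw [h3, AddChar.sum_eq_ite]
    have h4 : ψ = 0 ↔ ∀ h ∈ H', 2 * bf A h z = 0 := by
      constructor
      · intro h0 h hh
        have h5 : ψ ⟨h, hh⟩ = 1 := by rw [h0]; rfl
        have h6 : (ZMod.stdAddChar (2 * bf A h z) : ℂ) = ZMod.stdAddChar (0 : ZMod n) := by
          rw [AddChar.map_zero_eq_one]
          exact h5
        exact ZMod.injective_stdAddChar h6
      · intro h0
        ext ⟨h, hh⟩
        change ZMod.stdAddChar (2 * bf A h z) = 1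
        rw [h0 h hh, AddChar.map_zero_eq_one]
    by_cases hc : ∀ h ∈ H', 2 * bf A h z = 0
    · rw [if_pos (h4.2 hc), if_pos hc]
    · rw [if_neg (fun h => hc (h4.1 h)), if_neg hc]
  have h3 : (Fintype.card H' : ℂ) * ∑ z, F z = (Fintype.card H' : ℂ) *
      ∑ z : Fin r → ZMod n, (if z ∈ H ∧ (∀ h ∈ H', 2 * bf A h z = 0)
        then ZMod.stdAddChar (qf A z) else (0 : ℂ)) := by
    rw [h1, Finset.mul_sum]
    refine Finset.sum_congr rfl fun z _ => ?_
    rw [h2 z]
    by_cases hz : z ∈ H
    · by_cases hc : ∀ h ∈ H', 2 * bf A h z = 0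
      · rw [if_pos hz, if_pos hc, if_pos ⟨hz, hc⟩, mul_comm]
      · rw [if_pos hz, if_neg hc, if_neg (fun h => hc h.2), mul_zero, mul_zero]
    · rw [if_neg hz, if_neg (fun h => hz h.1), mul_zero]
  exact mul_left_cancel₀ hcard h3

end Pool.Agent.Work.GEM
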