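import Pool.Agent.Work.GEM.Interface

/-!
# MP_75c89d_nt, block LQ (helper34)
-/

set_option autoImplicit false

open Polynomial

namespace Pool.Agent.Work.GEM

namespace LQAux

theorem coprime_nrm (hA : Stmt_ALG) {d : ℕ} {G : ℤ[X]} (hG : G.Monic) (hd : G.natDegree = d)
    (q : ℤ) (t : ℤ[X]) : IsCoprime q (Nrm d G (1 + C q * t)) := by
  have h1 := hA.N_congr d G (1 + C q * t) 1 t q hG rfl
  rw [hA.N_one ℤ d G hG hd] at h1
  obtain ⟨m, hm⟩ := h1.dvd
  exact ⟨m, 1, by linarith⟩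

end LQAux

theorem stmt_LQ (hA : Stmt_ALG) (hS : Stmt_SQO) (hT : Stmt_TWI) : Stmt_LQ := by
  intro d G hG hd q k a x hq hq2 hqx hqG
  obtain ⟨x', hx'⟩ := hqx
  have hqp : Prime (q : ℤ) := Nat.prime_iff_prime_int.1 hq
  have hcop : IsCoprime ((q : ℤ) ^ (2 * k)) (G.eval 0) :=
    (IsCoprime.pow_left ((Prime.coprime_iff_not_dvd hqp).2 hqG))
  obtain ⟨m, c, hmc⟩ := hcop
  obtain ⟨t, w, htw⟩ := hS q (2 * k) hq hq2 (C (x' * c) * G.divX)
  have hGX : G.divX * X + C (G.eval 0) = G := by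
    have := G.divX_mul_X_add
    rwa [coeff_zero_eq_eval_zero] at this
  have hn : (((q ^ k) ^ 2 : ℕ) : ℤ) = (q : ℤ) ^ (2 * k) := by
    push_cast
    rw [← pow_mul, mul_comm]
  refine hT d G hG hd ((q ^ k) ^ 2) (pow_pos (pow_pos hq.pos _) _) (a * X) (a * (X - C x))
    (1 + C (q : ℤ) * t) (-(a * C (x * c))) (a * (-(C (x * m)) - X * w)) ?_ ?_
  · rw [hn, htw]
    have e1 : C (x * c) * G = X * (C (x * c) * G.divX) + C (x * c * G.eval 0) := by
      conv_lhs => rw [← hGX]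
      rw [mul_add, ← C_mul]
      ring
    have e2 : (C x : ℤ[X]) = C (q : ℤ) * C x' := by rw [hx', C_mul]
    have e3 : (C (x * c * G.eval 0) : ℤ[X]) = C x - C (x * m) * C ((q : ℤ) ^ (2 * k)) := by
      rw [← C_mul, ← C_sub]
      congr 1
      linear_combination x * hmc
    have e4 : (C (x * c) : ℤ[X]) = C (q : ℤ) * C (x' * c) := by rw [hx', ← C_mul, mul_assoc]
    have e5 : G * -(a * C (x * c)) = -a * (C (x * c) * G) := by ring
    rw [e5, e1, e3, e4]
    ring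
  · rw [hn]
    exact (LQAux.coprime_nrm hA hG hd (q : ℤ) t).pow_left

end Pool.Agent.Work.GEM
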