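import Pool.Agent.Work.GEM.Interface

/-!
# MP_75c89d_nt, block LR (helper10): local comparison at an extra prime
-/

set_option autoImplicit false

open Polynomial

namespace Pool.Agent.Work.GEM

/-- block LR -/
theorem stmt_LR (hA : Stmt_ALG) (hNXC : Stmt_NXC) (hGFR : Stmt_GFR) : Stmt_LR := by
  intro d G hmon hdeg hev hd1 q k a x hq hq2 hk hNa hGx hG0
  obtain ⟨K, hK⟩ := hGFR q k d hq hq2 hk
  have hqi : Prime (q : ℤ) := Nat.prime_iff_prime_int.1 hq
  have hB1 : ¬ (q : ℤ) ∣ (Bmat d G 1).det := by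
    intro h
    rcases hA.B_det1 d G hmon hdeg hd1 with h1 | h1
    · rw [h1] at h
      exact hqi.not_dvd_one h
    · rw [h1, dvd_neg] at h
      exact hqi.not_dvd_one h
  have hdet : ∀ y : ℤ, (Bmat d G (a * (X - C y))).det =
      ((Bmat d G 1).det * Nrm d G a) * G.eval y := by
    intro y
    rw [hA.B_det d G _ hmon hdeg, hA.N_mul ℤ d G a _ hmon hdeg, hNXC d G hmon hdeg y,
      hev.neg_one_pow]
    ring
  have hnd : ∀ y : ℤ, ¬ (q : ℤ) ∣ G.eval y → ¬ (q : ℤ) ∣ (Bmat d G (a * (X - C y))).det := by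
    intro y hy h
    rw [hdet] at h
    rcases hqi.dvd_or_dvd h with h1 | h1
    · rcases hqi.dvd_or_dvd h1 with h2 | h2
      · exact hB1 h2
      · exact hNa h2
    · exact hy h1
  have hval : ∀ y : ℤ, ¬ (q : ℤ) ∣ G.eval y →
      GS ((q ^ k) ^ 2) (Bmat d G (C (q : ℤ) * a * (X - C y))) =
        ((jacobiSym ((Bmat d G 1).det * Nrm d G a) q : ℤ) : ℂ) *
          ((jacobiSym (G.eval y) q : ℤ) : ℂ) * K := by
    intro y hy
    rw [mul_assoc, hA.B_C ℤ d G _ _ hmon, hK _ (hA.B_symm ℤ d G _) (hnd y hy), hdet y,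
      jacobiSym.mul_left]
    push_cast
    ring
  have h1 := hval x hGx
  have h2 := hval 0 hG0
  rw [C_0, sub_zero] at h2
  have h3 : ((jacobiSym (G.eval 0) q : ℤ) : ℂ) ^ 2 = 1 := by
    have h4 : jacobiSym (G.eval 0) q ^ 2 = 1 := by
      apply jacobiSym.sq_one
      rw [Int.gcd_comm]
      exact (Int.isCoprime_iff_gcd_eq_one.1 ((Prime.coprime_iff_not_dvd hqi).2 hG0))
    exact_mod_cast congrArg (fun z : ℤ => (z : ℂ)) h4
  rw [h1, h2, jacobiSym.mul_left (G.eval x) (G.eval 0) q]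
  push_cast
  linear_combination (-((jacobiSym ((Bmat d G 1).det * Nrm d G a) q : ℤ) : ℂ) *
          ((jacobiSym (G.eval x) q : ℤ) : ℂ) * K) * h3

end Pool.Agent.Work.GEM
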