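import Pool.Agent.Work.GEM.Interface

/-!
# LS: local comparison at an odd prime not dividing the norm of `a` (helper49)
-/

set_option autoImplicit false

open Polynomial

namespace Pool.Agent.Work.GEM

theorem stmt_LS (hA : Stmt_ALG) (hNXC : Stmt_NXC) (hEVD : Stmt_EVD) (hUNI : Stmt_UNI)
    (hSPL : Stmt_SPL) (hG1T : Stmt_G1T) : Stmt_LS := by
  intro d G hG hd h1d q k a x hq hq2 hqa hGx hv
  have hqi : Prime (q : ℤ) := Nat.prime_iff_prime_int.1 hq
  by_cases hqG : (q : ℤ) ∣ G.eval x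
  · -- the case `q ∣ G(x)`
    obtain ⟨c, hc, hc'⟩ := hSPL d G hG hd h1d q k a x hq hq2 hqG hqa
    have hq1 : ¬ (q : ℤ) ∣ Nrm d G 1 := by
      rw [hA.N_one ℤ d G hG hd]
      intro h
      exact hqi.not_isUnit (isUnit_of_dvd_one h)
    obtain ⟨c₁, hc₁, hc₁'⟩ := hSPL d G hG hd h1d q k 1 x hq hq2 hqG hq1
    rw [one_mul] at hc₁'
    rw [hc', hc₁']
    set v := (G.eval x).natAbs.factorization q with hvdef
    obtain ⟨g, hg⟩ : ((q : ℤ) ^ v) ∣ G.eval x := by
      have h1 : q ^ v ∣ (G.eval x).natAbs := Nat.ordProj_dvd _ _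
      have h2 : ((q ^ v : ℕ) : ℤ) ∣ G.eval x := Int.natCast_dvd.2 h1
      push_cast at h2
      exact h2
    have hgq : ¬ (q : ℤ) ∣ g := by
      intro h
      have h1 : ((q ^ (v + 1) : ℕ) : ℤ) ∣ G.eval x := by
        push_cast
        rw [hg, pow_succ]
        exact mul_dvd_mul_left _ h
      have h2 : q ^ (v + 1) ∣ (G.eval x).natAbs := Int.natCast_dvd.1 h1
      have h3 : (G.eval x).natAbs ≠ 0 := Int.natAbs_ne_zero.2 hGx
      exact Nat.pow_succ_factorization_not_dvd h3 hq h2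
    have e : ∀ y : ℤ, -(G.eval x) * y = (q : ℤ) ^ v * (-g) * y := by
      intro y
      rw [hg]
      ring
    have hcq : c ≡ a.eval x [ZMOD q] := hc.of_dvd hqG
    have hc₁q : c₁ ≡ 1 [ZMOD q] := by
      have h1 := hc₁.of_dvd hqG
      rwa [eval_one] at h1
    have hqc : ¬ (q : ℤ) ∣ c := by
      intro h
      have h1 : (q : ℤ) ∣ a.eval x := (Int.ModEq.dvd_iff hcq).1 h
      exact hqa (hEVD d G hG hd q a x hq hqG h1)
    have hqc₁ : ¬ (q : ℤ) ∣ c₁ := by
      intro h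
      have h1 : (q : ℤ) ∣ 1 := (Int.ModEq.dvd_iff hc₁q).1 h
      exact hqi.not_isUnit (isUnit_of_dvd_one h1)
    have hgq' : ¬ (q : ℤ) ∣ -g := fun h => hgq ((dvd_neg).1 h)
    rw [e, e, hG1T q k v (-g) c hq hq2 hgq' hqc hv, hG1T q k v (-g) c₁ hq hq2 hgq' hqc₁ hv]
    have j1 : jacobiSym c q = jacobiSym (a.eval x) q := jacobiSym.mod_left' hcq
    have j2 : jacobiSym c₁ q = 1 := by
      rw [jacobiSym.mod_left' hc₁q]
      exact jacobiSym.one_left q
    rw [j1, j2]
    push_cast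
    ring
  · -- the case `q ∤ G(x)`
    have hv0 : (G.eval x).natAbs.factorization q = 0 := by
      refine Nat.factorization_eq_zero_of_not_dvd fun h => hqG ?_
      exact Int.natCast_dvd.2 h
    have hB1 : ∀ y : ℤ, (q : ℤ) ∣ (Bmat d G 1).det * y → (q : ℤ) ∣ y := by
      intro y hy
      rcases hA.B_det1 d G hG hd h1d with h | h
      · rwa [h, one_mul] at hy
      · rw [h, neg_mul, one_mul, dvd_neg] at hy
        exact hy
    have hX : ¬ (q : ℤ) ∣ Nrm d G (X - C x) := by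
      rw [hNXC d G hG hd x]
      intro h
      rcases hqi.dvd_or_dvd h with h1 | h1
      · have h2 := hqi.dvd_of_dvd_pow h1
        rw [dvd_neg] at h2
        exact hqi.not_isUnit (isUnit_of_dvd_one h2)
      · exact hqG h1
    rw [hv0, pow_zero, one_mul, hUNI q k hq hq2 d _ (hA.B_symm ℤ d G _) ?_,
      hUNI q k hq hq2 d _ (hA.B_symm ℤ d G _) ?_]
    · rw [hA.B_det d G _ hG hd]
      intro h
      exact hX (hB1 _ h)
    · rw [hA.B_det d G _ hG hd]
      intro h
      have h1 := hB1 _ h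
      rw [hA.N_mul ℤ d G _ _ hG hd] at h1
      rcases hqi.dvd_or_dvd h1 with h2 | h2
      · exact hqa h2
      · exact hX h2

end Pool.Agent.Work.GEM
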