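import Pool.Agent.Work.GEM.Interface

set_option autoImplicit false

open Polynomial

namespace Pool.Agent.Work.GEM

namespace NBDAux

/-- total size of the remainders of `X^k` for `k < 2 d` -/
noncomputable def K0 (d : ℕ) (G : ℤ[X]) : ℕ :=
  ∑ k ∈ Finset.range (2 * d), ∑ i ∈ Finset.range d, (((X ^ k) %ₘ G).coeff i).natAbs

theorem coeff_le (d : ℕ) (G : ℤ[X]) (k i : ℕ) (hk : k < 2 * d) (hi : i < d) :
    |((X ^ k) %ₘ G).coeff i| ≤ (K0 d G : ℤ) := by
  rw [← Int.natCast_natAbs]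
  norm_cast
  unfold K0
  calc (((X ^ k : ℤ[X]) %ₘ G).coeff i).natAbs
      ≤ ∑ i ∈ Finset.range d, (((X ^ k : ℤ[X]) %ₘ G).coeff i).natAbs :=
        Finset.single_le_sum (f := fun i => (((X ^ k : ℤ[X]) %ₘ G).coeff i).natAbs)
          (fun _ _ => Nat.zero_le _) (Finset.mem_range.mpr hi)
    _ ≤ _ := Finset.single_le_sum
          (f := fun k => ∑ i ∈ Finset.range d, (((X ^ k : ℤ[X]) %ₘ G).coeff i).natAbs)
          (fun _ _ => Nat.zero_le _) (Finset.mem_range.mpr hk)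

theorem entry (d : ℕ) (G a : ℤ[X]) (ha : a.natDegree < d) (i j : Fin d) :
    Mmat d G a i j =
      ∑ k ∈ Finset.range d, a.coeff k * ((X ^ (k + (j : ℕ))) %ₘ G).coeff i := by
  unfold Mmat
  have h1 : a * X ^ (j : ℕ) = ∑ k ∈ Finset.range d, a.coeff k • X ^ (k + (j : ℕ)) := by
    conv_lhs => rw [a.as_sum_range' d ha]
    rw [Finset.sum_mul]
    refine Finset.sum_congr rfl (fun k _ => ?_)
    rw [← C_mul_X_pow_eq_monomial, mul_assoc, ← pow_add, smul_eq_C_mul]
  rw [h1, ← modByMonicHom_apply, map_sum, finsetSum_coeff]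
  refine Finset.sum_congr rfl (fun k _ => ?_)
  rw [map_smul, coeff_smul, smul_eq_mul, modByMonicHom_apply]

end NBDAux

theorem stmt_NBD : Stmt_NBD := by
  intro d G hG hd
  refine ⟨d.factorial * (d * NBDAux.K0 d G + 1), ?_, ?_⟩
  · exact Nat.mul_pos (Nat.factorial_pos d) (Nat.succ_pos _)
  intro a H ha hH
  have hd1 : 1 ≤ d := by omega
  have hent : ∀ i j : Fin d, (AbsoluteValue.abs : AbsoluteValue ℤ ℤ) (Mmat d G a i j) ≤
      ((d * NBDAux.K0 d G : ℕ) : ℤ) * (H : ℤ) := by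
    intro i j
    rw [AbsoluteValue.abs_apply, NBDAux.entry d G a ha i j]
    calc |∑ k ∈ Finset.range d, a.coeff k * ((X ^ (k + (j : ℕ))) %ₘ G).coeff i|
        ≤ ∑ k ∈ Finset.range d, |a.coeff k * ((X ^ (k + (j : ℕ))) %ₘ G).coeff i| :=
          Finset.abs_sum_le_sum_abs _ _
      _ ≤ ∑ _k ∈ Finset.range d, (H : ℤ) * (NBDAux.K0 d G : ℤ) := by
          refine Finset.sum_le_sum (fun k hk => ?_)
          rw [abs_mul]
          have hkd := Finset.mem_range.mp hk
          have h2 := NBDAux.coeff_le d G (k + (j : ℕ)) i (by have := j.2; omega) i.2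
          exact mul_le_mul (hH k) h2 (abs_nonneg _) (by positivity)
      _ = ((d * NBDAux.K0 d G : ℕ) : ℤ) * (H : ℤ) := by
          rw [Finset.sum_const, Finset.card_range, nsmul_eq_mul]
          push_cast
          ring
  have hdet := Matrix.det_le hent
  rw [AbsoluteValue.abs_apply, Fintype.card_fin] at hdet
  unfold Nrm
  refine hdet.trans ?_
  rw [nsmul_eq_mul]
  norm_cast
  have h1 : d.factorial ≤ d.factorial ^ d :=
    Nat.le_self_pow (by omega) _
  have h2 : (d * NBDAux.K0 d G) ^ d ≤ (d * NBDAux.K0 d G + 1) ^ d :=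
    Nat.pow_le_pow_left (Nat.le_succ _) d
  calc d.factorial * (d * NBDAux.K0 d G * H) ^ d
      = d.factorial * (d * NBDAux.K0 d G) ^ d * H ^ d := by rw [mul_pow, mul_assoc]
    _ ≤ d.factorial ^ d * (d * NBDAux.K0 d G + 1) ^ d * H ^ d :=
        Nat.mul_le_mul_right _ (Nat.mul_le_mul h1 h2)
    _ = (d.factorial * (d * NBDAux.K0 d G + 1) * H) ^ d := by rw [mul_pow, mul_pow]

end Pool.Agent.Work.GEM
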