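import Pool.Agent.Work.GEM.Interface

/-!
# NXC: the norm of `X - x` (helper49)
-/

set_option autoImplicit false

open Polynomial

namespace Pool.Agent.Work.GEM

namespace NXCAux

/-- polynomials in the companion matrix -/
theorem aeval_M (hA : Stmt_ALG) (d : ℕ) (G : ℤ[X]) (hG : G.Monic) (hd : G.natDegree = d)
    (P : ℤ[X]) : aeval (Mmat d G X) P = Mmat d G P := by
  induction P using Polynomial.induction_on' with
  | add p q hp hq => rw [map_add, hp, hq, hA.M_add ℤ d G p q hG]
  | monomial n c =>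
    rw [← C_mul_X_pow_eq_monomial]
    induction n with
    | zero =>
      rw [pow_zero, mul_one, aeval_C, ← mul_one (C c), hA.M_C ℤ d G 1 c hG,
        hA.M_one ℤ d G hG hd, Algebra.algebraMap_eq_smul_one]
    | succ n ih =>
      rw [pow_succ, ← mul_assoc, map_mul, ih, hA.M_mul ℤ d G (C c * X ^ n) X hG hd, aeval_X]

/-- the characteristic polynomial of the companion matrix -/
theorem charpoly_M (hA : Stmt_ALG) (d : ℕ) (G : ℤ[X]) (hG : G.Monic) (hd : G.natDegree = d) :
    (Mmat d G X).charpoly = G := by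
  have hdeg : (Mmat d G X).charpoly.natDegree = d := by
    rw [Matrix.charpoly_natDegree_eq_dim, Fintype.card_fin]
  refine eq_of_monic_of_dvd_of_natDegree_le hG (Matrix.charpoly_monic _) ?_
    (by rw [hdeg, hd])
  rw [← modByMonic_eq_zero_iff_dvd hG]
  have h0 : Mmat d G (Mmat d G X).charpoly = 0 := by
    rw [← aeval_M hA d G hG hd, Matrix.aeval_self_charpoly]
  ext i
  rw [coeff_zero]
  by_cases hi : i < d
  · have h1 := congrFun (congrFun h0 ⟨i, hi⟩) ⟨0, by omega⟩
    simpa [Mmat] using h1
  · by_cases hG1 : G = 1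
    · rw [hG1, modByMonic_one, coeff_zero]
    · have h2 := natDegree_modByMonic_lt (Mmat d G X).charpoly hG hG1
      exact coeff_eq_zero_of_natDegree_lt (by omega)

end NXCAux

open NXCAux

theorem stmt_NXC (hA : Stmt_ALG) : Stmt_NXC := by
  intro d G hG hd x
  have h1 : Mmat d G (X - C x) = -(Matrix.scalar (Fin d) x - Mmat d G X) := by
    have h2 : X - C x = X + C (-x) * 1 := by rw [C_neg]; ring
    rw [h2, hA.M_add ℤ d G _ _ hG, hA.M_C ℤ d G _ _ hG, hA.M_one ℤ d G hG hd]
    rw [Matrix.scalar_apply, ← Matrix.smul_one_eq_diagonal]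
    module
  rw [Nrm, h1, Matrix.det_neg, Fintype.card_fin, ← Matrix.eval_charpoly,
    charpoly_M hA d G hG hd]

end Pool.Agent.Work.GEM
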