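import Pool.Agent.Work.GEM.Interface

/-!
# NZ: the norm of a nonzero remainder is nonzero (helper49)
-/

set_option autoImplicit false

open Polynomial

namespace Pool.Agent.Work.GEM

theorem stmt_NZ (hA : Stmt_ALG) : Stmt_NZ := by
  intro d G hG hd hirr a ha had hN
  have hG' : (G.map (Int.castRingHom ℚ)).Monic := hG.map _
  have hd' : (G.map (Int.castRingHom ℚ)).natDegree = d := by
    rw [hG.natDegree_map, hd]
  have h0 : Nrm d (G.map (Int.castRingHom ℚ)) (a.map (Int.castRingHom ℚ)) = 0 := by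
    have h1 := hA.M_map ℤ ℚ (Int.castRingHom ℚ) d G a hG
    rw [Nrm, ← h1]
    have h2 : ((Mmat d G a).map (Int.castRingHom ℚ)).det =
        Int.castRingHom ℚ (Mmat d G a).det := by
      rw [RingHom.map_det]
      rfl
    rw [h2]
    change ((Nrm d G a : ℤ) : ℚ) = 0
    rw [hN, Int.cast_zero]
  have ha' : a.map (Int.castRingHom ℚ) ≠ 0 := by
    rw [Ne, Polynomial.map_eq_zero_iff (RingHom.injective_int _)]
    exact ha
  have hnd : ¬ G.map (Int.castRingHom ℚ) ∣ a.map (Int.castRingHom ℚ) := by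
    intro h
    have h1 := natDegree_le_of_dvd h ha'
    have h2 := natDegree_map_le (f := Int.castRingHom ℚ) (p := a)
    omega
  obtain ⟨v, u, huv⟩ := (hirr.coprime_iff_not_dvd).2 hnd
  have h1 : Mmat d (G.map (Int.castRingHom ℚ)) (u * a.map (Int.castRingHom ℚ)) =
      Mmat d (G.map (Int.castRingHom ℚ)) 1 := by
    refine hA.M_congr ℚ d _ _ _ hG' ⟨-v, ?_⟩
    linear_combination huv
  have h2 : Nrm d (G.map (Int.castRingHom ℚ)) (u * a.map (Int.castRingHom ℚ)) = 1 := by
    rw [Nrm, h1]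
    exact hA.N_one ℚ d _ hG' hd'
  rw [hA.N_mul ℚ d _ _ _ hG' hd', h0, mul_zero] at h2
  exact zero_ne_one h2

end Pool.Agent.Work.GEM
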