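import Pool.Agent.Work.GEM.Interface

/-! Block ODD of MP_75c89d_nt: at a large record prime the exponent is even. -/

set_option autoImplicit false

open Polynomial

namespace Pool.Agent.Work.GEM

namespace ODDAux

theorem pol_coeff {d : ℕ} (l : Fin d → ℕ) (j : ℕ) :
    (pol l).coeff j = if h : j < d then (l ⟨j, h⟩ : ℤ) else 0 := by
  unfold pol
  rw [finsetSum_coeff]
  simp only [coeff_C_mul_X_pow]
  split_ifs with h
  · rw [Finset.sum_eq_single (⟨j, h⟩ : Fin d)]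
    · simp
    · intro b _ hb
      rw [if_neg]
      intro hj
      exact hb (Fin.ext hj.symm)
    · simp
  · apply Finset.sum_eq_zero
    intro i _
    rw [if_neg]
    intro hj
    exact h (hj ▸ i.2)

theorem pol_natDegree {d : ℕ} (hd : 1 ≤ d) (l : Fin d → ℕ) : (pol l).natDegree < d := by
  have h : (pol l).natDegree ≤ d - 1 := by
    apply natDegree_le_iff_coeff_eq_zero.mpr
    intro N hN
    rw [pol_coeff, dif_neg]
    omega
  omega

theorem pol_inj {d : ℕ} (l l' : Fin d → ℕ) (h : pol l = pol l') : l = l' := by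
  funext i
  have h1 := congrArg (fun q => q.coeff i) h
  simp only [pol_coeff] at h1
  rw [dif_pos i.2, dif_pos i.2] at h1
  exact_mod_cast h1

theorem pol_add {d : ℕ} (l l' : Fin d → ℕ) : pol (l + l') = pol l + pol l' := by
  unfold pol
  rw [← Finset.sum_add_distrib]
  refine Finset.sum_congr rfl fun i _ => ?_
  simp [add_mul]

theorem mem_Bx {d Y : ℕ} (l : Fin d → ℕ) : l ∈ Bx d Y ↔ ∀ i, l i < Y := by
  unfold Bx
  simp [Fintype.mem_piFinset]

theorem card_Bx (d Y : ℕ) : (Bx d Y).card = Y ^ d := by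
  unfold Bx
  simp

/-- the polynomial `1 + W pol l` -/
theorem kap_coeff {d : ℕ} (W : ℕ) (l : Fin d → ℕ) (H : ℕ) (hl : ∀ i, l i < H) (j : ℕ) :
    |(C (1 : ℤ) + C (W : ℤ) * pol l).coeff j| ≤ ((1 + W * H : ℕ) : ℤ) := by
  rw [coeff_add, coeff_C, coeff_C_mul, pol_coeff]
  have h0 : ∀ i, (W : ℤ) * (l i : ℤ) ≤ (W : ℤ) * (H : ℤ) := by
    intro i
    have := (hl i).le
    apply mul_le_mul_of_nonneg_left _ (by positivity)
    exact_mod_cast this
  have h1 : ∀ i, 0 ≤ (W : ℤ) * (l i : ℤ) := by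
    intro i
    positivity
  push_cast
  by_cases hj : j < d
  · rw [dif_pos hj]
    have h2 := h0 ⟨j, hj⟩
    have h3 := h1 ⟨j, hj⟩
    split_ifs
    · rw [abs_of_nonneg (by linarith)]
      linarith
    · rw [zero_add, abs_of_nonneg h3]
      linarith
  · rw [dif_neg hj, mul_zero, add_zero]
    have : 0 ≤ (W : ℤ) * (H : ℤ) := by positivity
    split_ifs
    · simpa using this
    · simp only [abs_zero]
      linarith

theorem kap_natDegree {d : ℕ} (hd : 1 ≤ d) (W : ℕ) (l : Fin d → ℕ) :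
    (C (1 : ℤ) + C (W : ℤ) * pol l).natDegree < d := by
  refine lt_of_le_of_lt (natDegree_add_le _ _) ?_
  refine max_lt ?_ ?_
  · rw [natDegree_C]; omega
  · refine lt_of_le_of_lt (natDegree_C_mul_le _ _) (pol_natDegree hd l)

theorem kap_ne_zero {d : ℕ} (W : ℕ) (l : Fin d → ℕ) :
    (C (1 : ℤ) + C (W : ℤ) * pol l) ≠ 0 := by
  intro h
  have h1 := congrArg (fun q => q.coeff 0) h
  simp only [coeff_add, coeff_C_zero, coeff_C_mul, pol_coeff, coeff_zero] at h1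
  split_ifs at h1 with h0
  · have : 0 ≤ (W : ℤ) * (l ⟨0, h0⟩ : ℤ) := by positivity
    linarith
  · simp at h1

theorem diff_coeff {d : ℕ} (l l' : Fin d → ℕ) (Y : ℕ) (hl : ∀ i, l i < Y) (hl' : ∀ i, l' i < Y)
    (j : ℕ) : |(pol l - pol l').coeff j| ≤ (Y : ℤ) := by
  rw [coeff_sub, pol_coeff, pol_coeff]
  by_cases hj : j < d
  · rw [dif_pos hj, dif_pos hj]
    have h1 := hl ⟨j, hj⟩
    have h2 := hl' ⟨j, hj⟩
    rw [abs_le]
    constructor <;> omega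
  · rw [dif_neg hj, dif_neg hj]
    simp

theorem diff_natDegree {d : ℕ} (hd : 1 ≤ d) (l l' : Fin d → ℕ) :
    (pol l - pol l').natDegree < d := by
  refine lt_of_le_of_lt (natDegree_sub_le _ _) ?_
  exact max_lt (pol_natDegree hd l) (pol_natDegree hd l')

/-- injectivity of the evaluation mod `p` on a small box -/
theorem inj (hEVD : Stmt_EVD) (hNZ : Stmt_NZ) {d : ℕ} {G : ℤ[X]} (hA : Adm d G) {K1 : ℕ}
    (hK1 : ∀ (a : ℤ[X]) (H : ℕ), a.natDegree < d → (∀ i, |a.coeff i| ≤ (H : ℤ)) →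
      |Nrm d G a| ≤ (((K1 * H) ^ d : ℕ) : ℤ)) {p : ℕ} (hp : p.Prime) {x : ℤ}
    (hpx : (p : ℤ) ∣ G.eval x) {Y : ℕ} (hY : (K1 * Y) ^ d < p)
    (l l' : Fin d → ℕ) (hl : ∀ i, l i < Y) (hl' : ∀ i, l' i < Y)
    (h : (p : ℤ) ∣ (pol l).eval x - (pol l').eval x) : l = l' := by
  obtain ⟨hM, hdeg, h2, -, -, hirr⟩ := hA
  by_contra hne
  have hne' : pol l - pol l' ≠ 0 := by
    intro h0
    exact hne (pol_inj l l' (sub_eq_zero.mp h0))
  have h1 : (p : ℤ) ∣ Nrm d G (pol l - pol l') := by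
    apply hEVD d G hM hdeg p (pol l - pol l') x hp hpx
    rw [eval_sub]
    exact h
  have h3 := hNZ d G hM hdeg hirr (pol l - pol l') hne' (diff_natDegree (by omega) l l')
  have h4 := hK1 (pol l - pol l') Y (diff_natDegree (by omega) l l')
    (diff_coeff l l' Y hl hl')
  have h5 : (p : ℤ) ≤ |Nrm d G (pol l - pol l')| := by
    apply Int.le_of_dvd (abs_pos.mpr h3)
    exact (dvd_abs _ _).mpr h1
  have h6 : (p : ℤ) ≤ (((K1 * Y) ^ d : ℕ) : ℤ) := h5.trans h4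
  have h7 : p ≤ (K1 * Y) ^ d := by exact_mod_cast h6
  omega

theorem jac_one {a : ℤ} {q : ℕ} (h : (q : ℤ) ∣ a - 1) : jacobiSym a q = 1 := by
  have h1 : a % (q : ℤ) = 1 % (q : ℤ) := ((Int.modEq_iff_dvd (a := 1) (b := a)).mpr h).symm
  rw [jacobiSym.mod_left a q, h1, ← jacobiSym.mod_left, jacobiSym.one_left]

/-- the local computation: if all primes but `p` divide `a - 1`, the symbol is a power of the symbol
at `p` -/
theorem jac_pow (hJPR : Stmt_JPR) {a n : ℤ} (hn : n ≠ 0) {p : ℕ} (hp : p.Prime) (hp2 : p ≠ 2)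
    (h : ∀ q : ℕ, q.Prime → (q : ℤ) ∣ n → q = p ∨ (q : ℤ) ∣ a - 1) :
    jacobiSym a (oddp n) = jacobiSym a p ^ (n.natAbs.factorization p) := by
  unfold oddp
  have hn' : n.natAbs ≠ 0 := Int.natAbs_ne_zero.mpr hn
  rw [hJPR a n.natAbs (insert p n.natAbs.primeFactors) hn'
    (by
      intro q hq
      rcases Finset.mem_insert.mp hq with h1 | h1
      · exact h1 ▸ hp
      · exact Nat.prime_of_mem_primeFactors h1)
    (by
      intro q hq hqn
      exact Finset.mem_insert_of_mem (Nat.mem_primeFactors.mpr ⟨hq, hqn, hn'⟩))]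
  rw [Finset.prod_eq_single p]
  · intro q hq hqp
    rw [Finset.mem_filter, Finset.mem_insert] at hq
    rcases hq.1 with h1 | h1
    · exact absurd h1 hqp
    · obtain ⟨hq1, hq2, -⟩ := Nat.mem_primeFactors.mp h1
      rcases h q hq1 (Int.natCast_dvd.mpr hq2) with h3 | h3
      · exact absurd h3 hqp
      · rw [jac_one h3, one_pow]
  · intro h1
    have h2 : p ∈ (insert p n.natAbs.primeFactors).filter (fun q => q ≠ 2) := by
      rw [Finset.mem_filter]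
      exact ⟨Finset.mem_insert_self _ _, hp2⟩
    exact absurd h2 h1

theorem eval_ne_zero {d : ℕ} {G : ℤ[X]} (hA : Adm d G) (x : ℤ) : G.eval x ≠ 0 := by
  obtain ⟨-, -, -, -, hreal, -⟩ := hA
  intro h
  apply hreal (x : ℝ)
  rw [eval_intCast_map]
  simp [h]

/-- the value of the character at a good polynomial -/
theorem good (hALG : Stmt_ALG) (hNZ : Stmt_NZ) (hREC : Stmt_REC) (hJPR : Stmt_JPR)
    {m d : ℕ} {G : ℤ[X]} (hA : Adm d G) {K1 : ℕ}
    (hK1 : ∀ (a : ℤ[X]) (H : ℕ), a.natDegree < d → (∀ i, |a.coeff i| ≤ (H : ℤ)) →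
      |Nrm d G a| ≤ (((K1 * H) ^ d : ℕ) : ℤ)) {Q0 W : ℕ} (hW : GoodW G Q0 W) {p Z : ℕ} {x : ℤ}
    (hR : RecD m G W p Z x) (hodd : ¬ Even ((G.eval x).natAbs.factorization p))
    {H : ℕ} (hH : (K1 * (1 + W * H)) ^ d < p) (l : Fin d → ℕ) (hl : ∀ i, l i < H)
    (hgood : ∀ q : ℕ, q.Prime → (q : ℤ) ∣ Nrm d G (C (1 : ℤ) + C (W : ℤ) * pol l) → q ≡ 1 [MOD m]) :
    jacobiSym ((C (1 : ℤ) + C (W : ℤ) * pol l).eval x) p = 1 := by
  obtain ⟨hpp, hpZ, hpW, hqx, hGx⟩ := hR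
  obtain ⟨hW0, h8, hWQ, hWG⟩ := hW
  have hA' := hA
  obtain ⟨hM, hdeg, h2, -, -, hirr⟩ := hA
  obtain ⟨W', hW'⟩ := h8
  set κ : ℤ[X] := C (1 : ℤ) + C (W : ℤ) * pol l with hκ
  have hκ8 : κ = 1 + C 8 * (C (W' : ℤ) * pol l) := by
    rw [hκ, hW']
    push_cast
    rw [C_mul, C_1]
    ring
  have hN0 : Nrm d G κ ≠ 0 := hNZ d G hM hdeg hirr κ (kap_ne_zero W l) (kap_natDegree (by omega) W l)
  have hNlt : |Nrm d G κ| < (p : ℤ) := by
    have h1 := hK1 κ (1 + W * H) (kap_natDegree (by omega) W l) (kap_coeff W l H hl)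
    refine lt_of_le_of_lt h1 ?_
    exact_mod_cast hH
  have hN1 : Nrm d G κ ≡ 1 [ZMOD (W : ℤ)] := by
    have h1 := hALG.N_congr d G κ 1 (pol l) (W : ℤ) hM (by rw [hκ, C_1])
    rwa [hALG.N_one ℤ d G hM hdeg] at h1
  have hq : ∀ q : ℕ, q.Prime → (q : ℤ) ∣ Nrm d G κ → (q : ℤ) ∣ x ∧ ¬ (q : ℤ) ∣ G.eval 0 := by
    intro q hq1 hq2
    have hqW : ¬ q ∣ W := by
      intro hqW
      have h3 : Nrm d G κ ≡ 1 [ZMOD (q : ℤ)] := hN1.of_dvd (Int.natCast_dvd_natCast.mpr hqW)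
      have h4 : (q : ℤ) ∣ 1 := by
        have h5 := (Int.modEq_iff_dvd).mp h3
        have h6 := dvd_add h5 hq2
        simpa using h6
      have h7 : q ∣ 1 := by exact_mod_cast h4
      exact hq1.one_lt.ne' (Nat.dvd_one.mp h7)
    have hqp : (q : ℤ) < (p : ℤ) := by
      refine lt_of_le_of_lt ?_ hNlt
      exact Int.le_of_dvd (abs_pos.mpr hN0) ((dvd_abs _ _).mpr hq2)
    have hqp' : q < p := by exact_mod_cast hqp
    refine ⟨hqx q hq1 (hgood q hq1 hq2) (by omega) (by omega) hqW, ?_⟩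
    intro h3
    exact hqW (hWG q hq1 h3)
  have hrec := hREC d G hA' (C (W' : ℤ) * pol l) x (by rw [← hκ8]; exact hN0)
    (by rw [← hκ8]; exact hq)
  rw [← hκ8] at hrec
  have hp2 : p ≠ 2 := by
    intro h
    apply hpW
    rw [h, hW']
    exact ⟨4 * W', by ring⟩
  have hev : ∀ y : ℤ, κ.eval y - 1 = (W : ℤ) * (pol l).eval y := by
    intro y
    rw [hκ]
    simp
  have hL := jac_pow hJPR (a := κ.eval x) (eval_ne_zero hA' x) hpp hp2 (by
    intro q hq1 hq2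
    rcases hGx q hq1 hq2 with h | h
    · exact Or.inl h
    · right
      rw [hev]
      exact Dvd.dvd.mul_right (Int.natCast_dvd_natCast.mpr h) _)
  have hRt := jac_pow hJPR (a := κ.eval 0) (eval_ne_zero hA' 0) hpp hp2 (by
    intro q hq1 hq2
    right
    rw [hev]
    exact Dvd.dvd.mul_right (Int.natCast_dvd_natCast.mpr (hWG q hq1 hq2)) _)
  have hv0 : (G.eval 0).natAbs.factorization p = 0 := by
    apply Nat.factorization_eq_zero_of_not_dvd
    intro h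
    exact hpW (hWG p hpp (Int.natCast_dvd.mpr h))
  rw [hL, hRt, hv0, pow_zero] at hrec
  have hodd' := Nat.not_even_iff_odd.mp hodd
  rcases jacobiSym.trichotomy (κ.eval x) p with h | h | h
  · rw [h, zero_pow (Nat.pos_iff_ne_zero.mp hodd'.pos)] at hrec
    exact absurd hrec zero_ne_one
  · exact h
  · rw [h, hodd'.neg_one_pow] at hrec
    norm_num at hrec

/-- the sum over the pairs -/
theorem sum_lower {d Y : ℕ} (Bd : Finset (Fin d → ℕ)) (h8 : 8 * Bd.card ≤ Y ^ d)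
    (F : (Fin d → ℕ) → (Fin d → ℕ) → ℤ) (hF1 : ∀ l l', -1 ≤ F l l')
    (hF2 : ∀ l ∈ Bx d Y, ∀ l' ∈ Bx d Y, l + l' ∉ Bd → F l l' = 1) :
    3 * ((Y : ℤ) ^ d) ^ 2 ≤ 4 * ∑ l ∈ Bx d Y, ∑ l' ∈ Bx d Y, F l l' := by
  classical
  have h1 : ∀ l ∈ Bx d Y, 3 * ((Y : ℤ) ^ d) ≤ 4 * ∑ l' ∈ Bx d Y, F l l' := by
    intro l hl
    have h2 : ∑ l' ∈ Bx d Y, (1 - 2 * (if l + l' ∈ Bd then (1 : ℤ) else 0)) ≤
        ∑ l' ∈ Bx d Y, F l l' := by
      refine Finset.sum_le_sum fun l' hl' => ?_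
      by_cases h3 : l + l' ∈ Bd
      · rw [if_pos h3]
        have := hF1 l l'
        linarith
      · rw [if_neg h3, hF2 l hl l' hl' h3]
        norm_num
    rw [Finset.sum_sub_distrib, ← Finset.mul_sum, Finset.sum_const, card_Bx, nsmul_eq_mul, mul_one,
      Finset.sum_boole] at h2
    have h4 : ((Bx d Y).filter fun l' => l + l' ∈ Bd).card ≤ Bd.card := by
      apply Finset.card_le_card_of_injOn (fun l' => l + l')
      · intro l' hl'
        exact (Finset.mem_filter.mp hl').2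
      · intro a _ b _ hab
        exact add_left_cancel hab
    have h5 : ((((Bx d Y).filter fun l' => l + l' ∈ Bd).card : ℕ) : ℤ) ≤ (Bd.card : ℤ) := by
      exact_mod_cast h4
    have h6 : (8 : ℤ) * (Bd.card : ℤ) ≤ (Y : ℤ) ^ d := by exact_mod_cast h8
    push_cast at h2
    linarith
  have h2 : ∑ _l ∈ Bx d Y, 3 * ((Y : ℤ) ^ d) ≤ ∑ l ∈ Bx d Y, 4 * ∑ l' ∈ Bx d Y, F l l' :=
    Finset.sum_le_sum h1
  rw [Finset.sum_const, card_Bx, nsmul_eq_mul, ← Finset.mul_sum] at h2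
  push_cast at h2
  nlinarith [h2]

end ODDAux

open ODDAux in
theorem stmt_ODD (hALG : Stmt_ALG) (_hNXC : Stmt_NXC) (hEVD : Stmt_EVD) (hNBD : Stmt_NBD)
    (hNZ : Stmt_NZ) (hBAD : Stmt_BAD) (hREC : Stmt_REC) (hBIL : Stmt_BIL) (hJPR : Stmt_JPR) :
    Stmt_ODD := by
  intro m d G hm hA hC
  obtain ⟨Q0, hQ0⟩ := hBAD m d G hm hA hC (2 ^ (d + 3))
  refine ⟨Q0, fun W hW => ?_⟩
  obtain ⟨Y0, hY0⟩ := hQ0 W hW.1 hW.2.2.1 1 isCoprime_one_left
  obtain ⟨K1, hK1pos, hK1⟩ := hNBD d G hA.1 hA.2.1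
  have hd2 : 2 ≤ d := hA.2.2.1
  set Y1 := max Y0 1 with hY1
  refine ⟨(K1 * (1 + W * (2 * Y1))) ^ d + 2 * ((5 * K1 * W) ^ d) ^ 2 + 1, fun p Z x hp hR => ?_⟩
  by_contra hodd
  have hW0 : 0 < W := hW.1
  have hpp : p.Prime := hR.1
  have hpW : ¬ p ∣ W := hR.2.2.1
  have : Fact p.Prime := ⟨hpp⟩
  have hp2 : p ≠ 2 := by
    intro h
    apply hpW
    rw [h]
    exact dvd_trans ⟨4, by norm_num⟩ hW.2.1
  have hpG : (p : ℤ) ∣ G.eval x := by
    by_contra h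
    apply hodd
    rw [Nat.factorization_eq_zero_of_not_dvd (fun h1 => h (Int.natCast_dvd.mpr h1))]
    exact Even.zero
  -- the choice of `Y`
  have hex : ∃ Y', p ≤ (K1 * (1 + W * (2 * Y'))) ^ d := by
    refine ⟨p, ?_⟩
    have h1 : p ≤ K1 * (1 + W * (2 * p)) := by
      calc p ≤ 1 + W * (2 * p) := by nlinarith
        _ ≤ K1 * (1 + W * (2 * p)) := Nat.le_mul_of_pos_left _ hK1pos
    exact h1.trans (Nat.le_self_pow (by omega) _)
  classical
  set Y' := Nat.find hex with hY'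
  have hY'1 : p ≤ (K1 * (1 + W * (2 * Y'))) ^ d := Nat.find_spec hex
  have hmono : ∀ a b : ℕ, a ≤ b → (K1 * (1 + W * (2 * a))) ^ d ≤ (K1 * (1 + W * (2 * b))) ^ d := by
    intro a b hab
    gcongr
  have hY'2 : Y1 < Y' := by
    by_contra h
    have h1 := hmono Y' Y1 (by omega)
    omega
  obtain ⟨Y, hY⟩ : ∃ Y, Y' = Y + 1 := ⟨Y' - 1, by omega⟩
  have hYY1 : Y1 ≤ Y := by omega
  have hYlt : (K1 * (1 + W * (2 * Y))) ^ d < p := by
    by_contra h
    have h1 := Nat.find_min' hex (m := Y) (by omega)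
    omega
  have hY1pos : 1 ≤ Y := le_trans (le_max_right _ _) hYY1
  have hYY0 : Y0 ≤ 2 * Y := by
    have : Y0 ≤ Y1 := le_max_left _ _
    omega
  have hpL : p ≤ (5 * K1 * W) ^ d * Y ^ d := by
    refine hY'1.trans ?_
    rw [hY, ← mul_pow]
    apply Nat.pow_le_pow_left
    have : 1 + W * (2 * (Y + 1)) ≤ 5 * W * Y := by nlinarith
    calc K1 * (1 + W * (2 * (Y + 1))) ≤ K1 * (5 * W * Y) := Nat.mul_le_mul_left _ this
      _ = 5 * K1 * W * Y := by ring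
  -- the bad set
  obtain ⟨Bd, hBd, hBdc⟩ : ∃ Bd : Finset (Fin d → ℕ), (∀ l, l ∈ Bd ↔ l ∈ Bx d (2 * Y) ∧
      ∃ q : ℕ, q.Prime ∧ (q : ℤ) ∣ Nrm d G (C (1 : ℤ) + C (W : ℤ) * pol l) ∧ ¬ q ≡ 1 [MOD m]) ∧
      2 ^ (d + 3) * Bd.card ≤ (2 * Y) ^ d :=
    ⟨_, fun l => Finset.mem_filter, hY0 (2 * Y) hYY0⟩
  have hBd8 : 8 * Bd.card ≤ Y ^ d := by
    rw [mul_pow, pow_add] at hBdc
    have h1 : 2 ^ d * (8 * Bd.card) ≤ 2 ^ d * Y ^ d := by
      calc 2 ^ d * (8 * Bd.card) = 2 ^ d * 2 ^ 3 * Bd.card := by ring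
        _ ≤ 2 ^ d * Y ^ d := hBdc
    exact Nat.le_of_mul_le_mul_left h1 (by positivity)
  -- the sets
  set fA : (Fin d → ℕ) → ZMod p := fun l => (((1 : ℤ) + (W : ℤ) * (pol l).eval x : ℤ) : ZMod p)
    with hfA
  set fB : (Fin d → ℕ) → ZMod p := fun l => (((W : ℤ) * (pol l).eval x : ℤ) : ZMod p) with hfB
  have hsmall : (K1 * Y) ^ d < p := by
    refine lt_of_le_of_lt ?_ hYlt
    apply Nat.pow_le_pow_left
    apply Nat.mul_le_mul_left
    nlinarith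
  have hinj : ∀ l ∈ Bx d Y, ∀ l' ∈ Bx d Y, (p : ℤ) ∣ (W : ℤ) * (pol l).eval x -
      (W : ℤ) * (pol l').eval x → l = l' := by
    intro l hl l' hl' h
    rw [← mul_sub] at h
    rcases (Nat.prime_iff_prime_int.mp hpp).dvd_or_dvd h with h1 | h1
    · exact absurd (Int.natCast_dvd_natCast.mp h1) hpW
    · exact inj hEVD hNZ hA hK1 hpp hpG hsmall l l' ((mem_Bx l).mp hl) ((mem_Bx l').mp hl') h1
  have hinjA : Set.InjOn fA (Bx d Y : Set (Fin d → ℕ)) := by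
    intro l hl l' hl' h
    simp only [hfA] at h
    rw [ZMod.intCast_eq_intCast_iff_dvd_sub] at h
    apply (hinj l' hl' l hl _).symm
    convert h using 1
    ring
  have hinjB : Set.InjOn fB (Bx d Y : Set (Fin d → ℕ)) := by
    intro l hl l' hl' h
    simp only [hfB] at h
    rw [ZMod.intCast_eq_intCast_iff_dvd_sub] at h
    exact (hinj l' hl' l hl h).symm
  have hB := hBIL p hp2 ((Bx d Y).image fA) ((Bx d Y).image fB)
  rw [Finset.card_image_of_injOn hinjA, Finset.card_image_of_injOn hinjB, card_Bx,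
    Finset.sum_image (fun a ha b hb h => hinjA ha hb h)] at hB
  have hB' : (∑ l ∈ Bx d Y, ∑ l' ∈ Bx d Y, quadraticChar (ZMod p) (fA l + fB l')) ^ 2 ≤
      (p : ℤ) * ((Y ^ d : ℕ) : ℤ) * ((Y ^ d : ℕ) : ℤ) := by
    refine le_trans (le_of_eq ?_) hB
    congr 1
    refine Finset.sum_congr rfl fun l _ => ?_
    rw [Finset.sum_image (fun a ha b hb h => hinjB ha hb h)]
  have hlow := sum_lower (Y := Y) Bd hBd8
    (fun l l' => quadraticChar (ZMod p) (fA l + fB l'))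
    (by
      intro l l'
      rcases quadraticChar_isQuadratic (ZMod p) (fA l + fB l') with h | h | h <;> rw [h] <;> norm_num)
    (by
      intro l hl l' hl' hnot
      have hlt : ∀ i, (l + l') i < 2 * Y := by
        intro i
        have h1 := (mem_Bx l).mp hl i
        have h2 := (mem_Bx l').mp hl' i
        simp only [Pi.add_apply]
        omega
      have h3 := good hALG hNZ hREC hJPR hA hK1 hW hR hodd (H := 2 * Y) hYlt (l + l') hlt (by
        intro q hq1 hq2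
        by_contra hcon
        exact hnot ((hBd (l + l')).mpr ⟨(mem_Bx _).mpr hlt, q, hq1, hq2, hcon⟩))
      rw [← jacobiSym.legendreSym.to_jacobiSym, legendreSym] at h3
      have h4 : fA l + fB l' = (((C (1 : ℤ) + C (W : ℤ) * pol (l + l')).eval x : ℤ) : ZMod p) := by
        simp only [hfA, hfB]
        rw [pol_add]
        simp only [eval_add, eval_mul, eval_C]
        push_cast
        ring
      rw [h4]
      exact h3)
  -- conclusion
  set T : ℤ := ∑ l ∈ Bx d Y, ∑ l' ∈ Bx d Y, quadraticChar (ZMod p) (fA l + fB l') with hT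
  have hNpos : 0 < (Y : ℤ) ^ d := by positivity
  have hpL' : (p : ℤ) ≤ ((5 * K1 * W : ℕ) : ℤ) ^ d * (Y : ℤ) ^ d := by exact_mod_cast hpL
  set N : ℤ := (Y : ℤ) ^ d with hN
  set L : ℤ := ((5 * K1 * W : ℕ) : ℤ) ^ d with hL
  have hB2 : T ^ 2 ≤ (p : ℤ) * N ^ 2 := by
    refine hB'.trans (le_of_eq ?_)
    push_cast
    ring
  have hlow' : 3 * N ^ 2 ≤ 4 * T := hlow
  have hLpos : 0 ≤ L := by positivity
  have hpbig : 2 * L ^ 2 < (p : ℤ) := by
    have h1 : 2 * ((5 * K1 * W) ^ d) ^ 2 < p := by omega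
    have h2 : ((2 * ((5 * K1 * W) ^ d) ^ 2 : ℕ) : ℤ) < (p : ℤ) := by exact_mod_cast h1
    rw [hL]
    push_cast at h2 ⊢
    exact h2
  have h1 : 9 * (N ^ 2) ^ 2 ≤ 16 * ((p : ℤ) * N ^ 2) := by
    have h2 : (3 * N ^ 2) ^ 2 ≤ (4 * T) ^ 2 := pow_le_pow_left₀ (by positivity) hlow' 2
    nlinarith
  have h2 : 9 * N ^ 2 ≤ 16 * (p : ℤ) := by
    have h3 : N ^ 2 * (9 * N ^ 2) ≤ N ^ 2 * (16 * (p : ℤ)) := by nlinarith
    exact le_of_mul_le_mul_left h3 (by positivity)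
  have hp0 : (0 : ℤ) < p := by exact_mod_cast hpp.pos
  have h3 : (p : ℤ) ^ 2 ≤ L ^ 2 * N ^ 2 := by
    have := pow_le_pow_left₀ hp0.le hpL' 2
    rwa [mul_pow] at this
  have h4 : 9 * (p : ℤ) ^ 2 ≤ L ^ 2 * (16 * (p : ℤ)) := by
    calc 9 * (p : ℤ) ^ 2 ≤ 9 * (L ^ 2 * N ^ 2) := by linarith
      _ = L ^ 2 * (9 * N ^ 2) := by ring
      _ ≤ L ^ 2 * (16 * (p : ℤ)) := mul_le_mul_of_nonneg_left h2 (by positivity)
  have h5 : 9 * (p : ℤ) ≤ 16 * L ^ 2 := by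
    have h6 : (p : ℤ) * (9 * (p : ℤ)) ≤ (p : ℤ) * (16 * L ^ 2) := by nlinarith
    exact le_of_mul_le_mul_left h6 hp0
  nlinarith [sq_nonneg L]

end Pool.Agent.Work.GEM
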