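import Pool.Agent.Work.GEM.Interface

/-!
# Block ONE (helper85): the sign of the quadratic Gauss sum in dimension one
-/

set_option autoImplicit false

open Filter Topology Complex

namespace Pool.Agent.Work.GEM

namespace ONEAux

/-- the theta series with periodic coefficients, split into residue classes -/
lemma hasSum_class (N : ℕ) (hN : 0 < N) (g : ℤ → ℂ) (hg : ∀ m r : ℤ, g (m * N + r) = g r)
    (ε : ℝ) (hε : 0 < ε) :
    HasSum (fun n : ℤ => g n * cexp (-Real.pi * ε * (n : ℂ) ^ 2))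
      (∑ r ∈ Finset.range N, g ((r : ℕ) : ℤ) *
        ((HurwitzZeta.evenKernel (((r : ℝ) / N : ℝ) : UnitAddCircle) (ε * N ^ 2) : ℝ) : ℂ)) := by
  classical
  have hN' : (N : ℝ) ≠ 0 := by positivity
  have hNC : (N : ℂ) ≠ 0 := by exact_mod_cast hN.ne'
  have hNZ : (N : ℤ) ≠ 0 := by exact_mod_cast hN.ne'
  have key : ∀ r ∈ Finset.range N,
      HasSum (fun n : ℤ => if n % N = (r : ℤ) then g n * cexp (-Real.pi * ε * (n : ℂ) ^ 2) else 0)
        (g ((r : ℕ) : ℤ) * ((HurwitzZeta.evenKernel (((r : ℝ) / N : ℝ) : UnitAddCircle)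
          (ε * N ^ 2) : ℝ) : ℂ)) := by
    intro r hr
    have hr' : (r : ℤ) < N := by exact_mod_cast Finset.mem_range.mp hr
    have hinj : Function.Injective (fun m : ℤ => m * (N : ℤ) + r) := by
      intro a b hab
      simp only at hab
      exact mul_right_cancel₀ hNZ (by linarith)
    rw [← hinj.hasSum_iff]
    · have h1 := (Complex.hasSum_ofReal.mpr (HurwitzZeta.hasSum_int_evenKernel ((r : ℝ) / N)
        (t := ε * N ^ 2) (by positivity))).mul_left (g r)
      have h2 : ((fun n : ℤ => if n % N = (r : ℤ) then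
          g n * cexp (-Real.pi * ε * (n : ℂ) ^ 2) else 0) ∘ fun m : ℤ => m * (N : ℤ) + r) =
          fun i : ℤ => g r *
            ((Real.exp (-Real.pi * (i + (r : ℝ) / N) ^ 2 * (ε * N ^ 2)) : ℝ) : ℂ) := by
        funext m
        have h3 : (m * (N : ℤ) + r) % N = r := by
          rw [add_comm, Int.add_mul_emod_self_right]
          exact Int.emod_eq_of_lt (by positivity) hr'
        simp only [Function.comp_apply, h3, if_true, hg]
        congr 1
        push_cast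
        congr 1
        field_simp
      rw [h2]
      exact h1
    · intro x hx
      have : ¬ (x % N = (r : ℤ)) := by
        intro h
        apply hx
        refine ⟨x / N, ?_⟩
        simp only
        rw [← h]
        have := Int.mul_ediv_add_emod x N
        linarith [mul_comm (x / N) (N : ℤ)]
      simp [this]
  have h := hasSum_sum key
  have h4 : (fun n : ℤ => ∑ r ∈ Finset.range N,
      if n % N = (r : ℤ) then g n * cexp (-Real.pi * ε * (n : ℂ) ^ 2) else 0) =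
      fun n : ℤ => g n * cexp (-Real.pi * ε * (n : ℂ) ^ 2) := by
    funext n
    have h5 : 0 ≤ n % N := Int.emod_nonneg _ hNZ
    have h6 : n % N < N := Int.emod_lt_of_pos _ (by exact_mod_cast hN)
    obtain ⟨k, hk⟩ := Int.eq_ofNat_of_zero_le h5
    rw [Finset.sum_eq_single k]
    · simp [hk]
    · intro b _ hb
      rw [if_neg]
      rw [hk]
      intro h
      exact hb (by exact_mod_cast h.symm)
    · intro h
      exfalso
      apply h
      rw [Finset.mem_range]
      rw [hk] at h6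
      exact_mod_cast h6
  rw [h4] at h
  exact h

/-- `cosKernel a t → 1` as `t → ∞` -/
lemma tendsto_cosKernel (a : UnitAddCircle) :
    Tendsto (fun t : ℝ => HurwitzZeta.cosKernel a t) atTop (𝓝 1) := by
  obtain ⟨p, hp, hO⟩ := HurwitzZeta.isBigO_atTop_cosKernel_sub a
  have h1 : Tendsto (fun x : ℝ => Real.exp (-p * x)) atTop (𝓝 0) := by
    apply Real.tendsto_exp_atBot.comp
    exact tendsto_id.const_mul_atTop_of_neg (by linarith)
  have h2 := hO.trans_tendsto h1
  have h3 := h2.add_const 1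
  simpa using h3

lemma tendsto_left (N : ℕ) (hN : 0 < N) (g : ℤ → ℂ) (hg : ∀ m r : ℤ, g (m * N + r) = g r) :
    Tendsto (fun ε : ℝ => ((√ε : ℝ) : ℂ) * ∑' n : ℤ, g n * cexp (-Real.pi * ε * (n : ℂ) ^ 2))
      (𝓝[>] 0) (𝓝 ((∑ r ∈ Finset.range N, g ((r : ℕ) : ℤ)) / N)) := by
  have hN' : (0 : ℝ) < N := by positivity
  have hNC : (N : ℂ) ≠ 0 := by exact_mod_cast hN.ne'
  have h1 : ∀ ε ∈ Set.Ioi (0 : ℝ),
      ((√ε : ℝ) : ℂ) * ∑' n : ℤ, g n * cexp (-Real.pi * ε * (n : ℂ) ^ 2) =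
      ∑ r ∈ Finset.range N, g ((r : ℕ) : ℤ) * (((1 / N : ℝ) *
        HurwitzZeta.cosKernel (((r : ℝ) / N : ℝ) : UnitAddCircle) (1 / (ε * N ^ 2)) : ℝ) : ℂ) := by
    intro ε hε
    have hε : 0 < ε := hε
    rw [(hasSum_class N hN g hg ε hε).tsum_eq, Finset.mul_sum]
    refine Finset.sum_congr rfl fun r _ => ?_
    rw [HurwitzZeta.evenKernel_functional_equation]
    have h2 : (ε * (N : ℝ) ^ 2) ^ (1 / 2 : ℝ) = √ε * N := by
      rw [← Real.sqrt_eq_rpow, Real.sqrt_mul hε.le, Real.sqrt_sq hN'.le]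
    rw [h2]
    have h3 : (√ε : ℝ) ≠ 0 := (Real.sqrt_pos.mpr hε).ne'
    have h4 : ((√ε : ℝ) : ℂ) ≠ 0 := by exact_mod_cast h3
    push_cast
    field_simp
  have h2 : Tendsto (fun ε : ℝ => ∑ r ∈ Finset.range N, g ((r : ℕ) : ℤ) * (((1 / N : ℝ) *
        HurwitzZeta.cosKernel (((r : ℝ) / N : ℝ) : UnitAddCircle) (1 / (ε * N ^ 2)) : ℝ) : ℂ))
      (𝓝[>] 0) (𝓝 (∑ r ∈ Finset.range N, g ((r : ℕ) : ℤ) * (((1 / N : ℝ) * 1 : ℝ) : ℂ))) := by
    refine tendsto_finsetSum _ fun r _ => ?_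
    refine Tendsto.const_mul _ ?_
    refine (Complex.continuous_ofReal.tendsto _).comp ?_
    refine Tendsto.const_mul _ ?_
    refine (tendsto_cosKernel _).comp ?_
    have h3 : Tendsto (fun ε : ℝ => ε⁻¹) (𝓝[>] 0) atTop := tendsto_inv_nhdsGT_zero
    have h4 := h3.atTop_mul_const (show (0 : ℝ) < ((N : ℝ) ^ 2)⁻¹ by positivity)
    refine h4.congr fun ε => ?_
    rw [one_div, mul_inv]
  have h5 : (∑ r ∈ Finset.range N, g ((r : ℕ) : ℤ) * (((1 / N : ℝ) * 1 : ℝ) : ℂ)) =
      (∑ r ∈ Finset.range N, g ((r : ℕ) : ℤ)) / N := by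
    rw [Finset.sum_div]
    refine Finset.sum_congr rfl fun r _ => ?_
    push_cast
    ring
  rw [h5] at h2
  refine h2.congr' ?_
  filter_upwards [self_mem_nhdsWithin] with ε hε
  exact (h1 ε hε).symm

/-- the square root of a number in the right half plane -/
lemma sqrt_re (a : ℂ) (ha : 0 < a.re) :
    (a ^ (1 / 2 : ℂ)) ^ 2 = a ∧ 0 < (a ^ (1 / 2 : ℂ)).re ∧
      |(a ^ (1 / 2 : ℂ)).im| < (a ^ (1 / 2 : ℂ)).re := by
  have ha0 : a ≠ 0 := by
    rintro rfl
    simp at ha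
  have h1 : (a ^ (1 / 2 : ℂ)) ^ 2 = a := by
    rw [← Complex.cpow_nat_mul]
    norm_num
  have h2 : 0 < (a ^ (1 / 2 : ℂ)).re := by
    rw [Complex.cpow_def_of_ne_zero ha0, Complex.exp_re]
    apply mul_pos (Real.exp_pos _)
    have h3 : (Complex.log a * (1 / 2)).im = a.arg / 2 := by
      have : Complex.log a * (1 / 2) = Complex.log a / (2 : ℝ) := by
        push_cast
        ring
      rw [this, Complex.div_ofReal_im, Complex.log_im]
    rw [h3]
    have h4 := Complex.abs_arg_lt_pi_div_two_iff.mpr (Or.inl ha)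
    rw [abs_lt] at h4
    apply Real.cos_pos_of_mem_Ioo
    constructor <;> linarith [Real.pi_pos]
  refine ⟨h1, h2, ?_⟩
  have h5 : ((a ^ (1 / 2 : ℂ)) ^ 2).re = a.re := by rw [h1]
  rw [sq, Complex.mul_re] at h5
  rw [← sq_lt_sq₀ (abs_nonneg _) h2.le, sq_abs]
  nlinarith

lemma re_mul_pos (u v : ℂ) (hu' : |u.im| < u.re)
    (hv' : |v.im| < v.re) : 0 < (u * v).re := by
  rw [Complex.mul_re]
  have h1 : |u.im * v.im| < u.re * v.re := by
    rw [abs_mul]
    exact mul_lt_mul'' hu' hv' (abs_nonneg _) (abs_nonneg _)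
  have h2 := le_abs_self (u.im * v.im)
  linarith

lemma eq_of_sq (P Q : ℂ) (h : P ^ 2 = Q ^ 2) (hP : 0 < P.re) (hQ : 0 < Q.re) : P = Q := by
  rcases sq_eq_sq_iff_eq_or_eq_neg.mp h with h1 | h1
  · exact h1
  · exfalso
    rw [h1, Complex.neg_re] at hP
    linarith

lemma tendsto_right (N : ℕ) (hN : 0 < N) (h4 : 4 ∣ N) :
    Tendsto (fun ε : ℝ => ((√ε : ℝ) : ℂ) *
        ∑' n : ℤ, cexp (-Real.pi * (ε - 2 * I / N) * (n : ℂ) ^ 2))
      (𝓝[>] 0) (𝓝 ((1 + I) / ((√(N : ℝ) : ℝ) : ℂ))) := by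
  have hNR : (0 : ℝ) < N := by positivity
  have hNC : (N : ℂ) ≠ 0 := by exact_mod_cast hN.ne'
  obtain ⟨k, rfl⟩ := h4
  set N := 4 * k with hNdef
  have h1 : ∀ ε ∈ Set.Ioi (0 : ℝ), ((√ε : ℝ) : ℂ) *
        ∑' n : ℤ, cexp (-Real.pi * (ε - 2 * I / N) * (n : ℂ) ^ 2) =
      ((1 + I) / ((√(N : ℝ) : ℝ) : ℂ)) * jacobiTheta (I * (4 / (N ^ 2 * ε) + 2 * I / N)) := by
    intro ε hε
    have hε : 0 < ε := hε
    have hεC : (ε : ℂ) ≠ 0 := by exact_mod_cast hε.ne'
    set a : ℂ := ε - 2 * I / N with ha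
    set c : ℂ := 4 / (N ^ 2 * ε) + 2 * I / N with hc
    have hare : a.re = ε := by
      have : (2 * I / N : ℂ) = ((2 / N : ℝ) : ℂ) * I := by push_cast; ring
      rw [ha, this]
      simp
    have hcre : c.re = 4 / (N ^ 2 * ε) := by
      have h2 : (2 * I / N : ℂ) = ((2 / N : ℝ) : ℂ) * I := by push_cast; ring
      have h3 : (4 / (N ^ 2 * ε) : ℂ) = ((4 / (N ^ 2 * ε) : ℝ) : ℂ) := by push_cast; ring
      rw [hc, h2, h3, Complex.add_re, Complex.ofReal_re]
      simp
    have ha0 : a ≠ 0 := by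
      intro h
      rw [h] at hare
      simp at hare
      linarith
    have hc0 : c ≠ 0 := by
      intro h
      rw [h] at hcre
      have : (0 : ℝ) < 4 / (N ^ 2 * ε) := by positivity
      simp at hcre
      rw [← hcre] at this
      exact lt_irrefl _ this
    have hca : c * (N * ε) = 2 * I * a := by
      rw [hc, ha]
      field_simp
      ring_nf
      rw [I_sq]
      ring
    have hbre : 0 < (c⁻¹).re := by
      rw [Complex.inv_re]
      apply div_pos
      · rw [hcre]; positivity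
      · exact Complex.normSq_pos.mpr hc0
    have hinv : 1 / a = c⁻¹ + I * N / 2 := by
      have e1 : a = c * (N * ε) / (2 * I) := by
        rw [hca]
        field_simp
      have e2 : c⁻¹ + I * N / 2 = (2 + I * N * c) / (2 * c) := by
        field_simp
      have e3 : (2 + I * N * c) * (N * ε) = 4 * I := by
        have hNa : N * a = N * ε - 2 * I := by
          rw [ha]
          field_simp
        linear_combination (I * N) * hca + (2 * N * a) * I_sq - 2 * hNa
      have e4 : c * (N * ε) ≠ 0 := mul_ne_zero hc0 (mul_ne_zero hNC hεC)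
      have e5 : (2 * c : ℂ) ≠ 0 := mul_ne_zero two_ne_zero hc0
      rw [e2, e1, one_div, inv_div, div_eq_div_iff e4 e5]
      linear_combination (-c) * e3
    rw [Complex.tsum_exp_neg_mul_int_sq (a := a) (by rw [hare]; exact hε)]
    have h5 : ∀ n : ℤ, cexp (-Real.pi / a * (n : ℂ) ^ 2) =
        cexp (-Real.pi * c⁻¹ * (n : ℂ) ^ 2) := by
      intro n
      have h6 : (-Real.pi / a * (n : ℂ) ^ 2) = -Real.pi * c⁻¹ * (n : ℂ) ^ 2 +
          ((-(k * n ^ 2) : ℤ) : ℂ) * (2 * Real.pi * I) := by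
        have : (-Real.pi / a * (n : ℂ) ^ 2) = -Real.pi * (1 / a) * (n : ℂ) ^ 2 := by ring
        rw [this, hinv, hNdef]
        push_cast
        ring
      rw [h6, Complex.exp_add, Complex.exp_int_mul_two_pi_mul_I, mul_one]
    rw [tsum_congr h5, Complex.tsum_exp_neg_mul_int_sq (a := c⁻¹) hbre]
    have h7 : ∀ n : ℤ, cexp (-Real.pi / c⁻¹ * (n : ℂ) ^ 2) =
        cexp (Real.pi * I * (n : ℂ) ^ 2 * (I * c)) := by
      intro n
      congr 1
      rw [div_inv_eq_mul]
      have : (Real.pi * I * (n : ℂ) ^ 2 * (I * c)) = Real.pi * (I * I) * (n : ℂ) ^ 2 * c := by ring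
      rw [this, I_mul_I]
      ring
    rw [tsum_congr h7]
    have h8 : ((√ε : ℝ) : ℂ) / (a ^ (1 / 2 : ℂ) * c⁻¹ ^ (1 / 2 : ℂ)) =
        (1 + I) / ((√(N : ℝ) : ℝ) : ℂ) := by
      obtain ⟨ha1, ha2, ha3⟩ := sqrt_re a (by rw [hare]; exact hε)
      obtain ⟨hb1, hb2, hb3⟩ := sqrt_re c⁻¹ hbre
      apply eq_of_sq
      · rw [div_pow, div_pow, mul_pow, ha1, hb1, ← Complex.ofReal_pow, ← Complex.ofReal_pow,
          Real.sq_sqrt hε.le, Real.sq_sqrt hNR.le]
        have e1 : (1 + I) ^ 2 = 2 * I := by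
          rw [add_sq, I_sq]
          ring
        rw [e1]
        have e2 : a * c⁻¹ = N * ε / (2 * I) := by
          field_simp
          linear_combination (-1 : ℂ) * hca
        rw [e2]
        push_cast
        field_simp
      · have e1 : 0 < (a ^ (1 / 2 : ℂ) * c⁻¹ ^ (1 / 2 : ℂ)).re := re_mul_pos _ _ ha3 hb3
        have e2 : a ^ (1 / 2 : ℂ) * c⁻¹ ^ (1 / 2 : ℂ) ≠ 0 := by
          intro h
          rw [h] at e1
          simp at e1
        rw [div_eq_mul_inv, Complex.re_ofReal_mul, Complex.inv_re]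
        apply mul_pos (Real.sqrt_pos.mpr hε)
        exact div_pos e1 (Complex.normSq_pos.mpr e2)
      · have : (1 + I) / ((√(N : ℝ) : ℝ) : ℂ) = (1 + I) / ((√(N : ℝ) : ℝ) : ℂ) := rfl
        rw [Complex.div_ofReal_re]
        simp
        positivity
    rw [← h8, jacobiTheta]
    ring
  have h2 : Tendsto (fun ε : ℝ => ((1 + I) / ((√(N : ℝ) : ℝ) : ℂ)) *
      jacobiTheta (I * (4 / (N ^ 2 * ε) + 2 * I / N))) (𝓝[>] 0)
      (𝓝 (((1 + I) / ((√(N : ℝ) : ℝ) : ℂ)) * 1)) := by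
    refine Tendsto.const_mul _ ?_
    have hO := isBigO_at_im_infty_jacobiTheta_sub_one
    have hexp : Tendsto (fun τ : ℂ => Real.exp (-Real.pi * τ.im)) (comap im atTop) (𝓝 0) := by
      apply Real.tendsto_exp_atBot.comp
      exact Tendsto.const_mul_atTop_of_neg (by linarith [Real.pi_pos]) tendsto_comap
    have hT := (hO.trans_tendsto hexp).add_const 1
    simp only [sub_add_cancel, zero_add] at hT
    refine hT.comp ?_
    rw [tendsto_comap_iff]
    have e1 : ∀ ε : ℝ, (im ∘ fun ε : ℝ => (I * (4 / (N ^ 2 * ε) + 2 * I / N) : ℂ)) ε =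
        ε⁻¹ * (4 / N ^ 2) := by
      intro ε
      have h2 : (2 * I / N : ℂ) = ((2 / N : ℝ) : ℂ) * I := by push_cast; ring
      have h3 : (4 / (N ^ 2 * ε) : ℂ) = ((4 / (N ^ 2 * ε) : ℝ) : ℂ) := by push_cast; ring
      simp only [Function.comp_apply]
      rw [h2, h3, Complex.I_mul_im, Complex.add_re, Complex.ofReal_re]
      simp only [mul_re, ofReal_re, I_re, mul_zero, ofReal_im, I_im, mul_one, sub_self, add_zero]
      rw [div_mul_eq_div_div]
      ring
    rw [tendsto_congr e1]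
    exact tendsto_inv_nhdsGT_zero.atTop_mul_const (by positivity)
  rw [mul_one] at h2
  refine h2.congr' ?_
  filter_upwards [self_mem_nhdsWithin] with ε hε
  exact (h1 ε hε).symm

/-- the quadratic Gauss sum modulo a multiple of four -/
lemma gauss (N : ℕ) (hN : 0 < N) (h4 : 4 ∣ N) :
    ∑ r ∈ Finset.range N, cexp (2 * Real.pi * I * (r : ℂ) ^ 2 / N) =
      (1 + I) * ((√(N : ℝ) : ℝ) : ℂ) := by
  have hNR : (0 : ℝ) < N := by positivity
  have hNC : (N : ℂ) ≠ 0 := by exact_mod_cast hN.ne'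
  have hg : ∀ m r : ℤ, (fun n : ℤ => cexp (2 * Real.pi * I * (n : ℂ) ^ 2 / N)) (m * N + r) =
      (fun n : ℤ => cexp (2 * Real.pi * I * (n : ℂ) ^ 2 / N)) r := by
    intro m r
    simp only
    have : (2 * Real.pi * I * ((m * N + r : ℤ) : ℂ) ^ 2 / N : ℂ) =
        2 * Real.pi * I * (r : ℂ) ^ 2 / N + ((m ^ 2 * N + 2 * m * r : ℤ) : ℂ) *
          (2 * Real.pi * I) := by
      push_cast
      field_simp
      ring
    rw [this, Complex.exp_add, Complex.exp_int_mul_two_pi_mul_I, mul_one]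
  have h1 := tendsto_left N hN (fun n : ℤ => cexp (2 * Real.pi * I * (n : ℂ) ^ 2 / N)) hg
  have h2 := tendsto_right N hN h4
  have h3 : (fun ε : ℝ => ((√ε : ℝ) : ℂ) * ∑' n : ℤ,
        (fun n : ℤ => cexp (2 * Real.pi * I * (n : ℂ) ^ 2 / N)) n *
          cexp (-Real.pi * ε * (n : ℂ) ^ 2)) =
      fun ε : ℝ => ((√ε : ℝ) : ℂ) *
        ∑' n : ℤ, cexp (-Real.pi * (ε - 2 * I / N) * (n : ℂ) ^ 2) := by
    funext ε
    congr 1
    refine tsum_congr fun n => ?_
    simp only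
    rw [← Complex.exp_add]
    congr 1
    ring
  rw [h3] at h1
  have h5 := tendsto_nhds_unique h1 h2
  simp only [Int.cast_natCast] at h5
  have h6 : ((√(N : ℝ) : ℝ) : ℂ) ≠ 0 := by exact_mod_cast (Real.sqrt_pos.mpr hNR).ne'
  have h7 : ((√(N : ℝ) : ℝ) : ℂ) * ((√(N : ℝ) : ℝ) : ℂ) = N := by
    rw [← Complex.ofReal_mul, Real.mul_self_sqrt hNR.le]
    simp
  rw [div_eq_div_iff hNC h6] at h5
  have h8 : (∑ r ∈ Finset.range N, cexp (2 * Real.pi * I * (r : ℂ) ^ 2 / N)) *
      ((√(N : ℝ) : ℝ) : ℂ) = ((1 + I) * ((√(N : ℝ) : ℝ) : ℂ)) * ((√(N : ℝ) : ℝ) : ℂ) := by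
    rw [h5, mul_assoc, h7]
  exact mul_right_cancel₀ h6 h8

lemma sum_zmod (n : ℕ) [NeZero n] (F : ZMod n → ℂ) :
    ∑ z, F z = ∑ j ∈ Finset.range n, F (j : ZMod n) := by
  refine Finset.sum_nbij' (fun z => z.val) (fun j => (j : ZMod n)) ?_ ?_ ?_ ?_ ?_
  · intro z _
    exact Finset.mem_range.mpr (ZMod.val_lt z)
  · intro j _
    exact Finset.mem_univ _
  · intro z _
    exact ZMod.natCast_zmod_val z
  · intro j hj
    exact ZMod.val_cast_of_lt (Finset.mem_range.mp hj)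
  · intro z _
    rw [ZMod.natCast_zmod_val]

lemma sum_range_mul (F : ℕ → ℂ) (N : ℕ) (hF : ∀ j, F (j + N) = F j) (e : ℕ) :
    ∑ j ∈ Finset.range (e * N), F j = e * ∑ j ∈ Finset.range N, F j := by
  have hF' : ∀ k j, F (k * N + j) = F j := by
    intro k
    induction k with
    | zero => intro j; simp
    | succ k ih =>
      intro j
      have : (k + 1) * N + j = (k * N + j) + N := by ring
      rw [this, hF, ih]
  induction e with
  | zero => simp
  | succ e ih =>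
    rw [Nat.succ_mul, Finset.sum_range_add, ih]
    simp only [hF']
    push_cast
    ring

/-- the case of positive `c` -/
lemma pos_case (e k : ℕ) (he : 0 < e) (hk : 0 < k) :
    ∑ j ∈ Finset.range ((2 * e * k) ^ 2), cexp (2 * Real.pi * I * (e * j * j) /
      (((2 * e * k) ^ 2 : ℕ) : ℂ)) = ((2 * e * k : ℕ) : ℂ) * ((√(e : ℝ) : ℝ) : ℂ) * (1 + I) := by
  have h1 : (2 * e * k) ^ 2 = e * (4 * e * k ^ 2) := by ring
  have heC : (e : ℂ) ≠ 0 := by exact_mod_cast he.ne'
  have hkC : (k : ℂ) ≠ 0 := by exact_mod_cast hk.ne'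
  have h2 : ∀ j : ℕ, cexp (2 * Real.pi * I * (e * j * j) / (((2 * e * k) ^ 2 : ℕ) : ℂ)) =
      cexp (2 * Real.pi * I * (j : ℂ) ^ 2 / ((4 * e * k ^ 2 : ℕ) : ℂ)) := by
    intro j
    congr 1
    push_cast
    field_simp
    ring
  rw [Finset.sum_congr rfl (fun j _ => h2 j), h1, sum_range_mul _ (4 * e * k ^ 2) _ e,
    gauss (4 * e * k ^ 2) (by positivity) ⟨e * k ^ 2, by ring⟩]
  · have h3 : √(((4 * e * k ^ 2 : ℕ) : ℝ)) = 2 * k * √(e : ℝ) := by
      have : ((4 * e * k ^ 2 : ℕ) : ℝ) = (2 * k) ^ 2 * e := by push_cast; ring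
      rw [this, Real.sqrt_mul (by positivity), Real.sqrt_sq (by positivity)]
    rw [h3]
    push_cast
    ring
  · intro j
    have : (2 * Real.pi * I * ((j + 4 * e * k ^ 2 : ℕ) : ℂ) ^ 2 / ((4 * e * k ^ 2 : ℕ) : ℂ) : ℂ) =
        2 * Real.pi * I * (j : ℂ) ^ 2 / ((4 * e * k ^ 2 : ℕ) : ℂ) +
          ((2 * j + 4 * e * k ^ 2 : ℤ) : ℂ) * (2 * Real.pi * I) := by
      push_cast
      field_simp
      ring
    rw [this, Complex.exp_add, Complex.exp_int_mul_two_pi_mul_I, mul_one]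

end ONEAux

open ONEAux in
/-- Block ONE -/
theorem stmt_ONE : Stmt_ONE := by
  intro c D hD hc hcD
  have hn : D ^ 2 ≠ 0 := by positivity
  have hGS : GS1 (D ^ 2) c = ∑ j ∈ Finset.range (D ^ 2),
      cexp (2 * Real.pi * I * (c * j * j) / ((D ^ 2 : ℕ) : ℂ)) := by
    have : NeZero (D ^ 2) := ⟨hn⟩
    unfold GS1
    rw [dif_neg hn, sum_zmod]
    refine Finset.sum_congr rfl fun j _ => ?_
    have : ((c : ZMod (D ^ 2)) * (j : ZMod (D ^ 2)) * (j : ZMod (D ^ 2))) =
        ((c * j * j : ℤ) : ZMod (D ^ 2)) := by push_cast; ring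
    rw [this, ZMod.stdAddChar_coe]
    push_cast
    rfl
  rcases lt_or_gt_of_ne hc with hneg | hpos
  · obtain ⟨e, rfl⟩ : ∃ e : ℕ, c = -e := ⟨c.natAbs, by omega⟩
    have he : 0 < e := by omega
    obtain ⟨k, hk⟩ : ∃ k : ℕ, D = 2 * e * k := by
      have h1 : (2 * (e : ℤ)) ∣ (D : ℤ) := by
        have h2 : (2 * -(e : ℤ)) = -(2 * e) := by ring
        rw [h2, neg_dvd] at hcD
        exact hcD
      have h3 : (2 * e) ∣ D := by exact_mod_cast h1
      exact h3
    have hk0 : 0 < k := by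
      rcases Nat.eq_zero_or_pos k with h | h
      · rw [h] at hk; simp at hk; omega
      · exact h
    have h1 := pos_case e k he hk0
    rw [← hk] at h1
    have h2 := congrArg (starRingEnd ℂ) h1
    rw [map_sum] at h2
    have h3 : ∀ j ∈ Finset.range (D ^ 2), (starRingEnd ℂ)
        (cexp (2 * Real.pi * I * (e * j * j) / ((D ^ 2 : ℕ) : ℂ))) =
        cexp (2 * Real.pi * I * (((-(e : ℤ) : ℤ) : ℂ) * j * j) / ((D ^ 2 : ℕ) : ℂ)) := by
      intro j _
      rw [← Complex.exp_conj]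
      congr 1
      simp only [map_div₀, map_mul, Complex.conj_I, Complex.conj_ofReal, map_natCast, map_ofNat]
      push_cast
      ring
    rw [Finset.sum_congr rfl h3] at h2
    rw [hGS, h2]
    have h4 : |((-(e : ℤ) : ℤ) : ℝ)| = e := by
      push_cast
      rw [abs_neg, abs_of_nonneg (by positivity)]
    have h5 : ((-(e : ℤ) : ℤ)).sign = -1 := Int.sign_eq_neg_one_of_neg hneg
    rw [h4, h5]
    simp only [map_mul, map_add, map_one, Complex.conj_I, Complex.conj_ofReal, map_natCast]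
    push_cast
    ring
  · obtain ⟨e, rfl⟩ : ∃ e : ℕ, c = e := ⟨c.natAbs, by omega⟩
    have he : 0 < e := by omega
    obtain ⟨k, hk⟩ : ∃ k : ℕ, D = 2 * e * k := by
      have h3 : (2 * e) ∣ D := by exact_mod_cast hcD
      exact h3
    have hk0 : 0 < k := by
      rcases Nat.eq_zero_or_pos k with h | h
      · rw [h] at hk; simp at hk; omega
      · exact h
    have h1 := pos_case e k he hk0
    rw [← hk] at h1
    have h5 : ((e : ℤ)).sign = 1 := Int.sign_eq_one_of_pos hpos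
    have h4 : |((e : ℤ) : ℝ)| = e := by
      rw [Int.cast_natCast, abs_of_nonneg (by positivity)]
    rw [hGS, h4, h5]
    simp only [Int.cast_natCast]
    rw [h1]
    push_cast
    ring

end Pool.Agent.Work.GEM
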