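import Pool.Agent.Work.GEM.Interface

/-! # Block PF (helper21) -/

set_option autoImplicit false

open Polynomial

namespace Pool.Agent.Work.GEM

namespace PFAux

theorem GS_diag (n : ℕ) (hn : n ≠ 0) {r : ℕ} (c : Fin r → ℤ) :
    GS n (Matrix.diagonal c) = ∏ i, GS1 n (c i) := by
  classical
  haveI : NeZero n := ⟨hn⟩
  have h1 : ∀ i, GS1 n (c i) = ∑ z : ZMod n, ZMod.stdAddChar ((c i : ZMod n) * z * z) := by
    intro i
    simp only [GS1, dif_neg hn]
  have h2 : GS n (Matrix.diagonal c) = ∑ z : Fin r → ZMod n,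
      ZMod.stdAddChar (qf (Matrix.diagonal c) z) := by
    simp only [GS, dif_neg hn]
  rw [h2, Finset.prod_congr rfl fun i _ => h1 i, Finset.prod_univ_sum, Fintype.piFinset_univ]
  refine Finset.sum_congr rfl fun z _ => ?_
  have h3 : qf (Matrix.diagonal c) z = ∑ i, (c i : ZMod n) * z i * z i := by
    simp only [qf]
    refine Finset.sum_congr rfl fun i _ => ?_
    rw [Finset.sum_eq_single i]
    · rw [Matrix.diagonal_apply_eq]
    · intro j _ hj
      rw [Matrix.diagonal_apply_ne _ hj.symm]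
      simp
    · intro h
      exact absurd (Finset.mem_univ _) h
  rw [h3]
  have h4 : ∀ s : Finset (Fin r), (ZMod.stdAddChar (∑ i ∈ s, (c i : ZMod n) * z i * z i) : ℂ) =
      ∏ i ∈ s, ZMod.stdAddChar ((c i : ZMod n) * z i * z i) := by
    intro s
    induction s using Finset.induction_on with
    | empty => simp
    | insert a s ha ih => rw [Finset.sum_insert ha, Finset.prod_insert ha,
        AddChar.map_add_eq_mul, ih]
  exact h4 _

/-- balanced signs -/
theorem prod_sign {r : ℕ} (c : Fin r → ℤ) (hc : ∀ i, c i ≠ 0)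
    (h : (Finset.univ.filter fun i => 0 < c i).card = (Finset.univ.filter fun i => c i < 0).card) :
    ∏ i, (1 + Complex.I * ((c i).sign : ℂ)) = ((Real.sqrt ((2 : ℝ) ^ r) : ℝ) : ℂ) := by
  classical
  set k := (Finset.univ.filter fun i => 0 < c i).card with hk
  have hneg : (Finset.univ.filter fun i => ¬ 0 < c i) = Finset.univ.filter fun i => c i < 0 := by
    refine Finset.filter_congr fun i _ => ?_
    have := hc i
    omega
  have hr : r = 2 * k := by
    have h1 := Finset.card_filter_add_card_filter_not (s := (Finset.univ : Finset (Fin r)))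
      (fun i => 0 < c i)
    rw [hneg, ← h, Finset.card_univ, Fintype.card_fin] at h1
    omega
  rw [← Finset.prod_filter_mul_prod_filter_not Finset.univ (fun i => 0 < c i), hneg]
  have h1 : ∏ i ∈ Finset.univ.filter (fun i => 0 < c i), (1 + Complex.I * ((c i).sign : ℂ)) =
      (1 + Complex.I) ^ k := by
    rw [Finset.prod_congr rfl (g := fun _ => 1 + Complex.I), Finset.prod_const]
    intro i hi
    rw [Int.sign_eq_one_of_pos (Finset.mem_filter.1 hi).2]
    simp
  have h2 : ∏ i ∈ Finset.univ.filter (fun i => c i < 0), (1 + Complex.I * ((c i).sign : ℂ)) =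
      (1 - Complex.I) ^ k := by
    rw [h, Finset.prod_congr rfl (g := fun _ => 1 - Complex.I), Finset.prod_const]
    intro i hi
    rw [Int.sign_eq_neg_one_of_neg (Finset.mem_filter.1 hi).2]
    push_cast
    ring
  rw [h1, h2, ← mul_pow]
  have h3 : (1 + Complex.I) * (1 - Complex.I) = 2 := by
    have : (1 + Complex.I) * (1 - Complex.I) = 1 - Complex.I ^ 2 := by ring
    rw [this, Complex.I_sq]
    norm_num
  rw [h3]
  have h4 : Real.sqrt ((2 : ℝ) ^ r) = 2 ^ k := by
    rw [hr, pow_mul', Real.sqrt_sq (by positivity)]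
  rw [h4]
  push_cast
  ring

end PFAux

open PFAux in
theorem stmt_PF (hA : Stmt_ALG) (hD : Stmt_DIAG) (hI : Stmt_INV) (hO : Stmt_ONE) (hJ : Stmt_SIGJ)
    (hS : Stmt_SIGD) : Stmt_PF := by
  classical
  intro d G a hG hN
  have hmon := hG.1
  have hdeg := hG.2.1
  have hd1 : 1 ≤ d := by have := hG.2.2.1; omega
  set B := Bmat d G a with hB
  have hBs : B.IsSymm := hA.B_symm ℤ d G a
  have hBdet : B.det = (Bmat d G 1).det * Nrm d G a := hA.B_det d G a hmon hdeg
  have hB1 := hA.B_det1 d G hmon hdeg hd1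
  have hB0 : B.det ≠ 0 := by
    rw [hBdet]
    refine mul_ne_zero ?_ hN
    rcases hB1 with h | h <;> rw [h] <;> norm_num
  have hBabs : |((B.det : ℤ) : ℝ)| = |((Nrm d G a : ℤ) : ℝ)| := by
    rw [hBdet]
    rcases hB1 with h | h <;> rw [h] <;> simp
  obtain ⟨P, c, hP, hc, hPc⟩ := hD d B hBs hB0
  have hprod : P.det ^ 2 * B.det = ∏ i, c i := by
    have h := congrArg Matrix.det hPc
    rw [Matrix.det_mul, Matrix.det_mul, Matrix.det_transpose, Matrix.det_diagonal] at h
    rw [← h]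
    ring
  set E : ℤ := 2 * B.det * P.det * ∏ i, c i with hE
  have hE0 : E ≠ 0 := by
    have h1 : ∏ i, c i ≠ 0 := Finset.prod_ne_zero_iff.2 fun i _ => hc i
    rw [hE]
    exact mul_ne_zero (mul_ne_zero (mul_ne_zero (by norm_num) hB0) hP) h1
  refine ⟨E.natAbs, Int.natAbs_pos.2 hE0, fun D hDpos hDE => ?_⟩
  have hDE' : E ∣ (D : ℤ) := by
    rw [← Int.natAbs_dvd]
    exact_mod_cast hDE
  -- invariance
  have hinv := hI d B P D hDpos hBs hB0 hP (dvd_trans (Dvd.intro _ rfl) hDE')
  rw [hPc] at hinv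
  have hn : D ^ 2 ≠ 0 := by positivity
  rw [GS_diag (D ^ 2) hn c] at hinv
  have hone : ∀ i, GS1 (D ^ 2) (c i) =
      (D : ℂ) * ((Real.sqrt |(c i : ℝ)| : ℝ) : ℂ) * (1 + Complex.I * ((c i).sign : ℂ)) := by
    intro i
    refine hO (c i) D hDpos (hc i) (dvd_trans ?_ hDE')
    have h1 : c i ∣ ∏ j, c j := Finset.dvd_prod_of_mem c (Finset.mem_univ i)
    obtain ⟨e, he⟩ := h1
    exact ⟨B.det * P.det * e, by rw [hE, he]; ring⟩
  -- signature
  obtain ⟨J, hJ1, hJ0⟩ := hJ d G a hG
  have hsig : (Finset.univ.filter fun i => 0 < c i).card =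
      (Finset.univ.filter fun i => c i < 0).card := by
    set PR : Matrix (Fin d) (Fin d) ℝ := P.map (Int.castRingHom ℝ) with hPR
    set BR : Matrix (Fin d) (Fin d) ℝ := B.map (Int.castRingHom ℝ) with hBR
    have hPRdet : PR.det ≠ 0 := by
      have h1 : PR.det = ((P.det : ℤ) : ℝ) := by
        have h2 : PR.det = (Int.castRingHom ℝ) P.det := by
          rw [RingHom.map_det]
          rfl
        rw [h2]
        rfl
      rw [h1]
      exact_mod_cast hP
    have hPcR : PR.transpose * BR * PR = Matrix.diagonal (fun i => (c i : ℝ)) := by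
      have h1 := congrArg (fun M : Matrix (Fin d) (Fin d) ℤ => M.map (Int.castRingHom ℝ)) hPc
      simp only [Matrix.map_mul, Matrix.transpose_map] at h1
      rw [hPR, hBR, h1, Matrix.diagonal_map (map_zero _)]
      rfl
    have hu : IsUnit PR.det := isUnit_iff_ne_zero.2 hPRdet
    have hs := hS d (fun i => (c i : ℝ)) (PR⁻¹ * J * PR) (fun i => by exact_mod_cast hc i) (by
      rw [Matrix.det_mul, Matrix.det_mul]
      refine mul_ne_zero (mul_ne_zero ?_ hJ0) hPRdet
      exact (Matrix.isUnit_nonsing_inv_det PR hu).ne_zero) (by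
      rw [← hPcR, Matrix.transpose_mul, Matrix.transpose_mul]
      have e1 : PR * (PR⁻¹ * J * PR) = J * PR := by
        rw [← Matrix.mul_assoc, ← Matrix.mul_assoc, Matrix.mul_nonsing_inv PR hu, Matrix.one_mul]
      have e2 : PR.transpose * (J.transpose * PR⁻¹.transpose) * (PR.transpose * BR * PR) *
          (PR⁻¹ * J * PR) = PR.transpose * (J.transpose * (PR⁻¹.transpose * PR.transpose) * BR *
          (PR * (PR⁻¹ * J * PR))) := by
        simp only [Matrix.mul_assoc]
      have e3 : PR⁻¹.transpose * PR.transpose = 1 := by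
        rw [← Matrix.transpose_mul, Matrix.mul_nonsing_inv PR hu, Matrix.transpose_one]
      rw [e2, e1, e3, Matrix.mul_one]
      have e4 : PR.transpose * (J.transpose * BR * (J * PR)) =
          PR.transpose * ((J.transpose * BR * J) * PR) := by
        simp only [Matrix.mul_assoc]
      rw [e4, hBR, hJ1, Matrix.neg_mul, Matrix.mul_neg, Matrix.mul_assoc])
    have f1 : (Finset.univ.filter fun i => (0 : ℝ) < (c i : ℝ)) =
        Finset.univ.filter fun i => 0 < c i :=
      Finset.filter_congr fun i _ => by exact_mod_cast Iff.rfl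
    have f2 : (Finset.univ.filter fun i => (c i : ℝ) < 0) =
        Finset.univ.filter fun i => c i < 0 :=
      Finset.filter_congr fun i _ => by exact_mod_cast Iff.rfl
    rw [f1, f2] at hs
    exact hs
  -- conclusion
  have hval : ∏ i, GS1 (D ^ 2) (c i) = (D : ℂ) ^ d *
      ((Real.sqrt (∏ i, |(c i : ℝ)|) : ℝ) : ℂ) * ((Real.sqrt ((2 : ℝ) ^ d) : ℝ) : ℂ) := by
    rw [Finset.prod_congr rfl fun i _ => hone i, Finset.prod_mul_distrib, Finset.prod_mul_distrib,
      prod_sign c hc hsig, Finset.prod_const, Finset.card_univ, Fintype.card_fin]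
    have h1 : Real.sqrt (∏ i, |(c i : ℝ)|) = ∏ i, Real.sqrt |(c i : ℝ)| :=
      Real.sqrt_prod _ fun i _ => abs_nonneg _
    rw [h1]
    push_cast
    ring
  have habs : ∏ i, |(c i : ℝ)| = ((P.det : ℤ) : ℝ) ^ 2 * |((Nrm d G a : ℤ) : ℝ)| := by
    rw [← Finset.abs_prod, ← hBabs]
    have h1 : ∏ i, (c i : ℝ) = (((P.det ^ 2 * B.det : ℤ)) : ℝ) := by
      rw [hprod]
      push_cast
      rfl
    rw [h1]
    push_cast
    rw [abs_mul, abs_of_nonneg (sq_nonneg _)]
  have hsq : Real.sqrt (∏ i, |(c i : ℝ)|) * Real.sqrt ((2 : ℝ) ^ d) =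
      |((P.det : ℤ) : ℝ)| * Real.sqrt ((2 : ℝ) ^ d * |((Nrm d G a : ℤ) : ℝ)|) := by
    rw [habs, Real.sqrt_mul (sq_nonneg _), Real.sqrt_sq_eq_abs, Real.sqrt_mul (by positivity)]
    ring
  have hPabs : ((P.det.natAbs : ℕ) : ℂ) = ((|((P.det : ℤ) : ℝ)| : ℝ) : ℂ) := by
    have h1 : ((P.det.natAbs : ℕ) : ℝ) = |((P.det : ℤ) : ℝ)| := by
      rw [Nat.cast_natAbs]
      push_cast
      rfl
    rw [← h1]
    push_cast
    rfl
  have hP0 : ((P.det.natAbs : ℕ) : ℂ) ≠ 0 := by
    have := Int.natAbs_ne_zero.2 hP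
    exact_mod_cast this
  have hfin : ((P.det.natAbs : ℕ) : ℂ) * GS (D ^ 2) B = ((P.det.natAbs : ℕ) : ℂ) *
      ((D : ℂ) ^ d * ((Real.sqrt ((2 : ℝ) ^ d * |((Nrm d G a : ℤ) : ℝ)|) : ℝ) : ℂ)) := by
    rw [← hinv, hval, mul_assoc, ← Complex.ofReal_mul, hsq, hPabs, Complex.ofReal_mul]
    ring
  exact mul_left_cancel₀ hP0 hfin

end Pool.Agent.Work.GEM
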