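import Pool.Agent.Work.GEM.Interface

/-!
# QSQ: a common root outside `F_q` gives `q^2 ∣ norm` (helper6)
-/

set_option autoImplicit false

open Polynomial

namespace Pool.Agent.Work.GEM

namespace QSQAux

/-- the columns of `M_a` times the coefficients of `p` -/
theorem mulVec_coeff (d : ℕ) (G a p : ℤ[X]) (hG : G.Monic) (hp : p.degree < (d : ℕ)) (i : Fin d) :
    ∑ k : Fin d, Mmat d G a i k * p.coeff k = ((a * p) %ₘ G).coeff i := by
  have h1 : p = ∑ k : Fin d, C (p.coeff k) * X ^ (k : ℕ) := by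
    rw [Fin.sum_univ_eq_sum_range (fun k => C (p.coeff k) * X ^ k) d]
    ext n
    rw [finsetSum_coeff]
    simp only [coeff_C_mul, coeff_X_pow]
    by_cases hn : n < d
    · rw [Finset.sum_eq_single n]
      · simp
      · intro b _ hb
        rw [if_neg (Ne.symm hb), mul_zero]
      · intro h
        exact absurd (Finset.mem_range.mpr hn) h
    · rw [Finset.sum_eq_zero]
      · exact coeff_eq_zero_of_degree_lt (lt_of_lt_of_le hp (by exact_mod_cast not_lt.mp hn))
      · intro b hb
        rw [if_neg, mul_zero]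
        intro h
        exact hn (h ▸ Finset.mem_range.mp hb)
  have h2 : (a * p) %ₘ G = ∑ k : Fin d, C (p.coeff k) * ((a * X ^ (k : ℕ)) %ₘ G) := by
    conv_lhs => rw [h1]
    rw [Finset.mul_sum]
    have h3 : ∀ (s : Finset (Fin d)) (f : Fin d → ℤ[X]),
        (∑ k ∈ s, f k) %ₘ G = ∑ k ∈ s, (f k %ₘ G) := by
      intro s f
      classical
      induction s using Finset.induction_on with
      | empty => simp
      | insert x s hx ih => rw [Finset.sum_insert hx, Finset.sum_insert hx, add_modByMonic, ih]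
    rw [h3]
    refine Finset.sum_congr rfl fun k _ => ?_
    have h4 : a * (C (p.coeff k) * X ^ (k : ℕ)) = (p.coeff k) • (a * X ^ (k : ℕ)) := by
      rw [smul_eq_C_mul]; ring
    rw [h4, smul_modByMonic, smul_eq_C_mul]
  rw [h2, finsetSum_coeff]
  refine Finset.sum_congr rfl fun k _ => ?_
  rw [coeff_C_mul, mul_comm]
  rfl

end QSQAux

theorem stmt_QSQ : Stmt_QSQ := by
  classical
  intro d G hG hd q _ t a ht hGt hat
  set φ : ℤ →+* ZMod q := Int.castRingHom (ZMod q) with hφ
  have hmapG : aeval t (G.map φ) = 0 := by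
    have := aeval_map_algebraMap (A := ZMod q) t G
    rw [algebraMap_int_eq] at this
    rw [this, hGt]
  have hmapa : aeval t (a.map φ) = 0 := by
    have := aeval_map_algebraMap (A := ZMod q) t a
    rw [algebraMap_int_eq] at this
    rw [this, hat]
  have hGm : (G.map φ).Monic := hG.map φ
  have hint : IsIntegral (ZMod q) t := ⟨G.map φ, hGm, hmapG⟩
  set P : (ZMod q)[X] := minpoly (ZMod q) t with hP
  have hPm : P.Monic := minpoly.monic hint
  obtain ⟨Q, hQ⟩ : P ∣ G.map φ := minpoly.dvd _ _ hmapG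
  obtain ⟨b, hb⟩ : P ∣ a.map φ := minpoly.dvd _ _ hmapa
  have hQm : Q.Monic := by
    rw [hQ] at hGm
    exact hPm.of_mul_monic_left hGm
  have hdeg : P.natDegree + Q.natDegree = d := by
    rw [← hPm.natDegree_mul hQm, ← hQ, hG.natDegree_map, hd]
  have hP2 : 2 ≤ P.natDegree := by
    have h1 : P.natDegree ≠ 0 := (minpoly.natDegree_pos hint).ne'
    have h2 : P.natDegree ≠ 1 := by
      intro h
      obtain ⟨c, hc⟩ := minpoly.natDegree_eq_one_iff.mp h
      exact ht c hc
    omega
  obtain ⟨Q', hQ', hQ'd, hQ'm⟩ : ∃ Q' : ℤ[X], Q'.map φ = Q ∧ Q'.degree = Q.degree ∧ Q'.Monic := by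
    apply lifts_and_degree_eq_and_monic _ hQm
    rw [lifts_iff_coeff_lifts]
    intro n
    obtain ⟨z, hz⟩ := ZMod.intCast_surjective (Q.coeff n)
    exact ⟨z, by rw [hφ]; simpa using hz⟩
  have hQ'n : Q'.natDegree = Q.natDegree := natDegree_eq_of_degree_eq hQ'd
  have hd2 : 2 ≤ d := by omega
  -- the polynomials of the new basis
  set p : ℕ → ℤ[X] := fun j => if j < d - 2 then X ^ j else Q' * X ^ (j - Q.natDegree) with hp
  have hpm : ∀ j, j < d → (p j).Monic := by
    intro j hj
    simp only [hp]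
    split_ifs
    · exact monic_X_pow j
    · exact hQ'm.mul (monic_X_pow _)
  have hpd : ∀ j, j < d → (p j).natDegree = j := by
    intro j hj
    simp only [hp]
    split_ifs with h
    · exact natDegree_X_pow j
    · rw [hQ'm.natDegree_mul (monic_X_pow _), natDegree_X_pow, hQ'n]
      omega
  set B : Matrix (Fin d) (Fin d) ℤ := fun i j => (p j).coeff i with hB
  have hBdet : B.det = 1 := by
    rw [Matrix.det_of_upperTriangular]
    · refine Finset.prod_eq_one fun i _ => ?_
      have h1 := (hpm i i.2).coeff_natDegree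
      rw [hpd i i.2] at h1
      exact h1
    · intro i j hij
      have h1 : (p j).natDegree < (i : ℕ) := by rw [hpd j j.2]; exact hij
      exact coeff_eq_zero_of_natDegree_lt h1
  -- the product
  have hprod : ∀ i j : Fin d, (Mmat d G a * B) i j = ((a * p j) %ₘ G).coeff i := by
    intro i j
    rw [Matrix.mul_apply]
    apply QSQAux.mulVec_coeff d G a (p j) hG
    rw [degree_eq_natDegree (hpm j j.2).ne_zero, hpd j j.2]
    exact_mod_cast j.2
  have hdiv : ∀ i j : Fin d, ¬ (j : ℕ) < d - 2 → (q : ℤ) ∣ (Mmat d G a * B) i j := by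
    intro i j hj
    rw [hprod]
    have h1 : ((a * p j) %ₘ G).map φ = 0 := by
      rw [map_modByMonic _ hG, modByMonic_eq_zero_iff_dvd hGm]
      have h2 : p j = Q' * X ^ ((j : ℕ) - Q.natDegree) := by simp only [hp]; rw [if_neg hj]
      rw [h2, Polynomial.map_mul, Polynomial.map_mul, hQ', hb, hQ]
      exact ⟨b * (X ^ ((j : ℕ) - Q.natDegree) : ℤ[X]).map φ, by ring⟩
    have h3 : φ (((a * p j) %ₘ G).coeff i) = 0 := by
      rw [← coeff_map, h1, coeff_zero]
    rw [hφ] at h3
    exact (ZMod.intCast_zmod_eq_zero_iff_dvd _ q).mp (by simpa using h3)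
  -- divide the last two columns
  set δ : Fin d → ℤ := fun j => if (j : ℕ) < d - 2 then 1 else (q : ℤ) with hδ
  have hN : ∃ N : Matrix (Fin d) (Fin d) ℤ, Mmat d G a * B = N * Matrix.diagonal δ := by
    have h1 : ∀ i j : Fin d, ∃ n : ℤ, (Mmat d G a * B) i j = n * δ j := by
      intro i j
      by_cases hj : (j : ℕ) < d - 2
      · exact ⟨(Mmat d G a * B) i j, by simp only [hδ]; rw [if_pos hj, mul_one]⟩
      · obtain ⟨n, hn⟩ := hdiv i j hj
        exact ⟨n, by simp only [hδ]; rw [if_neg hj, hn, mul_comm]⟩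
    choose N hN using h1
    refine ⟨N, ?_⟩
    ext i j
    rw [hN i j, Matrix.mul_diagonal]
  obtain ⟨N, hN⟩ := hN
  have hdet : Nrm d G a = N.det * ∏ j, δ j := by
    have h1 := congrArg Matrix.det hN
    rw [Matrix.det_mul, hBdet, mul_one, Matrix.det_mul, Matrix.det_diagonal] at h1
    exact h1
  have hδprod : (q : ℤ) ^ 2 ∣ ∏ j, δ j := by
    have h1 : (∏ j, δ j) = ∏ j ∈ Finset.range d, (if j < d - 2 then 1 else (q : ℤ)) := by
      rw [← Fin.prod_univ_eq_prod_range (fun j => if j < d - 2 then 1 else (q : ℤ)) d]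
    rw [h1]
    obtain ⟨e, rfl⟩ : ∃ e, d = e + 2 := ⟨d - 2, by omega⟩
    rw [Finset.prod_range_succ, Finset.prod_range_succ]
    refine ⟨∏ j ∈ Finset.range e, (if j < e + 2 - 2 then 1 else (q : ℤ)), ?_⟩
    rw [if_neg (by omega), if_neg (by omega)]
    ring
  rw [hdet]
  exact Dvd.dvd.mul_left hδprod _

end Pool.Agent.Work.GEM
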