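import Pool.Agent.Work.GEM.Interface

/-! # Block RCD (helper96) -/

set_option autoImplicit false

namespace Pool.Agent.Work.GEM

theorem stmt_RCD : Stmt_RCD := by
  intro p hp B
  have hfin : ∀ K : ℕ, {i : ℕ | p i ≤ K}.Finite := fun K =>
    Set.Finite.preimage hp.injOn (Set.finite_Iic K)
  -- bad indices
  obtain ⟨M, hM⟩ := (hfin B).bddAbove
  have hex : ∃ Z : ℕ, ∀ i ≤ max M B + 1, p i ≤ Z := by
    refine ⟨(Finset.range (max M B + 2)).sup p, fun i hi => ?_⟩
    exact Finset.le_sup (f := p) (Finset.mem_range.2 (by omega))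
  obtain ⟨Z, hZ⟩ := hex
  obtain ⟨n, hn1, hn2⟩ := (hfin Z).exists_maximal (⟨max M B + 1, hZ _ le_rfl⟩)
  have hmax : ∀ i, p i ≤ Z → i ≤ n := by
    intro i hi
    rcases le_total i n with h | h
    · exact h
    · exact hn2 hi h
  have hge : max M B + 1 ≤ n := hmax _ (hZ _ le_rfl)
  have h1 : B ≤ max M B := le_max_right _ _
  have h2 : M ≤ max M B := le_max_left _ _
  refine ⟨n, Z, by omega, ?_, hn1, hmax⟩
  by_contra hcon
  push Not at hcon
  have := hM (show n ∈ {i : ℕ | p i ≤ B} from hcon.le)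
  omega

end Pool.Agent.Work.GEM
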