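import Pool.Agent.Work.GEM.Interface

/-!
# MP_75c89d_nt, block REC5 (helper54)
-/

set_option autoImplicit false

open Polynomial

namespace Pool.Agent.Work.GEM

namespace REC5Aux

theorem eval_ne {d : ℕ} {G : ℤ[X]} (hG : Adm d G) (x : ℤ) : G.eval x ≠ 0 := by
  intro h
  apply hG.2.2.2.2.1 (x : ℝ)
  have h2 := Polynomial.eval_intCast_map (Int.castRingHom ℝ) G x
  rw [h2]
  simp [h]

theorem exists_r (B : ℕ) : ∃ r : ℕ, B < r ∧ r.Prime ∧ r % 8 = 5 := by
  obtain ⟨r, h1, h2, h3⟩ := Nat.forall_exists_prime_gt_and_modEq B (q := 8) (a := 5)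
    (by norm_num) (by norm_num)
  exact ⟨r, h1, h2, h3⟩

theorem oddp_odd (n : ℤ) (hn : n ≠ 0) : Odd (oddp n) := by
  have h := Nat.not_dvd_ordCompl Nat.prime_two (Int.natAbs_ne_zero.mpr hn)
  rw [← Nat.not_even_iff_odd, even_iff_two_dvd]
  exact h

theorem oddp_mul (n : ℤ) : 2 ^ n.natAbs.factorization 2 * oddp n = n.natAbs :=
  Nat.ordProj_mul_ordCompl_eq_self n.natAbs 2

theorem jac_two (r : ℕ) (h8 : r % 8 = 5) : jacobiSym 2 r = -1 := by
  have ho : Odd r := by
    rw [Nat.odd_iff]; omega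
  rw [jacobiSym.at_two ho, ZMod.χ₈_nat_eq_if_mod_eight]
  have h1 : ¬ r % 2 = 0 := by omega
  have h2 : ¬ (r % 8 = 1 ∨ r % 8 = 7) := by omega
  simp [h1, h2]

theorem jac_abs (r : ℕ) (h8 : r % 8 = 5) (n : ℤ) :
    jacobiSym n r = jacobiSym (n.natAbs : ℤ) r := by
  have ho : Odd r := by
    rw [Nat.odd_iff]; omega
  rcases Int.natAbs_eq n with h | h
  · conv_lhs => rw [h]
  · conv_lhs => rw [h]
    rw [jacobiSym.neg _ ho, ZMod.χ₄_nat_one_mod_four (by omega), one_mul]

theorem jac_r (r : ℕ) (h8 : r % 8 = 5) (n : ℤ) (hn : n ≠ 0) :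
    jacobiSym n r = (-1) ^ (n.natAbs.factorization 2) * jacobiSym r (oddp n) := by
  rw [jac_abs r h8 n, ← oddp_mul n]
  push_cast
  rw [jacobiSym.mul_left, jacobiSym.pow_left, jac_two r h8,
    jacobiSym.quadratic_reciprocity_one_mod_four (a := r) (b := oddp n) (by omega)
      (oddp_odd n hn)]
  congr 2
  rw [oddp_mul n]

theorem uni_lin {d : ℕ} {G : ℤ[X]} (hALG : Stmt_ALG) (hNXC : Stmt_NXC) (hUNI : Stmt_UNI)
    (hG : Adm d G) (q k : ℕ) (hq : q.Prime) (hq2 : q ≠ 2) (y : ℤ) (hy : ¬ (q : ℤ) ∣ G.eval y) :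
    GS ((q ^ k) ^ 2) (Bmat d G (X - C y)) = ((q : ℂ) ^ k) ^ d := by
  apply hUNI q k hq hq2 d _ (hALG.B_symm ℤ d G _)
  rw [hALG.B_det d G _ hG.1 hG.2.1, hNXC d G hG.1 hG.2.1 y, hG.2.2.2.1.neg_one_pow]
  intro h
  apply hy
  rcases hALG.B_det1 d G hG.1 hG.2.1 (by have := hG.2.2.1; omega) with h1 | h1
  · rw [h1] at h
    simpa using h
  · rw [h1] at h
    simpa using h

theorem eval_congr_dvd (G : ℤ[X]) (q x : ℤ) (h : q ∣ x) : q ∣ G.eval x - G.eval 0 := by
  have h1 : x - 0 ∣ G.eval x - G.eval 0 := Polynomial.sub_dvd_eval_sub x 0 G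
  exact (by simpa using h : q ∣ x - 0).trans h1

theorem nrm_odd {d : ℕ} {G : ℤ[X]} (hALG : Stmt_ALG) (hG : Adm d G) (l : ℤ[X]) :
    ¬ ((2 : ℕ) : ℤ) ∣ Nrm d G (5 + C 8 * l) := by
  have h := hALG.N_congr d G (5 + C 8 * l) 1 (2 + C 4 * l) 2 hG.1 (by
    simp only [map_ofNat]
    ring)
  rw [hALG.N_one ℤ d G hG.1 hG.2.1] at h
  intro h2
  have h3 := Int.emod_emod_of_dvd (Nrm d G (5 + C 8 * l)) (dvd_refl (2 : ℤ))
  unfold Int.ModEq at h
  have h4 : Nrm d G (5 + C 8 * l) % 2 = 0 := Int.emod_eq_zero_of_dvd (by exact_mod_cast h2)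
  rw [h4] at h
  norm_num at h

end REC5Aux

open REC5Aux in
theorem stmt_REC5 (hALG : Stmt_ALG) (hNXC : Stmt_NXC) (hEVD : Stmt_EVD) (hGLB : Stmt_GLB)
    (hL2 : Stmt_L2) (hLQ : Stmt_LQ) (hUNI : Stmt_UNI) (hLS : Stmt_LS) (hLR : Stmt_LR)
    (hJPR : Stmt_JPR) : Stmt_REC5 := by
  have _ := hEVD
  intro d G hG l x hN hNq
  have hGm := hG.1
  have hGd := hG.2.1
  have hd1 : 1 ≤ d := by have := hG.2.2.1; omega
  have hGx : G.eval x ≠ 0 := eval_ne hG x
  have hG0 : G.eval 0 ≠ 0 := eval_ne hG 0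
  set κ : ℤ[X] := 5 + C 8 * l with hκ
  set N := Nrm d G κ with hNdef
  set nx := (G.eval x).natAbs with hnx
  set n0 := (G.eval 0).natAbs with hn0
  have hnx0 : nx ≠ 0 := Int.natAbs_ne_zero.mpr hGx
  have hn00 : n0 ≠ 0 := Int.natAbs_ne_zero.mpr hG0
  have hNa : N.natAbs ≠ 0 := Int.natAbs_ne_zero.mpr hN
  obtain ⟨r, hrB, hrp, hr8⟩ := exists_r (2 * N.natAbs * nx * n0)
  have hrN : ¬ (r : ℤ) ∣ N := by
    intro h
    have h1 : r ∣ N.natAbs := Int.natCast_dvd.mp h
    have h2 := Nat.le_of_dvd (Nat.pos_of_ne_zero hNa) h1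
    have h3 : 1 ≤ nx * n0 := Nat.one_le_iff_ne_zero.mpr (mul_ne_zero hnx0 hn00)
    nlinarith
  have hrx : ¬ (r : ℤ) ∣ G.eval x := by
    intro h
    have h1 : r ∣ nx := Int.natCast_dvd.mp h
    have h2 := Nat.le_of_dvd (Nat.pos_of_ne_zero hnx0) h1
    have h3 : 1 ≤ N.natAbs * n0 := Nat.one_le_iff_ne_zero.mpr (mul_ne_zero hNa hn00)
    nlinarith
  have hr0 : ¬ (r : ℤ) ∣ G.eval 0 := by
    intro h
    have h1 : r ∣ n0 := Int.natCast_dvd.mp h
    have h2 := Nat.le_of_dvd (Nat.pos_of_ne_zero hn00) h1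
    have h3 : 1 ≤ N.natAbs * nx := Nat.one_le_iff_ne_zero.mpr (mul_ne_zero hNa hnx0)
    nlinarith
  have hr2 : r ≠ 2 := by
    intro h
    rw [h] at hr8
    norm_num at hr8
  -- the element a
  set a : ℤ[X] := C (r : ℤ) * κ with ha
  obtain ⟨s, hs⟩ : ∃ s : ℕ, r = 5 + 8 * s := ⟨r / 8, by omega⟩
  have ha1 : a = 1 + C 8 * (3 + 5 * l + 5 * C (s : ℤ) + C 8 * C (s : ℤ) * l) := by
    rw [ha, hκ, hs]
    push_cast
    simp only [map_add, map_mul, map_ofNat]
    ring
  have hNrma : Nrm d G a = (r : ℤ) ^ d * N := hALG.N_C ℤ d G κ (r : ℤ) hGm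
  have hNrma0 : Nrm d G a ≠ 0 := by
    rw [hNrma]
    exact mul_ne_zero (pow_ne_zero _ (by exact_mod_cast hrp.ne_zero)) hN
  have hevx : a.eval x = (r : ℤ) * κ.eval x := by
    rw [ha, eval_mul, eval_C]
  have hev0 : a.eval 0 = (r : ℤ) * κ.eval 0 := by
    rw [ha, eval_mul, eval_C]
  set D1 := 2 * nx * n0 * N.natAbs * r with hD1
  have hD1pos : 0 < D1 := by
    have := hrp.pos
    have := Nat.pos_of_ne_zero hnx0
    have := Nat.pos_of_ne_zero hn00
    have := Nat.pos_of_ne_zero hNa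
    positivity
  obtain ⟨D, hD, hD1D, hprod, hnz⟩ := hGLB d G hG a x hNrma0 D1 hD1pos
  have hxD : nx ∣ D := (Dvd.intro (2 * n0 * N.natAbs * r) (by rw [hD1]; ring)).trans hD1D
  have h0D : n0 ∣ D := (Dvd.intro (2 * nx * N.natAbs * r) (by rw [hD1]; ring)).trans hD1D
  have hrD : r ∣ D := (Dvd.intro (2 * nx * n0 * N.natAbs) (by rw [hD1]; ring)).trans hD1D
  have hrmem : r ∈ D.primeFactors := Nat.mem_primeFactors.mpr ⟨hrp, hrD, hD.ne'⟩
  -- symbols
  set β : ℕ → ℤ := fun q => if q ≠ 2 then (jacobiSym (a.eval 0) q) ^ n0.factorization q else 1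
    with hβ
  set α : ℕ → ℤ := fun q => (if q ≠ 2 then (jacobiSym (a.eval x) q) ^ nx.factorization q else 1) *
    (if q = r then jacobiSym (G.eval x * G.eval 0) r else 1) with hα
  have hloc : ∀ q ∈ D.primeFactors,
      (GS ((q ^ D.factorization q) ^ 2) (Bmat d G (a * (X - C x))) *
        GS ((q ^ D.factorization q) ^ 2) (Bmat d G X)) * ((β q : ℤ) : ℂ) =
      ((α q : ℤ) : ℂ) * (GS ((q ^ D.factorization q) ^ 2) (Bmat d G (a * X)) *
        GS ((q ^ D.factorization q) ^ 2) (Bmat d G (X - C x))) := by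
    intro q hq
    have hqp : q.Prime := Nat.prime_of_mem_primeFactors hq
    have hqD : q ∣ D := Nat.dvd_of_mem_primeFactors hq
    have hk : 1 ≤ D.factorization q := (hqp.dvd_iff_one_le_factorization hD.ne').mp hqD
    set k := D.factorization q with hkdef
    have hvx : nx.factorization q < 2 * k := by
      have := (Nat.factorization_le_iff_dvd hnx0 hD.ne').mpr hxD q
      omega
    have hv0 : n0.factorization q < 2 * k := by
      have := (Nat.factorization_le_iff_dvd hn00 hD.ne').mpr h0D q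
      omega
    have hX0 : (X : ℤ[X]) = X - C 0 := by simp
    by_cases hq2 : q = 2
    · -- q = 2
      have hqr : q ≠ r := by
        intro h
        exact hr2 (by rw [← h, hq2])
      have e1 : β q = 1 := by simp [hβ, hq2]
      have e2 : α q = 1 := by
        simp only [hα]
        rw [if_neg (by simp [hq2]), if_neg hqr, one_mul]
      rw [e1, e2]
      have h1 : GS ((q ^ k) ^ 2) (Bmat d G (a * (X - C x))) =
          GS ((q ^ k) ^ 2) (Bmat d G (X - C x)) := by
        rw [ha1, hq2]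
        exact hL2 d G hGm hGd k _ _
      have h2 : GS ((q ^ k) ^ 2) (Bmat d G (a * X)) =
          GS ((q ^ k) ^ 2) (Bmat d G X) := by
        rw [ha1, hq2]
        exact hL2 d G hGm hGd k _ _
      rw [h1, h2]
      push_cast
      ring
    · by_cases hqr : q = r
      · -- q = r
        have e1 : β q = 1 := by
          simp only [hβ]
          rw [if_pos hq2, Nat.factorization_eq_zero_of_not_dvd (by
            intro h
            apply hr0
            rw [← hqr]
            exact Int.natCast_dvd.mpr h), pow_zero]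
        have e2 : α q = jacobiSym (G.eval x * G.eval 0) r := by
          simp only [hα]
          rw [if_pos hq2, if_pos hqr, Nat.factorization_eq_zero_of_not_dvd (by
            intro h
            apply hrx
            rw [← hqr]
            exact Int.natCast_dvd.mpr h), pow_zero, one_mul]
        rw [e1, e2]
        have h1 := hLR d G hGm hGd hG.2.2.2.1 hd1 q k κ x hqp hq2 hk (by rw [hqr]; exact hrN)
          (by rw [hqr]; exact hrx) (by rw [hqr]; exact hr0)
        have ha' : C (q : ℤ) * κ = a := by rw [ha, hqr]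
        rw [ha'] at h1
        have h2 := uni_lin hALG hNXC hUNI hG q k hqp hq2 x (by rw [hqr]; exact hrx)
        have h3 := uni_lin hALG hNXC hUNI hG q k hqp hq2 0 (by rw [hqr]; exact hr0)
        rw [← hX0] at h3
        rw [h1, h2, h3, hqr]
        push_cast
        ring
      · by_cases hqN : (q : ℤ) ∣ N
        · -- q divides the norm
          obtain ⟨hqx, hq0⟩ := hNq q hqp hqN
          have hqx' : ¬ (q : ℤ) ∣ G.eval x := by
            intro h
            apply hq0
            have h1 := eval_congr_dvd G q x hqx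
            have h2 := dvd_sub h h1
            simpa using h2
          have e1 : β q = 1 := by
            simp only [hβ]
            rw [if_pos hq2, Nat.factorization_eq_zero_of_not_dvd (by
              intro h
              exact hq0 (Int.natCast_dvd.mpr h)), pow_zero]
          have e2 : α q = 1 := by
            simp only [hα]
            rw [if_pos hq2, if_neg hqr, Nat.factorization_eq_zero_of_not_dvd (by
              intro h
              exact hqx' (Int.natCast_dvd.mpr h)), pow_zero, one_mul]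
          rw [e1, e2]
          have h1 := hLQ d G hGm hGd q k a x hqp hq2 hqx hq0
          have h2 := uni_lin hALG hNXC hUNI hG q k hqp hq2 x hqx'
          have h3 := uni_lin hALG hNXC hUNI hG q k hqp hq2 0 hq0
          rw [← hX0] at h3
          rw [h1, h2, h3]
          push_cast
          ring
        · have e1 : β q = (jacobiSym (a.eval 0) q) ^ n0.factorization q := by
            simp only [hβ]
            rw [if_pos hq2]
          have e2 : α q = (jacobiSym (a.eval x) q) ^ nx.factorization q := by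
            simp only [hα]
            rw [if_pos hq2, if_neg hqr, mul_one]
          rw [e1, e2]
          have hqa : ¬ (q : ℤ) ∣ Nrm d G a := by
            rw [hNrma]
            intro h
            rcases (Nat.prime_iff_prime_int.mp hqp).dvd_or_dvd h with h | h
            · have h4 := (Nat.prime_iff_prime_int.mp hqp).dvd_of_dvd_pow h
              have h5 : q ∣ r := by exact_mod_cast h4
              exact hqr ((Nat.prime_dvd_prime_iff_eq hqp hrp).mp h5)
            · exact hqN h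
          have h1 := hLS d G hGm hGd hd1 q k a x hqp hq2 hqa hGx hvx
          have h2 := hLS d G hGm hGd hd1 q k a 0 hqp hq2 hqa hG0 hv0
          rw [← hX0] at h2
          rw [h1, h2]
          push_cast
          ring
  have hP := Finset.prod_congr rfl hloc
  rw [Finset.prod_mul_distrib, Finset.prod_mul_distrib (g := fun q =>
    GS ((q ^ D.factorization q) ^ 2) (Bmat d G (a * X)) *
        GS ((q ^ D.factorization q) ^ 2) (Bmat d G (X - C x))), hprod] at hP
  have hne : (∏ q ∈ D.primeFactors, (GS ((q ^ D.factorization q) ^ 2) (Bmat d G (a * X)) *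
        GS ((q ^ D.factorization q) ^ 2) (Bmat d G (X - C x)))) ≠ 0 := by
    rw [Finset.prod_ne_zero_iff]
    intro q hq
    obtain ⟨-, -, h3, h4⟩ := hnz q hq
    exact mul_ne_zero h3 h4
  have hab : (∏ q ∈ D.primeFactors, β q) = ∏ q ∈ D.primeFactors, α q := by
    have h1 : (∏ q ∈ D.primeFactors, ((β q : ℤ) : ℂ)) = ∏ q ∈ D.primeFactors, ((α q : ℤ) : ℂ) := by
      apply mul_left_cancel₀ hne
      rw [hP]
      ring
    exact_mod_cast h1
  have hβp : (∏ q ∈ D.primeFactors, β q) = jacobiSym (a.eval 0) (oddp (G.eval 0)) := by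
    have h := hJPR (a.eval 0) n0 D.primeFactors hn00 (fun q hq => Nat.prime_of_mem_primeFactors hq)
      (fun q hq hqn => Nat.mem_primeFactors.mpr ⟨hq, hqn.trans h0D, hD.ne'⟩)
    rw [Finset.prod_filter] at h
    exact h.symm
  have hαp : (∏ q ∈ D.primeFactors, α q) = jacobiSym (a.eval x) (oddp (G.eval x)) *
      jacobiSym (G.eval x * G.eval 0) r := by
    have h := hJPR (a.eval x) nx D.primeFactors hnx0 (fun q hq => Nat.prime_of_mem_primeFactors hq)
      (fun q hq hqn => Nat.mem_primeFactors.mpr ⟨hq, hqn.trans hxD, hD.ne'⟩)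
    rw [Finset.prod_filter] at h
    rw [Finset.prod_mul_distrib, ← h, Finset.prod_ite_eq' D.primeFactors r, if_pos hrmem]
    rfl
  rw [hβp, hαp, hevx, hev0, jacobiSym.mul_left, jacobiSym.mul_left, jacobiSym.mul_left,
    jac_r r hr8 _ hGx, jac_r r hr8 _ hG0] at hab
  have hcx : (jacobiSym (r : ℤ) (oddp (G.eval x))) ^ 2 = 1 := by
    apply jacobiSym.sq_one
    rw [Int.gcd_natCast_natCast]
    have h1 : Nat.Coprime r (oddp (G.eval x)) := by
      rw [Nat.Prime.coprime_iff_not_dvd hrp]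
      intro h
      apply hrx
      apply Int.natCast_dvd.mpr
      rw [← oddp_mul (G.eval x)]
      exact h.mul_left _
    exact h1
  have hc0 : (jacobiSym (r : ℤ) (oddp (G.eval 0))) ^ 2 = 1 := by
    apply jacobiSym.sq_one
    rw [Int.gcd_natCast_natCast]
    have h1 : Nat.Coprime r (oddp (G.eval 0)) := by
      rw [Nat.Prime.coprime_iff_not_dvd hrp]
      intro h
      apply hr0
      apply Int.natCast_dvd.mpr
      rw [← oddp_mul (G.eval 0)]
      exact h.mul_left _
    exact h1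
  rw [pow_add]
  have hs1 : ((-1 : ℤ) ^ nx.factorization 2) ^ 2 = 1 := by
    rw [← pow_mul, mul_comm, pow_mul]; norm_num
  have hs0 : ((-1 : ℤ) ^ n0.factorization 2) ^ 2 = 1 := by
    rw [← pow_mul, mul_comm, pow_mul]; norm_num
  generalize (-1 : ℤ) ^ nx.factorization 2 = e1 at *
  generalize (-1 : ℤ) ^ n0.factorization 2 = e0 at *
  generalize jacobiSym (r : ℤ) (oddp (G.eval x)) = jx at *
  generalize jacobiSym (r : ℤ) (oddp (G.eval 0)) = j0 at *
  generalize jacobiSym (κ.eval x) (oddp (G.eval x)) = kx at *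
  generalize jacobiSym (κ.eval 0) (oddp (G.eval 0)) = k0 at *
  have hres : e1 * e0 * (j0 * k0) * j0 = e1 * e0 * (jx * kx * (e1 * jx * (e0 * j0))) * j0 := by
    rw [hab]
  have h5 : kx = e1 * e0 * k0 := by
    have : e1 * e0 * (jx * kx * (e1 * jx * (e0 * j0))) * j0 =
        (e1 ^ 2) * (e0 ^ 2) * (jx ^ 2) * (j0 ^ 2) * kx := by ring
    rw [this, hs1, hs0, hcx, hc0] at hres
    have h6 : e1 * e0 * (j0 * k0) * j0 = e1 * e0 * (j0 ^ 2) * k0 := by ring
    rw [h6, hc0] at hres
    linarith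
  exact h5

end Pool.Agent.Work.GEM
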