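import Pool.Agent.Work.GEM.Interface

/-!
# ROOT: primes dividing a value of `G` are `1 mod m` (helper6)
-/

set_option autoImplicit false

open Polynomial

namespace Pool.Agent.Work.GEM

theorem stmt_ROOT : Stmt_ROOT := by
  classical
  intro m G hm hG hcyc
  obtain ⟨h, hh⟩ := hcyc
  set φ : ℤ →+* ℚ := Int.castRingHom ℚ with hφ
  -- an integral multiple of `h`
  obtain ⟨D, H, hD, hH⟩ : ∃ (D : ℤ) (H : ℤ[X]), D ≠ 0 ∧ H.map φ = C (D : ℚ) * h := by
    obtain ⟨b, hb⟩ := IsLocalization.integerNormalization_map_to_map (nonZeroDivisors ℤ) h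
    refine ⟨(b : ℤ), IsLocalization.integerNormalization (nonZeroDivisors ℤ) h,
      nonZeroDivisors.ne_zero b.2, ?_⟩
    rw [algebraMap_int_eq] at hb
    rw [hφ, hb]
    ext n
    simp
  set Φ : ℤ[X] := cyclotomic m ℤ with hΦ
  set F : ℤ[X] := (scaleRoots Φ D).comp H with hF
  have hFmap : F.map φ = C (D : ℚ) ^ Φ.natDegree * (cyclotomic m ℚ).comp h := by
    have h1 : F.map φ = eval₂ (C.comp φ) (C (D : ℚ) * h) (scaleRoots Φ D) := by
      rw [hF, Polynomial.map_comp, hH, comp, eval₂_map]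
    have h2 : (cyclotomic m ℚ).comp h = eval₂ (C.comp φ) h Φ := by
      rw [hΦ, ← map_cyclotomic_int m ℚ, comp, eval₂_map]
    have h3 : C (D : ℚ) = (C.comp φ : ℤ →+* ℚ[X]) D := by
      rw [RingHom.comp_apply, hφ]
      rfl
    rw [h1, h2, h3, scaleRoots_eval₂_mul]
  have hdvd : G ∣ F := by
    have h1 : G.map φ ∣ F.map φ := by
      rw [hFmap]
      exact Dvd.dvd.mul_left hh _
    exact (Polynomial.map_dvd_map φ (RingHom.injective_int φ) hG).mp h1
  refine ⟨D.natAbs * m, Nat.mul_pos (Int.natAbs_pos.mpr hD) hm, ?_⟩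
  intro q hq hqδ x hx
  have : Fact q.Prime := ⟨hq⟩
  have hqD : (D : ZMod q) ≠ 0 := by
    intro h0
    rw [ZMod.intCast_zmod_eq_zero_iff_dvd] at h0
    exact hqδ (Dvd.dvd.mul_right (Int.natCast_dvd.mp h0) m)
  have hqm : (m : ZMod q) ≠ 0 := by
    intro h0
    rw [ZMod.natCast_eq_zero_iff] at h0
    exact hqδ (Dvd.dvd.mul_left h0 _)
  have : NeZero (m : ZMod q) := ⟨hqm⟩
  have hqF : (q : ℤ) ∣ F.eval x := dvd_trans hx (eval_dvd hdvd)
  set ψ : ℤ →+* ZMod q := Int.castRingHom (ZMod q) with hψ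
  set y : ZMod q := (D : ZMod q)⁻¹ * ((H.eval x : ℤ) : ZMod q) with hy
  have h1 : eval₂ ψ (ψ D * y) (scaleRoots Φ D) = 0 := by
    have h2 : ψ D * y = ψ (H.eval x) := by
      rw [hy, hψ]
      simp only [eq_intCast]
      rw [← mul_assoc, mul_inv_cancel₀ hqD, one_mul]
    rw [h2, eval₂_at_apply,
      show eval (H.eval x) (scaleRoots Φ D) = F.eval x by rw [hF, eval_comp]]
    rw [hψ]
    simpa using (ZMod.intCast_zmod_eq_zero_iff_dvd _ q).mpr hqF
  rw [scaleRoots_eval₂_mul] at h1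
  have h4 : eval₂ ψ y Φ = 0 := by
    rcases mul_eq_zero.mp h1 with h5 | h5
    · exfalso
      exact pow_ne_zero _ (by rw [hψ]; simpa using hqD) h5
    · exact h5
  have h6 : IsPrimitiveRoot y m := by
    rw [← isRoot_cyclotomic_iff]
    rw [IsRoot, ← map_cyclotomic_int m (ZMod q), eval_map]
    exact h4
  have hy0 : y ≠ 0 := h6.ne_zero hm.ne'
  have h7 : m ∣ q - 1 := by
    rw [h6.eq_orderOf]
    exact ZMod.orderOf_dvd_card_sub_one hy0
  exact ((Nat.modEq_iff_dvd' hq.one_lt.le).mpr h7).symm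

end Pool.Agent.Work.GEM
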