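import Pool.Agent.Work.GEM.Interface

/-!
# RUN: Runge's theorem for `y^2 = G(x)` (helper12)
-/

set_option autoImplicit false

open Polynomial

namespace Pool.Agent.Work.GEM

namespace RUNAux

/-- the polynomial part of the square root of a monic polynomial of degree `2k` -/
theorem sqrt_step (P : ℚ[X]) (k : ℕ) (hP : P.Monic) (hd : P.natDegree = 2 * k) (j : ℕ) :
    j ≤ k → ∃ A : ℚ[X], A.Monic ∧ A.natDegree = k ∧ (P - A ^ 2).degree < ((2 * k - j : ℕ) : ℕ) := by
  induction j with
  | zero =>
    intro _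
    refine ⟨X ^ k, monic_X_pow k, natDegree_X_pow k, ?_⟩
    have h1 : P.degree = ((2 * k - 0 : ℕ) : ℕ) := by
      rw [degree_eq_natDegree hP.ne_zero, hd, Nat.sub_zero]
    rw [← h1]
    apply degree_sub_lt_left
    · rw [← pow_mul, degree_X_pow, degree_eq_natDegree hP.ne_zero, hd, mul_comm]
    · exact hP.ne_zero
    · rw [hP.leadingCoeff, ← pow_mul, leadingCoeff_X_pow]
  | succ j ih =>
    intro hj
    obtain ⟨A, hA, hAd, hlt⟩ := ih (by omega)
    set e : ℕ := 2 * k - (j + 1) with he
    set c : ℚ := (P - A ^ 2).coeff e with hc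
    set B : ℚ[X] := C (c / 2) * X ^ (k - (j + 1)) with hB
    have hBd : B.degree < A.degree := by
      rw [degree_eq_natDegree hA.ne_zero, hAd]
      refine lt_of_le_of_lt (degree_C_mul_X_pow_le _ _) ?_
      exact_mod_cast (by omega : k - (j + 1) < k)
    have hAB : (A + B).degree = A.degree := degree_add_eq_left_of_degree_lt hBd
    have hm : (A + B).Monic := hA.add_of_left hBd
    refine ⟨A + B, hm, ?_, ?_⟩
    · rw [natDegree_eq_of_degree_eq hAB, hAd]
    · have h1 : P - (A + B) ^ 2 = (P - A ^ 2) - C c * (X ^ (k - (j + 1)) * A) - B ^ 2 := by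
        have h2 : (C c : ℚ[X]) = C (c / 2) + C (c / 2) := by
          rw [← C_add]
          congr 1
          ring
        rw [h2, hB]
        ring
      rw [h1, degree_lt_iff_coeff_zero]
      intro i hi
      have hi' : e ≤ i := by exact_mod_cast hi
      have hB2 : (B ^ 2).coeff i = 0 := by
        apply coeff_eq_zero_of_natDegree_lt
        have h3 : (B ^ 2).natDegree ≤ 2 * (k - (j + 1)) := by
          refine le_trans natDegree_pow_le ?_
          exact Nat.mul_le_mul_left 2 (natDegree_C_mul_X_pow_le _ _)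
        omega
      have hXA : (X ^ (k - (j + 1)) * A).natDegree ≤ e := by
        refine le_trans natDegree_mul_le ?_
        rw [natDegree_X_pow, hAd]
        omega
      rw [coeff_sub, coeff_sub, hB2, sub_zero, coeff_C_mul]
      rcases Nat.lt_or_ge e i with hlt2 | hge
      · rw [coeff_eq_zero_of_natDegree_lt (lt_of_le_of_lt hXA hlt2), mul_zero, sub_zero]
        rw [degree_lt_iff_coeff_zero] at hlt
        apply hlt
        exact_mod_cast (by omega : 2 * k - j ≤ i)
      · have hie : i = e := le_antisymm hge hi'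
        have hX1 : (X ^ (k - (j + 1)) * A).coeff e = 1 := by
          have : e = k - (j + 1) + A.natDegree := by
            rw [hAd]
            omega
          rw [this, coeff_X_pow_mul', if_pos (by omega)]
          rw [show k - (j + 1) + A.natDegree - (k - (j + 1)) = A.natDegree by omega]
          exact hA.coeff_natDegree
        rw [hie, hX1, mul_one, hc, sub_self]

theorem no_square {D y a r : ℤ} (h : (D * y) ^ 2 = a ^ 2 + r) (hr : |r| < |a|) : r = 0 := by
  by_contra hne
  have h1 : |D * y| ≠ |a| := by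
    intro he
    apply hne
    have : (D * y) ^ 2 = a ^ 2 := by rw [← sq_abs (D * y), ← sq_abs a, he]
    linarith
  have h2 : (|D * y| - |a|) * (|D * y| + |a|) = r := by
    have : (|D * y| - |a|) * (|D * y| + |a|) = |D * y| ^ 2 - |a| ^ 2 := by ring
    rw [this, sq_abs, sq_abs, h]
    ring
  have h3 : 1 ≤ |(|D * y| - |a|)| := Int.one_le_abs (sub_ne_zero.mpr h1)
  have h4 : |r| = |(|D * y| - |a|)| * (|D * y| + |a|) := by
    rw [← h2, abs_mul, abs_of_nonneg (show (0 : ℤ) ≤ |D * y| + |a| by positivity)]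
  have h5 : (0 : ℤ) ≤ |D * y| := abs_nonneg _
  have h6 : (0 : ℤ) ≤ |a| := abs_nonneg _
  nlinarith

end RUNAux

open RUNAux

theorem stmt_RUN : Stmt_RUN := by
  intro d G hG
  obtain ⟨hmon, hdeg, h2d, ⟨k, hk⟩, -, hirr⟩ := hG
  have hinj : Function.Injective (Int.castRingHom ℚ) := Int.cast_injective
  have hk1 : 1 ≤ k := by omega
  have hPm : (G.map (Int.castRingHom ℚ)).Monic := hmon.map _
  have hPd : (G.map (Int.castRingHom ℚ)).natDegree = 2 * k := by
    rw [natDegree_map_eq_of_injective hinj, hdeg, hk]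
    ring
  obtain ⟨A, hA, hAd, hlt⟩ := sqrt_step _ k hPm hPd k le_rfl
  rw [show 2 * k - k = k by omega] at hlt
  set R : ℚ[X] := G.map (Int.castRingHom ℚ) - A ^ 2 with hR
  have hR0 : R ≠ 0 := by
    intro h0
    have h1 : G.map (Int.castRingHom ℚ) = A * A := by
      have := sub_eq_zero.mp h0
      rw [this, sq]
    rcases hirr.isUnit_or_isUnit h1 with hu | hu
    all_goals
      have := natDegree_eq_zero_of_isUnit hu
      omega
  obtain ⟨b, hb, hbA⟩ := IsLocalization.integerNormalization_spec (nonZeroDivisors ℤ) A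
  set A' : ℤ[X] := IsLocalization.integerNormalization (nonZeroDivisors ℤ) A with hA'
  have hb0 : b ≠ 0 := nonZeroDivisors.ne_zero hb
  have hbQ : (b : ℚ) ≠ 0 := by exact_mod_cast hb0
  have hbA' : A'.map (Int.castRingHom ℚ) = C (b : ℚ) * A := by
    have h1 : algebraMap ℤ ℚ = Int.castRingHom ℚ := rfl
    rw [← h1, hbA, ← Int.cast_smul_eq_zsmul ℚ, smul_eq_C_mul]
  set R' : ℤ[X] := C (b ^ 2) * G - A' ^ 2 with hR'
  have hRmap : R'.map (Int.castRingHom ℚ) = C ((b : ℚ) ^ 2) * R := by
    rw [hR', Polynomial.map_sub, Polynomial.map_mul, Polynomial.map_pow, hbA', map_C, hR]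
    rw [mul_pow, ← C_pow, mul_sub]
    simp
  have hR'0 : R' ≠ 0 := by
    intro h0
    rw [h0, Polynomial.map_zero] at hRmap
    have := (mul_eq_zero.mp hRmap.symm).resolve_right hR0
    rw [C_eq_zero] at this
    exact hbQ (pow_eq_zero_iff (two_ne_zero) |>.mp this)
  have hdegR : R'.degree < A'.degree := by
    have h1 : R'.degree = R.degree := by
      rw [← degree_map_eq_of_injective hinj, hRmap, degree_C_mul (pow_ne_zero _ hbQ)]
    have h2 : A'.degree = (k : WithBot ℕ) := by
      rw [← degree_map_eq_of_injective hinj, hbA', degree_C_mul hbQ,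
        degree_eq_natDegree hA.ne_zero, hAd]
    rw [h1, h2]
    exact hlt
  have hfin1 : {x | |A'.eval x| ≤ |R'.eval x|}.Finite := finite_abs_eval_le_of_degree_lt hdegR
  have hfin2 : {x : ℤ | R'.IsRoot x}.Finite := finite_setOfPred_isRoot hR'0
  refine (hfin1.union hfin2).subset ?_
  intro x hx
  obtain ⟨y, hy⟩ := hx
  by_cases hle : |A'.eval x| ≤ |R'.eval x|
  · exact Or.inl hle
  · right
    have h1 : (b * y) ^ 2 = (A'.eval x) ^ 2 + R'.eval x := by
      rw [hR', eval_sub, eval_mul, eval_C, eval_pow, hy]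
      ring
    exact no_square h1 (not_le.mp hle)

end Pool.Agent.Work.GEM
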