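import Pool.Agent.Work.GEM.Interface

/-! # Block SIGD (helper21) -/

set_option autoImplicit false

namespace Pool.Agent.Work.GEM

namespace SIGDAux

/-- extension by zero -/
noncomputable def ext {r : ℕ} (c : Fin r → ℝ) :
    ({i : Fin r // 0 < c i} → ℝ) →ₗ[ℝ] (Fin r → ℝ) where
  toFun v i := if h : 0 < c i then v ⟨i, h⟩ else 0
  map_add' v w := by
    funext i
    by_cases h : 0 < c i
    · simp [h]
    · simp [h]
  map_smul' a v := by
    funext i
    by_cases h : 0 < c i
    · simp [h]
    · simp [h]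

theorem ext_of_pos {r : ℕ} (c : Fin r → ℝ) (v : {i : Fin r // 0 < c i} → ℝ) (i : Fin r)
    (h : 0 < c i) : ext c v i = v ⟨i, h⟩ := by
  simp [ext, h]

theorem ext_of_not {r : ℕ} (c : Fin r → ℝ) (v : {i : Fin r // 0 < c i} → ℝ) (i : Fin r)
    (h : ¬ 0 < c i) : ext c v i = 0 := by
  simp [ext, h]

theorem diag_form {r : ℕ} (c w : Fin r → ℝ) :
    w ⬝ᵥ (Matrix.diagonal c).mulVec w = ∑ i, c i * (w i * w i) := by
  simp only [dotProduct, Matrix.mulVec_diagonal]
  exact Finset.sum_congr rfl fun i _ => by ring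

theorem le {r : ℕ} (c : Fin r → ℝ) (J : Matrix (Fin r) (Fin r) ℝ)
    (hJ : J.transpose * Matrix.diagonal c * J = - Matrix.diagonal c) :
    (Finset.univ.filter fun i => 0 < c i).card ≤ (Finset.univ.filter fun i => c i < 0).card := by
  classical
  let L : ({i : Fin r // 0 < c i} → ℝ) →ₗ[ℝ] ({i : Fin r // c i < 0} → ℝ) :=
    (LinearMap.funLeft ℝ ℝ (Subtype.val : {i : Fin r // c i < 0} → Fin r)) ∘ₗ
      J.mulVecLin ∘ₗ ext c
  have hL : Function.Injective L := by
    rw [injective_iff_map_eq_zero]
    intro v hv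
    set w := ext c v with hw
    set u := J.mulVec w with hu
    have h0 : ∀ j, c j < 0 → u j = 0 := by
      intro j hj
      have := congrFun hv ⟨j, hj⟩
      simpa [L] using this
    have hQ : ∑ i, c i * (u i * u i) = - ∑ i, c i * (w i * w i) := by
      rw [← diag_form, ← diag_form, hu, Matrix.dotProduct_mulVec, ← Matrix.mulVec_transpose,
        Matrix.mulVec_mulVec, Matrix.diagonal_transpose]
      have h1 : (Matrix.diagonal c * J).mulVec w ⬝ᵥ J.mulVec w =
          w ⬝ᵥ (J.transpose * Matrix.diagonal c * J).mulVec w := by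
        rw [Matrix.dotProduct_mulVec, ← Matrix.mulVec_transpose, Matrix.mulVec_mulVec,
          dotProduct_comm, Matrix.mul_assoc]
      rw [h1, hJ, Matrix.neg_mulVec, dotProduct_neg]
    have h1 : 0 ≤ ∑ i, c i * (u i * u i) := by
      refine Finset.sum_nonneg fun i _ => ?_
      by_cases hi : c i < 0
      · rw [h0 i hi]; simp
      · exact mul_nonneg (not_lt.1 hi) (mul_self_nonneg _)
    have h2 : ∀ i ∈ Finset.univ, 0 ≤ c i * (w i * w i) := by
      intro i _
      by_cases hi : 0 < c i
      · exact mul_nonneg hi.le (mul_self_nonneg _)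
      · rw [hw, ext_of_not c v i hi]; simp
    have h3 : ∑ i, c i * (w i * w i) = 0 :=
      le_antisymm (by linarith) (Finset.sum_nonneg h2)
    have h4 := (Finset.sum_eq_zero_iff_of_nonneg h2).1 h3
    funext i
    have h5 := h4 i.1 (Finset.mem_univ _)
    rw [hw, ext_of_pos c v i.1 i.2] at h5
    have h6 := (mul_eq_zero.1 h5).resolve_left i.2.ne'
    exact mul_self_eq_zero.1 h6
  have h := LinearMap.finrank_le_finrank_of_injective hL
  rw [Module.finrank_fintype_fun_eq_card, Module.finrank_fintype_fun_eq_card,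
    Fintype.card_subtype, Fintype.card_subtype] at h
  exact h

end SIGDAux

open SIGDAux in
theorem stmt_SIGD : Stmt_SIGD := by
  intro r c J _ _ hJ
  refine le_antisymm (SIGDAux.le c J hJ) ?_
  have h := SIGDAux.le (fun i => - c i) J (by
    have h1 : Matrix.diagonal (fun i => - c i) = - Matrix.diagonal c := by
      rw [← Matrix.diagonal_neg]
    rw [h1, Matrix.mul_neg, Matrix.neg_mul, hJ])
  simpa using h

end Pool.Agent.Work.GEM
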