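import Pool.Agent.Work.GEM.Interface

/-!
# Block SIGJ (helper85): an anti-isometry over `ℝ`
-/

set_option autoImplicit false

open Polynomial

namespace Pool.Agent.Work.GEM

namespace SIGJAux

/-- a square root of `-1` modulo a real polynomial which is squarefree without real roots -/
lemma exists_sqrt (G : ℝ[X]) (hm : G.Monic) (hsep : G.Separable)
    (hr : ∀ t : ℝ, G.eval t ≠ 0) : ∃ j : ℝ[X], G ∣ j * j + 1 := by
  classical
  set f : ℝ →+* ℂ := Complex.ofRealHom with hf
  set s : Finset ℂ := (G.map f).roots.toFinset with hs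
  have hGC : (G.map f) ≠ 0 := (hm.map f).ne_zero
  have hsepC : (G.map f).Separable := hsep.map
  have hnd : (G.map f).roots.Nodup := nodup_roots hsepC
  have hmem : ∀ z : ℂ, z ∈ s ↔ (G.map f).eval z = 0 := by
    intro z
    rw [hs, Multiset.mem_toFinset, mem_roots hGC, IsRoot.def]
  have hconj : ∀ z : ℂ, z ∈ s → (starRingEnd ℂ) z ∈ s := by
    intro z hz
    rw [hmem] at hz ⊢
    rw [eval_map] at hz ⊢
    have h1 := congrArg (starRingEnd ℂ) hz
    rw [hom_eval₂] at h1
    have h2 : (starRingEnd ℂ).comp f = f := by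
      ext x
      simp [hf]
    rw [h2, map_zero] at h1
    exact h1
  have him : ∀ z ∈ s, z.im ≠ 0 := by
    intro z hz h0
    rw [hmem] at hz
    have h1 : z = f z.re := by
      apply Complex.ext
      · simp [hf]
      · simp [hf, h0]
    rw [h1, eval_map, eval₂_at_apply] at hz
    apply hr z.re
    have h2 : ((G.eval z.re : ℝ) : ℂ) = 0 := hz
    exact_mod_cast h2
  set v : ℂ → ℂ := fun z => if 0 < z.im then Complex.I else -Complex.I with hv
  have hinj : Set.InjOn (id : ℂ → ℂ) s := Function.injective_id.injOn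
  set J : ℂ[X] := Lagrange.interpolate s id v with hJ
  have hJev : ∀ z ∈ s, J.eval z = v z := fun z hz =>
    Lagrange.eval_interpolate_at_node v hinj hz
  have hJdeg : J.degree < s.card := Lagrange.degree_interpolate_lt v hinj
  have hJconj : J.map (starRingEnd ℂ) = J := by
    apply eq_of_degrees_lt_of_eval_finset_eq (s := s)
    · exact lt_of_le_of_lt degree_map_le hJdeg
    · exact hJdeg
    · intro z hz
      have h1 : z = (starRingEnd ℂ) ((starRingEnd ℂ) z) := (Complex.conj_conj z).symm
      rw [hJev z hz]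
      conv_lhs => rw [h1]
      rw [eval_map, eval₂_at_apply, hJev _ (hconj z hz)]
      have h2 := him z hz
      simp only [hv, Complex.conj_im]
      rcases lt_or_gt_of_ne h2 with h3 | h3
      · rw [if_pos (by linarith), if_neg (by linarith)]
        simp
      · rw [if_neg (by linarith), if_pos (by linarith)]
        simp
  have hlift : J ∈ lifts f := by
    rw [lifts_iff_coeff_lifts]
    intro n
    have h1 : (starRingEnd ℂ) (J.coeff n) = J.coeff n := by
      rw [← coeff_map, hJconj]
    exact ⟨(J.coeff n).re, Complex.conj_eq_iff_re.mp h1⟩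
  rw [mem_lifts] at hlift
  obtain ⟨j, hj⟩ := hlift
  refine ⟨j, ?_⟩
  rw [← map_dvd_map' f, Polynomial.map_add, Polynomial.map_mul, Polynomial.map_one, hj]
  have h1 := (IsAlgClosed.splits (G.map f)).eq_prod_roots_of_monic (hm.map f)
  have h2 : G.map f = ∏ z ∈ s, (X - C z) := by
    rw [h1, hs, Finset.prod_multiset_map_count]
    refine Finset.prod_congr rfl fun z hz => ?_
    rw [Multiset.mem_toFinset] at hz
    rw [Multiset.count_eq_one_of_mem hnd hz, pow_one]
  rw [h2]
  apply Finset.prod_dvd_of_coprime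
  · intro z _ w _ hzw
    exact isCoprime_X_sub_C_of_isUnit_sub (sub_ne_zero.mpr hzw).isUnit
  · intro z hz
    rw [dvd_iff_isRoot, IsRoot.def, eval_add, eval_mul, eval_one, hJev z hz]
    simp only [hv]
    split_ifs
    · rw [Complex.I_mul_I]; ring
    · rw [neg_mul_neg, Complex.I_mul_I]; ring

end SIGJAux

open SIGJAux in
/-- Block SIGJ -/
theorem stmt_SIGJ (hA : Stmt_ALG) : Stmt_SIGJ := by
  intro d G a hG
  obtain ⟨hm, hdeg, h2, _, hr, hirr⟩ := hG
  set φ : ℤ →+* ℝ := Int.castRingHom ℝ with hφ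
  have hmR : (G.map φ).Monic := hm.map φ
  have hdR : (G.map φ).natDegree = d := by rw [hm.natDegree_map, hdeg]
  have hsep : (G.map φ).Separable := by
    have h1 : (G.map (Int.castRingHom ℚ)).Separable := hirr.separable
    have h3 := h1.map (f := algebraMap ℚ ℝ)
    rw [Polynomial.map_map] at h3
    have h4 : (algebraMap ℚ ℝ).comp (Int.castRingHom ℚ) = φ := by
      ext x
      simp
    rw [h4] at h3
    exact h3
  obtain ⟨j, hj⟩ := exists_sqrt (G.map φ) hmR hsep hr
  refine ⟨Mmat d (G.map φ) j, ?_, ?_⟩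
  · rw [hA.B_map ℤ ℝ φ d G a hm, ← hA.B_tw ℝ d (G.map φ) (a.map φ) j hmR hdR]
    have h1 : (G.map φ) ∣ (a.map φ) * j ^ 2 - C (-1) * (a.map φ) := by
      have : (a.map φ) * j ^ 2 - C (-1) * (a.map φ) = (a.map φ) * (j * j + 1) := by
        rw [C_neg, C_1]
        ring
      rw [this]
      exact Dvd.dvd.mul_left hj _
    rw [hA.B_congr ℝ d (G.map φ) _ _ hmR h1, hA.B_C ℝ d (G.map φ) _ _ hmR, neg_one_smul]
  · intro h0
    have h1 : (G.map φ) ∣ j * j - C (-1) * 1 := by
      have : j * j - C (-1) * 1 = j * j + 1 := by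
        rw [C_neg, C_1]
        ring
      rw [this]
      exact hj
    have h3 := hA.M_congr ℝ d (G.map φ) _ _ hmR h1
    rw [hA.M_mul ℝ d (G.map φ) j j hmR hdR, hA.M_C ℝ d (G.map φ) _ _ hmR,
      hA.M_one ℝ d (G.map φ) hmR hdR] at h3
    have h4 := congrArg Matrix.det h3
    rw [Matrix.det_mul, h0, Matrix.det_smul, Matrix.det_one] at h4
    simp only [mul_zero, Fintype.card_fin, mul_one] at h4
    exact (pow_ne_zero d (by norm_num : (-1 : ℝ) ≠ 0)) h4.symm

end Pool.Agent.Work.GEM
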