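import Pool.Agent.Work.GEM.Interface

/-! Block SPL of MP_75c89d_nt: splitting off the line over `X = x`. -/

set_option autoImplicit false

open Polynomial

namespace Pool.Agent.Work.GEM

namespace SPLAux

/-- an integral linear form mod `n` -/
def lamL {n r : ℕ} (lam : Fin r → ℤ) : (Fin r → ZMod n) →ₗ[ZMod n] ZMod n where
  toFun z := ∑ j, (lam j : ZMod n) * z j
  map_add' x y := by simp [mul_add, Finset.sum_add_distrib]
  map_smul' t x := by simp [Finset.mul_sum, mul_left_comm]

theorem reindex {n r : ℕ} [NeZero n] (L : (Fin r → ZMod n) →ₗ[ZMod n] ZMod n) (u : Fin r → ZMod n)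
    (ci : ZMod n) (hci : L u * ci = 1) (F : (Fin r → ZMod n) → ℂ) :
    ∑ z, F z = ∑ t : ZMod n, ∑ z, if L z = 0 then F (t • u + z) else 0 := by
  have h1 : ∀ z, F z = ∑ t : ZMod n, if L z = t * L u then F z else 0 := by
    intro z
    rw [Finset.sum_eq_single (L z * ci)]
    · rw [if_pos (by rw [mul_assoc, mul_comm ci, hci, mul_one])]
    · intro t _ ht
      rw [if_neg]
      intro h
      exact ht (by rw [h, mul_assoc, hci, mul_one])
    · simp
  rw [Finset.sum_congr rfl (fun z _ => h1 z), Finset.sum_comm]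
  refine Finset.sum_congr rfl fun t _ => ?_
  rw [← Equiv.sum_comp (Equiv.addLeft (t • u))]
  refine Finset.sum_congr rfl fun z _ => ?_
  simp only [Equiv.coe_addLeft, map_add, map_smul, smul_eq_mul]
  by_cases h : L z = 0
  · rw [if_pos h, if_pos (by rw [h, add_zero])]
  · rw [if_neg h, if_neg]
    intro h2
    exact h (by simpa using h2)

theorem card_mult (N : ℕ) [NeZero (N ^ 2)] (hN : 0 < N) [DecidablePred fun t : ZMod (N ^ 2) => ∃ s, t = (N : ZMod (N ^ 2)) * s] :
    (Finset.univ.filter fun t : ZMod (N ^ 2) => ∃ s, t = (N : ZMod (N ^ 2)) * s).card = N := by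
  classical
  have h1 : (Finset.univ.filter fun t : ZMod (N ^ 2) => ∃ s, t = (N : ZMod (N ^ 2)) * s) =
      (Finset.range N).image (fun i : ℕ => (N : ZMod (N ^ 2)) * (i : ZMod (N ^ 2))) := by
    ext t
    simp only [Finset.mem_filter, Finset.mem_univ, true_and, Finset.mem_image, Finset.mem_range]
    constructor
    · rintro ⟨s, rfl⟩
      refine ⟨s.val % N, Nat.mod_lt _ hN, ?_⟩
      have h2 : s = ((s.val : ℕ) : ZMod (N ^ 2)) := (ZMod.natCast_zmod_val s).symm
      have h3 : ((N * (s.val % N) : ℕ) : ZMod (N ^ 2)) = ((N * s.val : ℕ) : ZMod (N ^ 2)) := by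
        rw [ZMod.natCast_eq_natCast_iff]
        have h4 : s.val % N ≡ s.val [MOD N] := Nat.mod_modEq _ _
        have h5 := Nat.ModEq.mul_left' N h4
        unfold Nat.ModEq at h5 ⊢
        rwa [← pow_two] at h5
      push_cast at h3
      rw [h3, ← h2]
    · rintro ⟨i, -, rfl⟩
      exact ⟨_, rfl⟩
  rw [h1, Finset.card_image_of_injOn, Finset.card_range]
  intro i hi j hj hij
  have hi' : i < N := by simpa using hi
  have hj' : j < N := by simpa using hj
  have h2 : ((N * i : ℕ) : ZMod (N ^ 2)) = ((N * j : ℕ) : ZMod (N ^ 2)) := by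
    push_cast
    exact hij
  rw [ZMod.natCast_eq_natCast_iff, pow_two] at h2
  have h3 : i ≡ j [MOD N] := Nat.ModEq.mul_left_cancel' hN.ne' h2
  unfold Nat.ModEq at h3
  rwa [Nat.mod_eq_of_lt hi', Nat.mod_eq_of_lt hj'] at h3

theorem card_mult_pi (N r : ℕ) [NeZero (N ^ 2)] (hN : 0 < N)
    [DecidablePred fun z : Fin r → ZMod (N ^ 2) => ∃ w, z = (N : ZMod (N ^ 2)) • w] :
    (Finset.univ.filter fun z : Fin r → ZMod (N ^ 2) => ∃ w, z = (N : ZMod (N ^ 2)) • w).card =
      N ^ r := by
  classical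
  have h1 : (Finset.univ.filter fun z : Fin r → ZMod (N ^ 2) =>
      ∃ w, z = (N : ZMod (N ^ 2)) • w) =
      Fintype.piFinset (fun _ : Fin r => Finset.univ.filter fun t : ZMod (N ^ 2) =>
        ∃ s, t = (N : ZMod (N ^ 2)) * s) := by
    ext z
    simp only [Finset.mem_filter, Finset.mem_univ, true_and, Fintype.mem_piFinset]
    constructor
    · rintro ⟨w, rfl⟩ j
      exact ⟨w j, rfl⟩
    · intro h
      choose w hw using h
      exact ⟨w, funext fun j => hw j⟩
  rw [h1, Fintype.card_piFinset]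
  simp only [card_mult N hN, Finset.prod_const, Finset.card_univ, Fintype.card_fin]

theorem isCoprime_pow {q : ℕ} (hq : q.Prime) (k : ℕ) {c : ℤ} (hc : ¬ (q : ℤ) ∣ c) :
    IsCoprime c ((q ^ k : ℕ) : ℤ) := by
  push_cast
  apply IsCoprime.pow_right
  exact ((Nat.prime_iff_prime_int.mp hq).coprime_iff_not_dvd.mpr hc).symm

theorem qf_add {n r : ℕ} (A : Matrix (Fin r) (Fin r) ℤ) (hA : A.IsSymm) (u z : Fin r → ZMod n)
    (t : ZMod n) : qf A (t • u + z) = t * t * bf A u u + 2 * t * bf A u z + qf A z := by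
  have h1 : bf A z u = bf A u z := by
    unfold bf
    rw [Finset.sum_comm]
    refine Finset.sum_congr rfl fun i _ => Finset.sum_congr rfl fun j _ => ?_
    rw [hA.apply i j]
    ring
  have h2 : qf A (t • u + z) = t * t * bf A u u + t * bf A u z + t * bf A z u + qf A z := by
    unfold qf bf
    simp only [Finset.mul_sum, ← Finset.sum_add_distrib]
    refine Finset.sum_congr rfl fun i _ => Finset.sum_congr rfl fun j _ => ?_
    simp only [Pi.add_apply, Pi.smul_apply, smul_eq_mul]
    ring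
  rw [h2, h1]
  ring

theorem lemA (hLOC : Stmt_LOC) (q k r : ℕ) (hq : q.Prime) (hq2 : q ≠ 2) (hr : 1 ≤ r)
    (A : Matrix (Fin r) (Fin r) ℤ) (hA : A.IsSymm) (u lam : Fin r → ℤ) (g : ℤ)
    (hu : ∀ j, ∑ i, A i j * u i = g * lam j) (hc : ¬ (q : ℤ) ∣ ∑ j, lam j * u j)
    (hv : ∀ v : Fin r → ℤ, ((q ^ k : ℕ) : ℤ) ∣ ∑ j, lam j * v j →
      (∀ i, ((q ^ k : ℕ) : ℤ) ∣ ∑ j, A i j * v j) → ∀ j, ((q ^ k : ℕ) : ℤ) ∣ v j) :
    GS ((q ^ k) ^ 2) A =
      ((q : ℂ) ^ k) ^ (r - 1) * GS1 ((q ^ k) ^ 2) (g * ∑ j, lam j * u j) := by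
  classical
  set N : ℕ := q ^ k with hN
  have hN0 : 0 < N := Nat.pow_pos hq.pos
  have hn0 : N ^ 2 ≠ 0 := (Nat.pow_pos hN0).ne'
  have hNZ : NeZero (N ^ 2) := ⟨hn0⟩
  have hNN : (N : ZMod (N ^ 2)) * (N : ZMod (N ^ 2)) = 0 := by
    have h1 : ((N ^ 2 : ℕ) : ZMod (N ^ 2)) = 0 := ZMod.natCast_self _
    rw [← Nat.cast_mul, ← pow_two]
    exact h1
  set c : ℤ := ∑ j, lam j * u j with hcdef
  set L : (Fin r → ZMod (N ^ 2)) →ₗ[ZMod (N ^ 2)] ZMod (N ^ 2) := lamL lam with hL
  have hLapp : ∀ z, L z = ∑ j, (lam j : ZMod (N ^ 2)) * z j := fun z => rfl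
  set u' : Fin r → ZMod (N ^ 2) := fun i => (u i : ZMod (N ^ 2)) with hu'
  have hLu : L u' = (c : ZMod (N ^ 2)) := by
    rw [hLapp, hcdef]
    push_cast
    rfl
  obtain ⟨ci, hci⟩ : ∃ ci : ZMod (N ^ 2), L u' * ci = 1 := by
    have h1 : IsCoprime c ((N ^ 2 : ℕ) : ℤ) := by
      rw [hN, ← pow_mul]
      exact isCoprime_pow hq _ hc
    obtain ⟨s, t, hst⟩ := h1
    refine ⟨(s : ZMod (N ^ 2)), ?_⟩
    rw [hLu]
    have h2 := congrArg (fun y : ℤ => (y : ZMod (N ^ 2))) hst
    simp only [Int.cast_add, Int.cast_mul, Int.cast_natCast, Int.cast_one] at h2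
    rw [ZMod.natCast_self, mul_zero, add_zero] at h2
    rw [mul_comm]
    exact h2
  have hbu : ∀ z, bf A u' z = (g : ZMod (N ^ 2)) * L z := by
    intro z
    rw [hLapp, Finset.mul_sum]
    unfold bf
    rw [Finset.sum_comm]
    refine Finset.sum_congr rfl fun j _ => ?_
    have h1 := congrArg (fun y : ℤ => (y : ZMod (N ^ 2))) (hu j)
    simp only [Int.cast_mul, Int.cast_sum] at h1
    rw [← mul_assoc, ← h1, Finset.sum_mul]
  have hqf : ∀ t z, L z = 0 → qf A (t • u' + z) = ((g * c : ℤ) : ZMod (N ^ 2)) * t * t + qf A z := by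
    intro t z hz
    rw [qf_add A hA, hbu, hbu, hz, hLu]
    push_cast
    ring
  -- the sum over the kernel
  have hGS : GS (N ^ 2) A = ∑ z : Fin r → ZMod (N ^ 2), (ZMod.stdAddChar (qf A z) : ℂ) := by
    unfold GS
    rw [dif_neg hn0]
  have hGS1 : GS1 (N ^ 2) (g * c) =
      ∑ t : ZMod (N ^ 2), (ZMod.stdAddChar (((g * c : ℤ) : ZMod (N ^ 2)) * t * t) : ℂ) := by
    unfold GS1
    rw [dif_neg hn0]
  set S : ℂ := ∑ z : Fin r → ZMod (N ^ 2), (if L z = 0 then (ZMod.stdAddChar (qf A z) : ℂ) else 0)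
    with hS
  have hprod : GS (N ^ 2) A = GS1 (N ^ 2) (g * c) * S := by
    rw [hGS, reindex L u' ci hci, hGS1, hS, Finset.sum_mul]
    refine Finset.sum_congr rfl fun t _ => ?_
    rw [Finset.mul_sum]
    refine Finset.sum_congr rfl fun z _ => ?_
    by_cases hz : L z = 0
    · rw [if_pos hz, if_pos hz, hqf t z hz, AddChar.map_add_eq_mul]
    · rw [if_neg hz, if_neg hz, mul_zero]
  -- the localisation
  set H : AddSubgroup (Fin r → ZMod (N ^ 2)) := L.toAddMonoidHom.ker with hH
  have hmemH : ∀ z, z ∈ H ↔ L z = 0 := fun z => AddMonoidHom.mem_ker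
  set H' : AddSubgroup (Fin r → ZMod (N ^ 2)) :=
    H.map (DistribSMul.toAddMonoidHom (Fin r → ZMod (N ^ 2)) (N : ZMod (N ^ 2))) with hH'
  have hmemH' : ∀ z, z ∈ H' ↔ ∃ w, L w = 0 ∧ (N : ZMod (N ^ 2)) • w = z := by
    intro z
    rw [hH', AddSubgroup.mem_map]
    simp only [hmemH, DistribSMul.toAddMonoidHom_apply]
  have hle : H' ≤ H := by
    intro z hz
    obtain ⟨w, hw, rfl⟩ := (hmemH' z).mp hz
    rw [hmemH, map_smul, hw, smul_zero]
  have hqN : ∀ w : Fin r → ZMod (N ^ 2), qf A ((N : ZMod (N ^ 2)) • w) = 0 := by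
    intro w
    have h1 : qf A ((N : ZMod (N ^ 2)) • w) = ((N : ZMod (N ^ 2)) * (N : ZMod (N ^ 2))) * qf A w := by
      unfold qf
      simp only [Finset.mul_sum]
      refine Finset.sum_congr rfl fun i _ => Finset.sum_congr rfl fun j _ => ?_
      simp only [Pi.smul_apply, smul_eq_mul]
      ring
    rw [h1, hNN, zero_mul]
  have hloc := hLOC (N ^ 2) r A hA H H' hle (by
    intro h hh
    obtain ⟨w, -, rfl⟩ := (hmemH' h).mp hh
    exact hqN w)
  have hbsmul : ∀ (t : ZMod (N ^ 2)) (h z : Fin r → ZMod (N ^ 2)), bf A (t • h) z = t * bf A h z := by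
    intro t h z
    unfold bf
    simp only [Finset.mul_sum]
    refine Finset.sum_congr rfl fun i _ => Finset.sum_congr rfl fun j _ => ?_
    simp only [Pi.smul_apply, smul_eq_mul]
    ring
  have hbsmul2 : ∀ (t : ZMod (N ^ 2)) (h z : Fin r → ZMod (N ^ 2)), bf A h (t • z) = t * bf A h z := by
    intro t h z
    unfold bf
    simp only [Finset.mul_sum]
    refine Finset.sum_congr rfl fun i _ => Finset.sum_congr rfl fun j _ => ?_
    simp only [Pi.smul_apply, smul_eq_mul]
    ring
  have hbadd : ∀ (h h' z : Fin r → ZMod (N ^ 2)), bf A (h + h') z = bf A h z + bf A h' z := by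
    intro h h' z
    unfold bf
    simp only [← Finset.sum_add_distrib]
    refine Finset.sum_congr rfl fun i _ => Finset.sum_congr rfl fun j _ => ?_
    simp only [Pi.add_apply]
    ring
  have hcond : ∀ z, (z ∈ H ∧ ∀ h ∈ H', 2 * bf A h z = 0) ↔
      (L z = 0 ∧ ∃ w, z = (N : ZMod (N ^ 2)) • w) := by
    intro z
    constructor
    · rintro ⟨hz, hz2⟩
      have hLz := (hmemH z).mp hz
      refine ⟨hLz, ?_⟩
      -- lift to the integers
      set v : Fin r → ℤ := fun j => ((z j).val : ℤ) with hvdef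
      have hvz : ∀ j, ((v j : ℤ) : ZMod (N ^ 2)) = z j := by
        intro j
        simp [hvdef]
      have hall : ∀ y : Fin r → ZMod (N ^ 2), 2 * ((N : ZMod (N ^ 2)) * bf A y z) = 0 := by
        intro y
        set s : ZMod (N ^ 2) := L y * ci with hs
        have h1 : L (y - s • u') = 0 := by
          rw [map_sub, map_smul, smul_eq_mul, hs, mul_assoc, mul_comm ci, hci, mul_one, sub_self]
        have h2 : y = s • u' + (y - s • u') := by abel
        have h3 := hz2 ((N : ZMod (N ^ 2)) • (y - s • u')) ((hmemH' _).mpr ⟨_, h1, rfl⟩)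
        rw [hbsmul] at h3
        rw [h2, hbadd, hbsmul, hbu, hLz, mul_zero, mul_zero, zero_add]
        exact h3
      have hAv : ∀ i, ((N : ℕ) : ℤ) ∣ ∑ j, A i j * v j := by
        intro i
        have h1 := hall (Pi.single i 1)
        have h2 : bf A (Pi.single i 1) z = ((∑ j, A i j * v j : ℤ) : ZMod (N ^ 2)) := by
          unfold bf
          rw [Finset.sum_eq_single i]
          · push_cast
            refine Finset.sum_congr rfl fun j _ => ?_
            rw [Pi.single_eq_same, mul_one, hvz]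
          · intro b _ hb
            apply Finset.sum_eq_zero
            intro j _
            rw [Pi.single_eq_of_ne hb]
            ring
          · simp
        rw [h2] at h1
        have h3 : (((2 * ((N : ℤ) * ∑ j, A i j * v j) : ℤ)) : ZMod (N ^ 2)) = 0 := by
          push_cast
          push_cast at h1
          exact h1
        rw [ZMod.intCast_zmod_eq_zero_iff_dvd] at h3
        have h4 : (N : ℤ) * (N : ℤ) ∣ (N : ℤ) * (2 * ∑ j, A i j * v j) := by
          have h5 : ((N ^ 2 : ℕ) : ℤ) = (N : ℤ) * (N : ℤ) := by push_cast; ring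
          rw [← h5]
          refine h3.trans (dvd_of_eq ?_)
          ring
        have h5 : (N : ℤ) ∣ 2 * ∑ j, A i j * v j :=
          (mul_dvd_mul_iff_left (by exact_mod_cast hN0.ne')).mp h4
        have h6 : IsCoprime ((N : ℕ) : ℤ) 2 := by
          have h7 : ¬ (q : ℤ) ∣ (2 : ℤ) := by
            intro h8
            have h9 : q ∣ 2 := by exact_mod_cast h8
            exact hq2 ((Nat.prime_dvd_prime_iff_eq hq Nat.prime_two).mp h9)
          exact (isCoprime_pow hq k h7).symm
        exact h6.dvd_of_dvd_mul_left h5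
      have hlamv : ((N : ℕ) : ℤ) ∣ ∑ j, lam j * v j := by
        have h1 : ((∑ j, lam j * v j : ℤ) : ZMod (N ^ 2)) = 0 := by
          rw [← hLz, hLapp]
          push_cast
          refine Finset.sum_congr rfl fun j _ => ?_
          rw [hvz]
        rw [ZMod.intCast_zmod_eq_zero_iff_dvd] at h1
        refine dvd_trans ?_ h1
        push_cast
        exact dvd_pow_self _ two_ne_zero
      have hfin := hv v hlamv hAv
      choose w hw using hfin
      refine ⟨fun j => (w j : ZMod (N ^ 2)), funext fun j => ?_⟩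
      rw [← hvz j, hw j]
      push_cast
      rfl
    · rintro ⟨hz, w, rfl⟩
      refine ⟨(hmemH _).mpr hz, ?_⟩
      intro h hh
      obtain ⟨w', -, rfl⟩ := (hmemH' h).mp hh
      rw [hbsmul, hbsmul2, ← mul_assoc (N : ZMod (N ^ 2)), hNN, zero_mul, mul_zero]
  set K : ℂ := ∑ z : Fin r → ZMod (N ^ 2),
    (if L z = 0 then (if ∃ w, z = (N : ZMod (N ^ 2)) • w then (1 : ℂ) else 0) else 0) with hK
  have hSK : S = K := by
    have h1 : S = ∑ z : Fin r → ZMod (N ^ 2),
        (if z ∈ H then ZMod.stdAddChar (qf A z) else (0 : ℂ)) := by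
      rw [hS]
      refine Finset.sum_congr rfl fun z _ => ?_
      by_cases hz : L z = 0
      · rw [if_pos hz, if_pos ((hmemH z).mpr hz)]
      · rw [if_neg hz, if_neg (fun h => hz ((hmemH z).mp h))]
    rw [h1, hK]
    refine Eq.trans ?_ (hloc.trans ?_)
    · refine Finset.sum_congr rfl fun z _ => ?_
      by_cases hz : z ∈ H
      · rw [if_pos hz, if_pos hz]
      · rw [if_neg hz, if_neg hz]
    · refine Finset.sum_congr rfl fun z _ => ?_
      by_cases hz : z ∈ H ∧ ∀ h ∈ H', 2 * bf A h z = 0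
      · obtain ⟨h2, w, hw⟩ := (hcond z).mp hz
        rw [if_pos hz, if_pos h2, if_pos ⟨w, hw⟩, hw, hqN w]
        simp
      · rw [if_neg hz]
        by_cases h2 : L z = 0
        · rw [if_pos h2, if_neg]
          intro h3
          exact hz ((hcond z).mpr ⟨h2, h3⟩)
        · rw [if_neg h2]
  -- the count
  have hcount : ((N : ℂ)) ^ r = (N : ℂ) * K := by
    have h1 := reindex L u' ci hci
      (fun z => if ∃ w, z = (N : ZMod (N ^ 2)) • w then (1 : ℂ) else 0)
    rw [Finset.sum_boole, card_mult_pi N r hN0] at h1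
    have h2 : ∀ t : ZMod (N ^ 2), (∑ z, if L z = 0 then
        (fun z => if ∃ w, z = (N : ZMod (N ^ 2)) • w then (1 : ℂ) else 0) (t • u' + z) else 0) =
        (if ∃ s, t = (N : ZMod (N ^ 2)) * s then (1 : ℂ) else 0) * K := by
      intro t
      rw [hK, Finset.mul_sum]
      refine Finset.sum_congr rfl fun z _ => ?_
      by_cases hz : L z = 0
      · rw [if_pos hz, if_pos hz]
        simp only
        by_cases ht : ∃ s, t = (N : ZMod (N ^ 2)) * s
        · rw [if_pos ht, one_mul]
          obtain ⟨s, rfl⟩ := ht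
          by_cases hw : ∃ w, z = (N : ZMod (N ^ 2)) • w
          · obtain ⟨w, rfl⟩ := hw
            have hw1 : ∃ w', (N : ZMod (N ^ 2)) • w = (N : ZMod (N ^ 2)) • w' := ⟨w, rfl⟩
            rw [if_pos hw1, if_pos ⟨s • u' + w, by rw [smul_add, smul_smul]⟩]
          · rw [if_neg hw, if_neg]
            rintro ⟨w, hw'⟩
            apply hw
            refine ⟨w - s • u', ?_⟩
            rw [smul_sub, smul_smul, ← hw']
            abel
        · rw [if_neg ht, zero_mul, if_neg]
          rintro ⟨w, hw'⟩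
          apply ht
          refine ⟨L w * ci, ?_⟩
          have h3 := congrArg L hw'
          rw [map_add, map_smul, map_smul, hz, add_zero, smul_eq_mul, smul_eq_mul] at h3
          rw [← mul_assoc, ← h3, mul_assoc, hci, mul_one]
      · rw [if_neg hz, if_neg hz, mul_zero]
    rw [Finset.sum_congr rfl (fun t _ => h2 t), ← Finset.sum_mul, Finset.sum_boole,
      card_mult N hN0] at h1
    push_cast at h1
    exact h1
  have hKval : K = (N : ℂ) ^ (r - 1) := by
    have hNC : (N : ℂ) ≠ 0 := by exact_mod_cast hN0.ne'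
    have h1 : (N : ℂ) ^ r = (N : ℂ) * (N : ℂ) ^ (r - 1) := by
      rw [← pow_succ']
      congr 1
      omega
    rw [h1] at hcount
    exact (mul_left_cancel₀ hNC hcount).symm
  rw [hprod, hSK, hKval, mul_comm, hN]
  push_cast
  rfl

/-- the linear form -/
noncomputable def ell (d : ℕ) (G : ℤ[X]) : ℤ[X] →ₗ[ℤ] ℤ :=
  (Polynomial.lcoeff ℤ (d - 1)) ∘ₗ (Polynomial.modByMonicHom G)

theorem ell_apply (d : ℕ) (G f : ℤ[X]) : ell d G f = (f %ₘ G).coeff (d - 1) := rfl

theorem ell_C_mul (d : ℕ) (G f : ℤ[X]) (c : ℤ) : ell d G (C c * f) = c * ell d G f := by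
  rw [← smul_eq_C_mul, map_smul, smul_eq_mul]

theorem ell_dvd (d : ℕ) {G f : ℤ[X]} (hM : G.Monic) (h : G ∣ f) : ell d G f = 0 := by
  rw [ell_apply, (modByMonic_eq_zero_iff_dvd hM).mpr h, coeff_zero]

theorem ell_congr (d : ℕ) {G f f' : ℤ[X]} (hM : G.Monic) (h : G ∣ f - f') :
    ell d G f = ell d G f' := by
  have := ell_dvd d hM h
  rw [map_sub] at this
  linarith

/-- the polynomial with integer coefficients `v` -/
noncomputable def vpol {d : ℕ} (v : Fin d → ℤ) : ℤ[X] := ∑ j, C (v j) * X ^ (j : ℕ)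

theorem Bmat_sum {d : ℕ} (G b : ℤ[X]) (v : Fin d → ℤ) (i : Fin d) :
    ∑ j, Bmat d G b i j * v j = ell d G (b * X ^ (i : ℕ) * vpol v) := by
  unfold vpol
  rw [Finset.mul_sum, map_sum]
  refine Finset.sum_congr rfl fun j _ => ?_
  have h1 : b * X ^ (i : ℕ) * (C (v j) * X ^ (j : ℕ)) = C (v j) * (b * X ^ ((i : ℕ) + (j : ℕ))) := by
    rw [pow_add]
    ring
  rw [h1, ell_C_mul, ell_apply, mul_comm]
  rfl

theorem vpol_coeff_self {d : ℕ} (f : ℤ[X]) (hf : f.natDegree < d) :
    vpol (fun j : Fin d => f.coeff j) = f := by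
  unfold vpol
  rw [Fin.sum_univ_eq_sum_range (fun j => C (f.coeff j) * X ^ j) d]
  conv_rhs => rw [f.as_sum_range' d hf]
  refine Finset.sum_congr rfl fun j _ => ?_
  rw [C_mul_X_pow_eq_monomial]

theorem vpol_coeff {d : ℕ} (v : Fin d → ℤ) (j : Fin d) : (vpol v).coeff j = v j := by
  unfold vpol
  rw [finsetSum_coeff]
  simp only [coeff_C_mul_X_pow]
  rw [Finset.sum_eq_single j]
  · simp
  · intro b _ hb
    rw [if_neg]
    intro h
    exact hb (Fin.ext h.symm)
  · simp

theorem vpol_natDegree {d : ℕ} (hd : 1 ≤ d) (v : Fin d → ℤ) : (vpol v).natDegree ≤ d - 1 := by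
  unfold vpol
  apply natDegree_sum_le_of_forall_le
  intro j _
  refine (natDegree_C_mul_X_pow_le _ _).trans ?_
  omega

theorem dvd_of_mulVec {d : ℕ} (M : Matrix (Fin d) (Fin d) ℤ) (y : Fin d → ℤ) (N : ℤ)
    (hcop : IsCoprime M.det N) (h : ∀ i, N ∣ ∑ j, M i j * y j) (j : Fin d) : N ∣ y j := by
  have h1 : M.adjugate.mulVec (M.mulVec y) = M.det • y := by
    rw [Matrix.mulVec_mulVec, Matrix.adjugate_mul, Matrix.smul_mulVec, Matrix.one_mulVec]
  have h2 := congrFun h1 j
  have h3 : N ∣ (M.adjugate.mulVec (M.mulVec y)) j := by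
    unfold Matrix.mulVec
    simp only [dotProduct]
    apply Finset.dvd_sum
    intro i _
    exact Dvd.dvd.mul_left (h i) _
  rw [h2] at h3
  simp only [Pi.smul_apply, smul_eq_mul] at h3
  exact hcop.symm.dvd_of_dvd_mul_left h3

end SPLAux

open SPLAux in
theorem stmt_SPL (hALG : Stmt_ALG) (hLOC : Stmt_LOC) (hEVD : Stmt_EVD) : Stmt_SPL := by
  intro d G hM hdeg hd q k a x hq hq2 hqG hqN
  have hG1 : G ≠ 1 := by
    intro h
    rw [h, natDegree_one] at hdeg
    omega
  obtain ⟨rho, hrho⟩ : (X - C x) ∣ G - C (G.eval x) := X_sub_C_dvd_sub_C_eval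
  have hmon : (G - C (G.eval x)).Monic := by
    apply hM.sub_of_left
    refine lt_of_le_of_lt degree_C_le ?_
    rw [← natDegree_pos_iff_degree_pos]
    omega
  have hrhoM : rho.Monic := by
    rw [hrho] at hmon
    exact (monic_X_sub_C x).of_mul_monic_left hmon
  have hrhodeg : rho.natDegree = d - 1 := by
    have h1 : (G - C (G.eval x)).natDegree = d := by
      rw [natDegree_sub_C, hdeg]
    rw [hrho, (monic_X_sub_C x).natDegree_mul hrhoM, natDegree_X_sub_C] at h1
    omega
  have hellrho : ell d G rho = 1 := by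
    rw [ell_apply, (modByMonic_eq_self_iff hM).mpr, ← hrhodeg]
    · exact hrhoM
    · apply degree_lt_degree
      omega
  -- the constant
  have hXr : ∀ f : ℤ[X], ell d G (f * (X - C x) * rho) = -(G.eval x) * ell d G f := by
    intro f
    have h1 : ell d G (f * (X - C x) * rho) = ell d G (C (-(G.eval x)) * f) := by
      apply ell_congr d hM
      refine ⟨f, ?_⟩
      rw [mul_assoc, ← hrho, C_neg]
      ring
    rw [h1, ell_C_mul]
  set lam : Fin d → ℤ := fun j => ell d G (a * X ^ (j : ℕ)) with hlam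
  set u : Fin d → ℤ := fun j => rho.coeff j with hu
  have hvu : vpol u = rho := vpol_coeff_self rho (by omega)
  have hlamsum : ∀ v : Fin d → ℤ, ∑ j, lam j * v j = ell d G (a * vpol v) := by
    intro v
    unfold vpol
    rw [Finset.mul_sum, map_sum]
    refine Finset.sum_congr rfl fun j _ => ?_
    have h1 : a * (C (v j) * X ^ (j : ℕ)) = C (v j) * (a * X ^ (j : ℕ)) := by ring
    rw [h1, ell_C_mul, mul_comm]
  have hc : ∑ j, lam j * u j ≡ a.eval x [ZMOD G.eval x] := by
    rw [hlamsum, hvu]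
    obtain ⟨mu, hmu⟩ : (X - C x) ∣ a - C (a.eval x) := X_sub_C_dvd_sub_C_eval
    have h1 : a * rho = C (a.eval x) * rho + mu * (X - C x) * rho := by
      have h2 : a = C (a.eval x) + (X - C x) * mu := by
        rw [← hmu]
        ring
      conv_lhs => rw [h2]
      ring
    rw [h1, map_add, ell_C_mul, hellrho, hXr, mul_one, Int.modEq_iff_dvd]
    exact ⟨ell d G mu, by ring⟩
  have hax : ¬ (q : ℤ) ∣ a.eval x := fun h => hqN (hEVD d G hM hdeg q a x hq hqG h)
  have hqc : ¬ (q : ℤ) ∣ ∑ j, lam j * u j := by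
    intro h
    apply hax
    have h1 : ∑ j, lam j * u j ≡ a.eval x [ZMOD (q : ℤ)] := hc.of_dvd hqG
    have h2 := (Int.modEq_iff_dvd).mp h1
    have h3 := dvd_add h2 h
    simpa using h3
  refine ⟨∑ j, lam j * u j, hc, ?_⟩
  have hsymm := hALG.B_symm ℤ d G (a * (X - C x))
  refine lemA hLOC q k d hq hq2 hd (Bmat d G (a * (X - C x))) hsymm u lam (-(G.eval x)) ?_ hqc ?_
  · intro j
    have h1 : ∑ i, Bmat d G (a * (X - C x)) i j * u i = ∑ i, Bmat d G (a * (X - C x)) j i * u i := by
      refine Finset.sum_congr rfl fun i _ => ?_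
      rw [hsymm.apply j i]
    rw [h1, Bmat_sum, hvu]
    have h2 : a * (X - C x) * X ^ (j : ℕ) * rho = (a * X ^ (j : ℕ)) * (X - C x) * rho := by ring
    rw [h2, hXr]
  · intro v hv1 hv2
    set V := vpol v with hV
    set N : ℤ := ((q ^ k : ℕ) : ℤ) with hN
    have hN0 : N ≠ 0 := by
      rw [hN]
      exact_mod_cast (Nat.pow_pos hq.pos).ne'
    set Rm := ((X - C x) * V) %ₘ G with hRm
    set y : Fin d → ℤ := fun j => Rm.coeff j with hy
    have hRmdeg : Rm.natDegree < d := by
      have h1 := natDegree_modByMonic_lt ((X - C x) * V) hM hG1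
      rw [← hRm, hdeg] at h1
      exact h1
    have hvy : vpol y = Rm := vpol_coeff_self Rm hRmdeg
    have hdiv := modByMonic_add_div ((X - C x) * V) G
    have hyN : ∀ j, N ∣ y j := by
      apply dvd_of_mulVec (Bmat d G a) y N
      · rw [hALG.B_det d G a hM hdeg]
        apply IsCoprime.mul_left
        · rcases hALG.B_det1 d G hM hdeg hd with h | h
          · rw [h]; exact isCoprime_one_left
          · rw [h]; exact isCoprime_one_left.neg_left
        · exact isCoprime_pow hq k hqN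
      · intro i
        rw [Bmat_sum, hvy]
        have h1 : ell d G (a * X ^ (i : ℕ) * Rm) =
            ell d G (a * (X - C x) * X ^ (i : ℕ) * V) := by
          apply ell_congr d hM
          refine ⟨-(a * X ^ (i : ℕ) * (((X - C x) * V) /ₘ G)), ?_⟩
          have h2 : Rm = (X - C x) * V - G * (((X - C x) * V) /ₘ G) := by
            rw [eq_sub_iff_add_eq]
            exact hdiv
          rw [h2]
          ring
        rw [h1, ← Bmat_sum]
        exact hv2 i
    have hRN : C N ∣ Rm := by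
      rw [C_dvd_iff_dvd_coeff]
      intro i
      by_cases hi : i < d
      · exact hyN ⟨i, hi⟩
      · rw [coeff_eq_zero_of_natDegree_lt (by omega)]
        exact dvd_zero _
    obtain ⟨R, hR⟩ := hRN
    have hQ : ∃ w0 : ℤ, ((X - C x) * V) /ₘ G = C w0 := by
      refine ⟨_, eq_C_of_natDegree_le_zero ?_⟩
      rw [natDegree_divByMonic _ hM]
      have h1 : ((X - C x) * V).natDegree ≤ d := by
        refine (natDegree_mul_le).trans ?_
        rw [natDegree_X_sub_C]
        have h2 := vpol_natDegree hd v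
        rw [← hV] at h2
        omega
      omega
    obtain ⟨w0, hw0⟩ := hQ
    rw [← hRm, hR, hw0] at hdiv
    have hev := congrArg (fun f => f.eval x) hdiv
    simp only [eval_add, eval_mul, eval_C, eval_sub, eval_X, sub_self, zero_mul] at hev
    obtain ⟨R2, hR2⟩ : (X - C x) ∣ R - C (R.eval x) := X_sub_C_dvd_sub_C_eval
    have hVeq : V = C w0 * rho + C N * R2 := by
      have h1 : (X - C x) * V = (X - C x) * (C w0 * rho + C N * R2) := by
        have h2 : (X - C x) * (C w0 * rho + C N * R2) =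
            C w0 * ((X - C x) * rho) + C N * ((X - C x) * R2) := by ring
        rw [h2, ← hrho, ← hR2, ← hdiv]
        have h3 : C N * C (R.eval x) + C w0 * C (G.eval x) = 0 := by
          rw [← C_mul, ← C_mul, ← C_add]
          rw [show N * R.eval x + w0 * G.eval x = 0 by linarith, C_0]
        have h4 : C N * R + G * C w0 - (C w0 * (G - C (G.eval x)) + C N * (R - C (R.eval x))) =
            C N * C (R.eval x) + C w0 * C (G.eval x) := by ring
        rw [← sub_eq_zero, h4, h3]
      exact mul_left_cancel₀ (X_sub_C_ne_zero x) h1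
    have hw0N : N ∣ w0 := by
      have h1 : ell d G (a * V) = w0 * (∑ j, lam j * u j) + N * ell d G (a * R2) := by
        rw [hlamsum, hvu, hVeq]
        have h2 : a * (C w0 * rho + C N * R2) = C w0 * (a * rho) + C N * (a * R2) := by ring
        rw [h2, map_add, ell_C_mul, ell_C_mul]
      rw [hlamsum, ← hV, h1] at hv1
      have h3 : N ∣ w0 * (∑ j, lam j * u j) := (dvd_add_left (Dvd.intro _ rfl)).mp hv1
      exact (isCoprime_pow hq k hqc).symm.dvd_of_dvd_mul_right h3
    intro j
    have h1 : v j = V.coeff j := (vpol_coeff v j).symm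
    rw [h1, hVeq, coeff_add, coeff_C_mul, coeff_C_mul]
    exact dvd_add (Dvd.dvd.mul_right hw0N _) (Dvd.intro _ rfl)

end Pool.Agent.Work.GEM
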