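import Pool.Agent.Work.GEM.Interface

/-! # Block SQO (helper96) -/

set_option autoImplicit false

open Polynomial

namespace Pool.Agent.Work.GEM

theorem stmt_SQO : Stmt_SQO := by
  intro q j hq hq2 l
  rcases Nat.eq_zero_or_pos j with rfl | hj
  · exact ⟨0, - (C (q : ℤ) * l), by simp⟩
  obtain ⟨k, rfl⟩ : ∃ k, j = k + 1 := ⟨j - 1, by omega⟩
  set a : ℤ[X] := 1 + C (q : ℤ) * l with ha
  have hqC : ((q : ℕ) : ℤ[X]) = C (q : ℤ) := by simp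
  have h1 : ((q : ℕ) : ℤ[X]) ∣ a - 1 := by
    rw [hqC, ha]
    exact ⟨l, by ring⟩
  obtain ⟨w, hw⟩ := dvd_sub_pow_of_dvd_sub h1 k
  rw [one_pow, hqC] at hw
  have hodd : Odd (q ^ k) := (hq.odd_of_ne_two hq2).pow
  obtain ⟨c, hc⟩ := hodd
  set s : ℤ[X] := a ^ (c + 1) with hs
  have h2 : a - 1 ∣ s - 1 := by
    rw [hs]
    simpa using sub_dvd_pow_sub_pow a 1 (c + 1)
  obtain ⟨t, ht⟩ := (hqC ▸ h1 : C (q : ℤ) ∣ a - 1).trans h2
  refine ⟨t, a * w, ?_⟩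
  have h3 : 1 + C (q : ℤ) * t = s := by rw [← ht]; ring
  rw [h3]
  have h4 : s ^ 2 = a * a ^ (q ^ k) := by
    rw [hs, hc]; ring
  have h5 : a ^ q ^ k = 1 + C (q : ℤ) ^ (k + 1) * w := by rw [← hw]; ring
  rw [h4, h5, C_pow]
  ring

end Pool.Agent.Work.GEM
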