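import Pool.Agent.Work.GEM.Interface

/-! # Block SQT (helper96) -/

set_option autoImplicit false

open Polynomial

namespace Pool.Agent.Work.GEM

theorem stmt_SQT : Stmt_SQT := by
  intro j l
  have key : ∀ i : ℕ, ∃ t w : ℤ[X], (1 + C 2 * t) ^ 2 = 1 + C 8 * l + C ((2 : ℤ) ^ (i + 3)) * w := by
    intro i
    induction i with
    | zero =>
      refine ⟨0, -l, ?_⟩
      have : (C ((2 : ℤ) ^ (0 + 3)) : ℤ[X]) = C 8 := by norm_num
      rw [this]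
      ring
    | succ i ih =>
      obtain ⟨t, w, h⟩ := ih
      have e1 : (C ((2 : ℤ) ^ (i + 3)) : ℤ[X]) = C 2 * (C 2 * C ((2 : ℤ) ^ (i + 1))) := by
        rw [← C_mul, ← C_mul]; congr 1; ring
      have e2 : (C ((2 : ℤ) ^ (i + 1 + 3)) : ℤ[X]) = C 2 * (C 2 * (C 2 * C ((2 : ℤ) ^ (i + 1)))) := by
        rw [← C_mul, ← C_mul, ← C_mul]; congr 1; ring
      have e3 : (C (2 : ℤ) : ℤ[X]) = 2 := by simp
      set P : ℤ[X] := C ((2 : ℤ) ^ (i + 1)) with hP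
      -- s' = s - 4 P w / 2 ...
      obtain ⟨Q, hQ⟩ : ∃ Q : ℤ[X], P = 2 * Q := ⟨C ((2 : ℤ) ^ i), by
        rw [hP, ← e3, ← C_mul]; congr 1; ring⟩
      refine ⟨t - P * w, - t * w + Q * w ^ 2, ?_⟩
      rw [e1, e3] at h
      rw [e2, e3]
      have : (1 + 2 * (t - P * w)) ^ 2 =
          (1 + 2 * t) ^ 2 - 4 * P * w * (1 + 2 * t) + 4 * P * (2 * Q) * w ^ 2 := by
        rw [← hQ]; ring
      rw [this, h]
      ring
  obtain ⟨t, w, h⟩ := key j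
  refine ⟨t, C 8 * w, ?_⟩
  rw [h]
  have : (C ((2 : ℤ) ^ (j + 3)) : ℤ[X]) = C ((2 : ℤ) ^ j) * C 8 := by
    rw [← C_mul]; congr 1; ring
  rw [this]
  ring

end Pool.Agent.Work.GEM
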