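import Pool.Agent.Work.GEM.Interface

/-!
# TRG: from `g` to the monic polynomial `b^(d-1) g(X/b)` (helper12)
-/

set_option autoImplicit false

open Polynomial

namespace Pool.Agent.Work.GEM

namespace TRGAux

/-- a real polynomial without real roots has even degree -/
theorem even_natDegree (n : ℕ) : ∀ P : ℝ[X], P.natDegree = n → (∀ t : ℝ, P.eval t ≠ 0) →
    Even n := by
  induction n using Nat.strong_induction_on with
  | _ n ih =>
    intro P hP hroot
    have hP0 : P ≠ 0 := by
      rintro rfl
      exact hroot 0 (by simp)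
    rcases Nat.eq_zero_or_pos n with h0 | h0
    · rw [h0]
      exact Even.zero
    · have hnu : ¬ IsUnit P := by
        intro hu
        have := natDegree_eq_zero_of_isUnit hu
        omega
      obtain ⟨q, hq, hqP⟩ := WfDvdMonoid.exists_irreducible_factor hnu hP0
      obtain ⟨r, hr⟩ := hqP
      have hq2 : q.natDegree ≤ 2 := Irreducible.natDegree_le_two hq
      have hq0 : 0 < q.natDegree := Irreducible.natDegree_pos hq
      have hq1 : q.natDegree ≠ 1 := by
        intro h1
        have hd1 : q.degree = 1 := by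
          rw [degree_eq_natDegree hq.ne_zero, h1]
          rfl
        obtain ⟨x, hx⟩ := exists_root_of_degree_eq_one hd1
        apply hroot x
        rw [hr, eval_mul, hx.eq_zero, zero_mul]
      have hr0 : r ≠ 0 := by
        rintro rfl
        exact hP0 (by rw [hr, mul_zero])
      have hdeg : n = q.natDegree + r.natDegree := by
        rw [← hP, hr, natDegree_mul hq.ne_zero hr0]
      have hrr : ∀ t : ℝ, r.eval t ≠ 0 := by
        intro t ht
        apply hroot t
        rw [hr, eval_mul, ht, mul_zero]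
      have he := ih r.natDegree (by omega) r rfl hrr
      have hq2' : q.natDegree = 2 := by omega
      rw [hdeg, hq2']
      exact Even.add (by decide) he

theorem scale_id {K : Type} [Field K] (p : K[X]) (hd : 1 ≤ p.natDegree) :
    p.integralNormalization.comp (C p.leadingCoeff * X) =
      C (p.leadingCoeff ^ (p.natDegree - 1)) * p := by
  ext i
  rw [comp_C_mul_X_coeff, integralNormalization_coeff_mul_leadingCoeff_pow i hd, coeff_C_mul,
    mul_comm]

theorem irr {K : Type} [Field K] (p : K[X]) (hp : Irreducible p) :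
    Irreducible p.integralNormalization := by
  have hd : 1 ≤ p.natDegree := Irreducible.natDegree_pos hp
  have hlc : p.leadingCoeff ≠ 0 := leadingCoeff_ne_zero.mpr hp.ne_zero
  let _ : Invertible p.leadingCoeff := invertibleOfNonzero hlc
  have h1 := scale_id p hd
  have h2 : algEquivCMulXAddC p.leadingCoeff 0 p.integralNormalization =
      C (p.leadingCoeff ^ (p.natDegree - 1)) * p := by
    rw [← h1, algEquivCMulXAddC_apply, map_zero, add_zero]
    rfl
  have hu : IsUnit (C (p.leadingCoeff ^ (p.natDegree - 1))) :=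
    isUnit_C.mpr (IsUnit.mk0 _ (pow_ne_zero _ hlc))
  have h3 : Irreducible (C (p.leadingCoeff ^ (p.natDegree - 1)) * p) := by
    rw [irreducible_isUnit_mul hu]
    exact hp
  rw [← h2] at h3
  exact (MulEquiv.irreducible_iff (algEquivCMulXAddC p.leadingCoeff 0)).mp h3

theorem cyc {K : Type} [Field K] (p Φ h : K[X]) (hp : Irreducible p) (hh : p ∣ Φ.comp h) :
    ∃ h' : K[X], p.integralNormalization ∣ Φ.comp h' := by
  have hd : 1 ≤ p.natDegree := Irreducible.natDegree_pos hp
  have hlc : p.leadingCoeff ≠ 0 := leadingCoeff_ne_zero.mpr hp.ne_zero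
  refine ⟨h.comp (C p.leadingCoeff⁻¹ * X), ?_⟩
  have h1 := scale_id p hd
  have h2 : p.integralNormalization =
      C (p.leadingCoeff ^ (p.natDegree - 1)) * p.comp (C p.leadingCoeff⁻¹ * X) := by
    have h3 := congrArg (fun q => q.comp (C p.leadingCoeff⁻¹ * X)) h1
    simp only [comp_assoc, mul_comp, C_comp, X_comp] at h3
    rw [← mul_assoc, ← C_mul, mul_inv_cancel₀ hlc, C_1, one_mul, comp_X] at h3
    exact h3
  rw [← comp_assoc, h2]
  obtain ⟨q, hq⟩ := hh
  rw [hq, mul_comp]
  refine ⟨C ((p.leadingCoeff ^ (p.natDegree - 1))⁻¹) * q.comp (C p.leadingCoeff⁻¹ * X), ?_⟩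
  have h4 : (C (p.leadingCoeff ^ (p.natDegree - 1)) : K[X]) *
      C ((p.leadingCoeff ^ (p.natDegree - 1))⁻¹) = 1 := by
    rw [← C_mul, mul_inv_cancel₀ (pow_ne_zero _ hlc), C_1]
  calc p.comp (C p.leadingCoeff⁻¹ * X) * q.comp (C p.leadingCoeff⁻¹ * X)
      = (C (p.leadingCoeff ^ (p.natDegree - 1)) * C ((p.leadingCoeff ^ (p.natDegree - 1))⁻¹)) *
        (p.comp (C p.leadingCoeff⁻¹ * X) * q.comp (C p.leadingCoeff⁻¹ * X)) := by
          rw [h4, one_mul]
    _ = _ := by ring

end TRGAux

open TRGAux

theorem stmt_TRG : Stmt_TRG := by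
  intro m g hm hirr hcyc
  have hinj : Function.Injective (Int.castRingHom ℚ) := Int.cast_injective
  have hg0 : g ≠ 0 := by
    rintro rfl
    exact hirr.ne_zero (by simp)
  have hlc : g.leadingCoeff ≠ 0 := leadingCoeff_ne_zero.mpr hg0
  have hlcQ : (Int.castRingHom ℚ) g.leadingCoeff ≠ 0 := by
    intro h
    exact hlc (hinj (by rw [h, map_zero]))
  have hdeg : (g.map (Int.castRingHom ℚ)).natDegree = g.natDegree :=
    natDegree_map_eq_of_injective hinj g
  have hd1 : 1 ≤ g.natDegree := by
    rw [← hdeg]
    exact Irreducible.natDegree_pos hirr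
  -- no real roots
  have hnr : ∀ t : ℝ, (g.map (Int.castRingHom ℝ)).eval t ≠ 0 := by
    intro t ht
    obtain ⟨h, q, hq⟩ := hcyc
    have h1 : ((cyclotomic m ℚ).comp h).eval₂ (algebraMap ℚ ℝ) t = 0 := by
      rw [hq, eval₂_mul]
      have : (g.map (Int.castRingHom ℚ)).eval₂ (algebraMap ℚ ℝ) t = 0 := by
        rw [eval₂_map]
        rw [eval_map] at ht
        rw [← ht]
        congr 1
      rw [this, zero_mul]
    have h2 : eval (h.eval₂ (algebraMap ℚ ℝ) t) (cyclotomic m ℝ) = 0 := by
      rw [← map_cyclotomic m (algebraMap ℚ ℝ), eval_map, ← h1, eval₂_comp]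
    have h3 := cyclotomic_pos (show 2 < m by omega) (h.eval₂ (algebraMap ℚ ℝ) t)
    exact absurd h2 h3.ne'
  have hmapG : (g.map (Int.castRingHom ℚ)).integralNormalization =
      g.integralNormalization.map (Int.castRingHom ℚ) :=
    integralNormalization_map _ _ hlcQ
  have heval : ∀ n : ℤ, g.integralNormalization.eval (g.leadingCoeff * n) =
      g.leadingCoeff ^ (g.natDegree - 1) * g.eval n := by
    intro n
    have := integralNormalization_eval₂_leadingCoeff_mul hd1 (RingHom.id ℤ) n
    simpa only [RingHom.id_apply, eval₂_id] using this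
  refine ⟨hlc, ?_, ⟨monic_integralNormalization hg0, natDegree_integralNormalization, ?_, ?_, ?_,
    ?_⟩, ?_, heval⟩
  · intro h0
    apply hnr 0
    rw [eval_map, eval₂_at_zero, h0, map_zero]
  · -- degree at least two
    have he := even_natDegree _ (g.map (Int.castRingHom ℝ)) rfl hnr
    rw [natDegree_map_eq_of_injective (show Function.Injective (Int.castRingHom ℝ) from
      Int.cast_injective) g] at he
    obtain ⟨k, hk⟩ := he
    omega
  · have he := even_natDegree _ (g.map (Int.castRingHom ℝ)) rfl hnr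
    rwa [natDegree_map_eq_of_injective (show Function.Injective (Int.castRingHom ℝ) from
      Int.cast_injective) g] at he
  · -- no real root
    intro t ht
    have hlcR : (g.leadingCoeff : ℝ) ≠ 0 := by exact_mod_cast hlc
    apply hnr (t / g.leadingCoeff)
    have h1 := integralNormalization_eval₂_leadingCoeff_mul hd1 (Int.castRingHom ℝ)
      (t / g.leadingCoeff)
    have h2 : (Int.castRingHom ℝ) g.leadingCoeff * (t / g.leadingCoeff) = t := by
      rw [eq_intCast, mul_div_cancel₀ _ hlcR]
    rw [h2, ← eval_map, ht] at h1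
    rw [eval_map]
    have h3 : (Int.castRingHom ℝ) g.leadingCoeff ^ (g.natDegree - 1) ≠ 0 :=
      pow_ne_zero _ (by rw [eq_intCast]; exact hlcR)
    exact (mul_eq_zero.mp h1.symm).resolve_left h3
  · rw [← hmapG]
    exact irr _ hirr
  · obtain ⟨h, hh⟩ := hcyc
    obtain ⟨h', hh'⟩ := cyc _ _ _ hirr hh
    refine ⟨h', ?_⟩
    rw [← hmapG]
    exact hh'

end Pool.Agent.Work.GEM
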