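import Pool.Agent.Work.GEM.Interface

/-!
# TWI: invariance under squares of units (helper6)
-/

set_option autoImplicit false

open Polynomial

namespace Pool.Agent.Work.GEM

namespace TWIAux

/-- `qf` in terms of matrices -/
theorem qf_eq {n r : ℕ} (A : Matrix (Fin r) (Fin r) ℤ) (z : Fin r → ZMod n) :
    qf A z = z ⬝ᵥ ((A.map (Int.castRingHom (ZMod n))).mulVec z) := by
  unfold qf
  simp only [dotProduct, Matrix.mulVec, Matrix.map_apply, Finset.mul_sum]
  refine Finset.sum_congr rfl fun i _ => Finset.sum_congr rfl fun j _ => ?_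
  simp only [eq_intCast]
  ring

/-- the Gauss sum only depends on the matrix mod `n` -/
theorem GS_congr (n : ℕ) {r : ℕ} (A B : Matrix (Fin r) (Fin r) ℤ)
    (h : A.map (Int.castRingHom (ZMod n)) = B.map (Int.castRingHom (ZMod n))) :
    GS n A = GS n B := by
  unfold GS
  by_cases hn : n = 0
  · rw [dif_pos hn, dif_pos hn]
  · rw [dif_neg hn, dif_neg hn]
    refine Finset.sum_congr rfl fun z _ => ?_
    rw [qf_eq, qf_eq, h]

/-- invariance under invertible substitutions -/
theorem GS_tw (n : ℕ) {r : ℕ} (A M : Matrix (Fin r) (Fin r) ℤ) (hM : IsCoprime (n : ℤ) M.det) :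
    GS n (M.transpose * A * M) = GS n A := by
  unfold GS
  by_cases hn : n = 0
  · rw [dif_pos hn, dif_pos hn]
  · rw [dif_neg hn, dif_neg hn]
    have : NeZero n := ⟨hn⟩
    set f := Int.castRingHom (ZMod n) with hf
    have hu : IsUnit (M.map f).det := by
      have h1 : (M.map f).det = f M.det := (RingHom.map_det f M).symm
      rw [h1]
      obtain ⟨x, y, hxy⟩ := hM
      refine IsUnit.of_mul_eq_one (f y) ?_
      rw [← map_mul]
      have h2 := congrArg f hxy
      rw [map_add, map_mul, map_one] at h2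
      have h3 : f (n : ℤ) = 0 := by rw [hf]; simp
      rw [h3, mul_zero, zero_add] at h2
      rw [mul_comm]
      exact h2
    have hbij : Function.Bijective (M.map f).mulVec := by
      constructor
      · exact Matrix.mulVec_injective_of_isUnit ((Matrix.isUnit_iff_isUnit_det _).mpr hu)
      · exact Matrix.mulVec_surjective_iff_isUnit.mpr ((Matrix.isUnit_iff_isUnit_det _).mpr hu)
    refine Fintype.sum_bijective (M.map f).mulVec hbij _ _ fun z => ?_
    rw [qf_eq, qf_eq]
    congr 1
    rw [← hf, Matrix.map_mul, Matrix.map_mul, Matrix.transpose_map, ← Matrix.mulVec_mulVec,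
      ← Matrix.mulVec_mulVec, Matrix.dotProduct_mulVec, Matrix.vecMul_transpose]

end TWIAux

theorem stmt_TWI (hALG : Stmt_ALG) : Stmt_TWI := by
  intro d G hG hd n hn a a' s u w ha' hs
  have h1 : Bmat d G a' = (Mmat d G s).transpose * Bmat d G a * Mmat d G s +
      (n : ℤ) • Bmat d G w := by
    rw [ha', hALG.B_add ℤ d G _ _ hG, hALG.B_add ℤ d G _ _ hG, hALG.B_C ℤ d G _ _ hG,
      hALG.B_tw ℤ d G a s hG hd]
    have h2 : Bmat d G (G * u) = 0 := by
      rw [hALG.B_congr ℤ d G (G * u) 0 hG (by rw [sub_zero]; exact dvd_mul_right _ _)]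
      have h3 := hALG.B_add ℤ d G 0 0 hG
      rw [add_zero] at h3
      exact left_eq_add.mp h3
    rw [h2, add_zero]
  rw [h1]
  rw [TWIAux.GS_congr n _ ((Mmat d G s).transpose * Bmat d G a * Mmat d G s)]
  · exact TWIAux.GS_tw n _ _ hs
  · ext i j
    simp only [Matrix.map_apply, Matrix.add_apply, Matrix.smul_apply, smul_eq_mul, map_add, map_mul]
    simp

end Pool.Agent.Work.GEM
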