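import Pool.Agent.Work.GEM.Interface

/-! # Block UNI (helper96) -/

set_option autoImplicit false

namespace Pool.Agent.Work.GEM

namespace UNIAux

theorem GS_eq (n : ℕ) [NeZero n] {r : ℕ} (A : Matrix (Fin r) (Fin r) ℤ) :
    GS n A = ∑ z : Fin r → ZMod n, ZMod.stdAddChar (qf A z) := by
  rw [GS, dif_neg (NeZero.ne n)]

theorem card_ker (E : ℕ) (hE : 0 < E) [NeZero (E ^ 2)] :
    (Finset.univ.filter fun x : ZMod (E ^ 2) => (E : ZMod (E ^ 2)) * x = 0).card = E := by
  have h : (Finset.univ.filter fun x : ZMod (E ^ 2) => (E : ZMod (E ^ 2)) * x = 0) =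
      (Finset.range E).image (fun j : ℕ => ((E * j : ℕ) : ZMod (E ^ 2))) := by
    ext x
    simp only [Finset.mem_filter, Finset.mem_univ, true_and, Finset.mem_image, Finset.mem_range]
    constructor
    · intro hx
      have h1 : ((E * x.val : ℕ) : ZMod (E ^ 2)) = 0 := by
        rw [Nat.cast_mul, ZMod.natCast_zmod_val]
        exact hx
      rw [ZMod.natCast_eq_zero_iff] at h1
      obtain ⟨j, hj⟩ := Nat.dvd_of_mul_dvd_mul_left hE ((dvd_of_eq (sq E).symm).trans h1)
      refine ⟨j, ?_, ?_⟩
      · have := ZMod.val_lt x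
        rw [hj] at this
        exact lt_of_mul_lt_mul_left (this.trans_le (sq E).le) hE.le
      · rw [← hj, ZMod.natCast_zmod_val]
    · rintro ⟨j, -, rfl⟩
      rw [← Nat.cast_mul, ZMod.natCast_eq_zero_iff]
      exact ⟨j, by ring⟩
  rw [h, Finset.card_image_of_injOn, Finset.card_range]
  intro a ha b hb hab
  simp only [Finset.coe_range, Set.mem_Iio] at ha hb
  have h1 := (ZMod.natCast_eq_natCast_iff' _ _ _).1 hab
  have ha' : E * a < E ^ 2 := by rw [sq]; exact Nat.mul_lt_mul_of_pos_left ha hE
  have hb' : E * b < E ^ 2 := by rw [sq]; exact Nat.mul_lt_mul_of_pos_left hb hE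
  rw [Nat.mod_eq_of_lt ha', Nat.mod_eq_of_lt hb'] at h1
  exact Nat.eq_of_mul_eq_mul_left hE h1

theorem qf_smul {n r : ℕ} (A : Matrix (Fin r) (Fin r) ℤ) (c : ZMod n) (w : Fin r → ZMod n) :
    qf A (c • w) = c ^ 2 * qf A w := by
  simp only [qf, Pi.smul_apply, smul_eq_mul, Finset.mul_sum]
  refine Finset.sum_congr rfl fun i _ => Finset.sum_congr rfl fun j _ => ?_
  ring

end UNIAux

open UNIAux in
open Classical in
theorem stmt_UNI (hLOC : Stmt_LOC) : Stmt_UNI := by
  intro q k hq hq2 r A hA hdet
  have hE : 0 < q ^ k := pow_pos hq.pos k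
  have : NeZero ((q ^ k) ^ 2) := ⟨(pow_pos hE 2).ne'⟩
  set E := q ^ k with hEdef
  set n := E ^ 2 with hn
  have hE2 : (E : ZMod n) ^ 2 = 0 := by
    rw [← Nat.cast_pow, ← hn]
    exact ZMod.natCast_self n
  -- the subgroup
  let H' : AddSubgroup (Fin r → ZMod n) :=
    (DistribSMul.toAddMonoidHom (Fin r → ZMod n) (E : ZMod n)).range
  have hH' : ∀ h, h ∈ H' ↔ ∃ w, (E : ZMod n) • w = h := fun h => Iff.rfl
  rw [GS_eq]
  have h0 := hLOC n r A hA ⊤ H' le_top (by
    intro h hh
    obtain ⟨w, rfl⟩ := (hH' h).1 hh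
    rw [qf_smul, hE2, zero_mul])
  simp only [AddSubgroup.mem_top, if_true, true_and] at h0
  rw [h0]
  -- units
  have hcop : IsCoprime ((n : ℕ) : ℤ) A.det := by
    have h1 : IsCoprime (q : ℤ) A.det := by
      rw [(Nat.prime_iff_prime_int.1 hq).coprime_iff_not_dvd]
      exact hdet
    rw [hn, hEdef]
    push_cast
    exact (h1.pow_left).pow_left
  have hunit : IsUnit ((A.map (Int.castRingHom (ZMod n))).det) := by
    obtain ⟨u, v, huv⟩ := hcop
    have : (A.map (Int.castRingHom (ZMod n))).det = ((A.det : ℤ) : ZMod n) := by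
      have := (RingHom.map_det (Int.castRingHom (ZMod n)) A)
      rw [RingHom.mapMatrix_apply] at this
      rw [← this]
      simp
    rw [this]
    refine IsUnit.of_mul_eq_one ((v : ℤ) : ZMod n) ?_
    have h2 := congrArg (fun t : ℤ => (t : ZMod n)) huv
    simp only [Int.cast_add, Int.cast_mul, Int.cast_natCast, ZMod.natCast_self, mul_zero,
      zero_add, Int.cast_one] at h2
    rw [mul_comm]
    exact h2
  have h2unit : IsUnit (2 : ZMod n) := by
    have : IsUnit ((2 : ℕ) : ZMod n) := by
      rw [ZMod.isUnit_iff_coprime]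
      rw [hn, hEdef]
      exact Nat.Coprime.pow_right _ (Nat.Coprime.pow_right _
        ((Nat.coprime_primes Nat.prime_two hq).2 (Ne.symm hq2)))
    simpa using this
  -- the condition
  have hcond : ∀ z : Fin r → ZMod n, (∀ h ∈ H', 2 * bf A h z = 0) ↔
      ∀ i, (E : ZMod n) * z i = 0 := by
    intro z
    constructor
    · intro hz
      have h1 : (A.map (Int.castRingHom (ZMod n))).mulVec ((E : ZMod n) • z) = 0 := by
        ext i
        have h2 := hz ((E : ZMod n) • Pi.single i 1) ((hH' _).2 ⟨_, rfl⟩)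
        have h3 : bf A ((E : ZMod n) • Pi.single i 1) z =
            (A.map (Int.castRingHom (ZMod n))).mulVec ((E : ZMod n) • z) i := by
          simp only [bf, Pi.smul_apply, smul_eq_mul, Matrix.mulVec, dotProduct, Matrix.map_apply]
          rw [Finset.sum_eq_single i]
          · refine Finset.sum_congr rfl fun j _ => ?_
            simp
            ring
          · intro b _ hb
            simp [Pi.single_eq_of_ne hb]
          · simp
        rw [h3] at h2
        have h4 := (h2unit.mul_right_eq_zero).1 h2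
        simpa using h4
      have h5 : (E : ZMod n) • z = 0 := Matrix.mulVec_injective_of_isUnit
        ((Matrix.isUnit_iff_isUnit_det _).2 hunit) (by rw [h1, Matrix.mulVec_zero])
      intro i
      simpa using congrFun h5 i
    · intro hz h hh
      obtain ⟨w, rfl⟩ := (hH' h).1 hh
      have : bf A ((E : ZMod n) • w) z = 0 := by
        simp only [bf, Pi.smul_apply, smul_eq_mul]
        refine Finset.sum_eq_zero fun i _ => Finset.sum_eq_zero fun j _ => ?_
        calc (A i j : ZMod n) * ((E : ZMod n) * w i) * z j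
            = (A i j : ZMod n) * w i * ((E : ZMod n) * z j) := by ring
          _ = 0 := by rw [hz j, mul_zero]
      rw [this, mul_zero]
  have hval : ∀ z : Fin r → ZMod n, (∀ i, (E : ZMod n) * z i = 0) → qf A z = 0 := by
    intro z hz
    have : ∃ w : Fin r → ZMod n, z = (E : ZMod n) • w := by
      have : ∀ i, ∃ w : ZMod n, z i = (E : ZMod n) * w := by
        intro i
        have h1 : ((E * (z i).val : ℕ) : ZMod n) = 0 := by
          rw [Nat.cast_mul, ZMod.natCast_zmod_val]
          exact hz i
        rw [ZMod.natCast_eq_zero_iff] at h1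
        obtain ⟨j, hj⟩ := Nat.dvd_of_mul_dvd_mul_left hE ((dvd_of_eq (sq E).symm).trans h1)
        refine ⟨(j : ZMod n), ?_⟩
        rw [← Nat.cast_mul, ← hj, ZMod.natCast_zmod_val]
      choose w hw using this
      exact ⟨w, funext fun i => by simpa using hw i⟩
    obtain ⟨w, rfl⟩ := this
    rw [qf_smul, hE2, zero_mul]
  have hsum : ∑ z : Fin r → ZMod n, (if (∀ h ∈ H', 2 * bf A h z = 0)
        then ZMod.stdAddChar (qf A z) else (0 : ℂ)) =
      ((Fintype.piFinset fun _ : Fin r =>
        (Finset.univ.filter fun x : ZMod n => (E : ZMod n) * x = 0)).card : ℂ) := by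
    rw [Finset.card_eq_sum_ones, Nat.cast_sum, Nat.cast_one]
    rw [← Finset.sum_subset (Finset.subset_univ (Fintype.piFinset fun _ : Fin r =>
        (Finset.univ.filter fun x : ZMod n => (E : ZMod n) * x = 0)))]
    · refine Finset.sum_congr rfl fun z hz => ?_
      have hz' : ∀ i, (E : ZMod n) * z i = 0 := by
        intro i
        exact (Finset.mem_filter.1 (Fintype.mem_piFinset.1 hz i)).2
      rw [if_pos ((hcond z).2 hz'), hval z hz', AddChar.map_zero_eq_one]
    · intro z _ hz
      rw [if_neg]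
      intro hc
      apply hz
      rw [Fintype.mem_piFinset]
      intro i
      exact Finset.mem_filter.2 ⟨Finset.mem_univ _, (hcond z).1 hc i⟩
  have hc : (Finset.univ.filter fun x : ZMod n => (E : ZMod n) * x = 0).card = E := card_ker E hE
  rw [hsum, Fintype.card_piFinset]
  simp only [hc, Finset.prod_const, Finset.card_univ, Fintype.card_fin]
  rw [hEdef]
  push_cast
  rfl

end Pool.Agent.Work.GEM
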