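import Pool.Agent.Work.GEM.ALG
import Pool.Agent.Work.GEM.BAD
import Pool.Agent.Work.GEM.BIL
import Pool.Agent.Work.GEM.CMN
import Pool.Agent.Work.GEM.CNQ
import Pool.Agent.Work.GEM.CRTP
import Pool.Agent.Work.GEM.DIAG
import Pool.Agent.Work.GEM.EVD
import Pool.Agent.Work.GEM.EVN
import Pool.Agent.Work.GEM.EXK
import Pool.Agent.Work.GEM.FIN
import Pool.Agent.Work.GEM.G1T
import Pool.Agent.Work.GEM.GFR
import Pool.Agent.Work.GEM.GLB
import Pool.Agent.Work.GEM.INV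
import Pool.Agent.Work.GEM.JPR
import Pool.Agent.Work.GEM.L2
import Pool.Agent.Work.GEM.LOC
import Pool.Agent.Work.GEM.LQ
import Pool.Agent.Work.GEM.LR
import Pool.Agent.Work.GEM.LS
import Pool.Agent.Work.GEM.NBD
import Pool.Agent.Work.GEM.NXC
import Pool.Agent.Work.GEM.NZ
import Pool.Agent.Work.GEM.ODD
import Pool.Agent.Work.GEM.ONE
import Pool.Agent.Work.GEM.PF
import Pool.Agent.Work.GEM.QSQ
import Pool.Agent.Work.GEM.RCD
import Pool.Agent.Work.GEM.REC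
import Pool.Agent.Work.GEM.REC5
import Pool.Agent.Work.GEM.ROOT
import Pool.Agent.Work.GEM.RUN
import Pool.Agent.Work.GEM.SIGD
import Pool.Agent.Work.GEM.SIGJ
import Pool.Agent.Work.GEM.SPL
import Pool.Agent.Work.GEM.SQO
import Pool.Agent.Work.GEM.SQT
import Pool.Agent.Work.GEM.TRG
import Pool.Agent.Work.GEM.TWI
import Pool.Agent.Work.GEM.UNI

/-!
# MP_75c89d_nt: all blocks together (helper96)
-/

namespace Pool.Agent.Work.GEM

theorem all_NXC : Stmt_NXC := stmt_NXC stmt_ALG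
theorem all_EVD : Stmt_EVD := stmt_EVD stmt_ALG
theorem all_CMN : Stmt_CMN := stmt_CMN stmt_ALG
theorem all_NZ : Stmt_NZ := stmt_NZ stmt_ALG
theorem all_INV : Stmt_INV := stmt_INV stmt_LOC
theorem all_UNI : Stmt_UNI := stmt_UNI stmt_LOC
theorem all_TWI : Stmt_TWI := stmt_TWI stmt_ALG
theorem all_L2 : Stmt_L2 := stmt_L2 stmt_ALG stmt_SQT all_TWI
theorem all_LQ : Stmt_LQ := stmt_LQ stmt_ALG stmt_SQO all_TWI
theorem all_SPL : Stmt_SPL := stmt_SPL stmt_ALG stmt_LOC all_EVD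
theorem all_LS : Stmt_LS := stmt_LS stmt_ALG all_NXC all_EVD all_UNI all_SPL stmt_G1T
theorem all_GFR : Stmt_GFR := stmt_GFR stmt_LOC
theorem all_LR : Stmt_LR := stmt_LR stmt_ALG all_NXC all_GFR
theorem all_SIGJ : Stmt_SIGJ := stmt_SIGJ stmt_ALG
theorem all_PF : Stmt_PF := stmt_PF stmt_ALG stmt_DIAG all_INV stmt_ONE all_SIGJ stmt_SIGD
theorem all_GLB : Stmt_GLB := stmt_GLB stmt_ALG all_NXC all_PF stmt_CRTP
theorem all_REC : Stmt_REC := stmt_REC all_GLB all_L2 all_LQ all_LS stmt_JPR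
theorem all_REC5 : Stmt_REC5 :=
  stmt_REC5 stmt_ALG all_NXC all_EVD all_GLB all_L2 all_LQ all_UNI all_LS all_LR stmt_JPR
theorem all_CNQ : Stmt_CNQ := stmt_CNQ stmt_NBD all_NZ stmt_QSQ
theorem all_BAD : Stmt_BAD :=
  stmt_BAD stmt_ALG stmt_NBD all_NZ all_CMN stmt_QSQ stmt_ROOT all_CNQ
theorem all_EXK : Stmt_EXK := stmt_EXK stmt_ALG all_NZ all_BAD
theorem all_ODD : Stmt_ODD :=
  stmt_ODD stmt_ALG all_NXC all_EVD stmt_NBD all_NZ all_BAD all_REC stmt_BIL stmt_JPR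
theorem all_EVN : Stmt_EVN := stmt_EVN all_EVD all_EXK all_REC all_REC5 stmt_JPR
theorem all_FIN : Stmt_FIN := stmt_FIN all_ODD all_EVN stmt_RUN stmt_RCD stmt_TRG stmt_ROOT

end Pool.Agent.Work.GEM
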