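import Pool.Agent.Work.GEM.Interface

/-! INV: Gauss sums and sublattices. -/

set_option autoImplicit false

open Polynomial

namespace Pool.Agent.Work.GEM

namespace INVAux

variable {n r : ℕ}

theorem qf_eq (A : Matrix (Fin r) (Fin r) ℤ) (z : Fin r → ZMod n) :
    qf A z = z ⬝ᵥ (A.map (Int.castRingHom (ZMod n))).mulVec z := by
  simp only [qf, dotProduct, Matrix.mulVec, Matrix.map_apply, Finset.mul_sum]
  refine Finset.sum_congr rfl fun i _ => Finset.sum_congr rfl fun j _ => ?_
  simp only [eq_intCast]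
  ring

theorem bf_eq (A : Matrix (Fin r) (Fin r) ℤ) (h z : Fin r → ZMod n) :
    bf A h z = h ⬝ᵥ (A.map (Int.castRingHom (ZMod n))).mulVec z := by
  simp only [bf, dotProduct, Matrix.mulVec, Matrix.map_apply, Finset.mul_sum]
  refine Finset.sum_congr rfl fun i _ => Finset.sum_congr rfl fun j _ => ?_
  simp only [eq_intCast]
  ring

/-- the reduction of an integral matrix -/
noncomputable def Pb (n : ℕ) {r : ℕ} (P : Matrix (Fin r) (Fin r) ℤ) :
    (Fin r → ZMod n) →+ (Fin r → ZMod n) :=
  (Matrix.mulVecLin (P.map (Int.castRingHom (ZMod n)))).toAddMonoidHom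

theorem Pb_apply (P : Matrix (Fin r) (Fin r) ℤ) (z : Fin r → ZMod n) :
    Pb n P z = (P.map (Int.castRingHom (ZMod n))).mulVec z := rfl

/-- the reduction of an integral vector -/
def red (n r : ℕ) : (Fin r → ℤ) →+ (Fin r → ZMod n) := (Int.castAddHom (ZMod n)).compLeft (Fin r)

theorem red_apply (z : Fin r → ℤ) (i : Fin r) : red n r z i = (z i : ZMod n) := rfl

theorem red_surj : Function.Surjective (red n r) := by
  intro z
  refine ⟨fun i => (ZMod.intCast_surjective (z i)).choose, ?_⟩
  funext i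
  exact (ZMod.intCast_surjective (z i)).choose_spec

theorem Pb_red (P : Matrix (Fin r) (Fin r) ℤ) (z : Fin r → ℤ) :
    Pb n P (red n r z) = red n r (P.mulVec z) := by
  funext i
  rw [Pb_apply, red_apply]
  simp only [Matrix.mulVec, dotProduct, Matrix.map_apply, red_apply, eq_intCast, Int.cast_sum,
    Int.cast_mul]

theorem qf_mul (A P : Matrix (Fin r) (Fin r) ℤ) (z : Fin r → ZMod n) :
    qf (P.transpose * A * P) z = qf A (Pb n P z) := by
  rw [qf_eq, qf_eq, Pb_apply, Matrix.map_mul, Matrix.map_mul, Matrix.transpose_map,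
    ← Matrix.mulVec_mulVec, ← Matrix.mulVec_mulVec, Matrix.dotProduct_mulVec,
    Matrix.vecMul_transpose]

/-- the number of elements of the quotient -/
theorem card_quot (P : Matrix (Fin r) (Fin r) ℤ) (hP : P.det ≠ 0) :
    Nat.card ((Fin r → ℤ) ⧸ (LinearMap.range (Matrix.mulVecLin P))) = P.det.natAbs := by
  have hinj : Function.Injective (Matrix.mulVecLin P) := by
    intro x y hxy
    have h2 : P.adjugate.mulVec (P.mulVec x) = P.adjugate.mulVec (P.mulVec y) := by
      rw [Matrix.mulVecLin_apply, Matrix.mulVecLin_apply] at hxy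
      rw [hxy]
    rw [Matrix.mulVec_mulVec, Matrix.mulVec_mulVec, Matrix.adjugate_mul, Matrix.smul_mulVec,
      Matrix.smul_mulVec, Matrix.one_mulVec, Matrix.one_mulVec] at h2
    exact smul_right_injective _ hP h2
  have h := Submodule.natAbs_det_equiv (LinearMap.range (Matrix.mulVecLin P))
    (LinearEquiv.ofInjective (Matrix.mulVecLin P) hinj)
  rw [← h]
  congr 1
  rw [← LinearMap.det_toLin', Matrix.toLin'_apply']
  rfl

open Classical in
/-- the number of elements of the kernel -/
theorem card_ker [NeZero n] (P : Matrix (Fin r) (Fin r) ℤ) (hP : P.det ≠ 0)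
    (hn : P.det ∣ (n : ℤ)) :
    (Finset.univ.filter fun z : Fin r → ZMod n => Pb n P z = 0).card = P.det.natAbs := by
  obtain ⟨k, hk⟩ := hn
  -- the index of the range
  have h1 : (Pb n P).range.comap (red n r) = (LinearMap.range (Matrix.mulVecLin P)).toAddSubgroup := by
    ext z
    rw [AddSubgroup.mem_comap, AddMonoidHom.mem_range, Submodule.mem_toAddSubgroup,
      LinearMap.mem_range]
    constructor
    · rintro ⟨w, hw⟩
      obtain ⟨w', rfl⟩ := red_surj w
      rw [Pb_red] at hw
      have h2 : ∀ i, ∃ t : ℤ, z i = P.mulVec w' i + n * t := by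
        intro i
        have h3 := congrFun hw i
        rw [red_apply, red_apply, ← sub_eq_zero, ← Int.cast_sub,
          ZMod.intCast_zmod_eq_zero_iff_dvd] at h3
        obtain ⟨t, ht⟩ := h3
        exact ⟨-t, by linarith⟩
      choose t ht using h2
      refine ⟨w' + P.adjugate.mulVec (k • t), ?_⟩
      rw [Matrix.mulVecLin_apply, Matrix.mulVec_add, Matrix.mulVec_mulVec, Matrix.mul_adjugate,
        Matrix.smul_mulVec, Matrix.one_mulVec]
      funext i
      rw [Pi.add_apply, Pi.smul_apply, Pi.smul_apply, ht i, hk]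
      simp only [smul_eq_mul]
      ring
    · rintro ⟨w, hw⟩
      refine ⟨red n r w, ?_⟩
      rw [Pb_red, ← hw]
      rfl
  have h2 : (Pb n P).range.index = P.det.natAbs := by
    rw [← AddSubgroup.index_comap_of_surjective _ (red_surj (n := n) (r := r)), h1]
    exact card_quot P hP
  have h3 : (Pb n P).range.index * Nat.card (Pb n P).range = Nat.card (Fin r → ZMod n) :=
    AddSubgroup.index_mul_card _
  have h4 : (Pb n P).ker.index * Nat.card (Pb n P).ker = Nat.card (Fin r → ZMod n) :=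
    AddSubgroup.index_mul_card _
  rw [AddSubgroup.index_ker, ← h3, mul_comm] at h4
  have h5 : Nat.card (Pb n P).ker = (Pb n P).range.index :=
    Nat.eq_of_mul_eq_mul_right Nat.card_pos h4
  rw [← h2, ← h5, Nat.card_eq_fintype_card, ← Fintype.card_subtype]
  exact Fintype.card_congr (Equiv.refl _)

theorem GS_eq [h : NeZero n] (A : Matrix (Fin r) (Fin r) ℤ) :
    GS n A = ∑ z : Fin r → ZMod n, ZMod.stdAddChar (qf A z) := by
  unfold GS
  rw [dif_neg h.out]

open Classical in
/-- sums over the image -/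
theorem sum_Pb [NeZero n] (P : Matrix (Fin r) (Fin r) ℤ) (F : (Fin r → ZMod n) → ℂ) :
    ∑ z, F (Pb n P z) = ((Finset.univ.filter fun z : Fin r → ZMod n => Pb n P z = 0).card : ℂ) *
      ∑ w, if w ∈ (Pb n P).range then F w else 0 := by
  rw [← Finset.sum_fiberwise_of_maps_to (s := Finset.univ) (t := Finset.univ)
    (g := fun z => Pb n P z) (fun _ _ => Finset.mem_univ _), Finset.mul_sum]
  refine Finset.sum_congr rfl fun w _ => ?_
  rw [Finset.sum_congr rfl (g := fun _ => F w) (fun z hz => by rw [(Finset.mem_filter.1 hz).2]),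
    Finset.sum_const, nsmul_eq_mul]
  split_ifs with hw
  · obtain ⟨z₀, rfl⟩ := hw
    congr 2
    refine Finset.card_bij' (fun z _ => z - z₀) (fun z _ => z + z₀) ?_ ?_ ?_ ?_
    · intro z hz
      rw [Finset.mem_filter] at hz ⊢
      exact ⟨Finset.mem_univ _, by rw [map_sub, hz.2, sub_self]⟩
    · intro z hz
      rw [Finset.mem_filter] at hz ⊢
      exact ⟨Finset.mem_univ _, by rw [map_add, hz.2, zero_add]⟩
    · intro z _
      exact sub_add_cancel _ _
    · intro z _
      exact add_sub_cancel_right _ _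
  · rw [Finset.filter_false_of_mem, Finset.card_empty]
    · simp
    · intro z _ h
      exact hw ⟨z, h⟩

end INVAux

open Classical INVAux in
theorem stmt_INV (hLOC : Stmt_LOC) : Stmt_INV := by
  intro r A P D hD hA hdA hdP hdvd
  haveI : NeZero (D ^ 2) := ⟨(pow_pos hD 2).ne'⟩
  obtain ⟨k, hk⟩ := hdvd
  have hPn : P.det ∣ ((D ^ 2 : ℕ) : ℤ) := by
    rw [Nat.cast_pow, hk]
    exact Dvd.intro (2 * A.det * k * (2 * A.det * P.det * k)) (by ring)
  rw [GS_eq, GS_eq, Finset.sum_congr rfl (fun z _ => by rw [qf_mul]),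
    sum_Pb P (fun w => ZMod.stdAddChar (qf A w)), card_ker P hdP hPn]
  congr 1
  -- the subgroup of multiples of `D`
  let μ : (Fin r → ZMod (D ^ 2)) →+ (Fin r → ZMod (D ^ 2)) := nsmulAddMonoidHom D
  have hμ : ∀ h, μ h = (D : ZMod (D ^ 2)) • h := by
    intro h
    change D • h = _
    funext i
    rw [Pi.smul_apply, Pi.smul_apply, nsmul_eq_mul, smul_eq_mul]
  have hDD : (D : ZMod (D ^ 2)) * D = 0 := by
    rw [← pow_two, ← Nat.cast_pow]
    exact ZMod.natCast_self _
  have hq : ∀ h ∈ μ.range, qf A h = 0 := by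
    rintro _ ⟨h, rfl⟩
    rw [hμ, qf_eq, Matrix.mulVec_smul, smul_dotProduct, dotProduct_smul, smul_smul, hDD,
      zero_smul]
  have hle : μ.range ≤ (Pb (D ^ 2) P).range := by
    rintro _ ⟨h, rfl⟩
    obtain ⟨h', rfl⟩ := red_surj h
    refine ⟨red _ _ (P.adjugate.mulVec ((2 * A.det * k) • h')), ?_⟩
    rw [Pb_red, Matrix.mulVec_mulVec, Matrix.mul_adjugate, Matrix.smul_mulVec,
      Matrix.one_mulVec, smul_smul, hμ]
    funext i
    rw [red_apply, Pi.smul_apply, Pi.smul_apply, red_apply, smul_eq_mul, smul_eq_mul,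
      Int.cast_mul]
    congr 1
    rw [← Int.cast_natCast (R := ZMod (D ^ 2)) D, hk]
    congr 1
    ring
  have h1 := hLOC (D ^ 2) r A hA (Pb (D ^ 2) P).range μ.range hle hq
  have h2 := hLOC (D ^ 2) r A hA ⊤ μ.range le_top hq
  have h3 : ∀ z : Fin r → ZMod (D ^ 2), (∀ h ∈ μ.range, 2 * bf A h z = 0) →
      z ∈ (Pb (D ^ 2) P).range := by
    intro z hz
    obtain ⟨z', rfl⟩ := red_surj z
    have h4 : ∀ i, ∃ t : ℤ, 2 * A.mulVec z' i = D * t := by
      intro i
      have h5 := hz (μ (Pi.single i 1)) ⟨_, rfl⟩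
      rw [hμ, bf_eq, ← Pb_apply, Pb_red, smul_dotProduct, single_dotProduct, one_mul, red_apply,
        smul_eq_mul] at h5
      have h6 : ((2 * (D * A.mulVec z' i) : ℤ) : ZMod (D ^ 2)) = 0 := by
        push_cast
        exact h5
      rw [ZMod.intCast_zmod_eq_zero_iff_dvd] at h6
      obtain ⟨t, ht⟩ := h6
      refine ⟨t, ?_⟩
      have hD' : (D : ℤ) ≠ 0 := by exact_mod_cast hD.ne'
      apply mul_left_cancel₀ hD'
      push_cast at ht
      linear_combination ht
    choose t ht using h4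
    have ht' : (2 : ℤ) • A.mulVec z' = (D : ℤ) • t := by
      funext i
      exact ht i
    have h7 : z' = P.mulVec (P.adjugate.mulVec (k • A.adjugate.mulVec t)) := by
      have h8 : (2 * A.det) • z' = (2 * A.det) • P.mulVec (P.adjugate.mulVec
          (k • A.adjugate.mulVec t)) := by
        have h9 := congrArg (fun v => A.adjugate.mulVec v) ht'
        simp only [Matrix.mulVec_smul, Matrix.mulVec_mulVec, Matrix.adjugate_mul,
          Matrix.smul_mulVec, Matrix.one_mulVec, smul_smul] at h9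
        rw [h9, Matrix.mulVec_mulVec, Matrix.mul_adjugate, Matrix.smul_mulVec,
          Matrix.one_mulVec, smul_smul, smul_smul, hk]
      exact smul_right_injective _ (mul_ne_zero two_ne_zero hdA) h8
    refine ⟨red _ _ (P.adjugate.mulVec (k • A.adjugate.mulVec t)), ?_⟩
    rw [Pb_red, ← h7]
  refine Eq.trans (Finset.sum_congr rfl fun z _ => ?_) (h1.trans ?_)
  · by_cases hz : z ∈ (Pb (D ^ 2) P).range
    · rw [if_pos hz, if_pos hz]
    · rw [if_neg hz, if_neg hz]
  have h4 : ∑ z : Fin r → ZMod (D ^ 2), ZMod.stdAddChar (qf A z) =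
      ∑ z : Fin r → ZMod (D ^ 2), (if z ∈ (⊤ : AddSubgroup (Fin r → ZMod (D ^ 2))) then
        ZMod.stdAddChar (qf A z) else (0 : ℂ)) :=
    Finset.sum_congr rfl fun z _ => by rw [if_pos (AddSubgroup.mem_top z)]
  rw [h4, h2]
  refine Finset.sum_congr rfl fun z _ => ?_
  by_cases hz : ∀ h ∈ μ.range, 2 * bf A h z = 0
  · rw [if_pos ⟨h3 z hz, hz⟩, if_pos ⟨AddSubgroup.mem_top z, hz⟩]
  · rw [if_neg fun h => hz h.2, if_neg fun h => hz h.2]

end Pool.Agent.Work.GEM
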