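import Mathlib

/-!
# MP_75c89d_nt: GEM sequences of the second kind, interface (helper96)

See `BLUEPRINT.md` in this folder.
-/

set_option autoImplicit false

open Polynomial

namespace Pool.Agent.Work.GEM

/-! ## Definitions of the problem -/

/-- `f ∈ GEM(a, m)` -/
def IsGEM (a m : ℕ) (f : ℤ[X]) : Prop :=
  f.eval 1 ≠ 0 ∧ ∀ n : ℕ, 0 < n → IsCoprime (n : ℤ) (f.eval 0) →
    (∃ k : ℕ, 0 < k ∧ n ≡ a ^ k [MOD m]) →
    ∃ p : ℕ, p.Prime ∧ (p : ℤ) ∣ f.eval (n : ℤ) ∧ p ≡ a [MOD m] ∧ ¬ (p : ℤ) ∣ f.eval 0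

/-- `p` is `GEM_2(f; a, m)`: `p n` is the largest admissible prime at step `n` -/
def IsGEM2 (f : ℤ[X]) (a m : ℕ) (p : ℕ → ℕ) : Prop :=
  ∀ n : ℕ, IsGreatest {q : ℕ | q.Prime ∧ (q : ℤ) ∣ f.eval (∏ i ∈ Finset.range n, (p i : ℤ)) ∧
    q ≡ a [MOD m] ∧ ¬ (q : ℤ) ∣ f.eval 0} (p n)

/-! ## The ring `R[X]/(G)` -/

/-- matrix of the multiplication by `a` on `R[X]/(G)`, basis `1, X, ..., X^(d-1)` -/
noncomputable def Mmat {R : Type} [CommRing R] (d : ℕ) (G a : R[X]) : Matrix (Fin d) (Fin d) R :=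
  fun i j => ((a * X ^ (j : ℕ)) %ₘ G).coeff i

/-- the norm of `a` -/
noncomputable def Nrm {R : Type} [CommRing R] (d : ℕ) (G a : R[X]) : R := (Mmat d G a).det

/-- matrix of the form `(u, v) ↦ ℓ(a u v)`, where `ℓ` is the coefficient of `X^(d-1)` of the
remainder modulo `G` -/
noncomputable def Bmat {R : Type} [CommRing R] (d : ℕ) (G a : R[X]) : Matrix (Fin d) (Fin d) R :=
  fun i j => ((a * X ^ ((i : ℕ) + (j : ℕ))) %ₘ G).coeff (d - 1)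

/-- the quadratic form of an integer matrix mod `n` -/
def qf {n r : ℕ} (A : Matrix (Fin r) (Fin r) ℤ) (z : Fin r → ZMod n) : ZMod n :=
  ∑ i, ∑ j, (A i j : ZMod n) * z i * z j

/-- the bilinear form of an integer matrix mod `n` -/
def bf {n r : ℕ} (A : Matrix (Fin r) (Fin r) ℤ) (h z : Fin r → ZMod n) : ZMod n :=
  ∑ i, ∑ j, (A i j : ZMod n) * h i * z j

/-- the quadratic Gauss sum `∑_{z mod n} e(z^T A z / n)` -/
noncomputable def GS (n : ℕ) {r : ℕ} (A : Matrix (Fin r) (Fin r) ℤ) : ℂ :=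
  if h : n = 0 then 0 else
    haveI : NeZero n := ⟨h⟩
    ∑ z : Fin r → ZMod n, ZMod.stdAddChar (qf A z)

/-- the quadratic Gauss sum `∑_{z mod n} e(c z^2 / n)` -/
noncomputable def GS1 (n : ℕ) (c : ℤ) : ℂ :=
  if h : n = 0 then 0 else
    haveI : NeZero n := ⟨h⟩
    ∑ z : ZMod n, ZMod.stdAddChar ((c : ZMod n) * z * z)

/-- monic, even degree `d ≥ 2`, no real roots, irreducible over `ℚ` -/
def Adm (d : ℕ) (G : ℤ[X]) : Prop :=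
  G.Monic ∧ G.natDegree = d ∧ 2 ≤ d ∧ Even d ∧
    (∀ t : ℝ, (G.map (Int.castRingHom ℝ)).eval t ≠ 0) ∧
    Irreducible (G.map (Int.castRingHom ℚ))

/-- `ℚ[X]/(G)` contains a primitive `m`-th root of unity -/
def Cyc (m : ℕ) (G : ℤ[X]) : Prop :=
  ∃ h : ℚ[X], G.map (Int.castRingHom ℚ) ∣ (cyclotomic m ℚ).comp h

/-- the odd part -/
def oddp (n : ℤ) : ℕ := n.natAbs / 2 ^ n.natAbs.factorization 2

/-! ## Blocks: algebra -/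

/-- ALG -/
structure Stmt_ALG : Prop where
  M_mul : ∀ (R : Type) [CommRing R] (d : ℕ) (G a b : R[X]), G.Monic → G.natDegree = d →
    Mmat d G (a * b) = Mmat d G a * Mmat d G b
  M_one : ∀ (R : Type) [CommRing R] (d : ℕ) (G : R[X]), G.Monic → G.natDegree = d →
    Mmat d G 1 = 1
  M_add : ∀ (R : Type) [CommRing R] (d : ℕ) (G a b : R[X]), G.Monic →
    Mmat d G (a + b) = Mmat d G a + Mmat d G b
  M_C : ∀ (R : Type) [CommRing R] (d : ℕ) (G a : R[X]) (c : R), G.Monic →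
    Mmat d G (C c * a) = c • Mmat d G a
  M_congr : ∀ (R : Type) [CommRing R] (d : ℕ) (G a b : R[X]), G.Monic → G ∣ a - b →
    Mmat d G a = Mmat d G b
  M_map : ∀ (R S : Type) [CommRing R] [CommRing S] (f : R →+* S) (d : ℕ) (G a : R[X]), G.Monic →
    (Mmat d G a).map f = Mmat d (G.map f) (a.map f)
  B_add : ∀ (R : Type) [CommRing R] (d : ℕ) (G a b : R[X]), G.Monic →
    Bmat d G (a + b) = Bmat d G a + Bmat d G b
  B_C : ∀ (R : Type) [CommRing R] (d : ℕ) (G a : R[X]) (c : R), G.Monic →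
    Bmat d G (C c * a) = c • Bmat d G a
  B_congr : ∀ (R : Type) [CommRing R] (d : ℕ) (G a b : R[X]), G.Monic → G ∣ a - b →
    Bmat d G a = Bmat d G b
  B_map : ∀ (R S : Type) [CommRing R] [CommRing S] (f : R →+* S) (d : ℕ) (G a : R[X]), G.Monic →
    (Bmat d G a).map f = Bmat d (G.map f) (a.map f)
  B_symm : ∀ (R : Type) [CommRing R] (d : ℕ) (G a : R[X]), (Bmat d G a).IsSymm
  B_mul : ∀ (R : Type) [CommRing R] (d : ℕ) (G a b : R[X]), G.Monic → G.natDegree = d →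
    Bmat d G (a * b) = Bmat d G a * Mmat d G b
  B_tw : ∀ (R : Type) [CommRing R] (d : ℕ) (G a b : R[X]), G.Monic → G.natDegree = d →
    Bmat d G (a * b ^ 2) = (Mmat d G b).transpose * Bmat d G a * Mmat d G b
  B_det1 : ∀ (d : ℕ) (G : ℤ[X]), G.Monic → G.natDegree = d → 1 ≤ d →
    (Bmat d G 1).det = 1 ∨ (Bmat d G 1).det = -1
  B_det : ∀ (d : ℕ) (G a : ℤ[X]), G.Monic → G.natDegree = d →
    (Bmat d G a).det = (Bmat d G 1).det * Nrm d G a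
  N_mul : ∀ (R : Type) [CommRing R] (d : ℕ) (G a b : R[X]), G.Monic → G.natDegree = d →
    Nrm d G (a * b) = Nrm d G a * Nrm d G b
  N_one : ∀ (R : Type) [CommRing R] (d : ℕ) (G : R[X]), G.Monic → G.natDegree = d →
    Nrm d G 1 = 1
  N_C : ∀ (R : Type) [CommRing R] (d : ℕ) (G a : R[X]) (c : R), G.Monic →
    Nrm d G (C c * a) = c ^ d * Nrm d G a
  N_congr : ∀ (d : ℕ) (G a b w : ℤ[X]) (n : ℤ), G.Monic → a = b + C n * w →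
    Nrm d G a ≡ Nrm d G b [ZMOD n]

/-- NXC: the norm of `X - x` -/
def Stmt_NXC : Prop :=
  ∀ (d : ℕ) (G : ℤ[X]), G.Monic → G.natDegree = d → ∀ x : ℤ,
    Nrm d G (X - C x) = (-1) ^ d * G.eval x

/-- EVD: a common root mod `q` in `ℤ` gives a divisor of the norm -/
def Stmt_EVD : Prop :=
  ∀ (d : ℕ) (G : ℤ[X]), G.Monic → G.natDegree = d → ∀ (q : ℕ) (a : ℤ[X]) (x : ℤ), q.Prime →
    (q : ℤ) ∣ G.eval x → (q : ℤ) ∣ a.eval x → (q : ℤ) ∣ Nrm d G a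

/-- CMN: a prime divisor of the norm gives a common root in the algebraic closure -/
def Stmt_CMN : Prop :=
  ∀ (d : ℕ) (G : ℤ[X]), G.Monic → G.natDegree = d → ∀ (q : ℕ) [Fact q.Prime] (a : ℤ[X]),
    (q : ℤ) ∣ Nrm d G a →
    ∃ t : AlgebraicClosure (ZMod q), aeval t G = 0 ∧ aeval t a = 0

/-- QSQ: a common root outside `F_q` gives `q^2 ∣ norm` -/
def Stmt_QSQ : Prop :=
  ∀ (d : ℕ) (G : ℤ[X]), G.Monic → G.natDegree = d → ∀ (q : ℕ) [Fact q.Prime]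
    (t : AlgebraicClosure (ZMod q)) (a : ℤ[X]),
    (∀ c : ZMod q, algebraMap (ZMod q) (AlgebraicClosure (ZMod q)) c ≠ t) →
    aeval t G = 0 → aeval t a = 0 → (q : ℤ) ^ 2 ∣ Nrm d G a

/-- NBD: size of the norm -/
def Stmt_NBD : Prop :=
  ∀ (d : ℕ) (G : ℤ[X]), G.Monic → G.natDegree = d → ∃ K : ℕ, 1 ≤ K ∧
    ∀ (a : ℤ[X]) (H : ℕ), a.natDegree < d → (∀ i, |a.coeff i| ≤ (H : ℤ)) →
      |Nrm d G a| ≤ (((K * H) ^ d : ℕ) : ℤ)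

/-- NZ: the norm of a nonzero remainder is nonzero -/
def Stmt_NZ : Prop :=
  ∀ (d : ℕ) (G : ℤ[X]), G.Monic → G.natDegree = d → Irreducible (G.map (Int.castRingHom ℚ)) →
    ∀ a : ℤ[X], a ≠ 0 → a.natDegree < d → Nrm d G a ≠ 0

/-! ## Blocks: Gauss sums -/

open Classical in
/-- LOC: localisation of a quadratic Gauss sum -/
def Stmt_LOC : Prop :=
  ∀ (n : ℕ) [NeZero n] (r : ℕ) (A : Matrix (Fin r) (Fin r) ℤ), A.IsSymm →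
    ∀ H H' : AddSubgroup (Fin r → ZMod n), H' ≤ H → (∀ h ∈ H', qf A h = 0) →
      ∑ z : Fin r → ZMod n, (if z ∈ H then ZMod.stdAddChar (qf A z) else (0 : ℂ)) =
      ∑ z : Fin r → ZMod n, (if z ∈ H ∧ (∀ h ∈ H', 2 * bf A h z = 0)
        then ZMod.stdAddChar (qf A z) else (0 : ℂ))

/-- INV: invariance under sublattices -/
def Stmt_INV : Prop :=
  ∀ (r : ℕ) (A P : Matrix (Fin r) (Fin r) ℤ) (D : ℕ), 0 < D → A.IsSymm → A.det ≠ 0 → P.det ≠ 0 →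
    2 * A.det * P.det ∣ (D : ℤ) →
    GS (D ^ 2) (P.transpose * A * P) = (P.det.natAbs : ℂ) * GS (D ^ 2) A

/-- ONE: evaluation in dimension one -/
def Stmt_ONE : Prop :=
  ∀ (c : ℤ) (D : ℕ), 0 < D → c ≠ 0 → 2 * c ∣ (D : ℤ) →
    GS1 (D ^ 2) c = (D : ℂ) * ((Real.sqrt |(c : ℝ)| : ℝ) : ℂ) * (1 + Complex.I * (c.sign : ℂ))

/-- DIAG: integral diagonalisation -/
def Stmt_DIAG : Prop :=
  ∀ (r : ℕ) (A : Matrix (Fin r) (Fin r) ℤ), A.IsSymm → A.det ≠ 0 →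
    ∃ (P : Matrix (Fin r) (Fin r) ℤ) (c : Fin r → ℤ), P.det ≠ 0 ∧ (∀ i, c i ≠ 0) ∧
      P.transpose * A * P = Matrix.diagonal c

/-- SIGJ: an anti-isometry over `ℝ` -/
def Stmt_SIGJ : Prop :=
  ∀ (d : ℕ) (G a : ℤ[X]), Adm d G → ∃ J : Matrix (Fin d) (Fin d) ℝ,
    J.transpose * (Bmat d G a).map (Int.castRingHom ℝ) * J =
      - (Bmat d G a).map (Int.castRingHom ℝ) ∧ J.det ≠ 0

/-- SIGD: a real diagonal form which is isometric to its negative has signature zero -/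
def Stmt_SIGD : Prop :=
  ∀ (r : ℕ) (c : Fin r → ℝ) (J : Matrix (Fin r) (Fin r) ℝ), (∀ i, c i ≠ 0) → J.det ≠ 0 →
    J.transpose * Matrix.diagonal c * J = - Matrix.diagonal c →
    (Finset.univ.filter fun i => 0 < c i).card = (Finset.univ.filter fun i => c i < 0).card

/-- PF: the Gauss sum of `Bmat a` to a highly divisible square modulus -/
def Stmt_PF : Prop :=
  ∀ (d : ℕ) (G a : ℤ[X]), Adm d G → Nrm d G a ≠ 0 → ∃ D0 : ℕ, 0 < D0 ∧ ∀ D : ℕ, 0 < D → D0 ∣ D →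
    GS (D ^ 2) (Bmat d G a) =
      (D : ℂ) ^ d * ((Real.sqrt ((2 : ℝ) ^ d * |((Nrm d G a : ℤ) : ℝ)|) : ℝ) : ℂ)

/-- CRTP: factorisation over the primes of a square modulus -/
def Stmt_CRTP : Prop :=
  ∀ (r : ℕ) (A : Matrix (Fin r) (Fin r) ℤ) (D : ℕ), 0 < D →
    GS (D ^ 2) A = ∏ q ∈ D.primeFactors, GS ((q ^ D.factorization q) ^ 2) A

/-- UNI: unimodular forms at odd primes -/
def Stmt_UNI : Prop :=
  ∀ (q k : ℕ), q.Prime → q ≠ 2 → ∀ (r : ℕ) (A : Matrix (Fin r) (Fin r) ℤ), A.IsSymm →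
    ¬ (q : ℤ) ∣ A.det → GS ((q ^ k) ^ 2) A = ((q : ℂ) ^ k) ^ r

/-- TWI: invariance under squares of units -/
def Stmt_TWI : Prop :=
  ∀ (d : ℕ) (G : ℤ[X]), G.Monic → G.natDegree = d → ∀ (n : ℕ), 0 < n → ∀ a a' s u w : ℤ[X],
    a' = a * s ^ 2 + G * u + C (n : ℤ) * w → IsCoprime (n : ℤ) (Nrm d G s) →
    GS n (Bmat d G a') = GS n (Bmat d G a)

/-- SQO: principal units at odd primes are squares -/
def Stmt_SQO : Prop :=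
  ∀ (q j : ℕ), q.Prime → q ≠ 2 → ∀ l : ℤ[X], ∃ t w : ℤ[X],
    (1 + C (q : ℤ) * t) ^ 2 = 1 + C (q : ℤ) * l + C ((q : ℤ) ^ j) * w

/-- SQT: `1 + 8 l` is a square at `2` -/
def Stmt_SQT : Prop :=
  ∀ (j : ℕ) (l : ℤ[X]), ∃ t w : ℤ[X],
    (1 + C 2 * t) ^ 2 = 1 + C 8 * l + C ((2 : ℤ) ^ j) * w

/-- L2: local comparison at `2` -/
def Stmt_L2 : Prop :=
  ∀ (d : ℕ) (G : ℤ[X]), G.Monic → G.natDegree = d → ∀ (k : ℕ) (l b : ℤ[X]),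
    GS ((2 ^ k) ^ 2) (Bmat d G ((1 + C 8 * l) * b)) = GS ((2 ^ k) ^ 2) (Bmat d G b)

/-- LQ: local comparison at an odd prime dividing `x` -/
def Stmt_LQ : Prop :=
  ∀ (d : ℕ) (G : ℤ[X]), G.Monic → G.natDegree = d → ∀ (q k : ℕ) (a : ℤ[X]) (x : ℤ), q.Prime →
    q ≠ 2 → (q : ℤ) ∣ x → ¬ (q : ℤ) ∣ G.eval 0 →
    GS ((q ^ k) ^ 2) (Bmat d G (a * (X - C x))) = GS ((q ^ k) ^ 2) (Bmat d G (a * X))

/-- SPL: splitting off the line over `X = x` -/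
def Stmt_SPL : Prop :=
  ∀ (d : ℕ) (G : ℤ[X]), G.Monic → G.natDegree = d → 1 ≤ d → ∀ (q k : ℕ) (a : ℤ[X]) (x : ℤ),
    q.Prime → q ≠ 2 → (q : ℤ) ∣ G.eval x → ¬ (q : ℤ) ∣ Nrm d G a →
    ∃ c : ℤ, c ≡ a.eval x [ZMOD G.eval x] ∧
      GS ((q ^ k) ^ 2) (Bmat d G (a * (X - C x))) =
        ((q : ℂ) ^ k) ^ (d - 1) * GS1 ((q ^ k) ^ 2) (-(G.eval x) * c)

/-- G1T: twisting in dimension one -/
def Stmt_G1T : Prop :=
  ∀ (q k v : ℕ) (g c : ℤ), q.Prime → q ≠ 2 → ¬ (q : ℤ) ∣ g → ¬ (q : ℤ) ∣ c → v < 2 * k →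
    GS1 ((q ^ k) ^ 2) ((q : ℤ) ^ v * g * c) =
      ((jacobiSym c q : ℤ) : ℂ) ^ v * GS1 ((q ^ k) ^ 2) ((q : ℤ) ^ v * g)

/-- LS: local comparison at an odd prime not dividing the norm of `a` -/
def Stmt_LS : Prop :=
  ∀ (d : ℕ) (G : ℤ[X]), G.Monic → G.natDegree = d → 1 ≤ d → ∀ (q k : ℕ) (a : ℤ[X]) (x : ℤ),
    q.Prime → q ≠ 2 → ¬ (q : ℤ) ∣ Nrm d G a → G.eval x ≠ 0 →
    (G.eval x).natAbs.factorization q < 2 * k →
    GS ((q ^ k) ^ 2) (Bmat d G (a * (X - C x))) =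
      ((jacobiSym (a.eval x) q : ℤ) : ℂ) ^ (G.eval x).natAbs.factorization q *
        GS ((q ^ k) ^ 2) (Bmat d G (X - C x))

/-- GFR: unimodular forms to an odd power of a prime -/
def Stmt_GFR : Prop :=
  ∀ (q k r : ℕ), q.Prime → q ≠ 2 → 1 ≤ k → ∃ K : ℂ, ∀ A : Matrix (Fin r) (Fin r) ℤ, A.IsSymm →
    ¬ (q : ℤ) ∣ A.det →
    GS ((q ^ k) ^ 2) ((q : ℤ) • A) = ((jacobiSym A.det q : ℤ) : ℂ) * K

/-- LR: local comparison at an extra prime -/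
def Stmt_LR : Prop :=
  ∀ (d : ℕ) (G : ℤ[X]), G.Monic → G.natDegree = d → Even d → 1 ≤ d →
    ∀ (q k : ℕ) (a : ℤ[X]) (x : ℤ), q.Prime → q ≠ 2 → 1 ≤ k → ¬ (q : ℤ) ∣ Nrm d G a →
    ¬ (q : ℤ) ∣ G.eval x → ¬ (q : ℤ) ∣ G.eval 0 →
    GS ((q ^ k) ^ 2) (Bmat d G (C (q : ℤ) * a * (X - C x))) =
      ((jacobiSym (G.eval x * G.eval 0) q : ℤ) : ℂ) *
        GS ((q ^ k) ^ 2) (Bmat d G (C (q : ℤ) * a * X))

/-- GLB: the global comparison -/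
def Stmt_GLB : Prop :=
  ∀ (d : ℕ) (G : ℤ[X]), Adm d G → ∀ (a : ℤ[X]) (x : ℤ), Nrm d G a ≠ 0 → ∀ D1 : ℕ, 0 < D1 →
    ∃ D : ℕ, 0 < D ∧ D1 ∣ D ∧
      (∏ q ∈ D.primeFactors, (GS ((q ^ D.factorization q) ^ 2) (Bmat d G (a * (X - C x))) *
        GS ((q ^ D.factorization q) ^ 2) (Bmat d G X))) =
      (∏ q ∈ D.primeFactors, (GS ((q ^ D.factorization q) ^ 2) (Bmat d G (a * X)) *
        GS ((q ^ D.factorization q) ^ 2) (Bmat d G (X - C x)))) ∧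
      ∀ q ∈ D.primeFactors,
        GS ((q ^ D.factorization q) ^ 2) (Bmat d G (a * (X - C x))) ≠ 0 ∧
        GS ((q ^ D.factorization q) ^ 2) (Bmat d G X) ≠ 0 ∧
        GS ((q ^ D.factorization q) ^ 2) (Bmat d G (a * X)) ≠ 0 ∧
        GS ((q ^ D.factorization q) ^ 2) (Bmat d G (X - C x)) ≠ 0

/-- JPR: the Jacobi symbol as a product over primes -/
def Stmt_JPR : Prop :=
  ∀ (a : ℤ) (n : ℕ) (S : Finset ℕ), n ≠ 0 → (∀ q ∈ S, q.Prime) →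
    (∀ q : ℕ, q.Prime → q ∣ n → q ∈ S) →
    jacobiSym a (n / 2 ^ n.factorization 2) =
      ∏ q ∈ S.filter (fun q => q ≠ 2), (jacobiSym a q) ^ n.factorization q

/-- REC: quadratic reciprocity in `ℤ[X]/(G)`, in elementary form -/
def Stmt_REC : Prop :=
  ∀ (d : ℕ) (G : ℤ[X]), Adm d G → ∀ (l : ℤ[X]) (x : ℤ), Nrm d G (1 + C 8 * l) ≠ 0 →
    (∀ q : ℕ, q.Prime → (q : ℤ) ∣ Nrm d G (1 + C 8 * l) → (q : ℤ) ∣ x ∧ ¬ (q : ℤ) ∣ G.eval 0) →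
    jacobiSym ((1 + C 8 * l).eval x) (oddp (G.eval x)) =
      jacobiSym ((1 + C 8 * l).eval 0) (oddp (G.eval 0))

/-- REC5: the same with `5` in place of `1` -/
def Stmt_REC5 : Prop :=
  ∀ (d : ℕ) (G : ℤ[X]), Adm d G → ∀ (l : ℤ[X]) (x : ℤ), Nrm d G (5 + C 8 * l) ≠ 0 →
    (∀ q : ℕ, q.Prime → (q : ℤ) ∣ Nrm d G (5 + C 8 * l) → (q : ℤ) ∣ x ∧ ¬ (q : ℤ) ∣ G.eval 0) →
    jacobiSym ((5 + C 8 * l).eval x) (oddp (G.eval x)) =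
      (-1) ^ ((G.eval x).natAbs.factorization 2 + (G.eval 0).natAbs.factorization 2) *
      jacobiSym ((5 + C 8 * l).eval 0) (oddp (G.eval 0))

/-! ## Blocks: counting -/

/-- the polynomial with coefficients `l` -/
noncomputable def pol {d : ℕ} (l : Fin d → ℕ) : ℤ[X] := ∑ i, C (l i : ℤ) * X ^ (i : ℕ)

/-- the box of side `Y` -/
def Bx (d Y : ℕ) : Finset (Fin d → ℕ) := Fintype.piFinset fun _ => Finset.range Y

/-- BIL: bilinear sums of the quadratic character -/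
def Stmt_BIL : Prop :=
  ∀ (p : ℕ) [Fact p.Prime], p ≠ 2 → ∀ A B : Finset (ZMod p),
    (∑ a ∈ A, ∑ b ∈ B, quadraticChar (ZMod p) (a + b)) ^ 2 ≤ (p : ℤ) * A.card * B.card

/-- ROOT: primes dividing a value of `G` are `1 mod m` -/
def Stmt_ROOT : Prop :=
  ∀ (m : ℕ) (G : ℤ[X]), 0 < m → G.Monic → Cyc m G → ∃ δ : ℕ, 0 < δ ∧
    ∀ q : ℕ, q.Prime → ¬ q ∣ δ → ∀ x : ℤ, (q : ℤ) ∣ G.eval x → q ≡ 1 [MOD m]

open Classical in
/-- CNQ: count of polynomials in a box with a given kind of root -/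
def Stmt_CNQ : Prop :=
  ∀ (d : ℕ) (G : ℤ[X]), Adm d G → ∃ K : ℕ, 1 ≤ K ∧
    ∀ (q : ℕ) [Fact q.Prime] (W : ℕ) (u : ℤ) (Y : ℕ), ¬ q ∣ W →
      ((Bx d Y).filter (fun l => ∃ t : AlgebraicClosure (ZMod q),
        (∀ c : ZMod q, algebraMap (ZMod q) (AlgebraicClosure (ZMod q)) c ≠ t) ∧
        aeval t G = 0 ∧ aeval t (C u + C (W : ℤ) * pol l) = 0)).card * q ^ 2 ≤
      K * (Y ^ d + q ^ 2)

open Classical in
/-- BAD: few polynomials in a box have a norm with a prime factor not `1 mod m` -/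
def Stmt_BAD : Prop :=
  ∀ (m d : ℕ) (G : ℤ[X]), 0 < m → Adm d G → Cyc m G → ∀ K : ℕ, ∃ Q0 : ℕ,
    ∀ W : ℕ, 0 < W → (∀ q : ℕ, q.Prime → q ≤ Q0 → q ∣ W) → ∀ u : ℤ, IsCoprime u (W : ℤ) →
      ∃ Y0 : ℕ, ∀ Y ≥ Y0, K * ((Bx d Y).filter (fun l => ∃ q : ℕ, q.Prime ∧
        (q : ℤ) ∣ Nrm d G (C u + C (W : ℤ) * pol l) ∧ ¬ q ≡ 1 [MOD m])).card ≤ Y ^ d

/-- EXK: existence of one good polynomial -/
def Stmt_EXK : Prop :=
  ∀ (m d : ℕ) (G : ℤ[X]), 0 < m → Adm d G → Cyc m G → ∃ Q0 : ℕ,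
    ∀ W : ℕ, 0 < W → (∀ q : ℕ, q.Prime → q ≤ Q0 → q ∣ W) → ∀ u : ℤ, IsCoprime u (W : ℤ) →
      ∃ l : ℤ[X], Nrm d G (C u + C (W : ℤ) * l) ≠ 0 ∧
        ∀ q : ℕ, q.Prime → (q : ℤ) ∣ Nrm d G (C u + C (W : ℤ) * l) → q ≡ 1 [MOD m] ∧ ¬ q ∣ W

/-- the data at a record prime `p` -/
def RecD (m : ℕ) (G : ℤ[X]) (W p Z : ℕ) (x : ℤ) : Prop :=
  p.Prime ∧ p ≤ Z ∧ ¬ p ∣ W ∧
    (∀ q : ℕ, q.Prime → q ≡ 1 [MOD m] → q ≤ Z → q ≠ p → ¬ q ∣ W → (q : ℤ) ∣ x) ∧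
    (∀ q : ℕ, q.Prime → (q : ℤ) ∣ G.eval x → q = p ∨ q ∣ W)

/-- `W` is divisible by `8`, all small primes and all primes dividing `G(0)` -/
def GoodW (G : ℤ[X]) (Q0 W : ℕ) : Prop :=
  0 < W ∧ 8 ∣ W ∧ (∀ q : ℕ, q.Prime → q ≤ Q0 → q ∣ W) ∧
    (∀ q : ℕ, q.Prime → (q : ℤ) ∣ G.eval 0 → q ∣ W)

/-- ODD: at a large record prime the exponent is even -/
def Stmt_ODD : Prop :=
  ∀ (m d : ℕ) (G : ℤ[X]), 0 < m → Adm d G → Cyc m G → ∃ Q0 : ℕ, ∀ W : ℕ, GoodW G Q0 W →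
    ∃ P0 : ℕ, ∀ (p Z : ℕ) (x : ℤ), P0 ≤ p → RecD m G W p Z x →
      Even ((G.eval x).natAbs.factorization p)

/-- EVN: if the exponent is even then `G(x) G(0)` is a square -/
def Stmt_EVN : Prop :=
  ∀ (m d : ℕ) (G : ℤ[X]), 0 < m → Adm d G → Cyc m G → ∃ Q0 : ℕ, ∀ W : ℕ, GoodW G Q0 W →
    ∃ P0 : ℕ, ∀ (p Z : ℕ) (x : ℤ), P0 ≤ p → RecD m G W p Z x →
      Even ((G.eval x).natAbs.factorization p) → IsSquare (G.eval x * G.eval 0)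

/-- RUN: Runge's theorem for `y^2 = G(x)` -/
def Stmt_RUN : Prop :=
  ∀ (d : ℕ) (G : ℤ[X]), Adm d G → {x : ℤ | IsSquare (G.eval x)}.Finite

/-- RCD: records of an injective sequence -/
def Stmt_RCD : Prop :=
  ∀ p : ℕ → ℕ, Function.Injective p → ∀ B : ℕ, ∃ n Z : ℕ, B ≤ n ∧ B ≤ p n ∧ p n ≤ Z ∧
    ∀ i, p i ≤ Z → i ≤ n

/-- TRG: from `g` to the monic polynomial `b^(d-1) g(X/b)` -/
def Stmt_TRG : Prop :=
  ∀ (m : ℕ) (g : ℤ[X]), 3 ≤ m → Irreducible (g.map (Int.castRingHom ℚ)) →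
    (∃ h : ℚ[X], g.map (Int.castRingHom ℚ) ∣ (cyclotomic m ℚ).comp h) →
    g.leadingCoeff ≠ 0 ∧ g.coeff 0 ≠ 0 ∧ Adm g.natDegree g.integralNormalization ∧
      Cyc m g.integralNormalization ∧
      ∀ n : ℤ, g.integralNormalization.eval (g.leadingCoeff * n) =
        g.leadingCoeff ^ (g.natDegree - 1) * g.eval n

/-- FIN: the theorem -/
def Stmt_FIN : Prop :=
  ∀ (m : ℕ) (f g : ℤ[X]), 3 ≤ m → g ∣ f → Irreducible (g.map (Int.castRingHom ℚ)) →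
    (∃ h : ℚ[X], g.map (Int.castRingHom ℚ) ∣ (cyclotomic m ℚ).comp h) →
    (IsSquare (g.leadingCoeff * g.coeff 0) ∨
      {n : ℕ | n ≡ 1 [MOD m] ∧ IsCoprime (n : ℤ) (f.eval 0) ∧
        IsSquare (g.eval (n : ℤ) * g.coeff 0)}.Finite) →
    ∀ p : ℕ → ℕ, IsGEM2 f 1 m p → {q : ℕ | q.Prime ∧ q ≡ 1 [MOD m] ∧ ∀ n, p n ≠ q}.Infinite

end Pool.Agent.Work.GEM
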