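import Pool.Agent.Work.GEM.Interface

/-!
# MP_75c89d_nt, block REC (helper10): quadratic reciprocity in `ℤ[X]/(G)`
-/

set_option autoImplicit false

open Polynomial

namespace Pool.Agent.Work.GEM

namespace RECAux

theorem eval_ne {d : ℕ} {G : ℤ[X]} (hG : Adm d G) (x : ℤ) : G.eval x ≠ 0 := by
  intro h
  apply hG.2.2.2.2.1 (x : ℝ)
  have h1 := Polynomial.eval_intCast_map (Int.castRingHom ℝ) G x
  rw [h1]
  simp only [Int.cast_id]
  rw [h, map_zero]

theorem dvd_eval_sub (G : ℤ[X]) (x : ℤ) (q : ℤ) (hq : q ∣ x) : q ∣ G.eval x - G.eval 0 :=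
  dvd_trans (by simpa using hq) (Polynomial.sub_dvd_eval_sub x 0 G)

theorem cancel (S : Finset ℕ) (A B u v : ℕ → ℂ) (h : ∀ q ∈ S, A q * v q = u q * B q)
    (hp : ∏ q ∈ S, A q = ∏ q ∈ S, B q) (hB : ∀ q ∈ S, B q ≠ 0) :
    ∏ q ∈ S, v q = ∏ q ∈ S, u q := by
  have h1 := Finset.prod_congr rfl h
  rw [Finset.prod_mul_distrib, Finset.prod_mul_distrib, hp, mul_comm] at h1
  exact mul_right_cancel₀ (Finset.prod_ne_zero_iff.2 hB) h1

end RECAux

open RECAux

/-- block REC -/
theorem stmt_REC (hGLB : Stmt_GLB) (hL2 : Stmt_L2) (hLQ : Stmt_LQ) (hLS : Stmt_LS)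
    (hJPR : Stmt_JPR) : Stmt_REC := by
  classical
  intro d G hG l x hN hq
  set a : ℤ[X] := 1 + C 8 * l with ha
  have hmon := hG.1
  have hdeg := hG.2.1
  have hd2 := hG.2.2.1
  have hx := eval_ne hG x
  have h0 := eval_ne hG 0
  set D1 : ℕ := 2 * ((G.eval x).natAbs * (G.eval 0).natAbs) with hD1
  have hD1pos : 0 < D1 := by
    have h1 := Int.natAbs_pos.2 hx
    have h2 := Int.natAbs_pos.2 h0
    positivity
  obtain ⟨D, hDpos, hD1D, hprod, hne⟩ := hGLB d G hG a x hN D1 hD1pos
  set S : Finset ℕ := D.primeFactors with hS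
  have hprime : ∀ q ∈ S, q.Prime := fun q hq => Nat.prime_of_mem_primeFactors hq
  have hk1 : ∀ q ∈ S, 1 ≤ D.factorization q := fun q hq =>
    (Nat.prime_of_mem_primeFactors hq).factorization_pos_of_dvd hDpos.ne'
      (Nat.dvd_of_mem_primeFactors hq)
  have hdx : (G.eval x).natAbs ∣ D := dvd_trans ⟨2 * (G.eval 0).natAbs, by rw [hD1]; ring⟩ hD1D
  have hd0 : (G.eval 0).natAbs ∣ D := dvd_trans ⟨2 * (G.eval x).natAbs, by rw [hD1]; ring⟩ hD1D
  have hfac : ∀ (n q : ℕ), n ∣ D → q ∈ S → n.factorization q < 2 * D.factorization q := by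
    intro n q hn hqS
    have h1 : n.factorization q ≤ D.factorization q :=
      (Nat.factorization_le_iff_dvd (ne_zero_of_dvd_ne_zero hDpos.ne' hn) hDpos.ne').2 hn q
    have h2 := hk1 q hqS
    omega
  -- the local factors
  set jx : ℕ → ℂ := fun q => if q ≠ 2 then
    ((jacobiSym (a.eval x) q : ℤ) : ℂ) ^ (G.eval x).natAbs.factorization q else 1 with hjx
  set j0 : ℕ → ℂ := fun q => if q ≠ 2 then
    ((jacobiSym (a.eval 0) q : ℤ) : ℂ) ^ (G.eval 0).natAbs.factorization q else 1 with hj0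
  have hloc : ∀ q ∈ S,
      (GS ((q ^ D.factorization q) ^ 2) (Bmat d G (a * (X - C x))) *
        GS ((q ^ D.factorization q) ^ 2) (Bmat d G X)) * j0 q =
      jx q * (GS ((q ^ D.factorization q) ^ 2) (Bmat d G (a * X)) *
        GS ((q ^ D.factorization q) ^ 2) (Bmat d G (X - C x))) := by
    intro q hqS
    have hqp := hprime q hqS
    by_cases hq2 : q = 2
    · simp only [hjx, hj0, hq2, ne_eq, not_true_eq_false, if_false, mul_one, one_mul]
      rw [ha, hL2 d G hmon hdeg _ l (X - C x), hL2 d G hmon hdeg _ l X]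
      ring
    · by_cases hqN : (q : ℤ) ∣ Nrm d G a
      · obtain ⟨hqx, hqG⟩ := hq q hqp hqN
        have hqGx : ¬ (q : ℤ) ∣ G.eval x := by
          intro h
          apply hqG
          have h1 := dvd_eval_sub G x q hqx
          have h2 := dvd_sub h h1
          simpa using h2
        have e1 := hLQ d G hmon hdeg q (D.factorization q) a x hqp hq2 hqx hqG
        have e2 := hLQ d G hmon hdeg q (D.factorization q) 1 x hqp hq2 hqx hqG
        rw [one_mul, one_mul] at e2
        have f1 : (G.eval x).natAbs.factorization q = 0 :=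
          Nat.factorization_eq_zero_of_not_dvd fun h => hqGx (Int.natCast_dvd.2 h)
        have f2 : (G.eval 0).natAbs.factorization q = 0 :=
          Nat.factorization_eq_zero_of_not_dvd fun h => hqG (Int.natCast_dvd.2 h)
        simp only [hjx, hj0, ne_eq, hq2, not_false_eq_true, if_true, f1, f2, pow_zero, mul_one,
          one_mul]
        rw [e1, e2]
      · have e1 := hLS d G hmon hdeg (by omega) q (D.factorization q) a x hqp hq2 hqN hx
          (hfac _ q hdx hqS)
        have e2 := hLS d G hmon hdeg (by omega) q (D.factorization q) a 0 hqp hq2 hqN h0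
          (hfac _ q hd0 hqS)
        rw [C_0, sub_zero] at e2
        simp only [hjx, hj0, ne_eq, hq2, not_false_eq_true, if_true]
        rw [e1, e2]
        ring
  have hmain : ∏ q ∈ S, j0 q = ∏ q ∈ S, jx q :=
    cancel S (fun q => GS ((q ^ D.factorization q) ^ 2) (Bmat d G (a * (X - C x))) *
        GS ((q ^ D.factorization q) ^ 2) (Bmat d G X))
      (fun q => GS ((q ^ D.factorization q) ^ 2) (Bmat d G (a * X)) *
        GS ((q ^ D.factorization q) ^ 2) (Bmat d G (X - C x))) jx j0 hloc hprod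
      fun q hqS => mul_ne_zero (hne q hqS).2.2.1 (hne q hqS).2.2.2
  have hJ : ∀ y : ℤ, G.eval y ≠ 0 → (G.eval y).natAbs ∣ D → ∀ c : ℤ,
      ((jacobiSym c (oddp (G.eval y)) : ℤ) : ℂ) = ∏ q ∈ S, (if q ≠ 2 then
        ((jacobiSym c q : ℤ) : ℂ) ^ (G.eval y).natAbs.factorization q else 1) := by
    intro y hy hyD c
    have h1 := hJPR c (G.eval y).natAbs S (Int.natAbs_pos.2 hy).ne' hprime (fun q hqp hqd =>
      Nat.mem_primeFactors.2 ⟨hqp, dvd_trans hqd hyD, hDpos.ne'⟩)
    rw [oddp, h1, Finset.prod_filter]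
    push_cast
    refine Finset.prod_congr rfl fun q _ => ?_
    split_ifs <;> simp
  have h1 := hJ x hx hdx (a.eval x)
  have h2 := hJ 0 h0 hd0 (a.eval 0)
  have h3 : ((jacobiSym (a.eval x) (oddp (G.eval x)) : ℤ) : ℂ) =
      ((jacobiSym (a.eval 0) (oddp (G.eval 0)) : ℤ) : ℂ) := by
    rw [h1, h2]
    exact hmain.symm
  exact_mod_cast h3

end Pool.Agent.Work.GEM
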